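import Pool.Agent.W_a617e8_h51.C3

set_option autoImplicit false

/-! A0: basic facts on NN and GG. -/

noncomputable section

open scoped ENNReal

namespace Pool.Agent.W_a617e8_h51

/-- `v` is `s`-rough: positive, all prime factors `> s`. -/
def Rough (s v : ℕ) : Prop := 0 < v ∧ ∀ p : ℕ, p.Prime → p ∣ v → s < p

open Classical in
/-- The `s`-rough numbers in `[1, N]`. -/
def rset (s N : ℕ) : Finset ℕ := (Finset.Icc 1 N).filter (Rough s)

theorem NN_zero (s : ℕ) : NN s 0 = 0 := by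
  have h : NN s 0 ≤ 0 := Nat.sInf_le ⟨∅, fun u hu h0 => absurd (Nat.le_zero.1 h0) hu.1, rfl⟩
  exact Nat.le_zero.1 h

private theorem a0_attained (s n : ℕ) (hs : 1 ≤ s) :
    ∃ T : Finset ℕ, (∀ u, Smooth s u → u ≤ n → Hit s (T : Set ℕ) u) ∧ T.card = NN s n := by
  have hne : {k : ℕ | ∃ T : Finset ℕ, (∀ u, Smooth s u → u ≤ n → Hit s (T : Set ℕ) u) ∧
      T.card = k}.Nonempty :=
    ⟨_, Finset.range (n + 1), fun u _ hn => ⟨1, le_rfl, hs, by
      rw [one_mul, Finset.coe_range]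
      exact Nat.lt_succ_of_le hn⟩, rfl⟩
  exact Nat.sInf_mem hne

/-- `NN s` is monotone, and the infimum is attained. -/
theorem NN_mono (s : ℕ) (hs : 1 ≤ s) : Monotone (NN s) := by
  intro n n' h
  obtain ⟨T, hT, hc⟩ := a0_attained s n' hs
  rw [← hc]
  exact Nat.sInf_le ⟨T, fun u hu hn => hT u hu (hn.trans h), rfl⟩

theorem NN_attained (s n : ℕ) (hs : 1 ≤ s) :
    ∃ T : Finset ℕ, (∀ u, Smooth s u → u ≤ n → Hit s (T : Set ℕ) u) ∧ T.card = NN s n := by
  exact a0_attained s n hs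

/-- `NN s n ≥ 1` for `n ≥ 1` (the smooth number `1` must be hit). -/
theorem one_le_NN (s n : ℕ) (hs : 1 ≤ s) (hn : 1 ≤ n) : 1 ≤ NN s n := by
  obtain ⟨T, hT, hc⟩ := a0_attained s n hs
  rw [← hc]
  obtain ⟨j, _, _, h⟩ := hT 1 ⟨one_ne_zero, fun p hp hp1 => by
    have := hp.one_lt
    have h2 := Nat.le_of_dvd one_pos hp1
    omega⟩ hn
  exact Finset.card_pos.2 ⟨_, h⟩

/-- `1 ≤ GG s` (`one_le_NN` and `∑ 1/((n+1)(n+2)) = 1`). -/
theorem one_le_GG (s : ℕ) (hs : 1 ≤ s) : 1 ≤ GG s := by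
  have h1 : ∀ N : ℕ, ENNReal.ofReal ((N : ℝ) / (N + 1)) ≤ GG s := by
    intro N
    have h2 : ∀ N : ℕ, ∑ n ∈ Finset.range N, (1 : ℝ) / (((n : ℝ) + 1) * ((n : ℝ) + 2)) =
        (N : ℝ) / (N + 1) := by
      intro N
      induction N with
      | zero => simp
      | succ N ih =>
        rw [Finset.sum_range_succ, ih]
        have h3 : (N : ℝ) + 1 ≠ 0 := by positivity
        have h4 : (N : ℝ) + 2 ≠ 0 := by positivity
        have h5 : (N : ℝ) + 1 + 1 ≠ 0 := by positivity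
        push_cast
        field_simp
        ring
    rw [← h2, ENNReal.ofReal_sum_of_nonneg fun n _ => by positivity]
    refine (Finset.sum_le_sum fun n _ => ?_).trans
      (ENNReal.sum_le_tsum (f := fun n : ℕ =>
        (NN s (n + 1) : ℝ≥0∞) / (((n + 1) * (n + 2) : ℕ) : ℝ≥0∞)) (Finset.range N))
    have h3 : ENNReal.ofReal ((1 : ℝ) / (((n : ℝ) + 1) * ((n : ℝ) + 2))) =
        1 / (((n + 1) * (n + 2) : ℕ) : ℝ≥0∞) := by
      rw [ENNReal.ofReal_div_of_pos (by positivity), ENNReal.ofReal_one]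
      congr 1
      rw [← ENNReal.ofReal_natCast]
      push_cast
      rfl
    rw [h3]
    refine ENNReal.div_le_div_right ?_ _
    exact_mod_cast one_le_NN s (n + 1) hs (by omega)
  have h2 : Filter.Tendsto (fun N : ℕ => ENNReal.ofReal ((N : ℝ) / (N + 1))) Filter.atTop
      (nhds (ENNReal.ofReal 1)) :=
    ENNReal.tendsto_ofReal (tendsto_natCast_div_add_atTop (1 : ℝ))
  rw [ENNReal.ofReal_one] at h2
  exact le_of_tendsto' h2 h1

/-- `GG s < ∞`: use `GG_le_cst` with `T = {s u : u smooth}`, cost `∑_{u smooth} 1/u < ∞`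
(`EulerProduct.summable_and_hasSum_smoothNumbers_prod_primesBelow_geometric` or
`..factoredNumbers..`). -/
theorem GG_ne_top (s : ℕ) (hs : 1 ≤ s) : GG s ≠ ⊤ := by
  let I : Set ℕ := {u | Smooth s u}
  have h1 : GG s ≤ cst s ((fun u => s * u) '' I) := by
    refine GG_le_cst s hs _ ?_ ?_
    · rintro ⟨u, hu, h0⟩
      rcases Nat.mul_eq_zero.1 h0 with h | h
      · omega
      · exact hu.1 h
    · intro u hu
      exact ⟨s, hs, le_rfl, u, hu, rfl⟩
  have h2 := h1.trans (cst_image_le s I (fun u => s * u))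
  refine ne_top_of_le_ne_top ?_ h2
  have hset : I = Nat.smoothNumbers (s + 1) := by
    ext u
    rw [Nat.mem_smoothNumbers]
    constructor
    · intro hu
      refine ⟨hu.1, fun p hp => ?_⟩
      have := hu.2 p (Nat.prime_of_mem_primeFactorsList hp) (Nat.dvd_of_mem_primeFactorsList hp)
      omega
    · intro hu
      refine ⟨hu.1, fun p hp hpu => ?_⟩
      have := hu.2 p ((Nat.mem_primeFactorsList hu.1).2 ⟨hp, hpu⟩)
      omega
  have hval : ∀ i : I, (s : ℝ≥0∞) / (((s * (i : ℕ) : ℕ)) : ℝ≥0∞) =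
      ENNReal.ofReal (((i : ℕ) : ℝ)⁻¹) := by
    intro i
    have hi : (0 : ℝ) < ((i : ℕ) : ℝ) := by
      have := i.2.1
      exact_mod_cast Nat.pos_of_ne_zero this
    have hs0 : (0 : ℝ) < s := by exact_mod_cast hs
    rw [← ENNReal.ofReal_natCast, ← ENNReal.ofReal_natCast, ← ENNReal.ofReal_div_of_pos]
    · congr 1
      push_cast
      field_simp
    · push_cast
      positivity
  simp only [hval]
  refine Summable.tsum_ofReal_ne_top (f := fun i : I => (((i : ℕ) : ℝ)⁻¹)) ?_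
  let f : ℕ →* ℝ :=
    { toFun := fun n => (n : ℝ)⁻¹
      map_one' := by simp
      map_mul' := fun a b => by
        push_cast
        rw [mul_inv] }
  have h3 := (EulerProduct.summable_and_hasSum_smoothNumbers_prod_primesBelow_geometric (f := f)
    (fun {p} hp => by
      show ‖((p : ℝ))⁻¹‖ < 1
      have h4 : (1 : ℝ) < p := by exact_mod_cast hp.one_lt
      rw [norm_inv, Real.norm_natCast]
      exact inv_lt_one_of_one_lt₀ h4) (s + 1)).2.summable
  rw [← hset] at h3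
  exact h3

end Pool.Agent.W_a617e8_h51
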