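import Pool.Agent.W_a617e8_h51.A0

set_option autoImplicit false

/-! A0b: decomposition of the extremal problem along rough parts. -/

noncomputable section

open scoped ENNReal

namespace Pool.Agent.W_a617e8_h51

theorem A0b_coprime {s v u : ℕ} (hv : Rough s v) (hu : Smooth s u) : Nat.Coprime v u := by
  by_contra h
  obtain ⟨p, hp, hpv, hpu⟩ := Nat.Prime.not_coprime_iff_dvd.mp h
  have h1 := hv.2 p hp hpv
  have h2 := hu.2 p hp hpu
  omega

/-- Every positive integer is uniquely `v * u` with `v` rough and `u` smooth. -/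
theorem rough_smooth (s n : ℕ) (hn : n ≠ 0) :
    ∃ v u : ℕ, Rough s v ∧ Smooth s u ∧ n = v * u ∧
      ∀ v' u' : ℕ, Rough s v' → Smooth s u' → n = v' * u' → v' = v ∧ u' = u := by
  classical
  set u : ℕ := ∏ p ∈ n.primeFactors.filter (fun p => p ≤ s), p ^ n.factorization p with hu
  set v : ℕ := ∏ p ∈ n.primeFactors.filter (fun p => ¬ p ≤ s), p ^ n.factorization p with hv
  have huv : n = v * u := by
    have h1 := Nat.prod_factorization_pow_eq_self hn
    have h2 : n.factorization.prod (fun p k => p ^ k) =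
        ∏ p ∈ n.primeFactors, p ^ n.factorization p := rfl
    rw [h2, ← Finset.prod_filter_mul_prod_filter_not n.primeFactors (fun p => p ≤ s)] at h1
    rw [mul_comm]
    exact h1.symm
  have hR : Rough s v := by
    refine ⟨Nat.pos_of_ne_zero fun h => hn (by rw [huv, h, zero_mul]), fun p hp hpv => ?_⟩
    obtain ⟨q, hq, hpq⟩ := (Nat.Prime.prime hp).exists_mem_finset_dvd hpv
    rw [Finset.mem_filter] at hq
    have h1 : p ∣ q := hp.dvd_of_dvd_pow hpq
    have h2 : p = q := (Nat.prime_dvd_prime_iff_eq hp (Nat.prime_of_mem_primeFactors hq.1)).mp h1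
    rw [h2]
    omega
  have hS : Smooth s u := by
    refine ⟨fun h => hn (by rw [huv, h, mul_zero]), fun p hp hpv => ?_⟩
    obtain ⟨q, hq, hpq⟩ := (Nat.Prime.prime hp).exists_mem_finset_dvd hpv
    rw [Finset.mem_filter] at hq
    have h1 : p ∣ q := hp.dvd_of_dvd_pow hpq
    have h2 : p = q := (Nat.prime_dvd_prime_iff_eq hp (Nat.prime_of_mem_primeFactors hq.1)).mp h1
    rw [h2]
    exact hq.2
  refine ⟨v, u, hR, hS, huv, fun v' u' hv' hu' h => ?_⟩
  have e : v * u = v' * u' := huv.symm.trans h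
  have h1 : v ∣ v' := (A0b_coprime hR hu').dvd_of_dvd_mul_right (e ▸ Dvd.intro u rfl)
  have h2 : v' ∣ v := (A0b_coprime hv' hS).dvd_of_dvd_mul_right (e ▸ Dvd.intro u' rfl)
  have h3 : v' = v := Nat.dvd_antisymm h2 h1
  refine ⟨h3, ?_⟩
  rw [h3] at e
  exact (Nat.eq_of_mul_eq_mul_left hR.1 e).symm

theorem A0b_smooth_mul {s j u : ℕ} (hj : 1 ≤ j) (hjs : j ≤ s) (hu : Smooth s u) :
    Smooth s (j * u) := by
  refine ⟨Nat.mul_ne_zero (by omega) hu.1, fun p hp hpd => ?_⟩
  rcases (Nat.Prime.dvd_mul hp).mp hpd with h | h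
  · exact (Nat.le_of_dvd (by omega) h).trans hjs
  · exact hu.2 p hp h

/-- lower bound for the size of hitting sets. -/
theorem A0b_lower (s n : ℕ) (hs : 1 ≤ s) (T : Finset ℕ) (hT : T ⊆ Finset.Icc 1 n)
    (h : ∀ x : ℕ, 0 < x → s * x ≤ n → Hit s (T : Set ℕ) x) :
    ∑ v ∈ rset s n, NN s (n / (s * v)) ≤ T.card := by
  classical
  set P : ℕ → Finset ℕ := fun v => T.filter (fun t => ∃ u, Smooth s u ∧ t = v * u) with hP
  have hdisj : ((rset s n : Finset ℕ) : Set ℕ).PairwiseDisjoint P := by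
    intro v hv v' hv' hne
    rw [Function.onFun, Finset.disjoint_left]
    intro t ht ht'
    simp only [hP, Finset.mem_filter] at ht ht'
    obtain ⟨htT, u, hu, rfl⟩ := ht
    obtain ⟨-, u', hu', he⟩ := ht'
    have hv1 : Rough s v := (Finset.mem_filter.mp (Finset.mem_coe.mp hv)).2
    have hv1' : Rough s v' := (Finset.mem_filter.mp (Finset.mem_coe.mp hv')).2
    have h0 : v * u ≠ 0 := by
      have := Finset.mem_Icc.mp (hT htT)
      omega
    obtain ⟨a, b, -, -, -, huniq⟩ := rough_smooth s (v * u) h0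
    have k1 := huniq v u hv1 hu rfl
    have k2 := huniq v' u' hv1' hu' he
    exact hne (k1.1.trans k2.1.symm)
  have h1 : ∑ v ∈ rset s n, (P v).card ≤ T.card := by
    rw [← Finset.card_biUnion hdisj]
    refine Finset.card_le_card ?_
    intro t ht
    rw [Finset.mem_biUnion] at ht
    obtain ⟨v, -, hv⟩ := ht
    exact (Finset.mem_filter.mp hv).1
  refine le_trans (Finset.sum_le_sum fun v hv => ?_) h1
  have hv1 : Rough s v := (Finset.mem_filter.mp hv).2
  have h2 : ((P v).image (fun t => t / v)).card ≤ (P v).card := Finset.card_image_le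
  refine le_trans (Nat.sInf_le ⟨(P v).image (fun t => t / v), fun u hu hun => ?_, rfl⟩) h2
  have hsv : 0 < s * v := Nat.mul_pos hs hv1.1
  have h3 : s * (v * u) ≤ n := by
    have := (Nat.le_div_iff_mul_le hsv).mp hun
    calc s * (v * u) = u * (s * v) := by ring
      _ ≤ n := this
  have hpos : 0 < v * u := Nat.mul_pos hv1.1 (Nat.pos_of_ne_zero hu.1)
  obtain ⟨j, hj1, hj2, hj3⟩ := h (v * u) hpos h3
  refine ⟨j, hj1, hj2, ?_⟩
  rw [Finset.mem_coe, Finset.mem_image]
  refine ⟨j * (v * u), ?_, ?_⟩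
  · simp only [hP, Finset.mem_filter]
    exact ⟨Finset.mem_coe.mp hj3, j * u, A0b_smooth_mul hj1 hj2 hu, by ring⟩
  · have e : j * (v * u) = (j * u) * v := by ring
    rw [e]
    exact Nat.mul_div_cancel _ hv1.1

/-- a small hitting set. -/
theorem A0b_upper (s n : ℕ) (hs : 1 ≤ s) :
    ∃ T : Finset ℕ, T ⊆ Finset.Icc 1 n ∧ (∀ x : ℕ, 0 < x → s * x ≤ n → Hit s (T : Set ℕ) x) ∧
      T.card ≤ ∑ v ∈ rset s n, NN s (n / (s * v)) := by
  classical
  choose Tf hTf hTc using fun v : ℕ => NN_attained s (n / (s * v)) hs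
  set T' : ℕ → Finset ℕ := fun v => (Tf v).filter (fun t => Smooth s t ∧ t ≤ n / v) with hT'
  refine ⟨(rset s n).biUnion (fun v => (T' v).image (fun t => v * t)), ?_, ?_, ?_⟩
  · intro t ht
    rw [Finset.mem_biUnion] at ht
    obtain ⟨v, hv, ht⟩ := ht
    rw [Finset.mem_image] at ht
    obtain ⟨r, hr, rfl⟩ := ht
    simp only [hT', Finset.mem_filter] at hr
    have hv1 : Rough s v := (Finset.mem_filter.mp hv).2
    rw [Finset.mem_Icc]
    refine ⟨Nat.mul_pos hv1.1 (Nat.pos_of_ne_zero hr.2.1.1), ?_⟩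
    have := (Nat.le_div_iff_mul_le hv1.1).mp hr.2.2
    rw [mul_comm]; exact this
  · intro x hx hxn
    obtain ⟨v, u, hv, hu, rfl, -⟩ := rough_smooth s x hx.ne'
    have hsv : 0 < s * v := Nat.mul_pos hs hv.1
    have hun : u ≤ n / (s * v) := by
      rw [Nat.le_div_iff_mul_le hsv]
      calc u * (s * v) = s * (v * u) := by ring
        _ ≤ n := hxn
    obtain ⟨j, hj1, hj2, hj3⟩ := hTf v u hu hun
    refine ⟨j, hj1, hj2, ?_⟩
    rw [Finset.mem_coe, Finset.mem_biUnion]
    refine ⟨v, ?_, ?_⟩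
    · unfold rset
      rw [Finset.mem_filter, Finset.mem_Icc]
      refine ⟨⟨hv.1, ?_⟩, hv⟩
      calc v ≤ v * u := Nat.le_mul_of_pos_right v (Nat.pos_of_ne_zero hu.1)
        _ ≤ s * (v * u) := Nat.le_mul_of_pos_left _ hs
        _ ≤ n := hxn
    · rw [Finset.mem_image]
      refine ⟨j * u, ?_, by ring⟩
      simp only [hT', Finset.mem_filter]
      refine ⟨Finset.mem_coe.mp hj3, A0b_smooth_mul hj1 hj2 hu, ?_⟩
      rw [Nat.le_div_iff_mul_le hv.1]
      calc j * u * v = j * (v * u) := by ring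
        _ ≤ s * (v * u) := Nat.mul_le_mul_right _ hj2
        _ ≤ n := hxn
  · refine Finset.card_biUnion_le.trans (Finset.sum_le_sum fun v _ => ?_)
    rw [← hTc v]
    exact Finset.card_image_le.trans (Finset.card_le_card (Finset.filter_subset _ _))

/-- **Decomposition.**  A set `S ⊆ [1, n]` is pattern free iff its complement `T` in `[1, n]` hits
`{x, .., s x}` for every `x ≥ 1` with `s x ≤ n`; write `x = v u` (`v` rough, `u` smooth): the
multiples `j x`, `j ≤ s`, have the same rough part `v`, so `T` splits into the independent sets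
`T_v = {u : v u ∈ T}`, where `T_v` has to hit `{u, .., s u}` for the smooth `u ≤ n / (s v)`;
conversely minimal sets for `NN s (n / (s v))` may be taken inside
`{j u : j ≤ s, u ≤ n / (s v) smooth}`, hence of smooth numbers `≤ n / v`. -/
theorem pmax_add (s n : ℕ) (hs : 1 ≤ s) :
    pmax s n + ∑ v ∈ rset s n, NN s (n / (s * v)) = n := by
  classical
  have key : ∀ S : Finset ℕ, S ⊆ Finset.Icc 1 n → PatFree s S →
      S.card + ∑ v ∈ rset s n, NN s (n / (s * v)) ≤ n := by
    intro S hS hP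
    have h1 := A0b_lower s n hs (Finset.Icc 1 n \ S) Finset.sdiff_subset ?_
    · have h2 := Finset.card_sdiff_add_card_eq_card hS
      rw [Nat.card_Icc] at h2
      omega
    · intro x hx hxn
      have h2 := hP x hx
      push Not at h2
      obtain ⟨j, hj1, hj2, hj3⟩ := h2
      refine ⟨j, hj1, hj2, ?_⟩
      rw [Finset.mem_coe, Finset.mem_sdiff, Finset.mem_Icc]
      exact ⟨⟨Nat.mul_pos hj1 hx, (Nat.mul_le_mul_right _ hj2).trans hxn⟩, hj3⟩
  apply le_antisymm
  · have h0 := key ∅ (Finset.empty_subset _) (by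
      intro x _ h
      exact absurd (h 1 le_rfl hs) (Finset.notMem_empty _))
    rw [Finset.card_empty, zero_add] at h0
    have h1 : pmax s n ≤ n - ∑ v ∈ rset s n, NN s (n / (s * v)) := by
      unfold pmax
      refine Finset.sup_le fun S hS => ?_
      rw [Finset.mem_filter, Finset.mem_powerset] at hS
      have := key S hS.1 hS.2
      omega
    omega
  · obtain ⟨T, hT, hhit, hcard⟩ := A0b_upper s n hs
    have h1 : (Finset.Icc 1 n \ T).card ≤ pmax s n := by
      unfold pmax
      refine Finset.le_sup (f := Finset.card) ?_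
      rw [Finset.mem_filter, Finset.mem_powerset]
      refine ⟨Finset.sdiff_subset, fun x hx hall => ?_⟩
      have h2 := hall s hs le_rfl
      rw [Finset.mem_sdiff, Finset.mem_Icc] at h2
      obtain ⟨j, hj1, hj2, hj3⟩ := hhit x hx h2.1.2
      have h3 := hall j hj1 hj2
      rw [Finset.mem_sdiff] at h3
      exact h3.2 (Finset.mem_coe.mp hj3)
    have h2 := Finset.card_sdiff_add_card_eq_card hT
    rw [Nat.card_Icc] at h2
    omega

end Pool.Agent.W_a617e8_h51
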