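import Pool.Agent.W_a617e8_h51.A0

set_option autoImplicit false

/-! A1: density of rough numbers. -/

noncomputable section

open scoped ENNReal

open Filter Topology

namespace Pool.Agent.W_a617e8_h51

/-- The product of the primes up to `s`. -/
private def PP (s : ℕ) : ℕ := ∏ p ∈ (Finset.Icc 1 s).filter Nat.Prime, p

private theorem PP_pos (s : ℕ) : 0 < PP s := by
  unfold PP
  refine Finset.prod_pos fun p hp => ?_
  exact (Finset.mem_filter.1 hp).2.pos

private theorem rough_iff (s v : ℕ) : Rough s v ↔ 0 < v ∧ (PP s).Coprime v := by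
  unfold Rough PP
  refine and_congr_right fun hv => ?_
  rw [Nat.coprime_prod_left_iff]
  constructor
  · intro h p hp
    obtain ⟨hp1, hp2⟩ := Finset.mem_filter.1 hp
    rw [Nat.Prime.coprime_iff_not_dvd hp2]
    intro hd
    have := h p hp2 hd
    have := (Finset.mem_Icc.1 hp1).2
    omega
  · intro h p hp hd
    by_contra hlt
    have hmem : p ∈ (Finset.Icc 1 s).filter Nat.Prime :=
      Finset.mem_filter.2 ⟨Finset.mem_Icc.2 ⟨hp.one_lt.le, by omega⟩, hp⟩
    exact (Nat.Prime.coprime_iff_not_dvd hp).1 (h p hmem) hd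

private def cc (P N : ℕ) : ℕ := ((Finset.Ico 1 (N + 1)).filter (fun x => P.Coprime x)).card

private theorem rset_card (s N : ℕ) : (rset s N).card = cc (PP s) N := by
  unfold rset cc
  congr 1
  ext x
  simp only [Finset.mem_filter, Finset.mem_Icc, Finset.mem_Ico, rough_iff]
  constructor
  · rintro ⟨⟨h1, h2⟩, _, h3⟩
    exact ⟨⟨h1, by omega⟩, h3⟩
  · rintro ⟨⟨h1, h2⟩, h3⟩
    exact ⟨⟨h1, by omega⟩, by omega, h3⟩

private theorem cc_mul (P k : ℕ) : cc P (k * P) = k * P.totient := by
  induction k with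
  | zero => simp [cc]
  | succ k ih =>
    have h1 : Finset.Ico 1 ((k + 1) * P + 1) =
        Finset.Ico 1 (k * P + 1) ∪ Finset.Ico (k * P + 1) (k * P + 1 + P) := by
      rw [Finset.Ico_union_Ico_eq_Ico (by omega) (by omega)]
      congr 1
      ring
    have h2 : Disjoint (Finset.Ico 1 (k * P + 1)) (Finset.Ico (k * P + 1) (k * P + 1 + P)) :=
      Finset.Ico_disjoint_Ico_consecutive _ _ _
    unfold cc at ih ⊢
    rw [h1, Finset.filter_union, Finset.card_union_of_disjoint
      (Finset.disjoint_filter_filter h2), ih, Nat.filter_coprime_Ico_eq_totient]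
    ring

private theorem cc_mono (P : ℕ) : Monotone (cc P) := by
  intro a b hab
  unfold cc
  exact Finset.card_le_card (Finset.filter_subset_filter _
    (Finset.Ico_subset_Ico_right (by omega)))

private theorem dl_eq (s : ℕ) : dl s = ((PP s).totient : ℝ) / (PP s : ℝ) := by
  have h := Nat.totient_eq_mul_prod_factors (PP s)
  have h2 : (PP s).primeFactors = (Finset.Icc 1 s).filter Nat.Prime := by
    unfold PP
    exact Nat.primeFactors_prod (fun p hp => (Finset.mem_filter.1 hp).2)
  rw [h2] at h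
  have hpos : (0 : ℝ) < (PP s : ℝ) := by exact_mod_cast PP_pos s
  have h3 : (((PP s).totient : ℚ) : ℝ) = (((PP s : ℚ) *
    ∏ p ∈ (Finset.Icc 1 s).filter Nat.Prime, (1 - (p : ℚ)⁻¹) : ℚ) : ℝ) := by rw [h]
  push_cast at h3
  rw [h3, mul_div_assoc, mul_comm, div_mul_cancel₀ _ hpos.ne']
  unfold dl
  refine Finset.prod_congr rfl fun p _ => ?_
  rw [one_div]

/-- Density of the rough numbers.  Proof: with `P = ∏_{p ≤ s} p` the rough numbers are those coprime
to `P`, periodic mod `P`, `φ(P)/P = ∏ (1 - 1/p)` (`Nat.totient_eq_mul_prod_factors`,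
`Nat.filter_coprime_Ico_eq_totient`). -/
theorem rough_density (s : ℕ) :
    Tendsto (fun N : ℕ => ((rset s N).card : ℝ) / N) atTop (𝓝 (dl s)) := by
  have hP := PP_pos s
  have hPr : (0 : ℝ) < (PP s : ℝ) := by exact_mod_cast hP
  set P := PP s with hPdef
  set f : ℝ := (P.totient : ℝ) with hf
  have hf0 : 0 ≤ f := by positivity
  have hlow : ∀ᶠ N : ℕ in atTop, f / P - f * (N : ℝ)⁻¹ ≤ ((rset s N).card : ℝ) / N := by
    filter_upwards [eventually_gt_atTop 0] with N hN
    have hNr : (0 : ℝ) < N := by exact_mod_cast hN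
    rw [le_div_iff₀ hNr, sub_mul, mul_assoc, inv_mul_cancel₀ hNr.ne', mul_one]
    have h1 : (N / P) * P.totient ≤ (rset s N).card := by
      rw [rset_card, ← hPdef, ← cc_mul]
      exact cc_mono P (Nat.div_mul_le_self N P)
    have h2 : (N : ℝ) ≤ ((N / P : ℕ) + 1 : ℝ) * P := by
      have := Nat.lt_div_mul_add (a := N) hP
      have h3 : N ≤ (N / P + 1) * P := by nlinarith
      exact_mod_cast h3
    have h4 : (((N / P) * P.totient : ℕ) : ℝ) ≤ ((rset s N).card : ℝ) := by exact_mod_cast h1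
    push_cast at h4
    have h5 : f / P * N ≤ f * ((N / P : ℕ) + 1 : ℝ) := by
      rw [div_mul_eq_mul_div, div_le_iff₀ hPr, mul_assoc]
      exact mul_le_mul_of_nonneg_left h2 hf0
    nlinarith
  have hup : ∀ N : ℕ, ((rset s N).card : ℝ) / N ≤ f / P + f * (N : ℝ)⁻¹ := by
    intro N
    rcases Nat.eq_zero_or_pos N with rfl | hN
    · simp
      positivity
    have hNr : (0 : ℝ) < N := by exact_mod_cast hN
    rw [div_le_iff₀ hNr, add_mul, mul_assoc, inv_mul_cancel₀ hNr.ne', mul_one]
    have h1 : (rset s N).card ≤ (N / P + 1) * P.totient := by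
      rw [rset_card, ← hPdef, ← cc_mul]
      refine cc_mono P ?_
      have := Nat.lt_div_mul_add (a := N) hP
      nlinarith
    have h2 : ((N / P : ℕ) : ℝ) * P ≤ N := by
      exact_mod_cast Nat.div_mul_le_self N P
    have h4 : ((rset s N).card : ℝ) ≤ (((N / P + 1) * P.totient : ℕ) : ℝ) := by exact_mod_cast h1
    push_cast at h4
    have h5 : f * ((N / P : ℕ) : ℝ) ≤ f / P * N := by
      rw [div_mul_eq_mul_div, le_div_iff₀ hPr, mul_assoc]
      exact mul_le_mul_of_nonneg_left h2 hf0
    nlinarith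
  have hinv : Tendsto (fun N : ℕ => f * (N : ℝ)⁻¹) atTop (𝓝 0) := by
    have := (tendsto_inv_atTop_nhds_zero_nat (𝕜 := ℝ)).const_mul f
    simpa using this
  rw [dl_eq, ← hPdef, ← hf]
  refine tendsto_of_tendsto_of_tendsto_of_le_of_le' ?_ ?_ hlow (Eventually.of_forall hup)
  · simpa using tendsto_const_nhds.sub hinv
  · simpa using tendsto_const_nhds.add hinv

end Pool.Agent.W_a617e8_h51
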