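import Pool.Agent.W_a617e8_h51.A1
import Pool.Agent.W_a617e8_h51.A0b

set_option autoImplicit false

/-! A1b: the density formula. -/

noncomputable section

open scoped ENNReal

open Filter Topology

namespace Pool.Agent.W_a617e8_h51

private theorem A1b_tel (s : ℕ) (hs : 1 ≤ s) (k : ℕ) :
    ∑ m ∈ Finset.Icc 1 k, (NN s m - NN s (m - 1)) = NN s k := by
  induction k with
  | zero => simp [NN_zero]
  | succ k ih =>
    rw [Finset.sum_Icc_succ_top (by omega), ih]
    have := NN_mono s hs (show k ≤ k + 1 by omega)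
    simp only [Nat.add_sub_cancel]
    omega

private theorem A1b_rset_zero (s : ℕ) : (rset s 0).card = 0 := by
  unfold rset
  simp

private theorem A1b_rset_le (s N : ℕ) : (rset s N).card ≤ N := by
  classical
  unfold rset
  refine (Finset.card_filter_le _ _).trans ?_
  rw [Nat.card_Icc]
  omega

private theorem A1b_card (s n m : ℕ) (hs : 1 ≤ s) (hm : 1 ≤ m) :
    ((rset s n).filter (fun v => m ≤ n / (s * v))).card = (rset s (n / (s * m))).card := by
  congr 1
  unfold rset
  rw [Finset.filter_filter]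
  ext v
  simp only [Finset.mem_filter, Finset.mem_Icc]
  constructor
  · rintro ⟨⟨h1, h2⟩, h3, h4⟩
    refine ⟨⟨h1, ?_⟩, h3⟩
    rw [Nat.le_div_iff_mul_le (Nat.mul_pos hs hm)]
    rw [Nat.le_div_iff_mul_le (Nat.mul_pos hs h1)] at h4
    calc v * (s * m) = m * (s * v) := by ring
      _ ≤ n := h4
  · rintro ⟨⟨h1, h2⟩, h3⟩
    rw [Nat.le_div_iff_mul_le (Nat.mul_pos hs hm)] at h2
    refine ⟨⟨h1, ?_⟩, h3, ?_⟩
    · calc v ≤ v * (s * m) := Nat.le_mul_of_pos_right v (Nat.mul_pos hs hm)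
        _ ≤ n := h2
    · rw [Nat.le_div_iff_mul_le (Nat.mul_pos hs h1)]
      calc m * (s * v) = v * (s * m) := by ring
        _ ≤ n := h2

/-- Abel summation: `∑_{v} NN s (n/(s v)) = ∑_{m ≥ 1} (NN s m - NN s (m-1)) R(n/(s m))`, `R` the
counting function of the rough numbers (finite sum, `v ≤ n / (s m) ↔ m ≤ n / (s v)`). -/
theorem abel (s n : ℕ) (hs : 1 ≤ s) :
    ∑ v ∈ rset s n, NN s (n / (s * v)) =
      ∑ m ∈ Finset.Icc 1 n, (NN s m - NN s (m - 1)) * (rset s (n / (s * m))).card := by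
  have h1 : ∀ v ∈ rset s n, NN s (n / (s * v)) =
      ∑ m ∈ Finset.Icc 1 n, if m ≤ n / (s * v) then NN s m - NN s (m - 1) else 0 := by
    intro v _
    rw [← A1b_tel s hs (n / (s * v)), ← Finset.sum_filter]
    refine Finset.sum_congr ?_ fun _ _ => rfl
    ext m
    simp only [Finset.mem_filter, Finset.mem_Icc]
    have h2 : n / (s * v) ≤ n := Nat.div_le_self _ _
    constructor
    · rintro ⟨h3, h4⟩
      exact ⟨⟨h3, h4.trans h2⟩, h4⟩
    · rintro ⟨⟨h3, _⟩, h4⟩
      exact ⟨h3, h4⟩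
  rw [Finset.sum_congr rfl h1, Finset.sum_comm]
  refine Finset.sum_congr rfl fun m hm => ?_
  rw [Finset.mem_Icc] at hm
  rw [← Finset.sum_filter, Finset.sum_const, A1b_card s n m hs hm.1, smul_eq_mul, mul_comm]

private theorem A1b_part (s : ℕ) (hs : 1 ≤ s) (N : ℕ) :
    ∑ m ∈ Finset.range N, ((NN s (m + 1) - NN s m : ℕ) : ℝ) / (m + 1) =
      ∑ n ∈ Finset.range N, (NN s (n + 1) : ℝ) / ((n + 1) * (n + 2)) + NN s N / (N + 1) := by
  induction N with
  | zero => simp [NN_zero]
  | succ N ih =>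
    rw [Finset.sum_range_succ, Finset.sum_range_succ, ih,
      Nat.cast_sub (NN_mono s hs (Nat.le_succ N))]
    have h1 : ((N : ℝ) + 1) ≠ 0 := by positivity
    have h2 : ((N : ℝ) + 2) ≠ 0 := by positivity
    have h3 : (((N + 1 : ℕ) : ℝ) + 1) = N + 2 := by push_cast; ring
    rw [h3]
    field_simp
    ring

private theorem A1b_hasSum (s : ℕ) (hs : 1 ≤ s) :
    HasSum (fun n : ℕ => (NN s (n + 1) : ℝ) / ((n + 1) * (n + 2))) (GG s).toReal := by
  have h1 := GG_ne_top s hs
  unfold GG at h1 ⊢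
  have h2 := ENNReal.hasSum_toReal h1
  rw [← ENNReal.tsum_toReal_eq] at h2
  · convert h2 using 1
    funext n
    rw [ENNReal.toReal_div, ENNReal.toReal_natCast, ENNReal.toReal_natCast]
    push_cast
    ring
  · intro n
    exact ENNReal.ne_top_of_tsum_ne_top h1 n

private theorem A1b_zero (s : ℕ) (hs : 1 ≤ s) :
    Tendsto (fun N : ℕ => (NN s N : ℝ) / (N + 1)) atTop (𝓝 0) := by
  set a : ℕ → ℝ := fun n => (NN s (n + 1) : ℝ) / ((n + 1) * (n + 2)) with ha
  have h1 : Tendsto (fun N : ℕ => ∑ n ∈ Finset.range N, a n) atTop (𝓝 (GG s).toReal) :=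
    (A1b_hasSum s hs).tendsto_sum_nat
  have h2 : Tendsto (fun N : ℕ => ∑ n ∈ Finset.range (2 * N + 1), a n) atTop
      (𝓝 (GG s).toReal) := by
    refine h1.comp ?_
    refine tendsto_atTop_mono (fun n => ?_) tendsto_id
    simp only [id]
    omega
  have h3 : Tendsto (fun N : ℕ => 4 * (∑ n ∈ Finset.range (2 * N + 1), a n -
      ∑ n ∈ Finset.range N, a n)) atTop (𝓝 (4 * ((GG s).toReal - (GG s).toReal))) :=
    (h2.sub h1).const_mul 4
  rw [sub_self, mul_zero] at h3
  refine squeeze_zero (fun N => by positivity) (fun N => ?_) h3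
  rw [← Finset.sum_Ico_eq_sub _ (by omega)]
  have h4 : ((Finset.Ico N (2 * N + 1)).card : ℝ) *
      ((NN s N : ℝ) / ((2 * N + 1) * (2 * N + 2))) ≤ ∑ n ∈ Finset.Ico N (2 * N + 1), a n := by
    rw [← nsmul_eq_mul]
    apply Finset.card_nsmul_le_sum
    intro n hn
    rw [Finset.mem_Ico] at hn
    have h5 : (n : ℝ) ≤ 2 * N := by exact_mod_cast Nat.lt_succ_iff.1 hn.2
    have h6 : (NN s N : ℝ) ≤ NN s (n + 1) := by exact_mod_cast NN_mono s hs (by omega)
    show (NN s N : ℝ) / ((2 * N + 1) * (2 * N + 2)) ≤ (NN s (n + 1) : ℝ) / ((n + 1) * (n + 2))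
    have h7 : (0 : ℝ) ≤ n := by positivity
    apply div_le_div₀ (by positivity) h6 (by positivity)
    gcongr
  have h5 : ((Finset.Ico N (2 * N + 1)).card : ℝ) = N + 1 := by
    rw [Nat.card_Ico]
    have : 2 * N + 1 - N = N + 1 := by omega
    rw [this]
    push_cast
    ring
  rw [h5] at h4
  have h6 : (NN s N : ℝ) / (N + 1) ≤
      4 * ((N + 1) * ((NN s N : ℝ) / ((2 * N + 1) * (2 * N + 2)))) := by
    have e : 4 * (((N : ℝ) + 1) * ((NN s N : ℝ) / ((2 * N + 1) * (2 * N + 2)))) =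
        (NN s N : ℝ) / ((2 * N + 1) / 2) := by
      have h1 : ((N : ℝ) + 1) ≠ 0 := by positivity
      field_simp
      ring
    rw [e]
    have : (0 : ℝ) ≤ N := by positivity
    gcongr
    linarith
  linarith

/-- `∑ (NN s m - NN s (m-1)) / m = GG s` (summable, from `GG_ne_top`; summation by parts with
`NN s m / m → 0`, which follows from `∑ NN s m / (m (m+1)) < ∞` and monotonicity; or Tonelli:
`1/m = ∑_{n ≥ m} 1/(n (n+1))`). -/
theorem sum_delta (s : ℕ) (hs : 1 ≤ s) :
    HasSum (fun m : ℕ => ((NN s (m + 1) - NN s m : ℕ) : ℝ) / (m + 1)) (GG s).toReal := by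
  rw [hasSum_iff_tendsto_nat_of_nonneg (fun m => by positivity)]
  have h1 := (A1b_hasSum s hs).tendsto_sum_nat.add (A1b_zero s hs)
  rw [add_zero] at h1
  refine h1.congr fun N => ?_
  rw [A1b_part s hs N]

private theorem A1b_lim (s : ℕ) (hs : 1 ≤ s) (m : ℕ) :
    Tendsto (fun n : ℕ => ((rset s (n / (s * (m + 1)))).card : ℝ) / n) atTop
      (𝓝 (dl s / (s * (m + 1)))) := by
  have hk : 0 < s * (m + 1) := Nat.mul_pos hs (Nat.succ_pos m)
  set k := s * (m + 1) with hkdef
  have hkr : (0 : ℝ) < k := by exact_mod_cast hk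
  have h1 : Tendsto (fun n : ℕ => n / k) atTop atTop := Nat.tendsto_div_const_atTop hk.ne'
  have h2 := (rough_density s).comp h1
  have h3 : Tendsto (fun n : ℕ => ((n / k : ℕ) : ℝ) / n) atTop (𝓝 ((k : ℝ)⁻¹)) := by
    have h4 := (tendsto_nat_floor_mul_div_atTop (R := ℝ) (a := (k : ℝ)⁻¹) (by positivity)).comp
      tendsto_natCast_atTop_atTop
    refine h4.congr fun n => ?_
    simp only [Function.comp]
    rw [inv_mul_eq_div, Nat.floor_div_eq_div]
  have h5 := h2.mul h3
  have e : dl s / (s * ((m : ℝ) + 1)) = dl s * (k : ℝ)⁻¹ := by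
    rw [hkdef]
    push_cast
    rw [div_eq_mul_inv]
  rw [e]
  refine h5.congr' ?_
  filter_upwards [eventually_ge_atTop k] with n hn
  have h6 : 0 < n / k := Nat.div_pos hn hk
  have h7 : ((n / k : ℕ) : ℝ) ≠ 0 := by
    have : (0 : ℝ) < ((n / k : ℕ) : ℝ) := by exact_mod_cast h6
    exact this.ne'
  simp only [Function.comp]
  field_simp

/-- **Density formula.**  From `pmax_add`, `abel`, dominated convergence for series
(`tendsto_tsum_of_dominated_convergence`): `R(n/(s m))/n → dl s/(s m)`, `R(y) ≤ y`. -/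
theorem density (s : ℕ) (hs : 1 ≤ s) :
    Tendsto (fun n : ℕ => (pmax s n : ℝ) / n) atTop
      (𝓝 (1 - dl s / s * (GG s).toReal)) := by
  set d : ℕ → ℝ := fun m => ((NN s (m + 1) - NN s m : ℕ) : ℝ) with hd
  have hsr : (0 : ℝ) < s := by exact_mod_cast hs
  have hsum := sum_delta s hs
  have h1 : Tendsto (fun n : ℕ => ∑' m : ℕ, d m * (((rset s (n / (s * (m + 1)))).card : ℝ) / n))
      atTop (𝓝 (∑' m : ℕ, d m * (dl s / (s * (m + 1))))) := by
    refine tendsto_tsum_of_dominated_convergence hsum.summable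
      (fun m => (A1b_lim s hs m).const_mul (d m)) (Eventually.of_forall fun n m => ?_)
    have hd0 : 0 ≤ d m := by positivity
    rw [Real.norm_eq_abs, abs_of_nonneg (by positivity), div_eq_mul_inv (G := ℝ) _ ((m : ℝ) + 1)]
    refine mul_le_mul_of_nonneg_left ?_ hd0
    rcases Nat.eq_zero_or_pos n with rfl | hn
    · simp
      positivity
    have hnr : (0 : ℝ) < n := by exact_mod_cast hn
    have h2 : ((rset s (n / (s * (m + 1)))).card : ℝ) ≤ n / (m + 1) := by
      have h3 : (rset s (n / (s * (m + 1)))).card ≤ n / (m + 1) := by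
        refine (A1b_rset_le s _).trans ?_
        apply Nat.div_le_div_left
        · exact Nat.le_mul_of_pos_left _ hs
        · omega
      calc ((rset s (n / (s * (m + 1)))).card : ℝ) ≤ ((n / (m + 1) : ℕ) : ℝ) := by
            exact_mod_cast h3
        _ ≤ (n : ℝ) / ((m + 1 : ℕ) : ℝ) := Nat.cast_div_le
        _ = n / (m + 1) := by push_cast; rfl
    rw [div_le_iff₀ hnr]
    refine h2.trans (le_of_eq ?_)
    rw [div_eq_mul_inv, mul_comm]
  have h2 : ∑' m : ℕ, d m * (dl s / (s * (m + 1))) = dl s / s * (GG s).toReal := by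
    rw [← hsum.tsum_eq, ← tsum_mul_left]
    refine tsum_congr fun m => ?_
    have : ((m : ℝ) + 1) ≠ 0 := by positivity
    simp only [hd]
    field_simp
  rw [h2] at h1
  refine (h1.const_sub 1).congr' ?_
  filter_upwards [eventually_gt_atTop 0] with n hn
  have hnr : (0 : ℝ) < n := by exact_mod_cast hn
  have h3 := pmax_add s n hs
  rw [abel s n hs] at h3
  have h4 : (pmax s n : ℝ) + ∑ m ∈ Finset.range n, d m * (rset s (n / (s * (m + 1)))).card =
      n := by
    have h5 : ∑ m ∈ Finset.Icc 1 n, (NN s m - NN s (m - 1)) * (rset s (n / (s * m))).card =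
        ∑ m ∈ Finset.range n,
          (NN s (m + 1) - NN s m) * (rset s (n / (s * (m + 1)))).card := by
      have e : Finset.Icc 1 n = Finset.Ico (0 + 1) (n + 1) := by
        ext x
        simp only [Finset.mem_Icc, Finset.mem_Ico]
        omega
      rw [e, ← Finset.sum_Ico_add' (fun m => (NN s m - NN s (m - 1)) *
        (rset s (n / (s * m))).card) 0 n 1, Finset.range_eq_Ico]
      rfl
    rw [h5] at h3
    have h6 : ((pmax s n + ∑ m ∈ Finset.range n,
          (NN s (m + 1) - NN s m) * (rset s (n / (s * (m + 1)))).card : ℕ) : ℝ) = n := by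
      rw [h3]
    rw [Nat.cast_add, Nat.cast_sum] at h6
    simp only [Nat.cast_mul] at h6
    exact h6
  have h7 : ∑' m : ℕ, d m * (((rset s (n / (s * (m + 1)))).card : ℝ) / n) =
      ∑ m ∈ Finset.range n, d m * (((rset s (n / (s * (m + 1)))).card : ℝ) / n) := by
    refine tsum_eq_sum fun m hm => ?_
    rw [Finset.mem_range, not_lt] at hm
    have h8 : n / (s * (m + 1)) = 0 := by
      rw [Nat.div_eq_zero_iff]
      right
      have : m + 1 ≤ s * (m + 1) := Nat.le_mul_of_pos_left _ hs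
      omega
    rw [h8, A1b_rset_zero]
    simp
  rw [h7]
  have h9 : ∑ m ∈ Finset.range n, d m * (((rset s (n / (s * (m + 1)))).card : ℝ) / n) =
      (∑ m ∈ Finset.range n, d m * (rset s (n / (s * (m + 1)))).card) / n := by
    rw [Finset.sum_div]
    refine Finset.sum_congr rfl fun m _ => ?_
    rw [mul_div_assoc]
  rw [h9, eq_div_iff hnr.ne', sub_mul, div_mul_cancel₀ _ hnr.ne']
  linarith

end Pool.Agent.W_a617e8_h51
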