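import Pool.Agent.W_a617e8_h51.Defs
import Pool.Agent.W_d33b62_h36.MM3

set_option autoImplicit false

/-! B0: Mertens product. -/

noncomputable section

open Filter Topology

namespace Pool.Agent.W_a617e8_h51

/-- Sum over the primes below `N`. -/
def B0_S (f : ℕ → ℝ) (N : ℕ) : ℝ := ∑ p ∈ (Finset.range N).filter Nat.Prime, f p

theorem B0_log_bound (x : ℝ) (hx0 : 0 ≤ x) (hx : x ≤ 1 / 2) :
    |Real.log (1 - x) + x| ≤ 2 * x ^ 2 := by
  have h1 : 0 < 1 - x := by linarith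
  have h2 : Real.log (1 - x) ≤ -x := by
    have := Real.log_le_sub_one_of_pos h1
    linarith
  have h3 : -(x / (1 - x)) ≤ Real.log (1 - x) := by
    have h4 := Real.log_le_sub_one_of_pos (x := (1 - x)⁻¹) (by positivity)
    rw [Real.log_inv] at h4
    have h5 : (1 - x)⁻¹ - 1 = x / (1 - x) := by
      field_simp
      ring
    rw [h5] at h4
    linarith
  have h6 : x / (1 - x) ≤ x + 2 * x ^ 2 := by
    rw [div_le_iff₀ h1]
    nlinarith [sq_nonneg x, mul_nonneg hx0 hx0]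
  rw [abs_le]
  constructor <;> nlinarith [sq_nonneg x]

theorem B0_summable : Summable fun n : ℕ =>
    if n.Prime then Real.log (1 - 1 / (n : ℝ)) + 1 / (n : ℝ) else 0 := by
  have h1 : Summable fun n : ℕ => 2 * (1 / (n : ℝ) ^ 2) :=
    (Real.summable_one_div_nat_pow.2 (by norm_num)).mul_left 2
  refine Summable.of_norm_bounded h1 fun n => ?_
  split_ifs with h
  · have h2 : (2 : ℝ) ≤ n := by exact_mod_cast h.two_le
    have h3 := B0_log_bound (1 / (n : ℝ)) (by positivity)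
      (one_div_le_one_div_of_le (by norm_num) h2)
    rw [Real.norm_eq_abs]
    refine h3.trans (le_of_eq ?_)
    rw [one_div_pow]
  · rw [norm_zero]
    positivity

theorem B0_tend_a : ∃ l : ℝ, Tendsto (fun N : ℕ =>
    B0_S (fun p => Real.log (1 - 1 / (p : ℝ)) + 1 / (p : ℝ)) N) atTop (𝓝 l) := by
  refine ⟨_, (B0_summable.hasSum.tendsto_sum_nat).congr fun N => ?_⟩
  unfold B0_S
  rw [Finset.sum_filter]

theorem B0_diff (f : ℕ → ℝ) (n m : ℕ) (hnm : n ≤ m) :
    B0_S f m - B0_S f n = ∑ p ∈ Pool.Agent.Wb58c63.PI (n : ℝ) (m : ℝ), f p := by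
  unfold B0_S
  have h1 : (Finset.range m).filter Nat.Prime =
      Pool.Agent.Wb58c63.PI (n : ℝ) (m : ℝ) ∪ (Finset.range n).filter Nat.Prime := by
    ext p
    rw [Finset.mem_union, Pool.Agent.Wb58c63.mem_PI, Finset.mem_filter, Finset.mem_filter,
      Finset.mem_range, Finset.mem_range]
    have e1 : (n : ℝ) ≤ (p : ℝ) ↔ n ≤ p := Nat.cast_le
    have e2 : (p : ℝ) < (m : ℝ) ↔ p < m := Nat.cast_lt
    rw [e1, e2]
    constructor
    · rintro ⟨h, hp⟩
      by_cases hn : n ≤ p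
      · exact Or.inl ⟨hp, hn, h⟩
      · exact Or.inr ⟨not_le.1 hn, hp⟩
    · rintro (⟨hp, _, h⟩ | ⟨h, hp⟩)
      · exact ⟨h, hp⟩
      · exact ⟨by omega, hp⟩
  have h2 : Disjoint (Pool.Agent.Wb58c63.PI (n : ℝ) (m : ℝ)) ((Finset.range n).filter Nat.Prime) := by
    rw [Finset.disjoint_left]
    intro p hp hp'
    rw [Pool.Agent.Wb58c63.mem_PI] at hp
    rw [Finset.mem_filter, Finset.mem_range] at hp'
    have e1 : n ≤ p := by exact_mod_cast hp.2.1
    omega
  rw [h1, Finset.sum_union h2]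
  ring

theorem B0_tend_b : ∃ l : ℝ, Tendsto (fun N : ℕ =>
    B0_S (fun p => 1 / (p : ℝ)) (N + 2) - Real.log (Real.log ((N + 2 : ℕ) : ℝ))) atTop (𝓝 l) := by
  obtain ⟨C, hC, h⟩ := Pool.Agent.Wd33b62.mertens_all
  apply cauchySeq_tendsto_of_complete
  refine cauchySeq_of_le_tendsto_0' (fun n : ℕ => C / Real.log ((n + 2 : ℕ) : ℝ)) ?_ ?_
  · intro n m hnm
    have hn : (2 : ℝ) ≤ ((n + 2 : ℕ) : ℝ) := by push_cast; linarith [Nat.cast_nonneg (α := ℝ) n]
    have hm : ((n + 2 : ℕ) : ℝ) ≤ ((m + 2 : ℕ) : ℝ) := by exact_mod_cast (by omega : n + 2 ≤ m + 2)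
    have h1 := h _ _ hn hm
    rw [← B0_diff (fun p => 1 / (p : ℝ)) (n + 2) (m + 2) (by omega)] at h1
    have hl1 : 0 < Real.log ((n + 2 : ℕ) : ℝ) := Real.log_pos (by linarith)
    have hl2 : 0 < Real.log ((m + 2 : ℕ) : ℝ) := Real.log_pos (by linarith)
    rw [Real.log_div hl2.ne' hl1.ne'] at h1
    rw [dist_comm, Real.dist_eq]
    refine le_trans (le_of_eq ?_) h1
    congr 1
    ring
  · refine tendsto_const_nhds.div_atTop ?_
    exact Real.tendsto_log_atTop.comp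
      (tendsto_natCast_atTop_atTop.comp (tendsto_add_atTop_nat 2))

theorem B0_dl_pos (s : ℕ) : 0 < dl s := by
  unfold dl
  refine Finset.prod_pos fun p hp => ?_
  rw [Finset.mem_filter] at hp
  have h2 : (2 : ℝ) ≤ p := by exact_mod_cast hp.2.two_le
  have : 1 / (p : ℝ) ≤ 1 / 2 := one_div_le_one_div_of_le (by norm_num) h2
  linarith

theorem B0_log_dl (s : ℕ) : Real.log (dl s) = B0_S (fun p => Real.log (1 - 1 / (p : ℝ))) (s + 1) := by
  unfold dl B0_S
  rw [Real.log_prod]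
  · refine Finset.sum_congr ?_ fun _ _ => rfl
    ext p
    rw [Finset.mem_filter, Finset.mem_filter, Finset.mem_Icc, Finset.mem_range]
    constructor
    · rintro ⟨⟨_, h⟩, hp⟩
      exact ⟨by omega, hp⟩
    · rintro ⟨h, hp⟩
      exact ⟨⟨hp.one_lt.le, by omega⟩, hp⟩
  · intro p hp
    rw [Finset.mem_filter] at hp
    have h2 : (2 : ℝ) ≤ p := by exact_mod_cast hp.2.two_le
    have : 1 / (p : ℝ) ≤ 1 / 2 := one_div_le_one_div_of_le (by norm_num) h2
    linarith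

/-- Mertens: `log s * ∏_{p ≤ s} (1 - 1/p)` converges to a positive constant.
Proof: by `mertens_all` (file `W_d33b62_h36/MM3`), `∑_{p ≤ s} 1/p - log log s` is a Cauchy sequence
(differences `≤ C / log u + 1/u`); `∑_p (log(1 - 1/p) + 1/p)` converges absolutely; exponentiate. -/
theorem mertens_prod : ∃ c : ℝ, 0 < c ∧
    Tendsto (fun s : ℕ => Real.log s * dl s) atTop (𝓝 c) := by
  obtain ⟨l1, h1⟩ := B0_tend_a
  obtain ⟨l2, h2⟩ := B0_tend_b
  refine ⟨Real.exp (l1 - l2), Real.exp_pos _, ?_⟩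
  have h3 : Tendsto (fun N : ℕ => Real.exp
      (B0_S (fun p => Real.log (1 - 1 / (p : ℝ)) + 1 / (p : ℝ)) (N + 2) -
      (B0_S (fun p => 1 / (p : ℝ)) (N + 2) - Real.log (Real.log ((N + 2 : ℕ) : ℝ))))) atTop
      (𝓝 (Real.exp (l1 - l2))) :=
    (Real.continuous_exp.tendsto _).comp ((h1.comp (tendsto_add_atTop_nat 2)).sub h2)
  have h4 : Tendsto (fun N : ℕ => Real.log ((N + 2 : ℕ) : ℝ) * dl (N + 1)) atTop
      (𝓝 (Real.exp (l1 - l2))) := by
    refine h3.congr fun N => ?_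
    have hn : (2 : ℝ) ≤ ((N + 2 : ℕ) : ℝ) := by push_cast; linarith [Nat.cast_nonneg (α := ℝ) N]
    have hl1 : 0 < Real.log ((N + 2 : ℕ) : ℝ) := Real.log_pos (by linarith)
    have e1 : B0_S (fun p => Real.log (1 - 1 / (p : ℝ)) + 1 / (p : ℝ)) (N + 2) =
        B0_S (fun p => Real.log (1 - 1 / (p : ℝ))) (N + 2) + B0_S (fun p => 1 / (p : ℝ)) (N + 2) := by
      unfold B0_S
      rw [Finset.sum_add_distrib]
    rw [e1]
    have e2 := B0_log_dl (N + 1)
    have e3 : B0_S (fun p => Real.log (1 - 1 / (p : ℝ))) (N + 2) = Real.log (dl (N + 1)) := e2.symm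
    rw [e3]
    have e4 : Real.log (dl (N + 1)) + B0_S (fun p => 1 / (p : ℝ)) (N + 2) -
        (B0_S (fun p => 1 / (p : ℝ)) (N + 2) - Real.log (Real.log ((N + 2 : ℕ) : ℝ))) =
        Real.log (Real.log ((N + 2 : ℕ) : ℝ)) + Real.log (dl (N + 1)) := by ring
    rw [e4, Real.exp_add, Real.exp_log hl1, Real.exp_log (B0_dl_pos _)]
  -- replace log (N+2) by log (N+1)
  have h5 : Tendsto (fun N : ℕ => Real.log ((N + 1 : ℕ) : ℝ) / Real.log ((N + 2 : ℕ) : ℝ)) atTop
      (𝓝 1) := by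
    have hlog : Tendsto (fun N : ℕ => Real.log ((N + 2 : ℕ) : ℝ)) atTop atTop :=
      Real.tendsto_log_atTop.comp (tendsto_natCast_atTop_atTop.comp (tendsto_add_atTop_nat 2))
    have h6 : Tendsto (fun N : ℕ => 1 / Real.log ((N + 2 : ℕ) : ℝ)) atTop (𝓝 0) :=
      tendsto_const_nhds.div_atTop hlog
    rw [tendsto_iff_norm_sub_tendsto_zero]
    refine squeeze_zero (fun N => norm_nonneg _) (fun N => ?_) h6
    have hn : (2 : ℝ) ≤ ((N + 2 : ℕ) : ℝ) := by push_cast; linarith [Nat.cast_nonneg (α := ℝ) N]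
    have hl1 : 0 < Real.log ((N + 2 : ℕ) : ℝ) := Real.log_pos (by linarith)
    have hN1 : (1 : ℝ) ≤ ((N + 1 : ℕ) : ℝ) := by push_cast; linarith [Nat.cast_nonneg (α := ℝ) N]
    have h7 : Real.log ((N + 2 : ℕ) : ℝ) - Real.log ((N + 1 : ℕ) : ℝ) ≤ 1 := by
      rw [← Real.log_div (by positivity) (by positivity)]
      have h8 := Real.log_le_sub_one_of_pos (x := ((N + 2 : ℕ) : ℝ) / ((N + 1 : ℕ) : ℝ)) (by positivity)
      have h9 : ((N + 2 : ℕ) : ℝ) / ((N + 1 : ℕ) : ℝ) ≤ 2 := by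
        rw [div_le_iff₀ (by positivity)]
        push_cast
        linarith [Nat.cast_nonneg (α := ℝ) N]
      linarith
    have h10 : Real.log ((N + 1 : ℕ) : ℝ) ≤ Real.log ((N + 2 : ℕ) : ℝ) :=
      Real.log_le_log (by positivity) (by push_cast; linarith)
    have h11 : Real.log ((N + 1 : ℕ) : ℝ) / Real.log ((N + 2 : ℕ) : ℝ) - 1 =
        -((Real.log ((N + 2 : ℕ) : ℝ) - Real.log ((N + 1 : ℕ) : ℝ)) / Real.log ((N + 2 : ℕ) : ℝ)) := by
      field_simp
      ring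
    rw [h11, Real.norm_eq_abs, abs_neg, abs_of_nonneg (div_nonneg (by linarith) hl1.le)]
    exact div_le_div_of_nonneg_right h7 hl1.le
  have h6 := h5.mul h4
  rw [one_mul] at h6
  have h7 : Tendsto (fun N : ℕ => Real.log ((N + 1 : ℕ) : ℝ) * dl (N + 1)) atTop
      (𝓝 (Real.exp (l1 - l2))) := by
    refine h6.congr fun N => ?_
    have hn : (2 : ℝ) ≤ ((N + 2 : ℕ) : ℝ) := by push_cast; linarith [Nat.cast_nonneg (α := ℝ) N]
    have hl1 : 0 < Real.log ((N + 2 : ℕ) : ℝ) := Real.log_pos (by linarith)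
    rw [← mul_assoc, div_mul_cancel₀ _ hl1.ne']
  exact (tendsto_add_atTop_iff_nat (f := fun s : ℕ => Real.log s * dl s) 1).1 h7

/-- `(dl s)⁻¹ ≤ C (log 2 s + 1)`, from `mertens_prod`, with `L = Nat.log 2 s`. -/
theorem dl_inv_le : ∃ C : ℝ, 0 < C ∧ ∀ s : ℕ, 2 ≤ s → (dl s)⁻¹ ≤ C * (Nat.log 2 s + 1) := by
  obtain ⟨c, hc, h⟩ := mertens_prod
  have h1 : ∀ᶠ s : ℕ in atTop, c / 2 < Real.log s * dl s :=
    h.eventually (lt_mem_nhds (by linarith))
  obtain ⟨N, hN⟩ := eventually_atTop.1 h1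
  refine ⟨2 / c + ∑ s ∈ Finset.range N, (dl s)⁻¹, ?_, ?_⟩
  · have : 0 ≤ ∑ s ∈ Finset.range N, (dl s)⁻¹ :=
      Finset.sum_nonneg fun s _ => (inv_pos.2 (B0_dl_pos s)).le
    positivity
  · intro s hs
    have hsum : 0 ≤ ∑ s ∈ Finset.range N, (dl s)⁻¹ :=
      Finset.sum_nonneg fun s _ => (inv_pos.2 (B0_dl_pos s)).le
    have hlog : (0 : ℝ) ≤ (Nat.log 2 s : ℝ) := Nat.cast_nonneg _
    rcases lt_or_ge s N with hsN | hsN
    · have h2 : (dl s)⁻¹ ≤ ∑ s ∈ Finset.range N, (dl s)⁻¹ :=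
        Finset.single_le_sum (f := fun s => (dl s)⁻¹) (fun s _ => (inv_pos.2 (B0_dl_pos s)).le)
          (Finset.mem_range.2 hsN)
      have h3 : 0 ≤ 2 / c := by positivity
      nlinarith [mul_nonneg h3 hlog, mul_nonneg hsum hlog]
    · have h2 := hN s hsN
      have hs2 : (2 : ℝ) ≤ s := by exact_mod_cast hs
      have hls : 0 < Real.log s := Real.log_pos (by linarith)
      have h3 : (dl s)⁻¹ ≤ 2 / c * Real.log s := by
        rw [inv_le_iff_one_le_mul₀ (B0_dl_pos s)]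
        have : 2 / c * Real.log s * dl s = 2 / c * (Real.log s * dl s) := by ring
        rw [this]
        calc (1 : ℝ) = 2 / c * (c / 2) := by field_simp
          _ ≤ 2 / c * (Real.log s * dl s) := by
            exact mul_le_mul_of_nonneg_left h2.le (by positivity)
      have h4 : Real.log s ≤ (Nat.log 2 s : ℝ) + 1 := by
        have h5 : s < 2 ^ (Nat.log 2 s + 1) := Nat.lt_pow_succ_log_self (by norm_num) s
        have h6 : (s : ℝ) ≤ 2 ^ (Nat.log 2 s + 1) := by exact_mod_cast h5.le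
        have h7 := Real.log_le_log (by linarith) h6
        rw [Real.log_pow] at h7
        have h8 : Real.log 2 ≤ 1 := by
          have := Real.log_two_lt_d9
          linarith
        push_cast at h7
        nlinarith
      calc (dl s)⁻¹ ≤ 2 / c * Real.log s := h3
        _ ≤ 2 / c * ((Nat.log 2 s : ℝ) + 1) := mul_le_mul_of_nonneg_left h4 (by positivity)
        _ ≤ (2 / c + ∑ s ∈ Finset.range N, (dl s)⁻¹) * ((Nat.log 2 s : ℝ) + 1) := by
          apply mul_le_mul_of_nonneg_right _ (by positivity)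
          linarith

end Pool.Agent.W_a617e8_h51
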