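import Pool.Agent.W_a617e8_h51.Defs
import Pool.Agent.W_d33b62_h36.MM3
import Pool.Agent.W_pnt_h80.PNT

set_option autoImplicit false

/-! B0b: primes in windows. -/

noncomputable section

open Filter Topology

namespace Pool.Agent.W_a617e8_h51

/-- The primes `p` with `S^a ≤ p < S^b`. -/
def pwin (S a b : ℝ) : Finset ℕ :=
  (Finset.range ⌈S ^ b⌉₊).filter fun p => p.Prime ∧ S ^ a ≤ (p : ℝ)

theorem mem_pwin {S a b : ℝ} {p : ℕ} : p ∈ pwin S a b ↔ p.Prime ∧ S ^ a ≤ (p : ℝ) ∧ (p : ℝ) < S ^ b := by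
  unfold pwin
  rw [Finset.mem_filter, Finset.mem_range, Nat.lt_ceil]
  tauto

theorem B0b_pwin_eq (S a b : ℝ) : pwin S a b = Pool.Agent.Wb58c63.PI (S ^ a) (S ^ b) := rfl

/-- Mertens in windows: `∑_{S^a ≤ p < S^b} 1/p → log(b/a)` as `S → ∞`, for `0 < a ≤ b`. -/
theorem mertens_win (a b : ℝ) (ha : 0 < a) (hab : a ≤ b) :
    Tendsto (fun s : ℕ => ∑ p ∈ pwin (s : ℝ) a b, (1 : ℝ) / p) atTop (𝓝 (Real.log (b / a))) := by
  obtain ⟨C, hC, h⟩ := Pool.Agent.Wd33b62.mertens_all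
  have hlog : Tendsto (fun s : ℕ => Real.log (s : ℝ)) atTop atTop :=
    Real.tendsto_log_atTop.comp tendsto_natCast_atTop_atTop
  have hpow : Tendsto (fun s : ℕ => (s : ℝ) ^ a) atTop atTop :=
    (tendsto_rpow_atTop ha).comp tendsto_natCast_atTop_atTop
  have herr : Tendsto (fun s : ℕ => C / (a * Real.log (s : ℝ))) atTop (𝓝 0) :=
    tendsto_const_nhds.div_atTop (hlog.const_mul_atTop ha)
  rw [tendsto_iff_norm_sub_tendsto_zero]
  refine squeeze_zero' (Eventually.of_forall fun s => norm_nonneg _) ?_ herr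
  filter_upwards [eventually_ge_atTop 2, hpow.eventually_ge_atTop 2] with s hs hs2
  have hs1 : (1 : ℝ) < s := by exact_mod_cast hs
  have hs0 : (0 : ℝ) < s := by linarith
  have hl : 0 < Real.log s := Real.log_pos hs1
  have h1 := h ((s : ℝ) ^ a) ((s : ℝ) ^ b) hs2 (Real.rpow_le_rpow_of_exponent_le hs1.le hab)
  rw [Real.log_rpow hs0, Real.log_rpow hs0, mul_div_mul_right _ _ hl.ne'] at h1
  rw [Real.norm_eq_abs, B0b_pwin_eq]
  exact h1

/-- Number of primes in `[ρ^j, ρ^(j+1))`. -/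
def nwin (ρ : ℝ) (j : ℕ) : ℕ := (pwin ρ j (j + 1)).card

/-- Primes below `x`. -/
theorem B0b_below (x : ℝ) (hx : 0 ≤ x) :
    |((((Finset.range ⌈x⌉₊).filter Nat.Prime).card : ℝ)) - (Nat.primeCounting ⌊x⌋₊ : ℝ)| ≤ 1 := by
  have h1 : Nat.primeCounting ⌊x⌋₊ = ((Finset.range (⌊x⌋₊ + 1)).filter Nat.Prime).card := by
    rw [Nat.primeCounting, Nat.primeCounting', Nat.count_eq_card_filter_range]
  have h2 : ((Finset.range ⌈x⌉₊).filter Nat.Prime).card ≤
      ((Finset.range (⌊x⌋₊ + 1)).filter Nat.Prime).card := by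
    apply Finset.card_le_card
    apply Finset.filter_subset_filter
    apply Finset.range_subset_range.2
    exact Nat.ceil_le_floor_add_one x
  have h3 : ((Finset.range (⌊x⌋₊ + 1)).filter Nat.Prime).card ≤
      ((Finset.range ⌈x⌉₊).filter Nat.Prime).card + 1 := by
    have h4 : (Finset.range (⌊x⌋₊ + 1)).filter Nat.Prime ⊆
        insert ⌊x⌋₊ ((Finset.range ⌈x⌉₊).filter Nat.Prime) := by
      intro p hp
      rw [Finset.mem_filter, Finset.mem_range] at hp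
      rw [Finset.mem_insert, Finset.mem_filter, Finset.mem_range]
      by_cases hpx : p = ⌊x⌋₊
      · exact Or.inl hpx
      · right
        refine ⟨?_, hp.2⟩
        have : p < ⌊x⌋₊ := by omega
        exact this.trans_le (Nat.floor_le_ceil x)
    exact (Finset.card_le_card h4).trans (Finset.card_insert_le _ _)
  rw [← h1] at h2 h3
  have h2' : ((((Finset.range ⌈x⌉₊).filter Nat.Prime).card : ℝ)) ≤ (Nat.primeCounting ⌊x⌋₊ : ℝ) := by
    exact_mod_cast h2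
  have h3' : (Nat.primeCounting ⌊x⌋₊ : ℝ) ≤
      ((((Finset.range ⌈x⌉₊).filter Nat.Prime).card : ℝ)) + 1 := by
    exact_mod_cast h3
  rw [abs_le]
  constructor <;> linarith

theorem B0b_card (x y : ℝ) (hxy : x ≤ y) :
    (((Finset.range ⌈y⌉₊).filter fun p : ℕ => p.Prime ∧ x ≤ (p : ℝ)).card : ℝ) =
      (((Finset.range ⌈y⌉₊).filter Nat.Prime).card : ℝ) -
      (((Finset.range ⌈x⌉₊).filter Nat.Prime).card : ℝ) := by
  have h1 : (Finset.range ⌈y⌉₊).filter Nat.Prime =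
      ((Finset.range ⌈y⌉₊).filter fun p : ℕ => p.Prime ∧ x ≤ (p : ℝ)) ∪
      ((Finset.range ⌈x⌉₊).filter Nat.Prime) := by
    ext p
    simp only [Finset.mem_union, Finset.mem_filter, Finset.mem_range, Nat.lt_ceil]
    constructor
    · rintro ⟨h, hp⟩
      by_cases hx : x ≤ (p : ℝ)
      · exact Or.inl ⟨h, hp, hx⟩
      · exact Or.inr ⟨not_le.1 hx, hp⟩
    · rintro (⟨h, hp, _⟩ | ⟨h, hp⟩)
      · exact ⟨h, hp⟩
      · exact ⟨h.trans_le hxy, hp⟩
  have h2 : Disjoint ((Finset.range ⌈y⌉₊).filter fun p : ℕ => p.Prime ∧ x ≤ (p : ℝ))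
      ((Finset.range ⌈x⌉₊).filter Nat.Prime) := by
    rw [Finset.disjoint_left]
    intro p hp hp'
    simp only [Finset.mem_filter, Finset.mem_range, Nat.lt_ceil] at hp hp'
    linarith [hp.2.2, hp'.1]
  rw [h1, Finset.card_union_of_disjoint h2]
  push_cast
  ring

/-- PNT in multiplicative windows: `#{ρ^j ≤ p < ρ^(j+1)} * j log ρ / (ρ^j (ρ - 1)) → 1`
(`pi_tendsto` in `W_pnt_h80/PNT`). -/
theorem nwin_tendsto (ρ : ℝ) (hρ : 1 < ρ) :
    Tendsto (fun j : ℕ => (nwin ρ j : ℝ) * (j * Real.log ρ) / (ρ ^ j * (ρ - 1))) atTop (𝓝 1) := by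
  have hρ0 : 0 < ρ := by linarith
  have hlr : 0 < Real.log ρ := Real.log_pos hρ
  set F : ℝ → ℝ := fun x => (Nat.primeCounting ⌊x⌋₊ : ℝ) * Real.log x / x with hF
  have hpi : Tendsto F atTop (𝓝 1) := Pool.Agent.W_pnt_h80.pi_tendsto
  have hpw : Tendsto (fun j : ℕ => ρ ^ j) atTop atTop := tendsto_pow_atTop_atTop_of_one_lt hρ
  have h1 : Tendsto (fun j : ℕ => F (ρ ^ j)) atTop (𝓝 1) := hpi.comp hpw
  have h2 : Tendsto (fun j : ℕ => F (ρ ^ (j + 1))) atTop (𝓝 1) :=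
    h1.comp (tendsto_add_atTop_nat 1)
  -- j / (j + 1) → 1
  have h3 : Tendsto (fun j : ℕ => (j : ℝ) / ((j : ℝ) + 1)) atTop (𝓝 1) :=
    tendsto_natCast_div_add_atTop (1 : ℝ)
  have h4 : Tendsto (fun j : ℕ => ρ * ((j : ℝ) / ((j : ℝ) + 1)) * F (ρ ^ (j + 1)) - F (ρ ^ j))
      atTop (𝓝 (ρ * 1 * 1 - 1)) := ((h3.const_mul ρ).mul h2).sub h1
  -- error
  have h5 : Tendsto (fun j : ℕ => (j : ℝ) / ρ ^ j) atTop (𝓝 0) := by
    have := tendsto_pow_const_div_const_pow_of_one_lt 1 hρ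
    simpa using this
  have h6 : Tendsto (fun j : ℕ => 2 * Real.log ρ * ((j : ℝ) / ρ ^ j)) atTop (𝓝 0) := by
    simpa using h5.const_mul (2 * Real.log ρ)
  -- main
  have h7 : Tendsto (fun j : ℕ => (nwin ρ j : ℝ) * (j * Real.log ρ) / ρ ^ j -
      (ρ * ((j : ℝ) / ((j : ℝ) + 1)) * F (ρ ^ (j + 1)) - F (ρ ^ j))) atTop (𝓝 0) := by
    refine squeeze_zero_norm (fun j => ?_) h6
    have hpj : 0 < ρ ^ j := pow_pos hρ0 j
    have hcard : (nwin ρ j : ℝ) =
        (((Finset.range ⌈ρ ^ (j + 1)⌉₊).filter Nat.Prime).card : ℝ) -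
        (((Finset.range ⌈ρ ^ j⌉₊).filter Nat.Prime).card : ℝ) := by
      rw [← B0b_card (ρ ^ j) (ρ ^ (j + 1)) (pow_le_pow_right₀ hρ.le (Nat.le_succ j))]
      unfold nwin pwin
      have e1 : ρ ^ ((j : ℝ) + 1) = ρ ^ (j + 1) := by
        rw [← Real.rpow_natCast ρ (j + 1)]
        push_cast
        rfl
      have e2 : ρ ^ ((j : ℝ)) = ρ ^ j := Real.rpow_natCast ρ j
      rw [e1, e2]
    have b1 := B0b_below (ρ ^ (j + 1)) (pow_pos hρ0 _).le
    have b2 := B0b_below (ρ ^ j) hpj.le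
    set A := (((Finset.range ⌈ρ ^ (j + 1)⌉₊).filter Nat.Prime).card : ℝ)
    set B := (((Finset.range ⌈ρ ^ j⌉₊).filter Nat.Prime).card : ℝ)
    set P := (Nat.primeCounting ⌊ρ ^ (j + 1)⌋₊ : ℝ) with hP
    set Q := (Nat.primeCounting ⌊ρ ^ j⌋₊ : ℝ) with hQ
    have hid : (nwin ρ j : ℝ) * (j * Real.log ρ) / ρ ^ j -
      (ρ * ((j : ℝ) / ((j : ℝ) + 1)) * F (ρ ^ (j + 1)) - F (ρ ^ j)) =
        ((A - P) - (B - Q)) * (Real.log ρ * ((j : ℝ) / ρ ^ j)) := by
      rw [hcard]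
      simp only [hF]
      rw [← hP, ← hQ, Real.log_pow, Real.log_pow]
      have : (j : ℝ) + 1 ≠ 0 := by positivity
      push_cast
      rw [pow_succ]
      field_simp
      ring
    rw [hid, Real.norm_eq_abs, abs_mul]
    have hnn : 0 ≤ Real.log ρ * ((j : ℝ) / ρ ^ j) := by positivity
    rw [abs_of_nonneg hnn]
    have hab : |(A - P) - (B - Q)| ≤ 2 := by
      calc |(A - P) - (B - Q)| ≤ |A - P| + |B - Q| := abs_sub _ _
        _ ≤ 2 := by linarith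
    calc |(A - P) - (B - Q)| * (Real.log ρ * ((j : ℝ) / ρ ^ j))
        ≤ 2 * (Real.log ρ * ((j : ℝ) / ρ ^ j)) := mul_le_mul_of_nonneg_right hab hnn
      _ = 2 * Real.log ρ * ((j : ℝ) / ρ ^ j) := by ring
  have h8 := h7.add h4
  have h9 := h8.div_const (ρ - 1)
  have hne : ρ - 1 ≠ 0 := by linarith
  have e : (0 + (ρ * 1 * 1 - 1)) / (ρ - 1) = 1 := by
    rw [zero_add, mul_one, mul_one, div_self hne]
  rw [e] at h9
  refine h9.congr fun j => ?_
  rw [sub_add_cancel, div_div]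

end Pool.Agent.W_a617e8_h51
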