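import Pool.Agent.W_a617e8_h51.Defs

set_option autoImplicit false

/-! C0: existence of groupings of the primes. -/

namespace Pool.Agent.W_a617e8_h51

private noncomputable def aa (i : ℕ) : ℕ := Nat.count Nat.Prime (2 ^ i)

private noncomputable def kk (g : ℕ → ℕ) (p : ℕ) : ℕ :=
  aa (lev p) + ((Nat.count Nat.Prime p - aa (lev p)) / g (lev p)) * g (lev p)

private noncomputable def lld (g : ℕ → ℕ) (p : ℕ) : ℕ := Nat.nth Nat.Prime (kk g p)

private theorem inf : (Set.ofPred Nat.Prime).Infinite := Nat.infinite_setOfPred_prime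

private theorem aa_le {p : ℕ} (hp : p.Prime) : aa (lev p) ≤ Nat.count Nat.Prime p :=
  Nat.count_monotone _ (Nat.pow_log_le_self 2 hp.pos.ne')

private theorem kk_le (g : ℕ → ℕ) {p : ℕ} (hp : p.Prime) : kk g p ≤ Nat.count Nat.Prime p := by
  have h := aa_le hp
  have h2 := Nat.div_mul_le_self (Nat.count Nat.Prime p - aa (lev p)) (g (lev p))
  unfold kk
  omega

private theorem lt_kk (g : ℕ → ℕ) (hg : ∀ i, 1 ≤ g i) {p : ℕ} (hp : p.Prime) :
    Nat.count Nat.Prime p < kk g p + g (lev p) := by
  have h := aa_le hp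
  have h2 := Nat.lt_div_mul_add (a := Nat.count Nat.Prime p - aa (lev p)) (hg (lev p))
  unfold kk
  omega

private theorem lld_prime (g : ℕ → ℕ) (p : ℕ) : (lld g p).Prime :=
  Nat.nth_mem_of_infinite inf _

private theorem count_lld (g : ℕ → ℕ) (p : ℕ) : Nat.count Nat.Prime (lld g p) = kk g p :=
  Nat.count_nth_of_infinite inf _

private theorem lld_le (g : ℕ → ℕ) {p : ℕ} (hp : p.Prime) : lld g p ≤ p := by
  have h : Nat.nth Nat.Prime (Nat.count Nat.Prime p) = p := Nat.nth_count hp
  calc lld g p ≤ Nat.nth Nat.Prime (Nat.count Nat.Prime p) :=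
        (Nat.nth_strictMono inf).monotone (kk_le g hp)
    _ = p := h

private theorem lev_lld (g : ℕ → ℕ) {p : ℕ} (hp : p.Prime) : lev (lld g p) = lev p := by
  apply le_antisymm
  · exact Nat.log_mono_right (lld_le g hp)
  · have h1 : 2 ^ lev p ≤ Nat.nth Nat.Prime (aa (lev p)) := Nat.le_nth_count inf _
    have h2 : Nat.nth Nat.Prime (aa (lev p)) ≤ lld g p :=
      (Nat.nth_strictMono inf).monotone (Nat.le_add_right _ _)
    exact (Nat.le_log_iff_pow_le (by norm_num) (lld_prime g p).pos.ne').2 (h1.trans h2)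

private theorem kk_lld (g : ℕ → ℕ) (hg : ∀ i, 1 ≤ g i) {p : ℕ} (hp : p.Prime) :
    kk g (lld g p) = kk g p := by
  have h1 : kk g (lld g p) = aa (lev p) + ((kk g p - aa (lev p)) / g (lev p)) * g (lev p) := by
    conv_lhs => unfold kk
    rw [lev_lld g hp, count_lld]
  rw [h1]
  have h2 : kk g p - aa (lev p) =
      ((Nat.count Nat.Prime p - aa (lev p)) / g (lev p)) * g (lev p) := by
    unfold kk
    omega
  rw [h2, Nat.mul_div_cancel _ (hg _)]
  rfl

/-- Groupings exist.
Proof: let `a_i = Nat.count Nat.Prime (2^i)` (number of primes `< 2^i`).  For a prime `p` of level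
`i = lev p` let `r = Nat.count Nat.Prime p - a_i` (its rank in `PL i`) and
`ld p = Nat.nth Nat.Prime (a_i + (r / g i) * g i)` (the first prime of the block of `g i`
consecutive primes of level `i` containing `p`).  `Nat.nth_count`, `Nat.count_nth`,
`Nat.nth_strictMono` (primes are infinite).  `ld p ≤ p` since the index is `≤ count p`;
`2^i ≤ ld p` since the index is `≥ a_i`; the block of index `k` has at most `g i` primes; the number
of blocks is at most `#PL i / g i + 1`. -/
theorem exists_grouping (g : ℕ → ℕ) (hg : ∀ i, 1 ≤ g i) : ∃ ld : ℕ → ℕ, Grouping g ld := by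
  refine ⟨lld g, ?_, ?_, ?_, ?_, ?_, ?_⟩
  · exact fun p _ => lld_prime g p
  · exact fun p hp => lev_lld g hp
  · exact fun p hp => lld_le g hp
  · intro p hp
    have h := kk_lld g hg hp
    show Nat.nth Nat.Prime (kk g (lld g p)) = Nat.nth Nat.Prime (kk g p)
    rw [h]
  · intro m _
    have hsub : ((PL (lev m)).filter (fun q => lld g q = m)).card ≤
        (Finset.Ico (Nat.count Nat.Prime m) (Nat.count Nat.Prime m + g (lev m))).card := by
      refine Finset.card_le_card_of_injOn (fun q => Nat.count Nat.Prime q) ?_ ?_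
      · intro q hq
        obtain ⟨hq1, hq2⟩ := Finset.mem_filter.1 (Finset.mem_coe.1 hq)
        have hqp : q.Prime := (Finset.mem_filter.1 hq1).2
        have hc : Nat.count Nat.Prime m = kk g q := by rw [← hq2, count_lld]
        have hl : lev m = lev q := by rw [← hq2, lev_lld g hqp]
        have h1 := kk_le g hqp
        have h2 := lt_kk g hg hqp
        simp only [Finset.coe_Ico, Set.mem_Ico]
        rw [hc, hl]
        exact ⟨h1, h2⟩
      · intro q hq q' hq' he
        have hqp : q.Prime :=
          (Finset.mem_filter.1 (Finset.mem_filter.1 (Finset.mem_coe.1 hq)).1).2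
        have hqp' : q'.Prime :=
          (Finset.mem_filter.1 (Finset.mem_filter.1 (Finset.mem_coe.1 hq')).1).2
        have he' : Nat.count Nat.Prime q = Nat.count Nat.Prime q' := he
        rw [← Nat.nth_count hqp, ← Nat.nth_count hqp', he']
    rw [Nat.card_Ico] at hsub
    omega
  · intro i
    have hlevPL : ∀ q ∈ PL i, lev q = i := by
      intro q hq
      obtain ⟨h1, h2⟩ := Finset.mem_filter.1 hq
      obtain ⟨h3, h4⟩ := Finset.mem_Ico.1 h1
      exact (Nat.log_eq_iff (Or.inr ⟨by norm_num, h2.pos.ne'⟩)).2 ⟨h3, h4⟩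
    have hr : ∀ q ∈ PL i, Nat.count Nat.Prime q - aa i ≤ (PL i).card := by
      intro q hq
      obtain ⟨h1, h2⟩ := Finset.mem_filter.1 hq
      obtain ⟨h3, h4⟩ := Finset.mem_Ico.1 h1
      have hsub : (Finset.range q).filter Nat.Prime ⊆
          (Finset.range (2 ^ i)).filter Nat.Prime ∪ PL i := by
        intro x hx
        obtain ⟨hx1, hx2⟩ := Finset.mem_filter.1 hx
        have hx3 := Finset.mem_range.1 hx1
        rw [Finset.mem_union, Finset.mem_filter, PL, Finset.mem_filter, Finset.mem_range,
          Finset.mem_Ico]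
        by_cases hlt : x < 2 ^ i
        · exact Or.inl ⟨hlt, hx2⟩
        · exact Or.inr ⟨⟨by omega, by omega⟩, hx2⟩
      have hcard := (Finset.card_le_card hsub).trans (Finset.card_union_le _ _)
      rw [← Nat.count_eq_card_filter_range, ← Nat.count_eq_card_filter_range] at hcard
      unfold aa
      omega
    have himg : (PL i).image (lld g) ⊆
        (Finset.range ((PL i).card / g i + 1)).image
          (fun t => Nat.nth Nat.Prime (aa i + t * g i)) := by
      intro x hx
      obtain ⟨q, hq, rfl⟩ := Finset.mem_image.1 hx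
      refine Finset.mem_image.2 ⟨(Nat.count Nat.Prime q - aa i) / g i, ?_, ?_⟩
      · rw [Finset.mem_range]
        have := Nat.div_le_div_right (c := g i) (hr q hq)
        omega
      · show _ = Nat.nth Nat.Prime (kk g q)
        unfold kk
        rw [hlevPL q hq]
    have hc := (Finset.card_le_card himg).trans Finset.card_image_le
    rw [Finset.card_range] at hc
    have hc' : (((PL i).image (lld g)).card : ℝ) ≤ (((PL i).card / g i : ℕ) : ℝ) + 1 := by
      exact_mod_cast hc
    have hd : (((PL i).card / g i : ℕ) : ℝ) ≤ ((PL i).card : ℝ) / (g i : ℝ) := Nat.cast_div_le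
    linarith

end Pool.Agent.W_a617e8_h51
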