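import Pool.Agent.W_a617e8_h51.Defs

set_option autoImplicit false

/-! C1: elementary facts on groups. -/

noncomputable section

namespace Pool.Agent.W_a617e8_h51

theorem lev_le_iff {p L : ℕ} (hp : p ≠ 0) : lev p ≤ L ↔ p < 2 ^ (L + 1) := by
  unfold lev
  rw [← Nat.lt_succ_iff, Nat.succ_eq_add_one, Nat.log_lt_iff_lt_pow (by norm_num) hp]

theorem mem_PL {i p : ℕ} : p ∈ PL i ↔ p.Prime ∧ lev p = i := by
  unfold PL lev
  rw [Finset.mem_filter, Finset.mem_Ico]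
  constructor
  · rintro ⟨⟨h1, h2⟩, h3⟩
    exact ⟨h3, Nat.log_eq_of_pow_le_of_lt_pow h1 h2⟩
  · rintro ⟨h1, h2⟩
    refine ⟨⟨?_, ?_⟩, h1⟩
    · rw [← h2]
      exact Nat.pow_log_le_self 2 h1.ne_zero
    · rw [← h2]
      exact Nat.lt_pow_succ_log_self (by norm_num) p

/-- Product of the primes of the group of `m`. -/
def PG (ld : ℕ → ℕ) (m : ℕ) : ℕ := ∏ q ∈ gr ld m, q

theorem mem_gr {g ld : ℕ → ℕ} (hG : Grouping g ld) {m q : ℕ} (hm : m.Prime) :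
    q ∈ gr ld m ↔ q.Prime ∧ ld q = m := by
  unfold gr
  rw [Finset.mem_filter, mem_PL]
  constructor
  · rintro ⟨⟨h1, _⟩, h3⟩
    exact ⟨h1, h3⟩
  · rintro ⟨h1, h2⟩
    refine ⟨⟨h1, ?_⟩, h2⟩
    rw [← h2, hG.lev_eq q h1]

/-- `m ∣ PG m` for a leader and `PG m / m ≤ 2^((g - 1)(lev m + 1))`: the other primes of the group,
at most `g - 1`, are `< 2^(lev m + 1)`. -/
theorem PG_div_le {L : ℕ} {ld : ℕ → ℕ} (hG : Grouping (gsz L) ld) {m : ℕ} (hm : m.Prime)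
    (hl : ld m = m) :
    m ∣ PG ld m ∧ PG ld m / m ≤ 2 ^ ((gsz L (lev m) - 1) * (lev m + 1)) := by
  have hmem : m ∈ gr ld m := (mem_gr hG hm).2 ⟨hm, hl⟩
  refine ⟨Finset.dvd_prod_of_mem _ hmem, ?_⟩
  have h1 : PG ld m = m * ∏ q ∈ (gr ld m).erase m, q := by
    unfold PG
    rw [Finset.mul_prod_erase _ (fun q => q) hmem]
  rw [h1, Nat.mul_div_cancel_left _ hm.pos]
  have h2 : ∏ q ∈ (gr ld m).erase m, q ≤ (2 ^ (lev m + 1)) ^ ((gr ld m).erase m).card := by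
    apply Finset.prod_le_pow_card
    intro q hq
    have hq2 := (Finset.mem_filter.1 (Finset.mem_of_mem_erase hq)).1
    have := (Finset.mem_Ico.1 (Finset.mem_filter.1 hq2).1).2
    exact this.le
  refine h2.trans ?_
  rw [← pow_mul, mul_comm (lev m + 1)]
  apply Nat.pow_le_pow_right (by norm_num)
  apply Nat.mul_le_mul_right
  rw [Finset.card_erase_of_mem hmem]
  exact Nat.sub_le_sub_right (hG.card_le m hm) 1

/-- Elements of a group are at least the leader and divide `PG`. -/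
theorem gr_dvd {g ld : ℕ → ℕ} (hG : Grouping g ld) {m q : ℕ} (hm : m.Prime) (hq : q ∈ gr ld m) :
    q ∣ PG ld m ∧ m ≤ q ∧ PG ld m / q ≤ PG ld m / m := by
  have hq' := (mem_gr hG hm).1 hq
  have hle : m ≤ q := by
    have := hG.le q hq'.1
    rwa [hq'.2] at this
  exact ⟨Finset.dvd_prod_of_mem _ hq, hle, Nat.div_le_div_left hle hm.pos⟩

/-- `(gsz - 1)(i+1) ≤ sqrt((L+1)(i+1))` and `gsz > sqrt((L+1)/(i+1))`. -/
theorem gsz_bounds (L i : ℕ) :
    (((gsz L i - 1) * (i + 1) : ℕ) : ℝ) ≤ Real.sqrt ((L + 1) * (i + 1)) ∧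
      Real.sqrt (((L : ℝ) + 1) / (i + 1)) ≤ (gsz L i : ℝ) ∧ 1 ≤ gsz L i := by
  unfold gsz
  rw [Nat.add_sub_cancel]
  set t := (L + 1) / (i + 1) with ht
  have h1 : t * (i + 1) ≤ L + 1 := Nat.div_mul_le_self _ _
  have h2 : L + 1 < (t + 1) * (i + 1) := by
    have := Nat.lt_mul_div_succ (L + 1) (Nat.succ_pos i)
    rw [mul_comm]
    exact this
  have h3 : Nat.sqrt t * Nat.sqrt t ≤ t := Nat.sqrt_le t
  have h4 : t + 1 ≤ (Nat.sqrt t + 1) * (Nat.sqrt t + 1) := Nat.lt_succ_sqrt t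
  refine ⟨?_, ?_, Nat.le_add_left 1 _⟩
  · apply Real.le_sqrt_of_sq_le
    have h5 : (Nat.sqrt t * (i + 1)) ^ 2 ≤ (L + 1) * (i + 1) := by
      calc (Nat.sqrt t * (i + 1)) ^ 2 = (Nat.sqrt t * Nat.sqrt t) * (i + 1) * (i + 1) := by ring
        _ ≤ t * (i + 1) * (i + 1) := by gcongr
        _ ≤ (L + 1) * (i + 1) := by gcongr
    exact_mod_cast h5
  · rw [Real.sqrt_le_left (by positivity)]
    rw [div_le_iff₀ (by positivity)]
    have h5 : (L + 1) ≤ (Nat.sqrt t + 1) ^ 2 * (i + 1) := by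
      calc L + 1 ≤ (t + 1) * (i + 1) := h2.le
        _ ≤ ((Nat.sqrt t + 1) * (Nat.sqrt t + 1)) * (i + 1) := by gcongr
        _ = (Nat.sqrt t + 1) ^ 2 * (i + 1) := by ring
    exact_mod_cast h5

end Pool.Agent.W_a617e8_h51
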