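import Pool.Agent.W_a617e8_h51.C1

set_option autoImplicit false

/-! C1b: tiny parts, budgets, Chebyshev. -/

noncomputable section

namespace Pool.Agent.W_a617e8_h51

/-- The part of `x` made of the primes of level `≥ iz L`. -/
def C1b_r (L x : ℕ) : ℕ :=
  ∏ p ∈ x.primeFactors.filter (fun p => ¬ lev p < iz L), p ^ (x.factorization p)

theorem C1b_split (L x : ℕ) (hx : x ≠ 0) : tp L x * C1b_r L x = x := by
  unfold tp C1b_r
  rw [Finset.prod_filter_mul_prod_filter_not]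
  exact Nat.factorization_prod_pow_eq_self hx

theorem tp_dvd (L x : ℕ) (hx : x ≠ 0) : tp L x ∣ x ∧ tp L x ≠ 0 := by
  have h := C1b_split L x hx
  refine ⟨⟨_, h.symm⟩, ?_⟩
  intro h0
  rw [h0, zero_mul] at h
  exact hx h.symm

/-- The prime factors of `x / tp L x` are those of `x` of level `≥ iz L`. -/
theorem primeFactors_div_tp (L x : ℕ) (hx : x ≠ 0) :
    (x / tp L x).primeFactors = x.primeFactors.filter (fun p => iz L ≤ lev p) := by
  have h := C1b_split L x hx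
  have ht := (tp_dvd L x hx).2
  have hdiv : x / tp L x = C1b_r L x :=
    Nat.div_eq_of_eq_mul_right (Nat.pos_of_ne_zero ht) h.symm
  have hr : C1b_r L x ≠ 0 := by
    intro h0
    rw [h0, mul_zero] at h
    exact hx h.symm
  rw [hdiv]
  ext p
  rw [Nat.mem_primeFactors, Finset.mem_filter, Nat.mem_primeFactors]
  constructor
  · rintro ⟨hp, hpr, _⟩
    have h1 := hpr
    unfold C1b_r at h1
    obtain ⟨q, hq, hpq⟩ := (hp.prime.dvd_finset_prod_iff _).1 h1
    rw [Finset.mem_filter, Nat.mem_primeFactors] at hq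
    have h2 : p = q := (Nat.prime_dvd_prime_iff_eq hp hq.1.1).1 (hp.dvd_of_dvd_pow hpq)
    subst h2
    exact ⟨hq.1, not_lt.1 hq.2⟩
  · rintro ⟨⟨hp, hpx, _⟩, hl⟩
    refine ⟨hp, ?_, hr⟩
    unfold C1b_r
    have h1 : p ∈ x.primeFactors.filter (fun p => ¬ lev p < iz L) := by
      rw [Finset.mem_filter, Nat.mem_primeFactors]
      exact ⟨⟨hp, hpx, hx⟩, not_lt.2 hl⟩
    refine dvd_trans ?_ (Finset.dvd_prod_of_mem _ h1)
    exact dvd_pow_self p (hp.factorization_pos_of_dvd hx hpx).ne'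

theorem C1b_mem_Mt {L : ℕ} {ld : ℕ → ℕ} {I x m : ℕ} : m ∈ Mt L ld I x ↔
    ∃ p, p.Prime ∧ p ∣ x ∧ x ≠ 0 ∧ iz L ≤ lev p ∧ lev p < I ∧ ld p = m := by
  unfold Mt
  rw [Finset.mem_image]
  constructor
  · rintro ⟨p, hp, hpm⟩
    rw [Finset.mem_filter, Nat.mem_primeFactors] at hp
    exact ⟨p, hp.1.1, hp.1.2.1, hp.1.2.2, hp.2.1, hp.2.2, hpm⟩
  · rintro ⟨p, h1, h2, h3, h4, h5, h6⟩
    exact ⟨p, Finset.mem_filter.2 ⟨Nat.mem_primeFactors.2 ⟨h1, h2, h3⟩, h4, h5⟩, h6⟩

/-- `Mt` only depends on the multiset of the `ld`-values of the prime factors of level `≥ iz`. -/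
theorem Mt_congr {L : ℕ} {ld : ℕ → ℕ} (hG : Grouping (gsz L) ld) {x y : ℕ} (hx : x ≠ 0)
    (h : (y.primeFactorsList : Multiset ℕ).map ld =
      ((x / tp L x).primeFactorsList : Multiset ℕ).map ld) (I : ℕ) :
    Mt L ld I y = Mt L ld I x := by
  ext m
  rw [C1b_mem_Mt, C1b_mem_Mt]
  constructor
  · rintro ⟨p, hp, hpy, hy, hi, hI, rfl⟩
    have h1 : ld p ∈ ((y.primeFactorsList : Multiset ℕ)).map ld :=
      Multiset.mem_map.2 ⟨p, Multiset.mem_coe.2 ((Nat.mem_primeFactorsList hy).2 ⟨hp, hpy⟩), rfl⟩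
    rw [h] at h1
    obtain ⟨p', hp', he⟩ := Multiset.mem_map.1 h1
    have h2 : p' ∈ (x / tp L x).primeFactors :=
      Nat.mem_primeFactors_iff_mem_primeFactorsList.2 (Multiset.mem_coe.1 hp')
    rw [primeFactors_div_tp L x hx, Finset.mem_filter, Nat.mem_primeFactors] at h2
    have h3 : lev p' = lev p := by
      rw [← hG.lev_eq p' h2.1.1, he, hG.lev_eq p hp]
    exact ⟨p', h2.1.1, h2.1.2.1, hx, h2.2, h3 ▸ hI, he⟩
  · rintro ⟨p, hp, hpx, _, hi, hI, rfl⟩
    have h0 : p ∈ (x / tp L x).primeFactors := by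
      rw [primeFactors_div_tp L x hx, Finset.mem_filter, Nat.mem_primeFactors]
      exact ⟨⟨hp, hpx, hx⟩, hi⟩
    have h1 : ld p ∈ (((x / tp L x).primeFactorsList : Multiset ℕ)).map ld :=
      Multiset.mem_map.2 ⟨p, Multiset.mem_coe.2
        (Nat.mem_primeFactors_iff_mem_primeFactorsList.1 h0), rfl⟩
    rw [← h] at h1
    obtain ⟨p', hp', he⟩ := Multiset.mem_map.1 h1
    have h2 := Multiset.mem_coe.1 hp'
    have hp'' := Nat.prime_of_mem_primeFactorsList h2
    have h3 : lev p' = lev p := by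
      rw [← hG.lev_eq p' hp'', he, hG.lev_eq p hp]
    refine ⟨p', hp'', Nat.dvd_of_mem_primeFactorsList h2, ?_, h3 ▸ hi, h3 ▸ hI, he⟩
    rintro rfl
    simp at h2

/-- Chebyshev: `#PL i ≤ 4 * 2^i / (i + 1)`-type bound, here with the constant `8`.
Proof: the primes `p` of level `i ≥ 1` satisfy `2^i ≤ p`, so
`i log 2 * #PL i ≤ θ(2^(i+1)) ≤ log 4 * 2^(i+1)` (`Chebyshev.theta_le_log4_mul_x`), i.e.
`#PL i ≤ 4 * 2^i / i`, and `i + 1 ≤ 2 i`. For `i = 0`: `PL 0 = ∅`. -/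
theorem card_PL_le (i : ℕ) : ((PL i).card : ℝ) ≤ 8 * 2 ^ i / (i + 1) := by
  rcases Nat.eq_zero_or_pos i with rfl | hi
  · have : PL 0 = ∅ := by
      unfold PL
      rw [Finset.filter_eq_empty_iff]
      intro p hp hpp
      rw [Finset.mem_Ico] at hp
      have := hpp.two_le
      simp at hp
      omega
    rw [this, Finset.card_empty]
    norm_num
  · have hi1 : (1 : ℝ) ≤ i := by exact_mod_cast hi
    have hl2 : 0 < Real.log 2 := Real.log_pos (by norm_num)
    have h1 : ((PL i).card : ℝ) * (i * Real.log 2) ≤ Chebyshev.theta ((2 : ℝ) ^ (i + 1)) := by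
      have h2 : ((PL i).card : ℝ) * (i * Real.log 2) ≤ ∑ p ∈ PL i, Real.log p := by
        rw [← nsmul_eq_mul]
        apply Finset.card_nsmul_le_sum
        intro p hp
        have h3 := Finset.mem_Ico.1 (Finset.mem_filter.1 hp).1
        have h4 : (2 : ℝ) ^ i ≤ p := by exact_mod_cast h3.1
        have h5 := Real.log_le_log (by positivity) h4
        rw [Real.log_pow] at h5
        exact h5
      refine h2.trans ?_
      rw [Chebyshev.theta]
      apply Finset.sum_le_sum_of_subset_of_nonneg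
      · intro p hp
        have h3 := Finset.mem_filter.1 hp
        have h4 := Finset.mem_Ico.1 h3.1
        rw [Finset.mem_filter, Finset.mem_Ioc]
        refine ⟨⟨h3.2.pos, ?_⟩, h3.2⟩
        apply Nat.le_floor
        exact_mod_cast h4.2.le
      · intro p hp _
        have h3 := Finset.mem_filter.1 hp
        exact Real.log_nonneg (by exact_mod_cast h3.2.one_lt.le)
    have h2 := Chebyshev.theta_le_log4_mul_x (x := (2 : ℝ) ^ (i + 1)) (by positivity)
    have h3 : Real.log 4 = 2 * Real.log 2 := by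
      rw [show (4 : ℝ) = 2 ^ 2 by norm_num, Real.log_pow]
      norm_num
    rw [h3] at h2
    have h4 : ((PL i).card : ℝ) * i ≤ 4 * 2 ^ i := by
      have h5 : (((PL i).card : ℝ) * i) * Real.log 2 ≤ (4 * 2 ^ i) * Real.log 2 := by
        calc (((PL i).card : ℝ) * i) * Real.log 2 = ((PL i).card : ℝ) * (i * Real.log 2) := by ring
          _ ≤ 2 * Real.log 2 * 2 ^ (i + 1) := h1.trans h2
          _ = (4 * 2 ^ i) * Real.log 2 := by rw [pow_succ]; ring
      exact le_of_mul_le_mul_right h5 hl2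
    rw [le_div_iff₀ (by positivity)]
    have h6 : (0 : ℝ) ≤ ((PL i).card : ℝ) := Nat.cast_nonneg _
    nlinarith

/-- Number of leaders at a level, weighted: `#(image ld)/2^i ≤ 8/((i+1) gsz) + 2^(-i)`. -/
theorem leaders_le {L : ℕ} {ld : ℕ → ℕ} (hG : Grouping (gsz L) ld) (i : ℕ) :
    (((PL i).image ld).card : ℝ) / 2 ^ i ≤
      8 / Real.sqrt (((L : ℝ) + 1) * (i + 1)) + 1 / 2 ^ i := by
  have h1 := hG.num_le i
  have h2 := card_PL_le i
  obtain ⟨-, h3, h4⟩ := gsz_bounds L i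
  have hg : (0 : ℝ) < gsz L i := by exact_mod_cast h4
  have hi : (0 : ℝ) < (i : ℝ) + 1 := by positivity
  have hL : (0 : ℝ) < (L : ℝ) + 1 := by positivity
  have h5 : Real.sqrt (((L : ℝ) + 1) * (i + 1)) ≤ (i + 1) * gsz L i := by
    have h6 : Real.sqrt (((L : ℝ) + 1) * (i + 1)) = (i + 1) * Real.sqrt (((L : ℝ) + 1) / (i + 1)) := by
      have h7 : ((L : ℝ) + 1) * (i + 1) = (i + 1) ^ 2 * (((L : ℝ) + 1) / (i + 1)) := by
        field_simp
      rw [h7, Real.sqrt_mul (by positivity), Real.sqrt_sq hi.le]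
    rw [h6]
    exact mul_le_mul_of_nonneg_left h3 hi.le
  have h6 : 0 < Real.sqrt (((L : ℝ) + 1) * (i + 1)) := Real.sqrt_pos.2 (by positivity)
  calc (((PL i).image ld).card : ℝ) / 2 ^ i
      ≤ (((PL i).card : ℝ) / (gsz L i : ℝ) + 1) / 2 ^ i := by gcongr
    _ ≤ ((8 * 2 ^ i / (i + 1)) / (gsz L i : ℝ) + 1) / 2 ^ i := by gcongr
    _ = 8 / ((i + 1) * gsz L i) + 1 / 2 ^ i := by
        field_simp
    _ ≤ 8 / Real.sqrt (((L : ℝ) + 1) * (i + 1)) + 1 / 2 ^ i := by
        gcongr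

end Pool.Agent.W_a617e8_h51
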