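import Pool.Agent.W_a617e8_h51.C1b

set_option autoImplicit false

/-! C2: keys. -/

noncomputable section

namespace Pool.Agent.W_a617e8_h51

/-- `y` is a key of `x` at threshold `I`: `x = tp * (∏ q_m) * w`, `y = w * ∏ m`, where `m` runs over
the leaders of the groups met by `x` at levels in `[iz L, I)` and `q_m` is a prime factor of `x` in
the group of `m`. -/
def IsKey (L : ℕ) (ld : ℕ → ℕ) (I x y : ℕ) : Prop :=
  ∃ w : ℕ, ∃ q : ℕ → ℕ, (∀ m ∈ Mt L ld I x, (q m).Prime ∧ ld (q m) = m) ∧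
    x = tp L x * (∏ m ∈ Mt L ld I x, q m) * w ∧ y = w * ∏ m ∈ Mt L ld I x, m

theorem C2_mem_Mt {L : ℕ} {ld : ℕ → ℕ} {I x m : ℕ} : m ∈ Mt L ld I x ↔
    ∃ p, p.Prime ∧ p ∣ x ∧ x ≠ 0 ∧ iz L ≤ lev p ∧ lev p < I ∧ ld p = m := by
  unfold Mt
  rw [Finset.mem_image]
  constructor
  · rintro ⟨p, hp, hpm⟩
    rw [Finset.mem_filter, Nat.mem_primeFactors] at hp
    exact ⟨p, hp.1.1, hp.1.2.1, hp.1.2.2, hp.2.1, hp.2.2, hpm⟩
  · rintro ⟨p, h1, h2, h3, h4, h5, h6⟩
    exact ⟨p, Finset.mem_filter.2 ⟨Nat.mem_primeFactors.2 ⟨h1, h2, h3⟩, h4, h5⟩, h6⟩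

/-- Members of `Mt` are primes and leaders. -/
theorem C2_Mt_prime {L : ℕ} {ld : ℕ → ℕ} (hG : Grouping (gsz L) ld) {I x m : ℕ}
    (hm : m ∈ Mt L ld I x) : m.Prime ∧ ld m = m := by
  obtain ⟨p, hp, -, -, -, -, rfl⟩ := C2_mem_Mt.1 hm
  exact ⟨hG.prime p hp, hG.idem p hp⟩

/-- Keys exist.  Proof: choose `q m` = any prime factor of `x` with `ld (q m) = m` and level in
`[iz L, I)` (definition of `Mt`); the `q m` are pairwise distinct primes (distinct `ld`) dividing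
`x / tp L x` (`primeFactors_div_tp`), so their product divides it. -/
theorem exists_key {L : ℕ} {ld : ℕ → ℕ} (hG : Grouping (gsz L) ld) (I x : ℕ) (hx : x ≠ 0) :
    ∃ y, IsKey L ld I x y := by
  classical
  have h1 : ∀ m, ∃ q, m ∈ Mt L ld I x → (q.Prime ∧ ld q = m ∧ q ∈ (x / tp L x).primeFactors) := by
    intro m
    by_cases hm : m ∈ Mt L ld I x
    · obtain ⟨p, hp, hpx, -, hi, hI, hpm⟩ := C2_mem_Mt.1 hm
      refine ⟨p, fun _ => ⟨hp, hpm, ?_⟩⟩
      rw [primeFactors_div_tp L x hx, Finset.mem_filter, Nat.mem_primeFactors]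
      exact ⟨⟨hp, hpx, hx⟩, hi⟩
    · exact ⟨0, fun h => absurd h hm⟩
  choose q hq using h1
  obtain ⟨ht1, ht2⟩ := tp_dvd L x hx
  have hinj : Set.InjOn q (Mt L ld I x : Set ℕ) := by
    intro a ha b hb hab
    have e1 := (hq a ha).2.1
    have e2 := (hq b hb).2.1
    rw [← e1, ← e2, hab]
  have hdvd : (∏ m ∈ Mt L ld I x, q m) ∣ x / tp L x := by
    rw [← Finset.prod_image (f := fun p => p) (g := q) hinj]
    apply Finset.prod_primes_dvd
    · intro a ha
      obtain ⟨m, hm, rfl⟩ := Finset.mem_image.1 ha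
      exact (hq m hm).1.prime
    · intro a ha
      obtain ⟨m, hm, rfl⟩ := Finset.mem_image.1 ha
      exact Nat.dvd_of_mem_primeFactors (hq m hm).2.2
  obtain ⟨w, hw⟩ := hdvd
  refine ⟨w * ∏ m ∈ Mt L ld I x, m, w, q, fun m hm => ⟨(hq m hm).1, (hq m hm).2.1⟩, ?_, rfl⟩
  rw [mul_assoc, ← hw, Nat.mul_div_cancel' ht1]

theorem C2_pfl_prod (M : Finset ℕ) (f : ℕ → ℕ) (hf : ∀ m ∈ M, (f m).Prime) :
    ((∏ m ∈ M, f m).primeFactorsList : Multiset ℕ) = M.val.map f := by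
  classical
  induction M using Finset.induction_on with
  | empty => simp
  | insert a s ha ih =>
    rw [Finset.prod_insert ha, Finset.insert_val_of_notMem ha, Multiset.map_cons]
    have h1 : f a ≠ 0 := (hf a (Finset.mem_insert_self a s)).ne_zero
    have h2 : ∏ m ∈ s, f m ≠ 0 :=
      Finset.prod_ne_zero_iff.2 fun m hm => (hf m (Finset.mem_insert_of_mem hm)).ne_zero
    have h3 : ((f a * ∏ m ∈ s, f m).primeFactorsList : Multiset ℕ) =
        ((f a).primeFactorsList : Multiset ℕ) + ((∏ m ∈ s, f m).primeFactorsList : Multiset ℕ) := by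
      rw [Multiset.coe_add]
      exact Multiset.coe_eq_coe.2 (Nat.perm_primeFactorsList_mul h1 h2)
    rw [h3, ih fun m hm => hf m (Finset.mem_insert_of_mem hm),
      Nat.primeFactorsList_prime (hf a (Finset.mem_insert_self a s))]
    rfl

theorem C2_pfl_mul {a b : ℕ} (ha : a ≠ 0) (hb : b ≠ 0) :
    ((a * b).primeFactorsList : Multiset ℕ) =
      (a.primeFactorsList : Multiset ℕ) + (b.primeFactorsList : Multiset ℕ) := by
  rw [Multiset.coe_add]
  exact Multiset.coe_eq_coe.2 (Nat.perm_primeFactorsList_mul ha hb)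

/-- Multiset of `ld`-values of a key: `x / tp = (∏ q_m) w` and `y = (∏ m) w` have prime factor
multisets `{q_m} + factors w` and `{m} + factors w`, and `ld m = m = ld (q_m)`. -/
theorem key_map {L : ℕ} {ld : ℕ → ℕ} (hG : Grouping (gsz L) ld) {I x y : ℕ} (hx : x ≠ 0)
    (hk : IsKey L ld I x y) :
    y ≠ 0 ∧ (y.primeFactorsList : Multiset ℕ).map ld =
      ((x / tp L x).primeFactorsList : Multiset ℕ).map ld := by
  obtain ⟨w, q, hq, hxe, rfl⟩ := hk
  have hw : w ≠ 0 := by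
    rintro rfl
    rw [mul_zero] at hxe
    exact hx hxe
  have hM : ∏ m ∈ Mt L ld I x, m ≠ 0 :=
    Finset.prod_ne_zero_iff.2 fun m hm => (C2_Mt_prime hG hm).1.ne_zero
  have hQ : ∏ m ∈ Mt L ld I x, q m ≠ 0 :=
    Finset.prod_ne_zero_iff.2 fun m hm => (hq m hm).1.ne_zero
  obtain ⟨-, ht2⟩ := tp_dvd L x hx
  refine ⟨mul_ne_zero hw hM, ?_⟩
  have hdiv : x / tp L x = (∏ m ∈ Mt L ld I x, q m) * w := by
    have h0 : x = tp L x * ((∏ m ∈ Mt L ld I x, q m) * w) := by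
      rw [← mul_assoc]
      exact hxe
    exact Nat.div_eq_of_eq_mul_right (Nat.pos_of_ne_zero ht2) h0
  rw [hdiv, C2_pfl_mul hw hM, C2_pfl_mul hQ hw, Multiset.map_add, Multiset.map_add,
    C2_pfl_prod _ (fun m => m) (fun m hm => (C2_Mt_prime hG hm).1),
    C2_pfl_prod _ q (fun m hm => (hq m hm).1), Multiset.map_map, Multiset.map_map, add_comm]
  congr 1
  apply Multiset.map_congr rfl
  intro m hm
  have hm' : m ∈ Mt L ld I x := hm
  simp only [Function.comp_apply]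
  rw [(C2_Mt_prime hG hm').2, (hq m hm').2]

/-- In a key every group of level `< I` which is met contains its leader as a divisor of `y`. -/
theorem key_leader {L : ℕ} {ld : ℕ → ℕ} (hG : Grouping (gsz L) ld) {I x y : ℕ} (hx : x ≠ 0)
    (hk : IsKey L ld I x y) (p : ℕ) (hp : p.Prime) (hpy : p ∣ y) (hl : lev p < I) : ld p ∣ y := by
  obtain ⟨hy, hmap⟩ := key_map hG hx hk
  obtain ⟨w, q, hq, hxe, rfl⟩ := hk
  have h1 : ld p ∈ (((w * ∏ m ∈ Mt L ld I x, m).primeFactorsList : Multiset ℕ)).map ld := by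
    rw [Multiset.mem_map]
    exact ⟨p, Multiset.mem_coe.2 ((Nat.mem_primeFactorsList hy).2 ⟨hp, hpy⟩), rfl⟩
  rw [hmap, Multiset.mem_map] at h1
  obtain ⟨p', hp', he⟩ := h1
  have h2 : p' ∈ (x / tp L x).primeFactors := by
    rw [Nat.mem_primeFactors_iff_mem_primeFactorsList]
    exact Multiset.mem_coe.1 hp'
  rw [primeFactors_div_tp L x hx, Finset.mem_filter, Nat.mem_primeFactors] at h2
  have h3 : lev p' = lev p := by
    rw [← hG.lev_eq p' h2.1.1, he, hG.lev_eq p hp]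
  have h4 : ld p ∈ Mt L ld I x :=
    C2_mem_Mt.2 ⟨p', h2.1.1, h2.1.2.1, hx, h2.2, h3 ▸ hl, he⟩
  exact (Finset.dvd_prod_of_mem (fun m => m) h4).trans (Dvd.intro_left _ rfl)

end Pool.Agent.W_a617e8_h51
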