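import Pool.Agent.W_a617e8_h51.C2

set_option autoImplicit false

/-! C2b: the multiple attached to a key. -/

noncomputable section

namespace Pool.Agent.W_a617e8_h51

/-- The multiple used for a key. -/
def tau (L : ℕ) (ld : ℕ → ℕ) (s I y : ℕ) : ℕ :=
  y * (∏ m ∈ Mt L ld I y, PG ld m / m) * Fl L *
    (s / ((∏ m ∈ Mt L ld I y, PG ld m / m) * Fl L))

theorem C2b_Fl_pos (L : ℕ) : 0 < Fl L := by
  unfold Fl
  exact pow_pos (primorial_pos _) _

theorem C2b_PG_pos (ld : ℕ → ℕ) (m : ℕ) : 0 < PG ld m := by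
  unfold PG gr
  refine Finset.prod_pos fun q hq => ?_
  exact (mem_PL.1 (Finset.mem_filter.1 hq).1).1.pos

/-- The multiple hits `x` and is at least `s y / 2`.
Proof: put `P = ∏ PG m / m ≤ 2^(bud) ≤ 2^(L/2)` (`PG_div_le`; the budget of `y` is that of `x` as
`Mt L ld I y = Mt L ld I x`), `h = s / (P Fl)`, `1 ≤ h` because `P Fl ≤ 2^(L/2) 2^(L/4) ≤ s`.
`tau = w (∏ PG m) Fl h = x * j`, `j = (∏ PG m / q_m) (Fl / tp) h` and
`j ≤ P Fl h ≤ s` by `gr_dvd`.  Moreover `h ≥ s / (2 P Fl)` (real division), so `tau ≥ s y / 2`. -/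
theorem tau_spec {L s : ℕ} {ld : ℕ → ℕ} (hG : Grouping (gsz L) ld) (hs : 2 ^ L ≤ s)
    (hF : 4 * Nat.log 2 (Fl L) + 4 ≤ L) {I x y : ℕ} (hx : x ≠ 0) (ht : tp L x ∣ Fl L)
    (hk : IsKey L ld I x y) (hb : 2 * bud L ld I x ≤ L) :
    (∃ j, 1 ≤ j ∧ j ≤ s ∧ j * x = tau L ld s I y) ∧ s * y ≤ 2 * tau L ld s I y := by
  have hMt : Mt L ld I y = Mt L ld I x := Mt_congr hG hx (key_map hG hx hk).2 I
  obtain ⟨w, q, hq, hxe, hye⟩ := hk
  have hprime : ∀ m ∈ Mt L ld I x, m.Prime ∧ ld m = m := fun m hm => C2_Mt_prime hG hm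
  have hqgr : ∀ m ∈ Mt L ld I x, q m ∈ gr ld m := fun m hm =>
    (mem_gr hG (hprime m hm).1).2 (hq m hm)
  have hdm : ∀ m ∈ Mt L ld I x, m ∣ PG ld m := fun m hm =>
    (PG_div_le hG (hprime m hm).1 (hprime m hm).2).1
  have hdq : ∀ m ∈ Mt L ld I x, q m ∣ PG ld m := fun m hm =>
    (gr_dvd hG (hprime m hm).1 (hqgr m hm)).1
  have hFl := C2b_Fl_pos L
  unfold tau
  rw [hMt]
  set P := ∏ m ∈ Mt L ld I x, PG ld m / m with hP
  set Q := ∏ m ∈ Mt L ld I x, PG ld m / q m with hQ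
  set D := P * Fl L with hD
  have hPpos : 0 < P := Finset.prod_pos fun m hm =>
    Nat.div_pos (Nat.le_of_dvd (C2b_PG_pos ld m) (hdm m hm)) (hprime m hm).1.pos
  have hQpos : 0 < Q := Finset.prod_pos fun m hm =>
    Nat.div_pos (Nat.le_of_dvd (C2b_PG_pos ld m) (hdq m hm)) (hq m hm).1.pos
  have hQP : Q ≤ P := Finset.prod_le_prod' fun m hm =>
    (gr_dvd hG (hprime m hm).1 (hqgr m hm)).2.2
  have hDpos : 0 < D := Nat.mul_pos hPpos hFl
  have hPle : P ≤ 2 ^ bud L ld I x := by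
    unfold bud
    rw [← Finset.prod_pow_eq_pow_sum]
    exact Finset.prod_le_prod' fun m hm => (PG_div_le hG (hprime m hm).1 (hprime m hm).2).2
  have hFle : Fl L ≤ 2 ^ (Nat.log 2 (Fl L) + 1) :=
    (Nat.lt_pow_succ_log_self (by norm_num) (Fl L)).le
  have hDs : D ≤ s := by
    calc D ≤ 2 ^ bud L ld I x * 2 ^ (Nat.log 2 (Fl L) + 1) := Nat.mul_le_mul hPle hFle
      _ = 2 ^ (bud L ld I x + (Nat.log 2 (Fl L) + 1)) := (pow_add _ _ _).symm
      _ ≤ 2 ^ L := Nat.pow_le_pow_right (by norm_num) (by omega)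
      _ ≤ s := hs
  set h := s / D with hh
  have hh1 : 1 ≤ h := Nat.div_pos hDs hDpos
  have hDh : D * h ≤ s := Nat.mul_div_le s D
  obtain ⟨f, hf⟩ := ht
  have htp : tp L x ≠ 0 := (tp_dvd L x hx).2
  have hfpos : 0 < f := by
    rcases Nat.eq_zero_or_pos f with rfl | h0
    · rw [mul_zero] at hf
      omega
    · exact h0
  have hfle : f ≤ Fl L := by
    rw [hf]
    exact Nat.le_mul_of_pos_left f (Nat.pos_of_ne_zero htp)
  have hmP : (∏ m ∈ Mt L ld I x, m) * P = ∏ m ∈ Mt L ld I x, PG ld m := by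
    rw [hP, ← Finset.prod_mul_distrib]
    exact Finset.prod_congr rfl fun m hm => Nat.mul_div_cancel' (hdm m hm)
  have hqQ : (∏ m ∈ Mt L ld I x, q m) * Q = ∏ m ∈ Mt L ld I x, PG ld m := by
    rw [hQ, ← Finset.prod_mul_distrib]
    exact Finset.prod_congr rfl fun m hm => Nat.mul_div_cancel' (hdq m hm)
  constructor
  · refine ⟨Q * f * h, ?_, ?_, ?_⟩
    · exact Nat.mul_pos (Nat.mul_pos hQpos hfpos) hh1
    · calc Q * f * h ≤ P * Fl L * h := Nat.mul_le_mul_right _ (Nat.mul_le_mul hQP hfle)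
        _ ≤ s := hDh
    · calc Q * f * h * x = Q * f * h * (tp L x * (∏ m ∈ Mt L ld I x, q m) * w) := by
            rw [← hxe]
        _ = ((∏ m ∈ Mt L ld I x, q m) * Q) * w * (tp L x * f) * h := by ring
        _ = ((∏ m ∈ Mt L ld I x, m) * P) * w * Fl L * h := by rw [hqQ, hmP, ← hf]
        _ = y * P * Fl L * h := by rw [hye]; ring
  · have h2 : s ≤ 2 * (D * h) := by
      have h3 := Nat.lt_mul_div_succ s hDpos
      have h4 : D * (s / D + 1) = D * h + D := by rw [← hh]; ring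
      rw [h4] at h3
      have h5 : D ≤ D * h := Nat.le_mul_of_pos_right D hh1
      omega
    calc s * y ≤ 2 * (D * h) * y := Nat.mul_le_mul_right _ h2
      _ = 2 * (y * P * Fl L * h) := by rw [hD]; ring

end Pool.Agent.W_a617e8_h51
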