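import Pool.Agent.W_a617e8_h51.Defs

set_option autoImplicit false

/-! C3: cost of sets. -/

noncomputable section

open scoped ENNReal

namespace Pool.Agent.W_a617e8_h51

theorem cst_union_le (s : ℕ) (A B : Set ℕ) : cst s (A ∪ B) ≤ cst s A + cst s B := by
  unfold cst
  rw [← ENNReal.tsum_add]
  refine ENNReal.tsum_le_tsum fun t => ?_
  by_cases hA : t ∈ A
  · rw [if_pos (Set.mem_union_left B hA), if_pos hA]
    exact le_self_add
  · by_cases hB : t ∈ B
    · rw [if_pos (Set.mem_union_right A hB), if_neg hA, if_pos hB, zero_add]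
    · rw [if_neg (show t ∉ A ∪ B by rintro (h | h) <;> contradiction)]
      exact bot_le

theorem cst_mono (s : ℕ) {A B : Set ℕ} (h : A ⊆ B) : cst s A ≤ cst s B := by
  unfold cst
  refine ENNReal.tsum_le_tsum fun t => ?_
  by_cases hA : t ∈ A
  · rw [if_pos hA, if_pos (h hA)]
  · rw [if_neg hA]
    exact bot_le

/-- Cost of an image: `∑_{t ∈ f(I)} s/t ≤ ∑_{i ∈ I} s / f(i)`. -/
theorem cst_image_le (s : ℕ) {ι : Type} (I : Set ι) (f : ι → ℕ) :
    cst s (f '' I) ≤ ∑' i : I, (s : ℝ≥0∞) / (f i : ℝ≥0∞) := by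
  classical
  have h1 : cst s (f '' I) = ∑' t : (f '' I : Set ℕ), (s : ℝ≥0∞) / ((t : ℕ) : ℝ≥0∞) := by
    rw [tsum_subtype (f '' I) (fun t : ℕ => (s : ℝ≥0∞) / (t : ℝ≥0∞))]
    unfold cst
    refine tsum_congr fun t => ?_
    by_cases ht : t ∈ f '' I
    · rw [if_pos ht, Set.indicator_of_mem ht]
    · rw [if_neg ht, Set.indicator_of_notMem ht]
  rw [h1]
  have hex : ∀ t : (f '' I : Set ℕ), ∃ i : I, f i = t := by
    rintro ⟨t, i, hi, rfl⟩
    exact ⟨⟨i, hi⟩, rfl⟩
  choose g hg using hex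
  have hinj : Function.Injective g := by
    intro a b hab
    apply Subtype.ext
    rw [← hg a, ← hg b, hab]
  calc ∑' t : (f '' I : Set ℕ), (s : ℝ≥0∞) / ((t : ℕ) : ℝ≥0∞)
      = ∑' t : (f '' I : Set ℕ), (fun i : I => (s : ℝ≥0∞) / (f i : ℝ≥0∞)) (g t) := by
        refine tsum_congr fun t => ?_
        show _ = (s : ℝ≥0∞) / (f (g t) : ℝ≥0∞)
        rw [hg t]
    _ ≤ ∑' i : I, (s : ℝ≥0∞) / (f i : ℝ≥0∞) := ENNReal.tsum_comp_le_tsum_of_injective hinj _

theorem Hit_mono {s : ℕ} {A B : Set ℕ} (h : A ⊆ B) {u : ℕ} (hA : Hit s A u) : Hit s B u := by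
  obtain ⟨j, h1, h2, h3⟩ := hA
  exact ⟨j, h1, h2, h h3⟩

private theorem tail_sum (s t : ℕ) (ht : 0 < t) (N : ℕ) :
    (s * N < t → ∑ n ∈ Finset.range N,
      (if t ≤ s * (n + 1) then (1 : ℝ) / (((n + 1) * (n + 2) : ℕ) : ℝ) else 0) ≤ 0) ∧
    (t ≤ s * N → ∑ n ∈ Finset.range N,
      (if t ≤ s * (n + 1) then (1 : ℝ) / (((n + 1) * (n + 2) : ℕ) : ℝ) else 0)
        ≤ (s : ℝ) / t - 1 / ((N : ℝ) + 1)) := by
  induction N with
  | zero =>
    refine ⟨fun _ => by simp, fun h => ?_⟩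
    exfalso
    rw [Nat.mul_zero] at h
    omega
  | succ N ih =>
    obtain ⟨ih1, ih2⟩ := ih
    constructor
    · intro h
      rw [Finset.sum_range_succ, if_neg (by omega), add_zero]
      exact ih1 (by nlinarith)
    · intro h
      rw [Finset.sum_range_succ, if_pos h]
      have e : (1 : ℝ) / (((N + 1) * (N + 2) : ℕ) : ℝ) = 1 / ((N : ℝ) + 1) - 1 / ((N : ℝ) + 1 + 1) := by
        push_cast
        field_simp
        ring
      rw [e, Nat.cast_add_one]
      by_cases hlt : s * N < t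
      · have h3 := ih1 hlt
        have h4 : (1 : ℝ) / ((N : ℝ) + 1) ≤ (s : ℝ) / t := by
          rw [div_le_div_iff₀ (by positivity) (by exact_mod_cast ht), one_mul]
          exact_mod_cast h
        linarith
      · have h3 := ih2 (by omega)
        linarith

private theorem tail_le (s t : ℕ) (ht : 0 < t) :
    ∑' n : ℕ, (if t ≤ s * (n + 1) then (1 : ℝ≥0∞) / (((n + 1) * (n + 2) : ℕ) : ℝ≥0∞) else 0)
      ≤ (s : ℝ≥0∞) / (t : ℝ≥0∞) := by
  refine ENNReal.tsum_le_of_sum_range_le fun N => ?_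
  have h1 : ∑ n ∈ Finset.range N,
      (if t ≤ s * (n + 1) then (1 : ℝ≥0∞) / (((n + 1) * (n + 2) : ℕ) : ℝ≥0∞) else 0) =
      ENNReal.ofReal (∑ n ∈ Finset.range N,
        (if t ≤ s * (n + 1) then (1 : ℝ) / (((n + 1) * (n + 2) : ℕ) : ℝ) else 0)) := by
    rw [ENNReal.ofReal_sum_of_nonneg]
    · refine Finset.sum_congr rfl fun n _ => ?_
      by_cases h : t ≤ s * (n + 1)
      · rw [if_pos h, if_pos h, ENNReal.ofReal_div_of_pos (by positivity), ENNReal.ofReal_one,
          ENNReal.ofReal_natCast]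
      · rw [if_neg h, if_neg h, ENNReal.ofReal_zero]
    · intro n _
      split_ifs
      · positivity
      · exact le_rfl
  rw [h1]
  have htr : (0 : ℝ) < t := by exact_mod_cast ht
  have h2 : (s : ℝ≥0∞) / (t : ℝ≥0∞) = ENNReal.ofReal ((s : ℝ) / t) := by
    rw [ENNReal.ofReal_div_of_pos htr, ENNReal.ofReal_natCast, ENNReal.ofReal_natCast]
  rw [h2]
  apply ENNReal.ofReal_le_ofReal
  obtain ⟨ih1, ih2⟩ := tail_sum s t ht N
  by_cases hlt : s * N < t
  · exact (ih1 hlt).trans (by positivity)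
  · refine (ih2 (by omega)).trans ?_
    have : (0 : ℝ) < 1 / ((N : ℝ) + 1) := by positivity
    linarith

private theorem NN_le (s : ℕ) (T : Set ℕ) (h : ∀ u, Smooth s u → Hit s T u) (n : ℕ) :
    open Classical in
    (NN s n : ℝ≥0∞) ≤ ∑' t : ℕ, (if t ∈ T ∧ t ≤ s * n then (1 : ℝ≥0∞) else 0) := by
  classical
  set F : Finset ℕ := (Finset.range (s * n + 1)).filter (fun t => t ∈ T) with hF
  have h1 : NN s n ≤ F.card := by
    unfold NN
    refine Nat.sInf_le ⟨F, ?_, rfl⟩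
    intro u hu hun
    obtain ⟨j, hj1, hj2, hj3⟩ := h u hu
    refine ⟨j, hj1, hj2, ?_⟩
    rw [Finset.mem_coe, hF, Finset.mem_filter, Finset.mem_range]
    refine ⟨?_, hj3⟩
    have : j * u ≤ s * n := Nat.mul_le_mul hj2 hun
    omega
  have h2 : (F.card : ℝ≥0∞) = ∑ t ∈ F, (if t ∈ T ∧ t ≤ s * n then (1 : ℝ≥0∞) else 0) := by
    rw [Finset.card_eq_sum_ones]
    push_cast
    refine Finset.sum_congr rfl fun t ht => ?_
    rw [hF, Finset.mem_filter, Finset.mem_range] at ht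
    rw [if_pos ⟨ht.2, by omega⟩]
  calc (NN s n : ℝ≥0∞) ≤ (F.card : ℝ≥0∞) := by exact_mod_cast h1
    _ = _ := h2
    _ ≤ _ := ENNReal.sum_le_tsum F

/-- `GG` is at most the cost of any set hitting all smooth numbers.
Proof: we may drop `0` from `T`.  `NN s n ≤ #{t ∈ T : t ≤ s n}` if this is finite-cost; with
`∑_{n ≥ t/s} 1/(n(n+1)) ≤ s/t` (telescoping; for `t ≤ s` use that the full sum is `1 ≤ s/t`) and
Tonelli for `ℝ≥0∞`. (`t ≤ s n` is a finite set, so it may be used as the finite set in `NN`.) -/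
theorem GG_le_cst (s : ℕ) (hs : 1 ≤ s) (T : Set ℕ) (h0 : 0 ∉ T)
    (h : ∀ u, Smooth s u → Hit s T u) : GG s ≤ cst s T := by
  classical
  have _ := hs
  calc GG s ≤ ∑' n : ℕ, (∑' t : ℕ, (if t ∈ T ∧ t ≤ s * (n + 1) then (1 : ℝ≥0∞) else 0)) /
        (((n + 1) * (n + 2) : ℕ) : ℝ≥0∞) := by
        unfold GG
        refine ENNReal.tsum_le_tsum fun n => ?_
        have := NN_le s T h (n + 1)
        gcongr
    _ = ∑' n : ℕ, ∑' t : ℕ, (if t ∈ T ∧ t ≤ s * (n + 1) then (1 : ℝ≥0∞) else 0) /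
        (((n + 1) * (n + 2) : ℕ) : ℝ≥0∞) := by
        refine tsum_congr fun n => ?_
        simp only [div_eq_mul_inv]
        rw [ENNReal.tsum_mul_right]
    _ = ∑' t : ℕ, ∑' n : ℕ, (if t ∈ T ∧ t ≤ s * (n + 1) then (1 : ℝ≥0∞) else 0) /
        (((n + 1) * (n + 2) : ℕ) : ℝ≥0∞) := ENNReal.tsum_comm
    _ ≤ cst s T := by
        unfold cst
        refine ENNReal.tsum_le_tsum fun t => ?_
        by_cases ht : t ∈ T
        · rw [if_pos ht]
          have htpos : 0 < t := by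
            rcases Nat.eq_zero_or_pos t with rfl | hp
            · exact absurd ht h0
            · exact hp
          refine le_trans (le_of_eq ?_) (tail_le s t htpos)
          refine tsum_congr fun n => ?_
          by_cases hn : t ≤ s * (n + 1)
          · rw [if_pos ⟨ht, hn⟩, if_pos hn]
          · rw [if_neg (fun hh => hn hh.2), if_neg hn, ENNReal.zero_div]
        · rw [if_neg ht]
          refine le_of_eq ?_
          refine ENNReal.tsum_eq_zero.2 fun n => ?_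
          rw [if_neg (fun hh => ht hh.1), ENNReal.zero_div]

end Pool.Agent.W_a617e8_h51
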