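import Pool.Agent.W_a617e8_h51.C3
import Pool.Agent.W_a617e8_h51.C2b

set_option autoImplicit false

/-! C3b: the crude cover. -/

noncomputable section

open scoped ENNReal

namespace Pool.Agent.W_a617e8_h51

/-- Key relation at stage `j`: `y` is a key of `x` at threshold `thr L j` and the budgets of the
earlier stages are exceeded. -/
def KeyRel (L : ℕ) (ld : ℕ → ℕ) (j x y : ℕ) : Prop :=
  IsKey L ld (thr L j) x y ∧ ∀ i < j, L < 2 * bud L ld (thr L i) x

theorem C3b_exists_stage (L : ℕ) (ld : ℕ → ℕ) (x : ℕ) :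
    ∃ j, 2 * bud L ld (thr L j) x ≤ L := by
  refine ⟨L, ?_⟩
  have h1 : thr L L = 1 := by
    unfold thr
    rw [Nat.div_eq_of_lt (Nat.lt_pow_self (by norm_num))]
  have h2 : Mt L ld (thr L L) x = ∅ := by
    rw [h1, Finset.eq_empty_iff_forall_notMem]
    intro m hm
    obtain ⟨p, -, -, -, h3, h4, -⟩ := C2_mem_Mt.1 hm
    have : 1 ≤ iz L := by
      unfold iz
      omega
    omega
  unfold bud
  rw [h2, Finset.sum_empty]
  omega

open Classical in
/-- **Crude cover.**  Every set `E` of smooth numbers with tiny part dividing `Fl L` is hit by a set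
of cost `≤ ∑_j ∑_{y key at stage j of some x ∈ E} 2/y`.
Proof: for `x ∈ E` let `j` be minimal with `2 bud (thr L j) x ≤ L` (exists: for large `j`,
`thr L j = 1 ≤ iz L`, so `Mt` is empty), `y` a key (`exists_key`); put `tau L ld s (thr L j) y` in
`T`.  `tau_spec` gives `Hit` and `s / tau ≤ 2 / y`.  The elements of `T` are indexed by the pairs
`(j, y)`. -/
theorem crude_cover {L s : ℕ} {ld : ℕ → ℕ} (hG : Grouping (gsz L) ld) (hs : 2 ^ L ≤ s)
    (hF : 4 * Nat.log 2 (Fl L) + 4 ≤ L) (E : Set ℕ)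
    (hE : ∀ x ∈ E, Smooth s x ∧ tp L x ∣ Fl L) :
    ∃ T : Set ℕ, 0 ∉ T ∧ (∀ x ∈ E, Hit s T x) ∧
      cst s T ≤ ∑' j : ℕ, ∑' y : ℕ,
        if ∃ x ∈ E, KeyRel L ld j x y then (2 : ℝ≥0∞) / (y : ℝ≥0∞) else 0 := by
  set I : Set (ℕ × ℕ) := {i | ∃ x ∈ E, KeyRel L ld i.1 x i.2 ∧
    2 * bud L ld (thr L i.1) x ≤ L} with hI
  set f : ℕ × ℕ → ℕ := fun i => tau L ld s (thr L i.1) i.2 with hf
  have hspos : 0 < s := lt_of_lt_of_le (by positivity) hs
  have key : ∀ i ∈ I, i.2 ≠ 0 ∧ s * i.2 ≤ 2 * f i := by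
    rintro i ⟨x, hxE, hk, hb⟩
    have hx := (hE x hxE).1.1
    exact ⟨(key_map hG hx hk.1).1, (tau_spec hG hs hF hx (hE x hxE).2 hk.1 hb).2⟩
  refine ⟨f '' I, ?_, ?_, ?_⟩
  · rintro ⟨i, hi, h0⟩
    obtain ⟨h1, h2⟩ := key i hi
    rw [h0, mul_zero] at h2
    have := Nat.mul_pos hspos (Nat.pos_of_ne_zero h1)
    omega
  · intro x hxE
    have hx := (hE x hxE).1.1
    have hex := C3b_exists_stage L ld x
    obtain ⟨y, hy⟩ := exists_key hG (thr L (Nat.find hex)) x hx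
    have hb := Nat.find_spec hex
    have hk : KeyRel L ld (Nat.find hex) x y :=
      ⟨hy, fun i hi => not_le.1 (Nat.find_min hex hi)⟩
    obtain ⟨⟨j, hj1, hj2, hj3⟩, -⟩ := tau_spec hG hs hF hx (hE x hxE).2 hy hb
    exact ⟨j, hj1, hj2, (Nat.find hex, y), ⟨x, hxE, hk, hb⟩, hj3.symm⟩
  · refine (cst_image_le s I f).trans ?_
    rw [← ENNReal.tsum_prod (f := fun j y : ℕ =>
      if ∃ x ∈ E, KeyRel L ld j x y then (2 : ℝ≥0∞) / (y : ℝ≥0∞) else 0),
      tsum_subtype I (fun i => (s : ℝ≥0∞) / (f i : ℝ≥0∞))]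
    refine ENNReal.tsum_le_tsum fun i => ?_
    by_cases hi : i ∈ I
    · rw [Set.indicator_of_mem hi]
      obtain ⟨h1, h2⟩ := key i hi
      have h3 : ∃ x ∈ E, KeyRel L ld i.1 x i.2 := by
        obtain ⟨x, hxE, hk, -⟩ := hi
        exact ⟨x, hxE, hk⟩
      rw [if_pos h3]
      have hf0 : f i ≠ 0 := by
        intro h0
        rw [h0, mul_zero] at h2
        have := Nat.mul_pos hspos (Nat.pos_of_ne_zero h1)
        omega
      rw [ENNReal.div_le_iff (by exact_mod_cast hf0) (ENNReal.natCast_ne_top _),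
        ← ENNReal.mul_div_right_comm, ENNReal.le_div_iff_mul_le (Or.inl (by exact_mod_cast h1))
        (Or.inl (ENNReal.natCast_ne_top _))]
      exact_mod_cast h2
    · rw [Set.indicator_of_notMem hi]
      exact zero_le

end Pool.Agent.W_a617e8_h51
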