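import Pool.Agent.W_a617e8_h51.Defs

set_option autoImplicit false

/-! D0: multiplicative weights. -/

noncomputable section

open scoped ENNReal

namespace Pool.Agent.W_a617e8_h51

/-- Multiplicative extension of `h` (with multiplicity). -/
def hp (h : ℕ → ℝ) (y : ℕ) : ℝ := (y.primeFactorsList.map h).prod

/-- Weight `hp h y / y`. -/
def wt (h : ℕ → ℝ) (y : ℕ) : ℝ := hp h y / y

theorem hp_mul (h : ℕ → ℝ) {x y : ℕ} (hx : x ≠ 0) (hy : y ≠ 0) : hp h (x * y) = hp h x * hp h y := by
  unfold hp
  rw [((Nat.perm_primeFactorsList_mul hx hy).map h).prod_eq, List.map_append, List.prod_append]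

theorem hp_prime (h : ℕ → ℝ) {p : ℕ} (hp' : p.Prime) : hp h p = h p := by
  unfold hp
  rw [Nat.primeFactorsList_prime hp', List.map_singleton, List.prod_singleton]

theorem hp_fun_mul (h k : ℕ → ℝ) (y : ℕ) : hp (fun p => h p * k p) y = hp h y * hp k y := by
  unfold hp
  exact List.prod_map_mul

theorem hp_one_le {h : ℕ → ℝ} (hh : ∀ p, 1 ≤ h p) (y : ℕ) : 1 ≤ hp h y := by
  unfold hp
  induction y.primeFactorsList with
  | nil => simp
  | cons a l ih =>
    rw [List.map_cons, List.prod_cons]
    exact one_le_mul_of_one_le_of_one_le (hh a) ih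

theorem hp_nonneg {h : ℕ → ℝ} (hh : ∀ p, 0 ≤ h p) (y : ℕ) : 0 ≤ hp h y := by
  unfold hp
  induction y.primeFactorsList with
  | nil => simp
  | cons a l ih =>
    rw [List.map_cons, List.prod_cons]
    exact mul_nonneg (hh a) ih

/-- If `h` only depends on `ld` (`h p = k (ld p)` for primes) then `hp h` only depends on the
multiset of `ld`-values. -/
theorem hp_congr {h k : ℕ → ℝ} {ld : ℕ → ℕ} (hk : ∀ p : ℕ, p.Prime → h p = k (ld p)) {x y : ℕ}
    (e : (y.primeFactorsList : Multiset ℕ).map ld = (x.primeFactorsList : Multiset ℕ).map ld) :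
    hp h y = hp h x := by
  have key : ∀ z : ℕ, hp h z = (((z.primeFactorsList : Multiset ℕ).map ld).map k).prod := by
    intro z
    unfold hp
    rw [Multiset.map_map, Multiset.map_coe, Multiset.prod_coe]
    congr 1
    apply List.map_congr_left
    intro p hpz
    exact hk p (Nat.prime_of_mem_primeFactorsList hpz)
  rw [key, key, e]

end Pool.Agent.W_a617e8_h51
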