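import Pool.Agent.W_a617e8_h51.D0
import Pool.Agent.W_a617e8_h51.C3b

set_option autoImplicit false

/-! D0b: weights of keys. -/

noncomputable section

open scoped ENNReal

namespace Pool.Agent.W_a617e8_h51

theorem D0b_exp (g : ℕ → ℝ) (y : ℕ) :
    hp (fun p => Real.exp (g p)) y = Real.exp ((y.primeFactorsList.map g).sum) := by
  unfold hp
  rw [Real.exp_list_sum, List.map_map]
  rfl

theorem D0b_sum_le (g : ℕ → ℝ) (hg : ∀ p, 0 ≤ g p) (y : ℕ) :
    ∑ p ∈ y.primeFactors, g p ≤ (y.primeFactorsList.map g).sum := by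
  rw [Finset.sum_list_map_count]
  apply Finset.sum_le_sum
  intro p hp
  have h1 : 1 ≤ y.primeFactorsList.count p := by
    rw [Nat.succ_le_iff, List.count_pos_iff]
    exact Nat.mem_primeFactors_iff_mem_primeFactorsList.1 hp
  rw [nsmul_eq_mul]
  have h2 : (1 : ℝ) ≤ (y.primeFactorsList.count p : ℝ) := by exact_mod_cast h1
  nlinarith [hg p]

/-- For `h = exp ∘ φ`, `hp h y = exp (∑ φ)` over the prime factors with multiplicity, and this is at
least `exp` of the sum of `φ m` over a finset `M` of primes `m` with pairwise different `ld`-values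
each of which is met by `y`, when `φ ≥ 0` depends on the level only. -/
theorem hp_ge_of_Mt {L : ℕ} {ld : ℕ → ℕ} (hG : Grouping (gsz L) ld) (φ : ℕ → ℝ) (hφ : ∀ i, 0 ≤ φ i)
    (I y : ℕ) (hy : y ≠ 0) :
    Real.exp (∑ m ∈ Mt L ld I y, φ (lev m)) ≤ hp (fun p => Real.exp
      (if iz L ≤ lev p ∧ lev p < I then φ (lev p) else 0)) y := by
  rw [D0b_exp, Real.exp_le_exp]
  refine le_trans ?_ (D0b_sum_le _ (fun p => ?_) y)
  · rw [← Finset.sum_filter]
    unfold Mt
    rw [← Finset.sum_fiberwise_of_maps_to (s := y.primeFactors.filter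
      (fun p => iz L ≤ lev p ∧ lev p < I)) (t := (y.primeFactors.filter
      (fun p => iz L ≤ lev p ∧ lev p < I)).image ld) (g := ld)
      (fun p hp => Finset.mem_image_of_mem ld hp) (fun p => φ (lev p))]
    apply Finset.sum_le_sum
    intro m hm
    obtain ⟨p, hp, hpm⟩ := Finset.mem_image.1 hm
    have hpp : p.Prime := Nat.prime_of_mem_primeFactors (Finset.mem_filter.1 hp).1
    have h1 : φ (lev m) = φ (lev p) := by
      rw [← hpm, hG.lev_eq p hpp]
    rw [h1]
    exact Finset.single_le_sum (f := fun p => φ (lev p)) (fun q _ => hφ (lev q))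
      (Finset.mem_filter.2 ⟨hp, hpm⟩)
  · split_ifs
    · exact hφ _
    · exact le_rfl

/-- Numbers whose prime factors have levels in `[iz L, L]` and such that every met group of level
`< thr L j`, not in `R`, has its leader dividing `y`. -/
def KK (L : ℕ) (ld : ℕ → ℕ) (j : ℕ) (R : Finset ℕ) (y : ℕ) : Prop :=
  y ≠ 0 ∧ (∀ p : ℕ, p.Prime → p ∣ y → iz L ≤ lev p ∧ lev p ≤ L) ∧
    ∀ p : ℕ, p.Prime → p ∣ y → lev p < thr L j → ld p ∉ R → ld p ∣ y

/-- A key of a smooth number is in `KK` (levels: `lev q_m = lev m`, `p ≤ s < 2^(L+1)`). -/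
theorem KK_of_KeyRel {L s : ℕ} {ld : ℕ → ℕ} (hG : Grouping (gsz L) ld) (hs : s < 2 ^ (L + 1))
    {j x y : ℕ} (hx : Smooth s x) (hk : KeyRel L ld j x y) : KK L ld j ∅ y := by
  obtain ⟨hy, hmap⟩ := key_map hG hx.1 hk.1
  refine ⟨hy, fun p hp hpy => ?_, fun p hp hpy hl _ => key_leader hG hx.1 hk.1 p hp hpy hl⟩
  have h1 : ld p ∈ ((y.primeFactorsList : Multiset ℕ)).map ld :=
    Multiset.mem_map.2 ⟨p, Multiset.mem_coe.2 ((Nat.mem_primeFactorsList hy).2 ⟨hp, hpy⟩), rfl⟩
  rw [hmap] at h1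
  obtain ⟨p', hp', he⟩ := Multiset.mem_map.1 h1
  have h2 : p' ∈ (x / tp L x).primeFactors :=
    Nat.mem_primeFactors_iff_mem_primeFactorsList.2 (Multiset.mem_coe.1 hp')
  rw [primeFactors_div_tp L x hx.1, Finset.mem_filter, Nat.mem_primeFactors] at h2
  have h3 : lev p' = lev p := by
    rw [← hG.lev_eq p' h2.1.1, he, hG.lev_eq p hp]
  rw [← h3]
  refine ⟨h2.2, ?_⟩
  rw [lev_le_iff h2.1.1.ne_zero]
  exact (hx.2 p' h2.1.1 h2.1.2.1).trans_lt hs

end Pool.Agent.W_a617e8_h51
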