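import Pool.Agent.W_a617e8_h51.D0b

set_option autoImplicit false

/-! D1: Euler product bound for the sum of the weights over `KK`. -/

noncomputable section

open scoped ENNReal

namespace Pool.Agent.W_a617e8_h51

/-- Leaders of level in `[iz L, I)`, not in `R`. -/
def LD (L : ℕ) (ld : ℕ → ℕ) (I : ℕ) (R : Finset ℕ) : Finset ℕ :=
  ((Finset.Ico (iz L) I).biUnion fun i => (PL i).image ld) \ R

/-- Remaining primes: level in `[iz L, L]`, and level `≥ I` or group in `R`. -/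
def RP (L : ℕ) (ld : ℕ → ℕ) (I : ℕ) (R : Finset ℕ) : Finset ℕ :=
  ((Finset.Icc (iz L) L).biUnion PL).filter fun p => I ≤ lev p ∨ ld p ∈ R

/-- primes of level `i` -/
private theorem D1_mem_PL {p i : ℕ} : p ∈ PL i ↔ p.Prime ∧ lev p = i := by
  unfold PL lev
  rw [Finset.mem_filter, Finset.mem_Ico]
  constructor
  · rintro ⟨⟨h1, h2⟩, h3⟩
    exact ⟨h3, Nat.log_eq_of_pow_le_of_lt_pow h1 h2⟩
  · rintro ⟨h1, rfl⟩
    exact ⟨⟨Nat.pow_log_le_self 2 h1.ne_zero, Nat.lt_pow_succ_log_self (by norm_num) p⟩, h1⟩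

private theorem D1_wt_mul (h : ℕ → ℝ) {x y : ℕ} (hx : x ≠ 0) (hy : y ≠ 0) :
    wt h (x * y) = wt h x * wt h y := by
  unfold wt
  rw [hp_mul h hx hy, Nat.cast_mul, mul_div_mul_comm]

private theorem D1_wt_one (h : ℕ → ℝ) : wt h 1 = 1 := by
  unfold wt hp
  simp

private theorem D1_wt_nonneg {h : ℕ → ℝ} (h0 : ∀ p, 0 ≤ h p) (y : ℕ) : 0 ≤ wt h y :=
  div_nonneg (hp_nonneg h0 y) (Nat.cast_nonneg y)

private theorem D1_prod_ne {A : Finset ℕ} (hA : ∀ m ∈ A, m.Prime) : ∏ m ∈ A, m ≠ 0 :=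
  Finset.prod_ne_zero_iff.2 fun m hm => (hA m hm).ne_zero

private theorem D1_wt_prod (h : ℕ → ℝ) {A : Finset ℕ} (hA : ∀ m ∈ A, m.Prime) :
    wt h (∏ m ∈ A, m) = ∏ m ∈ A, h m / m := by
  classical
  induction A using Finset.induction_on with
  | empty => rw [Finset.prod_empty, Finset.prod_empty, D1_wt_one]
  | insert a A ha ih =>
    have h1 : ∀ m ∈ A, m.Prime := fun m hm => hA m (Finset.mem_insert_of_mem hm)
    have h2 : a.Prime := hA a (Finset.mem_insert_self a A)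
    rw [Finset.prod_insert ha, Finset.prod_insert ha, D1_wt_mul h h2.ne_zero (D1_prod_ne h1), ih h1]
    congr 1
    unfold wt
    rw [hp_prime h h2]

/-- the multiplicative function with weights cut to `F` -/
private def D1_f (h : ℕ → ℝ) : ℕ →* ℝ where
  toFun := wt h
  map_one' := D1_wt_one h
  map_mul' := by
    intro x y
    by_cases hx : x = 0
    · subst hx
      unfold wt
      simp
    by_cases hy : y = 0
    · subst hy
      unfold wt
      simp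
    exact D1_wt_mul h hx hy

private theorem D1_f_apply (h : ℕ → ℝ) (x : ℕ) : D1_f h x = wt h x := rfl

open Classical in
/-- Euler product over a finite set of primes -/
private theorem D1_euler {h : ℕ → ℝ} (h0 : ∀ p, 0 ≤ h p) {F : Finset ℕ} (hF : ∀ p ∈ F, p.Prime)
    (h1 : ∀ p ∈ F, h p / p ≤ 1 / 2) :
    (∑' w : ℕ, if w ∈ Nat.factoredNumbers F then ENNReal.ofReal (wt h w) else 0) =
      ENNReal.ofReal (∏ p ∈ F, (1 - h p / p)⁻¹) := by
  obtain ⟨h', hh'⟩ : ∃ h' : ℕ → ℝ, h' = fun p => if p ∈ F then h p else 0 := ⟨_, rfl⟩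
  have hval : ∀ p : ℕ, p.Prime → D1_f h' p = if p ∈ F then h p / p else 0 := by
    intro p hp
    rw [D1_f_apply]
    unfold wt
    rw [hp_prime h' hp, hh']
    beta_reduce
    split_ifs
    · rfl
    · rw [zero_div]
  have hlt : ∀ {p : ℕ}, p.Prime → ‖D1_f h' p‖ < 1 := by
    intro p hp
    rw [hval p hp]
    split_ifs with h2
    · rw [Real.norm_of_nonneg (div_nonneg (h0 p) (Nat.cast_nonneg p))]
      have := h1 p h2
      linarith
    · rw [norm_zero]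
      exact one_pos
  obtain ⟨hs, hsum⟩ :=
    EulerProduct.summable_and_hasSum_factoredNumbers_prod_filter_prime_geometric hlt F
  have h'0 : ∀ p, 0 ≤ h' p := by
    intro p
    rw [hh']
    dsimp only
    split_ifs
    · exact h0 p
    · exact le_rfl
  have heq : ∀ w ∈ Nat.factoredNumbers F, wt h w = D1_f h' w := by
    intro w hw
    rw [D1_f_apply]
    unfold wt hp
    congr 2
    apply List.map_congr_left
    intro p hp
    rw [hh']
    dsimp only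
    rw [if_pos (hw.2 p hp)]
  have e1 : (∑' w : ℕ, if w ∈ Nat.factoredNumbers F then ENNReal.ofReal (wt h w) else 0) =
      ∑' w : Nat.factoredNumbers F, ENNReal.ofReal (D1_f h' w) := by
    rw [tsum_subtype (Nat.factoredNumbers F) fun w => ENNReal.ofReal (D1_f h' w)]
    refine tsum_congr fun w => ?_
    unfold Set.indicator
    split_ifs with h2
    · rw [heq w h2]
    · rfl
  have hs' : Summable fun m : Nat.factoredNumbers F => D1_f h' m := hsum.summable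
  have hn : ∀ m : Nat.factoredNumbers F, 0 ≤ D1_f h' m := fun m => D1_wt_nonneg h'0 m
  rw [e1, ← ENNReal.ofReal_tsum_of_nonneg hn hs', hsum.tsum_eq]
  congr 1
  rw [Finset.filter_true_of_mem hF]
  refine Finset.prod_congr rfl fun p hp => ?_
  rw [hval p (hF p hp), if_pos hp]

/-- the primes attached to a set of leaders -/
private def D1_FF (L : ℕ) (ld : ℕ → ℕ) (I : ℕ) (R A : Finset ℕ) : Finset ℕ :=
  A.biUnion (gr ld) ∪ RP L ld I R

private theorem D1_mem_LD {L : ℕ} {ld : ℕ → ℕ} (hG : Grouping (gsz L) ld) {I : ℕ} {R : Finset ℕ}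
    {m : ℕ} (hm : m ∈ LD L ld I R) : m.Prime ∧ iz L ≤ lev m ∧ lev m < I ∧ m ∉ R := by
  unfold LD at hm
  rw [Finset.mem_sdiff, Finset.mem_biUnion] at hm
  obtain ⟨⟨i, hi, hm1⟩, hm2⟩ := hm
  obtain ⟨q, hq, rfl⟩ := Finset.mem_image.1 hm1
  obtain ⟨hqp, hql⟩ := D1_mem_PL.1 hq
  rw [Finset.mem_Ico] at hi
  refine ⟨hG.prime q hqp, ?_, ?_, hm2⟩
  · rw [hG.lev_eq q hqp, hql]
    exact hi.1
  · rw [hG.lev_eq q hqp, hql]
    exact hi.2

private theorem D1_mem_gr {ld : ℕ → ℕ} {m q : ℕ} :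
    q ∈ gr ld m ↔ (q.Prime ∧ lev q = lev m) ∧ ld q = m := by
  unfold gr
  rw [Finset.mem_filter, D1_mem_PL]

private theorem D1_mem_RP {L : ℕ} {ld : ℕ → ℕ} {I : ℕ} {R : Finset ℕ} {p : ℕ} :
    p ∈ RP L ld I R ↔ (p.Prime ∧ iz L ≤ lev p ∧ lev p ≤ L) ∧ (I ≤ lev p ∨ ld p ∈ R) := by
  unfold RP
  rw [Finset.mem_filter, Finset.mem_biUnion]
  constructor
  · rintro ⟨⟨i, hi, h1⟩, h2⟩
    obtain ⟨h3, rfl⟩ := D1_mem_PL.1 h1
    rw [Finset.mem_Icc] at hi
    exact ⟨⟨h3, hi⟩, h2⟩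
  · rintro ⟨⟨h3, h4⟩, h2⟩
    exact ⟨⟨lev p, Finset.mem_Icc.2 h4, D1_mem_PL.2 ⟨h3, rfl⟩⟩, h2⟩

private theorem D1_FF_prime {L : ℕ} {ld : ℕ → ℕ} (hG : Grouping (gsz L) ld) {I : ℕ}
    {R A : Finset ℕ} (hA : A ⊆ LD L ld I R) {p : ℕ} (hp : p ∈ D1_FF L ld I R A) :
    p.Prime ∧ iz L ≤ lev p := by
  unfold D1_FF at hp
  rw [Finset.mem_union, Finset.mem_biUnion] at hp
  rcases hp with ⟨m, hm, h1⟩ | h1
  · obtain ⟨⟨h2, h3⟩, _⟩ := D1_mem_gr.1 h1
    refine ⟨h2, ?_⟩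
    rw [h3]
    exact (D1_mem_LD hG (hA hm)).2.1
  · obtain ⟨h2, _⟩ := D1_mem_RP.1 h1
    exact ⟨h2.1, h2.2.1⟩

private theorem D1_prod_FF {L : ℕ} {ld : ℕ → ℕ} (hG : Grouping (gsz L) ld) {I : ℕ}
    {R A : Finset ℕ} (hA : A ⊆ LD L ld I R) (g : ℕ → ℝ) :
    ∏ p ∈ D1_FF L ld I R A, g p = (∏ m ∈ A, ∏ q ∈ gr ld m, g q) * ∏ p ∈ RP L ld I R, g p := by
  unfold D1_FF
  rw [Finset.prod_union, Finset.prod_biUnion]
  · intro m _ m' _ hne
    rw [Function.onFun, Finset.disjoint_left]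
    intro q hq hq'
    exact hne ((D1_mem_gr.1 hq).2.symm.trans (D1_mem_gr.1 hq').2)
  · rw [Finset.disjoint_left]
    intro q hq hq'
    obtain ⟨m, hm, h1⟩ := Finset.mem_biUnion.1 hq
    obtain ⟨⟨h2, h3⟩, h4⟩ := D1_mem_gr.1 h1
    obtain ⟨_, _, h5, h6⟩ := D1_mem_LD hG (hA hm)
    obtain ⟨_, h7 | h7⟩ := D1_mem_RP.1 hq'
    · omega
    · rw [h4] at h7
      exact h6 h7

/-- decomposition of the elements of `KK` -/
private theorem D1_decomp {L : ℕ} {ld : ℕ → ℕ} (hG : Grouping (gsz L) ld) {j : ℕ}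
    {R : Finset ℕ} {y : ℕ} (hy : KK L ld j R y) :
    ∃ A ∈ (LD L ld (thr L j) R).powerset, ∃ w ∈ Nat.factoredNumbers (D1_FF L ld (thr L j) R A),
      y = (∏ m ∈ A, m) * w := by
  classical
  obtain ⟨hy0, hlev, hld⟩ := hy
  obtain ⟨A, hA⟩ : ∃ A : Finset ℕ,
      A = (y.primeFactors.filter fun p => lev p < thr L j ∧ ld p ∉ R).image ld := ⟨_, rfl⟩
  have hmem : ∀ m ∈ A, ∃ p : ℕ, p.Prime ∧ p ∣ y ∧ lev p < thr L j ∧ ld p ∉ R ∧ ld p = m := by
    intro m hm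
    rw [hA] at hm
    obtain ⟨p, hp, h1⟩ := Finset.mem_image.1 hm
    rw [Finset.mem_filter, Nat.mem_primeFactors] at hp
    exact ⟨p, hp.1.1, hp.1.2.1, hp.2.1, hp.2.2, h1⟩
  have hprime : ∀ m ∈ A, m.Prime := by
    intro m hm
    obtain ⟨p, hp, _, _, _, rfl⟩ := hmem m hm
    exact hG.prime p hp
  have hdvd : ∏ m ∈ A, m ∣ y := by
    refine Finset.prod_primes_dvd y (fun m hm => (hprime m hm).prime) fun m hm => ?_
    obtain ⟨p, hp, hpy, hl, hR, rfl⟩ := hmem m hm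
    exact hld p hp hpy hl hR
  obtain ⟨w, hw⟩ := hdvd
  have hw0 : w ≠ 0 := by
    rintro rfl
    rw [mul_zero] at hw
    exact hy0 hw
  refine ⟨A, ?_, w, ⟨hw0, ?_⟩, hw⟩
  · rw [Finset.mem_powerset]
    intro m hm
    obtain ⟨p, hp, hpy, hl, hR, rfl⟩ := hmem m hm
    unfold LD
    rw [Finset.mem_sdiff, Finset.mem_biUnion]
    refine ⟨⟨lev p, Finset.mem_Ico.2 ⟨(hlev p hp hpy).1, hl⟩, ?_⟩, hR⟩
    exact Finset.mem_image_of_mem ld (D1_mem_PL.2 ⟨hp, rfl⟩)
  · intro p hp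
    have hpp := Nat.prime_of_mem_primeFactorsList hp
    have hpw := Nat.dvd_of_mem_primeFactorsList hp
    have hpy : p ∣ y := hw ▸ hpw.mul_left _
    unfold D1_FF
    rw [Finset.mem_union]
    by_cases hc : lev p < thr L j ∧ ld p ∉ R
    · refine Or.inl (Finset.mem_biUnion.2 ⟨ld p, ?_, ?_⟩)
      · rw [hA]
        refine Finset.mem_image_of_mem ld (Finset.mem_filter.2 ⟨?_, hc⟩)
        exact Nat.mem_primeFactors.2 ⟨hpp, hpy, hy0⟩
      · exact D1_mem_gr.2 ⟨⟨hpp, (hG.lev_eq p hpp).symm⟩, rfl⟩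
    · refine Or.inr (D1_mem_RP.2 ⟨⟨hpp, hlev p hpp hpy⟩, ?_⟩)
      by_contra hcon
      rw [not_or, not_le] at hcon
      exact hc hcon

open Classical in
/-- **Euler product bound.**  Proof: for `y` in `KK` let `A ⊆ LD` be the set of leaders
(levels `< thr L j`, not in `R`) of the groups met by `y`; `∏_{m ∈ A} m ∣ y`, and the
cofactor `w` has all prime factors in `⋃_{m ∈ A} gr ld m ∪ RP`.  `y ↦ (A, w)` is injective and
`wt h y = (∏_{m ∈ A} h m / m) * wt h w`.  For fixed `A` the sum over the `w` is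
`∏_{p} (1 - h p / p)⁻¹` over that set of primes
(`EulerProduct.summable_and_hasSum_factoredNumbers_prod_filter_prime_geometric` for
`Nat.factoredNumbers`, or an induction on the finite set of primes in `ℝ≥0∞`), and
`∏_{p ∈ ⋃ gr} ≤ ∏_m ∏_{q ∈ gr m}`; finally `∑_A ∏_{m ∈ A} b_m = ∏ (1 + b_m)`
(`Finset.prod_one_add` / `Finset.prod_add`). -/
theorem euler_bound {L : ℕ} {ld : ℕ → ℕ} (hG : Grouping (gsz L) ld) (j : ℕ) (hj : thr L j ≤ L + 1)
    (R : Finset ℕ) (h : ℕ → ℝ) (h0 : ∀ p, 0 ≤ h p)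
    (h1 : ∀ p : ℕ, p.Prime → iz L ≤ lev p → h p / p ≤ 1 / 2) :
    (∑' y : ℕ, if KK L ld j R y then ENNReal.ofReal (wt h y) else 0) ≤
      ENNReal.ofReal ((∏ m ∈ LD L ld (thr L j) R,
        (1 + h m / m * ∏ q ∈ gr ld m, (1 - h q / q)⁻¹)) *
        ∏ p ∈ RP L ld (thr L j) R, (1 - h p / p)⁻¹) := by
  obtain ⟨I, hI⟩ : ∃ I, I = thr L j := ⟨_, rfl⟩
  obtain ⟨F, hF⟩ : ∃ F : Finset ℕ → Finset ℕ, F = D1_FF L ld I R := ⟨_, rfl⟩
  obtain ⟨cA, hcA⟩ : ∃ cA : Finset ℕ → ℝ, cA = fun A => ∏ m ∈ A, h m / m := ⟨_, rfl⟩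
  have hcA0 : ∀ A, 0 ≤ cA A := by
    intro A
    rw [hcA]
    exact Finset.prod_nonneg fun m _ => div_nonneg (h0 m) (Nat.cast_nonneg m)
  have hinv : ∀ p : ℕ, p.Prime → iz L ≤ lev p → 0 ≤ (1 - h p / p)⁻¹ := by
    intro p hp hl
    have := h1 p hp hl
    exact inv_nonneg.2 (by linarith)
  -- pointwise bound
  have hpt : ∀ y : ℕ, (if KK L ld j R y then ENNReal.ofReal (wt h y) else 0) ≤
      ∑ A ∈ (LD L ld I R).powerset, ∑' w : ℕ,
        if y = (∏ m ∈ A, m) * w then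
          (if w ∈ Nat.factoredNumbers (F A) then ENNReal.ofReal (cA A) * ENNReal.ofReal (wt h w)
            else 0) else 0 := by
    intro y
    split_ifs with hy
    · obtain ⟨A, hA, w, hw, hyw⟩ := D1_decomp hG hy
      rw [← hI] at hA hw
      have hAp : ∀ m ∈ A, m.Prime := fun m hm => (D1_mem_LD hG (Finset.mem_powerset.1 hA hm)).1
      refine le_trans ?_ (Finset.single_le_sum (f := fun A => ∑' w : ℕ,
        if y = (∏ m ∈ A, m) * w then
          (if w ∈ Nat.factoredNumbers (F A) then ENNReal.ofReal (cA A) * ENNReal.ofReal (wt h w)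
            else 0) else 0) (fun _ _ => bot_le) hA)
      refine le_trans ?_ (ENNReal.le_tsum w)
      rw [if_pos hyw, if_pos (by rw [hF]; exact hw), ← ENNReal.ofReal_mul (hcA0 A), hyw,
        D1_wt_mul h (D1_prod_ne hAp) hw.1, D1_wt_prod h hAp, hcA]
    · exact bot_le
  refine (ENNReal.tsum_le_tsum hpt).trans ?_
  rw [Summable.tsum_finsetSum fun _ _ => ENNReal.summable]
  have hA : ∀ A ∈ (LD L ld I R).powerset, (∑' y : ℕ, ∑' w : ℕ,
        if y = (∏ m ∈ A, m) * w then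
          (if w ∈ Nat.factoredNumbers (F A) then ENNReal.ofReal (cA A) * ENNReal.ofReal (wt h w)
            else 0) else 0) =
      ENNReal.ofReal (cA A * ∏ p ∈ F A, (1 - h p / p)⁻¹) := by
    intro A hA
    have hA' := Finset.mem_powerset.1 hA
    rw [ENNReal.tsum_comm]
    have e1 : ∀ w : ℕ, (∑' y : ℕ, if y = (∏ m ∈ A, m) * w then
          (if w ∈ Nat.factoredNumbers (F A) then ENNReal.ofReal (cA A) * ENNReal.ofReal (wt h w)
            else 0) else 0) = ENNReal.ofReal (cA A) *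
            (if w ∈ Nat.factoredNumbers (F A) then ENNReal.ofReal (wt h w) else 0) := by
      intro w
      rw [tsum_ite_eq]
      split_ifs
      · rfl
      · rw [mul_zero]
    rw [tsum_congr e1, ENNReal.tsum_mul_left, D1_euler h0 (F := F A), ENNReal.ofReal_mul (hcA0 A)]
    · intro p hp
      rw [hF] at hp
      exact (D1_FF_prime hG hA' hp).1
    · intro p hp
      rw [hF] at hp
      obtain ⟨h2, h3⟩ := D1_FF_prime hG hA' hp
      exact h1 p h2 h3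
  rw [Finset.sum_congr rfl hA, ← ENNReal.ofReal_sum_of_nonneg]
  · refine ENNReal.ofReal_le_ofReal (le_of_eq ?_)
    rw [← hI, Finset.prod_one_add, Finset.sum_mul]
    refine Finset.sum_congr rfl fun A hA => ?_
    rw [hF, D1_prod_FF hG (Finset.mem_powerset.1 hA), hcA, ← mul_assoc, ← Finset.prod_mul_distrib]
  · intro A hA
    refine mul_nonneg (hcA0 A) (Finset.prod_nonneg fun p hp => ?_)
    rw [hF] at hp
    obtain ⟨h2, h3⟩ := D1_FF_prime hG (Finset.mem_powerset.1 hA) hp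
    exact hinv p h2 h3

end Pool.Agent.W_a617e8_h51
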