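import Pool.Agent.W_a617e8_h51.D1

set_option autoImplicit false

/-! D2: numerical sums. -/

noncomputable section

open scoped ENNReal

open Filter

namespace Pool.Agent.W_a617e8_h51

/-- `2^(iz L)` is between `(L+1)^(3/4)/2` and `2 (L+1)^(3/4)`. -/
theorem iz_bounds (L : ℕ) : ((L : ℝ) + 1) ^ ((3 : ℝ) / 4) / 2 ≤ 2 ^ iz L ∧
    (2 : ℝ) ^ iz L ≤ 2 * ((L : ℝ) + 1) ^ ((3 : ℝ) / 4) := by
  set k := Nat.log 2 (L + 1) with hk
  have hk1 : 2 ^ k ≤ L + 1 := Nat.pow_log_le_self 2 (by omega)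
  have hk2 : L + 1 < 2 ^ (k + 1) := Nat.lt_pow_succ_log_self (by norm_num) _
  have hk1r : (2 : ℝ) ^ (k : ℝ) ≤ (L : ℝ) + 1 := by
    rw [Real.rpow_natCast]
    exact_mod_cast hk1
  have hk2r : (L : ℝ) + 1 ≤ (2 : ℝ) ^ ((k : ℝ) + 1) := by
    have : ((k : ℝ) + 1) = ((k + 1 : ℕ) : ℝ) := by push_cast; ring
    rw [this, Real.rpow_natCast]
    exact_mod_cast hk2.le
  have hiz : iz L = 3 * k / 4 + 1 := rfl
  have hd1 : ((3 * k / 4 : ℕ) : ℝ) ≤ 3 * (k : ℝ) / 4 := by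
    have := @Nat.cast_div_le ℝ _ _ _ (3 * k) 4
    push_cast at this
    exact this
  have hd2 : 3 * (k : ℝ) / 4 ≤ ((3 * k / 4 : ℕ) : ℝ) + 3 / 4 := by
    have h : 3 * k ≤ 4 * (3 * k / 4) + 3 := by omega
    have h' : (3 * (k : ℝ)) ≤ 4 * ((3 * k / 4 : ℕ) : ℝ) + 3 := by exact_mod_cast h
    linarith
  have hpow : (2 : ℝ) ^ iz L = (2 : ℝ) ^ (((3 * k / 4 : ℕ) : ℝ) + 1) := by
    rw [hiz, ← Real.rpow_natCast]
    push_cast
    rfl
  have h2 : (0 : ℝ) < 2 := by norm_num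
  have hL : (0 : ℝ) ≤ (L : ℝ) + 1 := by positivity
  constructor
  · have h3 : ((L : ℝ) + 1) ^ ((3 : ℝ) / 4) ≤ (2 : ℝ) ^ (((k : ℝ) + 1) * (3 / 4)) := by
      rw [Real.rpow_mul h2.le]
      exact Real.rpow_le_rpow hL hk2r (by norm_num)
    have h4 : (2 : ℝ) ^ (((k : ℝ) + 1) * (3 / 4)) ≤ (2 : ℝ) ^ (((3 * k / 4 : ℕ) : ℝ) + 1 + 1) := by
      apply Real.rpow_le_rpow_of_exponent_le (by norm_num)
      linarith
    rw [Real.rpow_add_one h2.ne'] at h4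
    rw [hpow, div_le_iff₀ h2]
    exact h3.trans h4
  · have h3 : (2 : ℝ) ^ ((k : ℝ) * (3 / 4)) ≤ ((L : ℝ) + 1) ^ ((3 : ℝ) / 4) := by
      rw [Real.rpow_mul h2.le]
      exact Real.rpow_le_rpow (by positivity) hk1r (by norm_num)
    have h4 : (2 : ℝ) ^ (((3 * k / 4 : ℕ) : ℝ) + 1) ≤ (2 : ℝ) ^ ((k : ℝ) * (3 / 4) + 1) := by
      apply Real.rpow_le_rpow_of_exponent_le (by norm_num)
      linarith
    rw [hpow]
    refine h4.trans ?_
    rw [Real.rpow_add_one h2.ne', mul_comm]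
    exact mul_le_mul_of_nonneg_left h3 h2.le

theorem iz_le (ε : ℝ) (hε : 0 < ε) : ∀ᶠ L : ℕ in atTop, (iz L : ℝ) ≤ ε * L := by
  have h1 : Tendsto (fun L : ℕ => ((L : ℝ) + 1) ^ ((1 : ℝ) / 4)) atTop atTop := by
    refine (tendsto_rpow_atTop (by norm_num)).comp ?_
    exact tendsto_atTop_add_const_right _ _ tendsto_natCast_atTop_atTop
  filter_upwards [h1.eventually_ge_atTop (max (4 / ε) 2)] with L hL
  set x := ((L : ℝ) + 1) ^ ((1 : ℝ) / 4) with hx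
  have hxe : 4 / ε ≤ x := (le_max_left _ _).trans hL
  have hx2 : 2 ≤ x := (le_max_right _ _).trans hL
  have hL0 : (0 : ℝ) ≤ (L : ℝ) + 1 := by positivity
  have hx4 : x ^ 4 = (L : ℝ) + 1 := by
    rw [hx, ← Real.rpow_natCast, ← Real.rpow_mul hL0]
    norm_num
  have hx3 : ((L : ℝ) + 1) ^ ((3 : ℝ) / 4) = x ^ 3 := by
    rw [hx, ← Real.rpow_natCast, ← Real.rpow_mul hL0]
    norm_num
  have h2 : (iz L : ℝ) ≤ (2 : ℝ) ^ iz L := by
    exact_mod_cast (Nat.lt_two_pow_self (n := iz L)).le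
  have h3 := (iz_bounds L).2
  rw [hx3] at h3
  have h4 : 4 ≤ ε * x := by
    rw [div_le_iff₀ hε] at hxe
    linarith
  have h5 : (L : ℝ) = x ^ 4 - 1 := by linarith
  rw [h5]
  have h6 : 2 * x ^ 3 ≤ ε * x ^ 4 / 2 := by
    have : 4 * x ^ 3 ≤ (ε * x) * x ^ 3 := mul_le_mul_of_nonneg_right h4 (by positivity)
    nlinarith
  have h7 : ε * 1 ≤ ε * x ^ 4 / 2 := by
    have : (2 : ℝ) ≤ x ^ 4 := by
      calc (2 : ℝ) ≤ 2 ^ 4 := by norm_num
        _ ≤ x ^ 4 := by gcongr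
    nlinarith
  nlinarith

private theorem sum_sqrt_le (I : ℕ) :
    ∑ i ∈ Finset.range I, 1 / Real.sqrt ((i : ℝ) + 1) ≤ 2 * Real.sqrt I := by
  induction I with
  | zero => simp
  | succ I ih =>
    rw [Finset.sum_range_succ]
    have hpos : 0 < Real.sqrt ((I : ℝ) + 1) := Real.sqrt_pos.2 (by positivity)
    have h1 : Real.sqrt ((I : ℝ) + 1) ^ 2 = (I : ℝ) + 1 := Real.sq_sqrt (by positivity)
    have h2 : Real.sqrt (I : ℝ) ^ 2 = (I : ℝ) := Real.sq_sqrt (by positivity)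
    have h3 : 0 ≤ Real.sqrt (I : ℝ) := Real.sqrt_nonneg _
    have h4 : 1 / Real.sqrt ((I : ℝ) + 1) ≤ 2 * (Real.sqrt ((I : ℝ) + 1) - Real.sqrt I) := by
      rw [div_le_iff₀ hpos]
      nlinarith [sq_nonneg (Real.sqrt ((I : ℝ) + 1) - Real.sqrt (I : ℝ))]
    push_cast
    linarith

private theorem sum_geom_le (a b : ℕ) :
    ∑ i ∈ Finset.Ico a b, 1 / (2 : ℝ) ^ i ≤ 2 / 2 ^ a := by
  have key : ∀ b, a ≤ b → ∑ i ∈ Finset.Ico a b, 1 / (2 : ℝ) ^ i = 2 / 2 ^ a - 2 / 2 ^ b := by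
    intro b hb
    induction b, hb using Nat.le_induction with
    | base => simp
    | succ b hb ih =>
      rw [Finset.sum_Ico_succ_top hb, ih, pow_succ]
      field_simp
      ring
  rcases le_total a b with h | h
  · rw [key b h]
    have : (0 : ℝ) < 2 / 2 ^ b := by positivity
    linarith
  · rw [Finset.Ico_eq_empty_of_le h, Finset.sum_empty]
    positivity

private theorem pow_lev_le {p : ℕ} (hp : p ≠ 0) : (2 : ℝ) ^ lev p ≤ p := by
  exact_mod_cast Nat.pow_log_le_self 2 hp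

private theorem sum_biUnion_le' (s : Finset ℕ) (t : ℕ → Finset ℕ) :
    ∑ m ∈ s.biUnion t, (1 : ℝ) / m ≤ ∑ i ∈ s, ∑ m ∈ t i, (1 : ℝ) / m := by
  induction s using Finset.induction_on with
  | empty => simp
  | insert a s ha ih =>
    rw [Finset.biUnion_insert, Finset.sum_insert ha]
    have h := Finset.sum_union_inter (s₁ := t a) (s₂ := s.biUnion t) (f := fun m : ℕ => (1 : ℝ) / m)
    have h2 : 0 ≤ ∑ m ∈ t a ∩ s.biUnion t, (1 : ℝ) / m := Finset.sum_nonneg fun m _ => by positivity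
    linarith

/-- The leader part: `∑_{m ∈ LD} 1/m ≤ 16 sqrt(I)/sqrt(L+1) + 2 / 2^(iz L)` (`leaders_le`, sum over
the levels `iz ≤ i < I`, `∑_{i<I} 1/sqrt(i+1) ≤ 2 sqrt I`, `m ≥ 2^i`). -/
theorem sum_LD_le {L : ℕ} {ld : ℕ → ℕ} (hG : Grouping (gsz L) ld) (I : ℕ) (R : Finset ℕ) :
    ∑ m ∈ LD L ld I R, (1 : ℝ) / m ≤
      16 * Real.sqrt I / Real.sqrt (L + 1) + 2 / 2 ^ iz L := by
  have h1 : ∑ m ∈ LD L ld I R, (1 : ℝ) / m ≤
      ∑ m ∈ (Finset.Ico (iz L) I).biUnion fun i => (PL i).image ld, (1 : ℝ) / m := by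
    refine Finset.sum_le_sum_of_subset_of_nonneg Finset.sdiff_subset ?_
    intro m _ _
    positivity
  have h2 := sum_biUnion_le' (Finset.Ico (iz L) I) (fun i => (PL i).image ld)
  have h3 : ∀ i ∈ Finset.Ico (iz L) I, ∑ m ∈ (PL i).image ld, (1 : ℝ) / m ≤
      8 / Real.sqrt (((L : ℝ) + 1) * (i + 1)) + 1 / 2 ^ i := by
    intro i _
    refine le_trans ?_ (leaders_le hG i)
    have h4 : ∀ m ∈ (PL i).image ld, (1 : ℝ) / m ≤ 1 / 2 ^ i := by
      intro m hm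
      obtain ⟨p, hp, rfl⟩ := Finset.mem_image.1 hm
      obtain ⟨hp1, hp2⟩ := mem_PL.1 hp
      have h5 := pow_lev_le (hG.prime p hp1).ne_zero
      rw [hG.lev_eq p hp1, hp2] at h5
      exact one_div_le_one_div_of_le (by positivity) h5
    calc ∑ m ∈ (PL i).image ld, (1 : ℝ) / m ≤ ∑ _m ∈ (PL i).image ld, (1 : ℝ) / 2 ^ i :=
          Finset.sum_le_sum h4
      _ = (((PL i).image ld).card : ℝ) / 2 ^ i := by
          rw [Finset.sum_const, nsmul_eq_mul]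
          ring
  have hS : 0 < Real.sqrt ((L : ℝ) + 1) := Real.sqrt_pos.2 (by positivity)
  have h6 : ∑ i ∈ Finset.Ico (iz L) I, (8 / Real.sqrt (((L : ℝ) + 1) * (i + 1)) + 1 / 2 ^ i) ≤
      16 * Real.sqrt I / Real.sqrt (L + 1) + 2 / 2 ^ iz L := by
    rw [Finset.sum_add_distrib]
    refine add_le_add ?_ (sum_geom_le _ _)
    have h7 : ∑ i ∈ Finset.Ico (iz L) I, 8 / Real.sqrt (((L : ℝ) + 1) * (i + 1)) ≤
        ∑ i ∈ Finset.range I, 8 / Real.sqrt (((L : ℝ) + 1) * (i + 1)) := by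
      refine Finset.sum_le_sum_of_subset_of_nonneg ?_ ?_
      · intro x hx
        rw [Finset.mem_Ico] at hx
        exact Finset.mem_range.2 hx.2
      · intro m _ _
        positivity
    refine h7.trans ?_
    have h8 : ∑ i ∈ Finset.range I, 8 / Real.sqrt (((L : ℝ) + 1) * (i + 1)) =
        8 / Real.sqrt ((L : ℝ) + 1) * ∑ i ∈ Finset.range I, 1 / Real.sqrt ((i : ℝ) + 1) := by
      rw [Finset.mul_sum]
      refine Finset.sum_congr rfl fun i _ => ?_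
      rw [Real.sqrt_mul (by positivity), div_mul_div_comm, mul_one]
    rw [h8]
    calc 8 / Real.sqrt ((L : ℝ) + 1) * ∑ i ∈ Finset.range I, 1 / Real.sqrt ((i : ℝ) + 1)
        ≤ 8 / Real.sqrt ((L : ℝ) + 1) * (2 * Real.sqrt I) :=
          mul_le_mul_of_nonneg_left (sum_sqrt_le I) (by positivity)
      _ = 16 * Real.sqrt I / Real.sqrt (L + 1) := by ring
  exact h1.trans (h2.trans ((Finset.sum_le_sum h3).trans h6))

private theorem harm_le (a b : ℕ) (ha : 1 ≤ a) (hab : a ≤ b) :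
    ∑ i ∈ Finset.Ico a b, 1 / ((i : ℝ) + 1) ≤ Real.log ((b : ℝ) / a) := by
  induction b, hab using Nat.le_induction with
  | base =>
    have : (a : ℝ) ≠ 0 := by positivity
    simp [div_self this]
  | succ b hb ih =>
    rw [Finset.sum_Ico_succ_top hb]
    have hbpos : (0 : ℝ) < b := by exact_mod_cast (by omega : 0 < b)
    have hapos : (0 : ℝ) < a := by exact_mod_cast (by omega : 0 < a)
    have h1 : Real.log (((b + 1 : ℕ) : ℝ) / a) = Real.log ((b : ℝ) / a) +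
        Real.log (((b : ℝ) + 1) / b) := by
      rw [← Real.log_mul (by positivity) (by positivity)]
      congr 1
      push_cast
      field_simp
    have h2 : 1 / ((b : ℝ) + 1) ≤ Real.log (((b : ℝ) + 1) / b) := by
      have h3 := Real.one_sub_inv_le_log_of_pos (x := ((b : ℝ) + 1) / b) (by positivity)
      have h4 : 1 - (((b : ℝ) + 1) / b)⁻¹ = 1 / ((b : ℝ) + 1) := by
        field_simp
        ring
      rw [h4] at h3
      exact h3
    rw [h1]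
    linarith

/-- `∑_{i1 ≤ lev p ≤ L} 1/p ≤ 8 (log((L+1)/i1) + 1)` (`card_PL_le`, harmonic sums), `i1 ≥ 1`. -/
theorem sum_PL_le (L i₁ : ℕ) (h1 : 1 ≤ i₁) :
    ∑ p ∈ (Finset.Icc i₁ L).biUnion PL, (1 : ℝ) / p ≤
      8 * (Real.log ((L + 1) / i₁) + 1) ∨ L < i₁ := by
  rcases Nat.lt_or_ge L i₁ with hlt | hge
  · exact Or.inr hlt
  left
  have h2 := sum_biUnion_le' (Finset.Icc i₁ L) PL
  have h3 : ∀ i ∈ Finset.Icc i₁ L, ∑ p ∈ PL i, (1 : ℝ) / p ≤ 8 * (1 / ((i : ℝ) + 1)) := by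
    intro i _
    have h4 : ∀ p ∈ PL i, (1 : ℝ) / p ≤ 1 / 2 ^ i := by
      intro p hp
      obtain ⟨hp1, hp2⟩ := mem_PL.1 hp
      have h5 := pow_lev_le hp1.ne_zero
      rw [hp2] at h5
      exact one_div_le_one_div_of_le (by positivity) h5
    have h6 := card_PL_le i
    calc ∑ p ∈ PL i, (1 : ℝ) / p ≤ ∑ _p ∈ PL i, (1 : ℝ) / 2 ^ i := Finset.sum_le_sum h4
      _ = ((PL i).card : ℝ) * (1 / 2 ^ i) := by rw [Finset.sum_const, nsmul_eq_mul]
      _ ≤ 8 * 2 ^ i / (i + 1) * (1 / 2 ^ i) := mul_le_mul_of_nonneg_right h6 (by positivity)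
      _ = 8 * (1 / ((i : ℝ) + 1)) := by field_simp
  have h7 : ∑ i ∈ Finset.Icc i₁ L, 8 * (1 / ((i : ℝ) + 1)) ≤ 8 * Real.log ((L + 1) / i₁) := by
    rw [← Finset.mul_sum]
    refine mul_le_mul_of_nonneg_left ?_ (by norm_num)
    have h8 := harm_le i₁ (L + 1) h1 (by omega)
    have h9 : Finset.Ico i₁ (L + 1) = Finset.Icc i₁ L := by
      ext x
      simp only [Finset.mem_Ico, Finset.mem_Icc]
      omega
    rw [h9] at h8
    push_cast at h8
    exact h8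
  have h10 := h2.trans ((Finset.sum_le_sum h3).trans h7)
  linarith

/-- Elements of a group: `∑_{q ∈ gr m} 1/q ≤ gsz / 2^(lev m) ≤ (sqrt(L+1) + 1)/2^(iz L)`. -/
theorem sum_gr_le {L : ℕ} {ld : ℕ → ℕ} (hG : Grouping (gsz L) ld) {m : ℕ} (hm : m.Prime)
    (hl : iz L ≤ lev m) :
    ∑ q ∈ gr ld m, (1 : ℝ) / q ≤ (Real.sqrt (L + 1) + 1) / 2 ^ iz L := by
  have h1 : ∀ q ∈ gr ld m, (1 : ℝ) / q ≤ 1 / 2 ^ iz L := by
    intro q hq
    obtain ⟨hq1, hq2⟩ := mem_PL.1 (Finset.mem_filter.1 hq).1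
    have h5 := pow_lev_le hq1.ne_zero
    rw [hq2] at h5
    refine one_div_le_one_div_of_le (by positivity) (le_trans ?_ h5)
    exact pow_le_pow_right₀ (by norm_num) hl
  have h2 : ((gr ld m).card : ℝ) ≤ (gsz L (lev m) : ℝ) := by exact_mod_cast hG.card_le m hm
  have h3 : (gsz L (lev m) : ℝ) ≤ Real.sqrt (L + 1) + 1 := by
    unfold gsz
    push_cast
    have h4 : Nat.sqrt ((L + 1) / (lev m + 1)) ≤ Nat.sqrt (L + 1) :=
      Nat.sqrt_le_sqrt (Nat.div_le_self _ _)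
    have h5 : ((Nat.sqrt ((L + 1) / (lev m + 1)) : ℕ) : ℝ) ≤ (Nat.sqrt (L + 1) : ℝ) := by
      exact_mod_cast h4
    have h6 : (Nat.sqrt (L + 1) : ℝ) ≤ Real.sqrt ((L + 1 : ℕ) : ℝ) := Real.nat_sqrt_le_real_sqrt
    push_cast at h6
    linarith
  calc ∑ q ∈ gr ld m, (1 : ℝ) / q ≤ ∑ _q ∈ gr ld m, (1 : ℝ) / 2 ^ iz L := Finset.sum_le_sum h1
    _ = ((gr ld m).card : ℝ) / 2 ^ iz L := by
        rw [Finset.sum_const, nsmul_eq_mul]
        ring
    _ ≤ (Real.sqrt (L + 1) + 1) / 2 ^ iz L := by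
        apply div_le_div_of_nonneg_right (h2.trans h3)
        positivity

end Pool.Agent.W_a617e8_h51
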