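import Pool.Agent.W_a617e8_h51.D2

set_option autoImplicit false

/-! D2b: the bound for the weights. -/

noncomputable section

open scoped ENNReal

open Filter

namespace Pool.Agent.W_a617e8_h51

theorem D2b_inv_le (f : ℝ) (h0 : 0 ≤ f) (h1 : f ≤ 1 / 2) :
    0 ≤ (1 - f)⁻¹ ∧ (1 - f)⁻¹ ≤ Real.exp (2 * f) := by
  have h2 : 0 < 1 - f := by linarith
  refine ⟨(inv_pos.2 h2).le, ?_⟩
  have h3 : (1 - f)⁻¹ = f / (1 - f) + 1 := by
    field_simp
    ring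
  rw [h3]
  refine (Real.add_one_le_exp _).trans ?_
  rw [Real.exp_le_exp, div_le_iff₀ h2]
  nlinarith

theorem D2b_prod_le (s : Finset ℕ) (F g : ℕ → ℝ) (h : ∀ i ∈ s, 0 ≤ F i ∧ F i ≤ Real.exp (g i)) :
    0 ≤ ∏ i ∈ s, F i ∧ ∏ i ∈ s, F i ≤ Real.exp (∑ i ∈ s, g i) := by
  refine ⟨Finset.prod_nonneg fun i hi => (h i hi).1, ?_⟩
  rw [Real.exp_sum]
  exact Finset.prod_le_prod (fun i hi => (h i hi).1) (fun i hi => (h i hi).2)

/-- The numerical condition on `L`. -/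
theorem D2b_large (H : ℝ) (hH : 1 ≤ H) : ∀ᶠ L : ℕ in atTop, 4 * H ≤ (2 : ℝ) ^ iz L ∧
    2 * H * ((Real.sqrt (L + 1) + 1) / 2 ^ iz L) ≤ 1 := by
  have h1 : Tendsto (fun L : ℕ => ((L : ℝ) + 1) ^ ((1 : ℝ) / 4)) atTop atTop := by
    refine (tendsto_rpow_atTop (by norm_num)).comp ?_
    exact tendsto_atTop_add_const_right _ _ tendsto_natCast_atTop_atTop
  filter_upwards [h1.eventually_ge_atTop (8 * H)] with L hL
  set x := ((L : ℝ) + 1) ^ ((1 : ℝ) / 4) with hx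
  have hL0 : (0 : ℝ) ≤ (L : ℝ) + 1 := by positivity
  have hx3 : ((L : ℝ) + 1) ^ ((3 : ℝ) / 4) = x ^ 3 := by
    rw [hx, ← Real.rpow_natCast, ← Real.rpow_mul hL0]
    norm_num
  have hx2 : Real.sqrt ((L : ℝ) + 1) = x ^ 2 := by
    rw [hx, ← Real.rpow_natCast, ← Real.rpow_mul hL0, Real.sqrt_eq_rpow]
    norm_num
  have h2 := (iz_bounds L).1
  rw [hx3] at h2
  have hx8 : 8 ≤ x := by linarith
  have hx0 : 0 < x := by linarith
  constructor
  · have h3 : x * 8 ≤ x ^ 3 := by nlinarith [mul_pos hx0 hx0]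
    linarith
  · rw [hx2]
    have h4 : 0 < x ^ 3 / 2 := by positivity
    have h5 : (x ^ 2 + 1) / 2 ^ iz L ≤ (x ^ 2 + 1) / (x ^ 3 / 2) :=
      div_le_div_of_nonneg_left (by positivity) h4 h2
    have h6 : (x ^ 2 + 1) / (x ^ 3 / 2) ≤ 1 / (2 * H) := by
      rw [div_le_div_iff₀ h4 (by linarith)]
      nlinarith [mul_pos hx0 hx0]
    calc 2 * H * ((x ^ 2 + 1) / 2 ^ iz L) ≤ 2 * H * (1 / (2 * H)) :=
          mul_le_mul_of_nonneg_left (h5.trans h6) (by linarith)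
      _ = 1 := by
          field_simp

theorem D2b_pow_lev_le {L p : ℕ} (hp : p ≠ 0) (h : iz L ≤ lev p) : (2 : ℝ) ^ iz L ≤ p := by
  have h1 : 2 ^ iz L ≤ p := (Nat.pow_le_pow_right (by norm_num) h).trans (Nat.pow_log_le_self 2 hp)
  exact_mod_cast h1

theorem D2b_mem_LD {L : ℕ} {ld : ℕ → ℕ} (hG : Grouping (gsz L) ld) {I : ℕ} {R : Finset ℕ} {m : ℕ}
    (hm : m ∈ LD L ld I R) : m.Prime ∧ iz L ≤ lev m := by
  unfold LD at hm
  rw [Finset.mem_sdiff, Finset.mem_biUnion] at hm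
  obtain ⟨⟨i, hi, hm⟩, -⟩ := hm
  obtain ⟨p, hp, rfl⟩ := Finset.mem_image.1 hm
  obtain ⟨hp1, hp2⟩ := mem_PL.1 hp
  refine ⟨hG.prime p hp1, ?_⟩
  rw [hG.lev_eq p hp1, hp2]
  exact (Finset.mem_Ico.1 hi).1

theorem D2b_mem_RP {L : ℕ} {ld : ℕ → ℕ} {I : ℕ} {R : Finset ℕ} {p : ℕ}
    (hp : p ∈ RP L ld I R) : p.Prime ∧ iz L ≤ lev p ∧ lev p ≤ L ∧ (I ≤ lev p ∨ ld p ∈ R) := by
  unfold RP at hp
  rw [Finset.mem_filter, Finset.mem_biUnion] at hp
  obtain ⟨⟨i, hi, hm⟩, h2⟩ := hp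
  obtain ⟨hp1, hp2⟩ := mem_PL.1 hm
  rw [Finset.mem_Icc, ← hp2] at hi
  exact ⟨hp1, hi.1, hi.2, h2⟩

theorem D2b_sum_RP {L : ℕ} {ld : ℕ → ℕ} (hG : Grouping (gsz L) ld) (j : ℕ) {R : Finset ℕ}
    (hR : R.card ≤ 2) (hL : (Real.sqrt (L + 1) + 1) / 2 ^ iz L ≤ 1) :
    ∑ p ∈ RP L ld (thr L j) R, (1 : ℝ) / p ≤ 16 * (j + 1) + 2 := by
  classical
  have hsub : RP L ld (thr L j) R ⊆ (Finset.Icc (thr L j) L).biUnion PL ∪
      (R.filter (fun r => r.Prime ∧ iz L ≤ lev r)).biUnion (gr ld) := by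
    intro p hp
    obtain ⟨h1, h2, h3, h4⟩ := D2b_mem_RP hp
    rw [Finset.mem_union, Finset.mem_biUnion, Finset.mem_biUnion]
    rcases h4 with h4 | h4
    · exact Or.inl ⟨lev p, Finset.mem_Icc.2 ⟨h4, h3⟩, mem_PL.2 ⟨h1, rfl⟩⟩
    · refine Or.inr ⟨ld p, Finset.mem_filter.2 ⟨h4, hG.prime p h1, ?_⟩,
        (mem_gr hG (hG.prime p h1)).2 ⟨h1, rfl⟩⟩
      rw [hG.lev_eq p h1]
      exact h2
  have h1 : ∑ p ∈ RP L ld (thr L j) R, (1 : ℝ) / p ≤
      ∑ p ∈ (Finset.Icc (thr L j) L).biUnion PL, (1 : ℝ) / p +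
      ∑ p ∈ (R.filter (fun r => r.Prime ∧ iz L ≤ lev r)).biUnion (gr ld), (1 : ℝ) / p := by
    refine (Finset.sum_le_sum_of_subset_of_nonneg hsub fun p _ _ => by positivity).trans ?_
    rw [← Finset.sum_union_inter]
    have : 0 ≤ ∑ p ∈ ((Finset.Icc (thr L j) L).biUnion PL ∩
      (R.filter (fun r => r.Prime ∧ iz L ≤ lev r)).biUnion (gr ld)), (1 : ℝ) / p :=
      Finset.sum_nonneg fun p _ => by positivity
    linarith
  have h2 : ∑ p ∈ (Finset.Icc (thr L j) L).biUnion PL, (1 : ℝ) / p ≤ 16 * (j + 1) := by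
    have hthr : 1 ≤ thr L j := Nat.le_add_left 1 _
    rcases sum_PL_le L (thr L j) hthr with h3 | h3
    · refine h3.trans ?_
      have h4 : ((L : ℝ) + 1) / (thr L j : ℝ) ≤ 4 ^ j := by
        rw [div_le_iff₀ (by exact_mod_cast hthr)]
        have h5 : L < 4 ^ j * thr L j := by
          unfold thr
          exact Nat.lt_mul_div_succ L (by positivity)
        have h6 : L + 1 ≤ 4 ^ j * thr L j := h5
        exact_mod_cast h6
      have h5 : Real.log (((L : ℝ) + 1) / (thr L j : ℝ)) ≤ 2 * j := by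
        have h6 := Real.log_le_log (x := ((L : ℝ) + 1) / (thr L j : ℝ)) (by positivity) h4
        rw [Real.log_pow] at h6
        have h7 : Real.log 4 ≤ 2 := by
          have h8 : Real.log 4 = 2 * Real.log 2 := by
            rw [show (4 : ℝ) = 2 ^ 2 by norm_num, Real.log_pow]
            norm_num
          have := Real.log_two_lt_d9
          linarith
        have h9 : (0 : ℝ) ≤ j := Nat.cast_nonneg _
        nlinarith
      linarith
    · rw [Finset.Icc_eq_empty (by omega), Finset.biUnion_empty, Finset.sum_empty]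
      positivity
  have h3 : ∑ p ∈ (R.filter (fun r => r.Prime ∧ iz L ≤ lev r)).biUnion (gr ld), (1 : ℝ) / p ≤ 2 := by
    have h4 : ∑ p ∈ (R.filter (fun r => r.Prime ∧ iz L ≤ lev r)).biUnion (gr ld), (1 : ℝ) / p ≤
        ∑ r ∈ R.filter (fun r => r.Prime ∧ iz L ≤ lev r), ∑ p ∈ gr ld r, (1 : ℝ) / p := by
      refine le_of_eq (Finset.sum_biUnion ?_)
      intro a ha b hb hab
      rw [Function.onFun, Finset.disjoint_left]
      intro p hpa hpb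
      exact hab ((Finset.mem_filter.1 hpa).2.symm.trans (Finset.mem_filter.1 hpb).2)
    refine h4.trans ?_
    have h5 : ∑ r ∈ R.filter (fun r => r.Prime ∧ iz L ≤ lev r), ∑ p ∈ gr ld r, (1 : ℝ) / p ≤
        ∑ r ∈ R.filter (fun r => r.Prime ∧ iz L ≤ lev r), (1 : ℝ) := by
      apply Finset.sum_le_sum
      intro r hr
      have hr' := (Finset.mem_filter.1 hr).2
      exact (sum_gr_le hG hr'.1 hr'.2).trans hL
    refine h5.trans ?_
    rw [Finset.sum_const, nsmul_eq_mul, mul_one]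
    have h6 := (Finset.card_filter_le R (fun r => r.Prime ∧ iz L ≤ lev r)).trans hR
    exact_mod_cast h6
  linarith

open Classical in
/-- **Bound for the weights.**  For every `H` there is `C` with, for all large `L`, all groupings,
stages `j`, sets `R` with at most two elements and `0 ≤ h ≤ H`:
`∑_{y ∈ KK} wt h y ≤ exp(C (j+1))`.
Proof: `euler_bound`; with `f = h/p ≤ H / 2^(iz L) ≤ 1/4`: `(1-f)⁻¹ ≤ exp(2 f)`; group factor
`∏_{q ∈ gr m} (1 - f q)⁻¹ ≤ exp(2 H (sqrt(L+1)+1)/2^(iz L)) ≤ 3` for large `L` (`iz_bounds`); so the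
first product is `≤ exp(3 H ∑ 1/m) ≤ exp(3 H (16 sqrt 2 + 2))` (`sum_LD_le`, `thr L j ≤ L + 1`); the
second is `≤ exp(2 H ∑_{RP} 1/p)`, `∑_{RP} 1/p ≤ 8 (log ((L+1)/thr L j) + 1) + 2 (..)` and
`(L+1)/thr L j ≤ 4^j` as `L + 1 ≤ 4^j (L/4^j + 1)`. -/
theorem Zbound (H : ℝ) (hH : 1 ≤ H) : ∃ C : ℝ, 0 < C ∧ ∀ᶠ L : ℕ in atTop, ∀ ld : ℕ → ℕ,
    Grouping (gsz L) ld → ∀ j : ℕ, ∀ R : Finset ℕ, R.card ≤ 2 → ∀ h : ℕ → ℝ,
    (∀ p, 0 ≤ h p ∧ h p ≤ H) →
    (∑' y : ℕ, if KK L ld j R y then ENNReal.ofReal (wt h y) else 0) ≤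
      ENNReal.ofReal (Real.exp (C * (j + 1))) := by
  refine ⟨90 * H, by linarith, ?_⟩
  filter_upwards [D2b_large H hH] with L hL ld hG j R hR h hh
  obtain ⟨hL1, hL2⟩ := hL
  have hq0 : 0 ≤ (Real.sqrt ((L : ℝ) + 1) + 1) / 2 ^ iz L := by positivity
  have hL3 : (Real.sqrt ((L : ℝ) + 1) + 1) / 2 ^ iz L ≤ 1 := by nlinarith
  -- bounds for h p / p
  have hf : ∀ p : ℕ, p.Prime → iz L ≤ lev p → 0 ≤ h p / p ∧ h p / p ≤ 1 / 2 ∧
      h p / p ≤ H * (1 / p) := by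
    intro p hp hl
    have h1 := D2b_pow_lev_le hp.ne_zero hl
    have hp0 : (0 : ℝ) < p := by exact_mod_cast hp.pos
    have h2 : h p / p ≤ H * (1 / p) := by
      rw [mul_one_div]
      exact div_le_div_of_nonneg_right (hh p).2 hp0.le
    refine ⟨div_nonneg (hh p).1 hp0.le, ?_, h2⟩
    refine h2.trans ?_
    rw [mul_one_div, div_le_iff₀ hp0]
    linarith
  have hthr : thr L j ≤ L + 1 := by
    unfold thr
    have := Nat.div_le_self L (4 ^ j)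
    omega
  refine (euler_bound hG j hthr R h (fun p => (hh p).1) (fun p hp hl => (hf p hp hl).2.1)).trans ?_
  apply ENNReal.ofReal_le_ofReal
  -- group factor
  have hgr : ∀ m : ℕ, m.Prime → iz L ≤ lev m →
      0 ≤ ∏ q ∈ gr ld m, (1 - h q / q)⁻¹ ∧ ∏ q ∈ gr ld m, (1 - h q / q)⁻¹ ≤ 3 := by
    intro m hm hl
    have hb := D2b_prod_le (gr ld m) (fun q => (1 - h q / q)⁻¹) (fun q => 2 * (H * (1 / q))) (by
      intro q hq
      have hq1 := (mem_gr hG hm).1 hq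
      have hl' : iz L ≤ lev q := by
        rw [← hG.lev_eq q hq1.1, hq1.2]
        exact hl
      obtain ⟨a1, a2, a3⟩ := hf q hq1.1 hl'
      obtain ⟨b1, b2⟩ := D2b_inv_le _ a1 a2
      refine ⟨b1, b2.trans ?_⟩
      rw [Real.exp_le_exp]
      linarith)
    refine ⟨hb.1, hb.2.trans ?_⟩
    rw [← Finset.mul_sum, ← Finset.mul_sum]
    have h1 := sum_gr_le hG hm hl
    have h2 : 2 * (H * ∑ q ∈ gr ld m, (1 : ℝ) / q) ≤ 1 := by
      have : H * ∑ q ∈ gr ld m, (1 : ℝ) / q ≤ H * ((Real.sqrt (L + 1) + 1) / 2 ^ iz L) :=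
        mul_le_mul_of_nonneg_left h1 (by linarith)
      linarith
    refine (Real.exp_le_exp.2 h2).trans ?_
    have := Real.exp_one_lt_d9
    linarith
  -- first product
  have hP1 := D2b_prod_le (LD L ld (thr L j) R)
    (fun m => 1 + h m / m * ∏ q ∈ gr ld m, (1 - h q / q)⁻¹) (fun m => 3 * H * (1 / m)) (by
      intro m hm
      obtain ⟨m1, m2⟩ := D2b_mem_LD hG hm
      obtain ⟨a1, a2, a3⟩ := hf m m1 m2
      obtain ⟨b1, b2⟩ := hgr m m1 m2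
      have h5 : h m / m * ∏ q ∈ gr ld m, (1 - h q / q)⁻¹ ≤ H * (1 / m) * 3 :=
        mul_le_mul a3 b2 b1 (a1.trans a3)
      have h6 : 0 ≤ h m / m * ∏ q ∈ gr ld m, (1 - h q / q)⁻¹ := mul_nonneg a1 b1
      refine ⟨by linarith, ?_⟩
      have h7 := Real.add_one_le_exp (3 * H * (1 / (m : ℝ)))
      linarith)
  have hS1 : ∑ m ∈ LD L ld (thr L j) R, 3 * H * (1 / (m : ℝ)) ≤ 54 * H := by
    rw [← Finset.mul_sum]
    have h1 := sum_LD_le hG (thr L j) R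
    have h2 : 16 * Real.sqrt (thr L j : ℝ) / Real.sqrt (L + 1) ≤ 16 := by
      rw [div_le_iff₀ (Real.sqrt_pos.2 (by positivity))]
      have h3 : Real.sqrt (thr L j : ℝ) ≤ Real.sqrt ((L : ℝ) + 1) :=
        Real.sqrt_le_sqrt (by exact_mod_cast hthr)
      linarith
    have h3 : (2 : ℝ) / 2 ^ iz L ≤ 2 := by
      rw [div_le_iff₀ (by positivity)]
      linarith
    have h4 : ∑ m ∈ LD L ld (thr L j) R, (1 : ℝ) / m ≤ 18 := by linarith
    nlinarith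
  -- second product
  have hP2 := D2b_prod_le (RP L ld (thr L j) R)
    (fun p => (1 - h p / p)⁻¹) (fun p => 2 * H * (1 / p)) (by
      intro p hp
      obtain ⟨m1, m2, -, -⟩ := D2b_mem_RP hp
      obtain ⟨a1, a2, a3⟩ := hf p m1 m2
      obtain ⟨b1, b2⟩ := D2b_inv_le _ a1 a2
      refine ⟨b1, b2.trans ?_⟩
      rw [Real.exp_le_exp]
      linarith)
  have hS2 : ∑ p ∈ RP L ld (thr L j) R, 2 * H * (1 / (p : ℝ)) ≤ 2 * H * (16 * (j + 1) + 2) := by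
    rw [← Finset.mul_sum]
    exact mul_le_mul_of_nonneg_left (D2b_sum_RP hG j hR hL3) (by linarith)
  calc (∏ m ∈ LD L ld (thr L j) R, (1 + h m / m * ∏ q ∈ gr ld m, (1 - h q / q)⁻¹)) *
        ∏ p ∈ RP L ld (thr L j) R, (1 - h p / p)⁻¹
      ≤ Real.exp (∑ m ∈ LD L ld (thr L j) R, 3 * H * (1 / (m : ℝ))) *
        Real.exp (∑ p ∈ RP L ld (thr L j) R, 2 * H * (1 / (p : ℝ))) :=
        mul_le_mul hP1.2 hP2.2 hP2.1 (Real.exp_pos _).le
    _ = Real.exp (∑ m ∈ LD L ld (thr L j) R, 3 * H * (1 / (m : ℝ)) +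
        ∑ p ∈ RP L ld (thr L j) R, 2 * H * (1 / (p : ℝ))) := (Real.exp_add _ _).symm
    _ ≤ Real.exp (90 * H * (j + 1)) := by
        rw [Real.exp_le_exp]
        have hj0 : (0 : ℝ) ≤ j := Nat.cast_nonneg _
        have hHj : 0 ≤ H * j := mul_nonneg (by linarith) hj0
        nlinarith

end Pool.Agent.W_a617e8_h51
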