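import Pool.Agent.W_a617e8_h51.D2b

set_option autoImplicit false

/-! D2c: prescribed prime divisors. -/

noncomputable section

open scoped ENNReal

open Filter

namespace Pool.Agent.W_a617e8_h51

theorem D2c_shift {L : ℕ} {ld : ℕ → ℕ} (hG : Grouping (gsz L) ld) {j n y : ℕ} {R : Finset ℕ}
    (hR : ∀ q : ℕ, q.Prime → q ∣ n → ld q ∈ R) (h : KK L ld j ∅ (n * y)) : KK L ld j R y := by
  obtain ⟨h1, h2, h3⟩ := h
  have hy : y ≠ 0 := right_ne_zero_of_mul h1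
  refine ⟨hy, fun p hp hpy => h2 p hp (hpy.mul_left n), fun p hp hpy hl hR' => ?_⟩
  have h4 := h3 p hp (hpy.mul_left n) hl (Finset.notMem_empty _)
  rcases (hG.prime p hp).dvd_mul.1 h4 with h5 | h5
  · exact absurd (hG.idem p hp ▸ hR (ld p) (hG.prime p hp) h5) hR'
  · exact h5

theorem D2c_wt_mul (h : ℕ → ℝ) {n y : ℕ} (hn : n ≠ 0) (hy : y ≠ 0) :
    wt h (n * y) = wt h n * wt h y := by
  unfold wt
  rw [hp_mul h hn hy, Nat.cast_mul, mul_div_mul_comm]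

open Classical in
theorem D2c_sum {L : ℕ} {ld : ℕ → ℕ} (hG : Grouping (gsz L) ld) {j n : ℕ} {R : Finset ℕ}
    (hn : n ≠ 0) (hR : ∀ q : ℕ, q.Prime → q ∣ n → ld q ∈ R) (h : ℕ → ℝ) (hh : ∀ p, 0 ≤ h p)
    (B : ℝ) (hB : wt h n ≤ B) :
    (∑' y : ℕ, if KK L ld j ∅ y ∧ n ∣ y then ENNReal.ofReal (wt h y) else 0) ≤
      ENNReal.ofReal B * ∑' y : ℕ, if KK L ld j R y then ENNReal.ofReal (wt h y) else 0 := by
  have hinj : Function.Injective fun y : ℕ => n * y :=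
    fun a b hab => Nat.eq_of_mul_eq_mul_left (Nat.pos_of_ne_zero hn) hab
  have hsupp : Function.support (fun y : ℕ =>
      if KK L ld j ∅ y ∧ n ∣ y then ENNReal.ofReal (wt h y) else 0) ⊆
      Set.range fun y : ℕ => n * y := by
    intro y hy
    rw [Function.mem_support] at hy
    by_cases hc : KK L ld j ∅ y ∧ n ∣ y
    · obtain ⟨z, hz⟩ := hc.2
      exact ⟨z, hz.symm⟩
    · exact absurd (if_neg hc) hy
  rw [← hinj.tsum_eq hsupp, ← ENNReal.tsum_mul_left]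
  refine ENNReal.tsum_le_tsum fun y => ?_
  by_cases hc : KK L ld j ∅ (n * y) ∧ n ∣ n * y
  · have hk := D2c_shift hG hR hc.1
    rw [if_pos hc, if_pos hk, D2c_wt_mul h hn hk.1]
    have hw : 0 ≤ wt h y := div_nonneg (hp_nonneg hh y) (Nat.cast_nonneg _)
    have hw' : 0 ≤ wt h n := div_nonneg (hp_nonneg hh n) (Nat.cast_nonneg _)
    rw [← ENNReal.ofReal_mul (hw'.trans hB)]
    exact ENNReal.ofReal_le_ofReal (mul_le_mul_of_nonneg_right hB hw)
  · rw [if_neg hc]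
    exact zero_le

open Classical in
/-- One prescribed prime divisor: `y = a y'`, `y' ∈ KK` with `R = {ld a}`. -/
theorem Zbound_one (H : ℝ) (hH : 1 ≤ H) : ∃ C : ℝ, 0 < C ∧ ∀ᶠ L : ℕ in atTop, ∀ ld : ℕ → ℕ,
    Grouping (gsz L) ld → ∀ j : ℕ, ∀ h : ℕ → ℝ, (∀ p, 0 ≤ h p ∧ h p ≤ H) →
    ∀ a : ℕ, a.Prime →
    (∑' y : ℕ, if KK L ld j ∅ y ∧ a ∣ y then ENNReal.ofReal (wt h y) else 0) ≤
      ENNReal.ofReal (H / a * Real.exp (C * (j + 1))) := by
  obtain ⟨C, hC, hZ⟩ := Zbound H hH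
  refine ⟨C, hC, ?_⟩
  filter_upwards [hZ] with L hL ld hG j h hh a ha
  have ha0 : (0 : ℝ) < a := by exact_mod_cast ha.pos
  have h1 := D2c_sum hG (j := j) (R := {ld a}) ha.ne_zero (by
    intro q hq hqa
    rw [(Nat.prime_dvd_prime_iff_eq hq ha).1 hqa]
    exact Finset.mem_singleton_self _) h (fun p => (hh p).1) (H / a) (by
    unfold wt
    rw [hp_prime h ha]
    exact div_le_div_of_nonneg_right (hh a).2 ha0.le)
  refine h1.trans ?_
  rw [ENNReal.ofReal_mul (by positivity)]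
  exact mul_le_mul_right (hL ld hG j {ld a} (by simp) h hh) _

open Classical in
/-- Two prescribed prime divisors (with multiplicity): `y = a b y'`, `y' ∈ KK` with
`R = {ld a, ld b}`. -/
theorem Zbound_two (H : ℝ) (hH : 1 ≤ H) : ∃ C : ℝ, 0 < C ∧ ∀ᶠ L : ℕ in atTop, ∀ ld : ℕ → ℕ,
    Grouping (gsz L) ld → ∀ j : ℕ, ∀ h : ℕ → ℝ, (∀ p, 0 ≤ h p ∧ h p ≤ H) →
    ∀ a b : ℕ, a.Prime → b.Prime →
    (∑' y : ℕ, if KK L ld j ∅ y ∧ a * b ∣ y then ENNReal.ofReal (wt h y) else 0) ≤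
      ENNReal.ofReal (H / a * (H / b) * Real.exp (C * (j + 1))) := by
  obtain ⟨C, hC, hZ⟩ := Zbound H hH
  refine ⟨C, hC, ?_⟩
  filter_upwards [hZ] with L hL ld hG j h hh a b ha hb
  have ha0 : (0 : ℝ) < a := by exact_mod_cast ha.pos
  have hb0 : (0 : ℝ) < b := by exact_mod_cast hb.pos
  have h1 := D2c_sum hG (j := j) (R := {ld a, ld b}) (mul_ne_zero ha.ne_zero hb.ne_zero) (by
    intro q hq hqa
    rcases hq.dvd_mul.1 hqa with h2 | h2
    · rw [(Nat.prime_dvd_prime_iff_eq hq ha).1 h2]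
      exact Finset.mem_insert_self _ _
    · rw [(Nat.prime_dvd_prime_iff_eq hq hb).1 h2]
      exact Finset.mem_insert_of_mem (Finset.mem_singleton_self _)) h
      (fun p => (hh p).1) (H / a * (H / b)) (by
    rw [D2c_wt_mul h ha.ne_zero hb.ne_zero]
    unfold wt
    rw [hp_prime h ha, hp_prime h hb]
    exact mul_le_mul (div_le_div_of_nonneg_right (hh a).2 ha0.le)
      (div_le_div_of_nonneg_right (hh b).2 hb0.le) (div_nonneg (hh b).1 hb0.le)
      (by positivity))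
  refine h1.trans ?_
  rw [ENNReal.ofReal_mul (p := H / a * (H / b)) (by positivity)]
  exact mul_le_mul_right (hL ld hG j {ld a, ld b} Finset.card_le_two h hh) _

end Pool.Agent.W_a617e8_h51
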