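import Mathlib

set_option autoImplicit false

/-!
MP_a617e8_nt (helper51): sets avoiding `{x, 2x, .., s x}`.  Common definitions.
-/

noncomputable section

open scoped ENNReal

namespace Pool.Agent.W_a617e8_h51

/-- `S` is `s`-pattern-free: no positive `x` has all of `x, 2 x, .., s x` in `S`. -/
def PatFree (s : ℕ) (S : Finset ℕ) : Prop :=
  ∀ x : ℕ, 0 < x → ¬ ∀ j : ℕ, 1 ≤ j → j ≤ s → j * x ∈ S

open Classical in
/-- `pmax s n` is the largest size of an `s`-pattern-free subset of `{1, .., n}`. -/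
def pmax (s n : ℕ) : ℕ := ((Finset.Icc 1 n).powerset.filter (PatFree s)).sup Finset.card

/-- `n` is `s`-smooth: nonzero, all prime factors `≤ s`. -/
def Smooth (s n : ℕ) : Prop := n ≠ 0 ∧ ∀ p : ℕ, p.Prime → p ∣ n → p ≤ s

/-- `T` hits `{u, 2u, .., su}`. -/
def Hit (s : ℕ) (T : Set ℕ) (u : ℕ) : Prop := ∃ j : ℕ, 1 ≤ j ∧ j ≤ s ∧ j * u ∈ T

/-- `NN s n`: least size of a finite set hitting `{u, .., su}` for all smooth `u ≤ n`. -/
def NN (s n : ℕ) : ℕ :=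
  sInf {k : ℕ | ∃ T : Finset ℕ, (∀ u, Smooth s u → u ≤ n → Hit s (T : Set ℕ) u) ∧ T.card = k}

/-- `GG s = ∑_{n ≥ 1} NN s n / (n (n+1))`. -/
def GG (s : ℕ) : ℝ≥0∞ := ∑' n : ℕ, (NN s (n + 1) : ℝ≥0∞) / (((n + 1) * (n + 2) : ℕ) : ℝ≥0∞)

/-- `∏_{p ≤ s} (1 - 1/p)`. -/
def dl (s : ℕ) : ℝ := ∏ p ∈ (Finset.Icc 1 s).filter Nat.Prime, (1 - 1 / (p : ℝ))

open Classical in
/-- Cost of a set `T`: `∑_{t ∈ T} s / t`. -/
def cst (s : ℕ) (T : Set ℕ) : ℝ≥0∞ := ∑' t : ℕ, if t ∈ T then (s : ℝ≥0∞) / (t : ℝ≥0∞) else 0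

/-- Dyadic level: `2^(lev p) ≤ p < 2^(lev p + 1)`. -/
def lev (p : ℕ) : ℕ := Nat.log 2 p

/-- Primes of level `i`. -/
def PL (i : ℕ) : Finset ℕ := (Finset.Ico (2 ^ i) (2 ^ (i + 1))).filter Nat.Prime

/-- A grouping of the primes: `ld p` is the least prime (leader) of the group of `p`; groups lie
inside one dyadic level `i`, have at most `g i` elements, and level `i` has at most
`#PL i / g i + 1` groups. -/
structure Grouping (g : ℕ → ℕ) (ld : ℕ → ℕ) : Prop where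
  prime : ∀ p : ℕ, p.Prime → (ld p).Prime
  lev_eq : ∀ p : ℕ, p.Prime → lev (ld p) = lev p
  le : ∀ p : ℕ, p.Prime → ld p ≤ p
  idem : ∀ p : ℕ, p.Prime → ld (ld p) = ld p
  card_le : ∀ m : ℕ, m.Prime → ((PL (lev m)).filter (fun q => ld q = m)).card ≤ g (lev m)
  num_le : ∀ i : ℕ, ((((PL i).image ld).card : ℝ)) ≤ ((PL i).card : ℝ) / (g i : ℝ) + 1

/-- Group size at level `i` (for `2^L ≤ s < 2^(L+1)`). -/
def gsz (L i : ℕ) : ℕ := Nat.sqrt ((L + 1) / (i + 1)) + 1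

/-- Tiny primes are those of level `< iz L`; `2^(iz L)` is about `L^(3/4)`. -/
def iz (L : ℕ) : ℕ := (3 * Nat.log 2 (L + 1)) / 4 + 1

/-- Exponent in the filler. -/
def ez (L : ℕ) : ℕ := 3 * Nat.log 2 (L + 1) + 3

/-- Filler made of the tiny primes. -/
def Fl (L : ℕ) : ℕ := primorial (2 ^ iz L) ^ ez L

/-- Tiny part of `x`: the part composed of primes of level `< iz L`. -/
def tp (L x : ℕ) : ℕ := ∏ p ∈ x.primeFactors.filter (fun p => lev p < iz L), p ^ (x.factorization p)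

/-- Leaders of the groups met by `x` at levels in `[iz L, I)`. -/
def Mt (L : ℕ) (ld : ℕ → ℕ) (I x : ℕ) : Finset ℕ :=
  (x.primeFactors.filter (fun p => iz L ≤ lev p ∧ lev p < I)).image ld

/-- Budget used by the groups in `Mt`. -/
def bud (L : ℕ) (ld : ℕ → ℕ) (I x : ℕ) : ℕ :=
  ∑ m ∈ Mt L ld I x, (gsz L (lev m) - 1) * (lev m + 1)

/-- Group of the leader `m`. -/
def gr (ld : ℕ → ℕ) (m : ℕ) : Finset ℕ := (PL (lev m)).filter (fun q => ld q = m)

/-- Thresholds: `I_j = L / 4^j + 1` (levels `< I_j` are grouped at stage `j`). -/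
def thr (L j : ℕ) : ℕ := L / 4 ^ j + 1

end Pool.Agent.W_a617e8_h51
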