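import Pool.Agent.W_a617e8_h51.D0b

set_option autoImplicit false

/-! E0: weights of the stages. -/

noncomputable section

open scoped ENNReal

open Filter

namespace Pool.Agent.W_a617e8_h51

/-- Stage weight. -/
def hst (L j : ℕ) (p : ℕ) : ℝ :=
  if 1 ≤ j ∧ iz L ≤ lev p ∧ lev p < thr L (j - 1) then
    Real.exp (2 ^ j * (((gsz L (lev p) - 1) * (lev p + 1) : ℕ) : ℝ) / (L + 1)) else 1

/-- `1 ≤ hst ≤ e^3`: for `lev p < thr L (j-1)`, `lev p ≤ L/4^(j-1)`; `L/4^(j-1) ≥ 1` because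
`lev p ≥ iz L ≥ 1`; by `gsz_bounds` the exponent is at most
`2^j sqrt((lev p + 1)/(L+1)) ≤ 2^j sqrt(2 / 4^(j-1)) = 2 sqrt 2`. -/
theorem hst_bounds (L j p : ℕ) : 1 ≤ hst L j p ∧ hst L j p ≤ Real.exp 3 := by
  unfold hst
  split_ifs with h
  · obtain ⟨h1, h2, h3⟩ := h
    set i := lev p with hi
    set M := (gsz L i - 1) * (i + 1) with hM
    have hL : (0 : ℝ) < (L : ℝ) + 1 := by positivity
    have hnn : 0 ≤ 2 ^ j * (M : ℝ) / (L + 1) := by positivity
    have hM2 : M ^ 2 ≤ (L + 1) * (i + 1) := by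
      have e1 : gsz L i - 1 = Nat.sqrt ((L + 1) / (i + 1)) := by unfold gsz; omega
      have e2 : Nat.sqrt ((L + 1) / (i + 1)) ^ 2 ≤ (L + 1) / (i + 1) := Nat.sqrt_le' _
      have e3 : (L + 1) / (i + 1) * (i + 1) ≤ L + 1 := Nat.div_mul_le_self _ _
      calc M ^ 2 = Nat.sqrt ((L + 1) / (i + 1)) ^ 2 * (i + 1) * (i + 1) := by
            rw [hM, e1]; ring
        _ ≤ (L + 1) / (i + 1) * (i + 1) * (i + 1) := by gcongr
        _ ≤ (L + 1) * (i + 1) := by gcongr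
    have hi1 : 1 ≤ i := by
      have : 1 ≤ iz L := by unfold iz; omega
      omega
    have h4 : 4 ^ j * (i + 1) ≤ 8 * (L + 1) := by
      obtain ⟨t, rfl⟩ : ∃ t, j = t + 1 := ⟨j - 1, by omega⟩
      have h5 : i ≤ L / 4 ^ t := by
        have : i < L / 4 ^ t + 1 := h3
        omega
      have h6 : L / 4 ^ t * 4 ^ t ≤ L := Nat.div_mul_le_self _ _
      calc 4 ^ (t + 1) * (i + 1) ≤ 4 ^ (t + 1) * (2 * (L / 4 ^ t)) := by gcongr; omega
        _ = 8 * (L / 4 ^ t * 4 ^ t) := by ring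
        _ ≤ 8 * (L + 1) := by omega
    have hsq : (2 ^ j * (M : ℝ) / (L + 1)) ^ 2 ≤ 3 ^ 2 := by
      have hM2r : (M : ℝ) ^ 2 ≤ ((L : ℝ) + 1) * (i + 1) := by exact_mod_cast hM2
      have h4r : (4 : ℝ) ^ j * ((i : ℝ) + 1) ≤ 8 * ((L : ℝ) + 1) := by exact_mod_cast h4
      have e4 : ((2 : ℝ) ^ j) ^ 2 = 4 ^ j := by
        rw [← pow_mul, mul_comm, pow_mul]; norm_num
      rw [div_pow, mul_pow, e4, div_le_iff₀ (by positivity)]
      calc (4 : ℝ) ^ j * (M : ℝ) ^ 2 ≤ 4 ^ j * (((L : ℝ) + 1) * (i + 1)) := by gcongr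
        _ = (4 ^ j * ((i : ℝ) + 1)) * ((L : ℝ) + 1) := by ring
        _ ≤ 8 * ((L : ℝ) + 1) * ((L : ℝ) + 1) := by gcongr
        _ ≤ 3 ^ 2 * ((L : ℝ) + 1) ^ 2 := by nlinarith [sq_nonneg ((L : ℝ) + 1)]
    have hle : 2 ^ j * (M : ℝ) / (L + 1) ≤ 3 := by
      have := Real.sqrt_le_sqrt hsq
      rwa [Real.sqrt_sq hnn, Real.sqrt_sq (by norm_num)] at this
    exact ⟨Real.one_le_exp hnn, Real.exp_le_exp.2 hle⟩
  · exact ⟨le_rfl, Real.one_le_exp (by norm_num)⟩

/-- Keys at stage `j` have small weight relative to `hst`: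
`1 / y ≤ exp(-(2^j - 1)/8) * wt (hst L j) y`.
Proof: `hp (hst L j) y ≥ exp(2^j bud L ld (thr L (j-1)) y / (L+1))` for `j ≥ 1` (`hp_ge_of_Mt`),
`bud .. y = bud .. x > L/2` (`Mt_congr`, `key_map`), and `L/(2(L+1)) ≥ 1/4`. -/
theorem key_weight {L : ℕ} (hL : 1 ≤ L) {ld : ℕ → ℕ} (hG : Grouping (gsz L) ld) {j x y : ℕ}
    (hx : x ≠ 0) (hk : KeyRel L ld j x y) :
    (1 : ℝ) / y ≤ Real.exp (-((2 : ℝ) ^ j - 1) / 8) * wt (hst L j) y := by
  have _ := hL
  obtain ⟨hkey, hbud⟩ := hk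
  obtain ⟨hy, hmap⟩ := key_map hG hx hkey
  have hypos : (0 : ℝ) < y := by exact_mod_cast Nat.pos_of_ne_zero hy
  have hmain : Real.exp (((2 : ℝ) ^ j - 1) / 8) ≤ hp (hst L j) y := by
    rcases Nat.eq_zero_or_pos j with rfl | hj
    · have h1 : 1 ≤ hp (hst L 0) y := hp_one_le (fun p => (hst_bounds L 0 p).1) y
      simpa using h1
    · set φ : ℕ → ℝ := fun i => 2 ^ j * (((gsz L i - 1) * (i + 1) : ℕ) : ℝ) / (L + 1) with hφ
      have hφ0 : ∀ i, 0 ≤ φ i := fun i => by rw [hφ]; positivity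
      have h1 := hp_ge_of_Mt hG φ hφ0 (thr L (j - 1)) y hy
      have e1 : (fun p => Real.exp
          (if iz L ≤ lev p ∧ lev p < thr L (j - 1) then φ (lev p) else 0)) = hst L j := by
        funext p
        unfold hst
        by_cases hc : iz L ≤ lev p ∧ lev p < thr L (j - 1)
        · rw [if_pos hc, if_pos ⟨hj, hc⟩]
        · rw [if_neg hc, if_neg (fun hh => hc hh.2), Real.exp_zero]
      rw [e1] at h1
      refine le_trans (Real.exp_le_exp.2 ?_) h1
      have hMt := Mt_congr hG hx hmap (thr L (j - 1))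
      have e2 : ∑ m ∈ Mt L ld (thr L (j - 1)) y, φ (lev m) =
          2 ^ j * (bud L ld (thr L (j - 1)) x : ℝ) / (L + 1) := by
        unfold bud
        rw [hMt]
        push_cast
        rw [Finset.mul_sum, Finset.sum_div]
        refine Finset.sum_congr rfl fun m _ => ?_
        rw [hφ]
        push_cast
        rfl
      rw [e2]
      have h2 := hbud (j - 1) (by omega)
      have h3 : ((L : ℝ) + 1) ≤ 2 * (bud L ld (thr L (j - 1)) x : ℝ) := by
        exact_mod_cast (by omega : L + 1 ≤ 2 * bud L ld (thr L (j - 1)) x)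
      have hLp : (0 : ℝ) < (L : ℝ) + 1 := by positivity
      rw [le_div_iff₀ hLp]
      have h4 : (0 : ℝ) < 2 ^ j := by positivity
      nlinarith
  unfold wt
  rw [← mul_div_assoc]
  refine div_le_div_of_nonneg_right ?_ hypos.le
  have h5 : Real.exp (-((2 : ℝ) ^ j - 1) / 8) * Real.exp (((2 : ℝ) ^ j - 1) / 8) = 1 := by
    rw [← Real.exp_add, neg_div, neg_add_cancel, Real.exp_zero]
  calc (1 : ℝ) = Real.exp (-((2 : ℝ) ^ j - 1) / 8) * Real.exp (((2 : ℝ) ^ j - 1) / 8) := h5.symm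
    _ ≤ _ := mul_le_mul_of_nonneg_left hmain (Real.exp_pos _).le

/-- The stage sum converges. -/
theorem stage_sum (C : ℝ) : Summable fun j : ℕ =>
    2 * Real.exp (-((2 : ℝ) ^ j - 1) / 8) * Real.exp (C * (j + 1)) := by
  have hs : Summable fun j : ℕ => 2 * Real.exp (-(j : ℝ)) := Real.summable_exp_neg_nat.mul_left 2
  refine Summable.of_norm_bounded_eventually_nat hs ?_
  have hD : (0 : ℝ) < 1 / (16 * |C| + 25) := by positivity
  have ht := tendsto_pow_const_div_const_pow_of_one_lt 1 (r := (2 : ℝ)) (by norm_num)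
  filter_upwards [ht.eventually_le_const hD, eventually_ge_atTop 1] with j hj hj1
  rw [Real.norm_of_nonneg (by positivity), mul_assoc, ← Real.exp_add]
  refine mul_le_mul_of_nonneg_left (Real.exp_le_exp.2 ?_) (by norm_num)
  rw [pow_one, div_le_iff₀ (by positivity), one_div, inv_mul_eq_div, le_div_iff₀ (by positivity)]
    at hj
  have hj1' : (1 : ℝ) ≤ j := by exact_mod_cast hj1
  have hC : C * ((j : ℝ) + 1) ≤ |C| * (2 * j) := by
    calc C * ((j : ℝ) + 1) ≤ |C| * ((j : ℝ) + 1) :=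
          mul_le_mul_of_nonneg_right (le_abs_self C) (by positivity)
      _ ≤ |C| * (2 * j) := mul_le_mul_of_nonneg_left (by linarith) (abs_nonneg C)
  nlinarith

end Pool.Agent.W_a617e8_h51
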