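import Pool.Agent.W_a617e8_h51.E0
import Pool.Agent.W_a617e8_h51.D2c

set_option autoImplicit false

/-! E0b: crude cost of a set. -/

noncomputable section

open scoped ENNReal

open Filter

namespace Pool.Agent.W_a617e8_h51

open Classical in
/-- Crude cost of a set `E`. -/
def Cr (L : ℕ) (ld : ℕ → ℕ) (E : Set ℕ) : ℝ≥0∞ :=
  ∑' j : ℕ, ∑' y : ℕ, if ∃ x ∈ E, KeyRel L ld j x y then (2 : ℝ≥0∞) / (y : ℝ≥0∞) else 0

/-- **General bound.**  If every key `y` of an element of `E` satisfies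
`1 ≤ A * hp k y` with a fixed `k`, `1 ≤ k ≤ H`, then `Cr E ≤ A * C(H)`.
Proof: `2/y ≤ 2 A exp(-(2^j-1)/8) wt (hst * k) y` (`key_weight`, `hp_fun_mul`), `hst * k ≤ e^3 H`,
`KK_of_KeyRel`, `Zbound`, `stage_sum`. -/
theorem Cr_le_weight (H : ℝ) (hH : 1 ≤ H) : ∃ C : ℝ, 0 < C ∧ ∀ᶠ L : ℕ in atTop, ∀ s : ℕ,
    s < 2 ^ (L + 1) → ∀ ld : ℕ → ℕ, Grouping (gsz L) ld → ∀ E : Set ℕ, (∀ x ∈ E, Smooth s x) →
    ∀ k : ℕ → ℝ, (∀ p, 1 ≤ k p ∧ k p ≤ H) → ∀ A : ℝ, 0 ≤ A →
    (∀ j x y : ℕ, x ∈ E → KeyRel L ld j x y → 1 ≤ A * hp k y) →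
    Cr L ld E ≤ ENNReal.ofReal (A * C) := by
  classical
  have he3 : (1 : ℝ) ≤ Real.exp 3 := Real.one_le_exp (by norm_num)
  have hH1 : (1 : ℝ) ≤ Real.exp 3 * H := by nlinarith
  obtain ⟨C, hC, hZ⟩ := Zbound (Real.exp 3 * H) hH1
  set w : ℕ → ℝ := fun j => 2 * Real.exp (-((2 : ℝ) ^ j - 1) / 8) * Real.exp (C * (j + 1)) with hw
  have hws : Summable w := stage_sum C
  have hw0 : ∀ j, 0 < w j := fun j => by rw [hw]; positivity
  refine ⟨∑' j, w j, hws.tsum_pos (fun j => (hw0 j).le) 0 (hw0 0), ?_⟩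
  filter_upwards [hZ, eventually_ge_atTop 1] with L hZ hL s hs ld hG E hE k hk A hA hkey
  unfold Cr
  have hstep : ∀ j : ℕ, (∑' y : ℕ, if ∃ x ∈ E, KeyRel L ld j x y then (2 : ℝ≥0∞) / (y : ℝ≥0∞)
      else 0) ≤ ENNReal.ofReal (A * w j) := by
    intro j
    have h1 : ∀ y : ℕ, (if ∃ x ∈ E, KeyRel L ld j x y then (2 : ℝ≥0∞) / (y : ℝ≥0∞) else 0) ≤
        ENNReal.ofReal (A * (2 * Real.exp (-((2 : ℝ) ^ j - 1) / 8))) *
          (if KK L ld j ∅ y then ENNReal.ofReal (wt (fun p => hst L j p * k p) y) else 0) := by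
      intro y
      split_ifs with h h' h'
      · obtain ⟨x, hxE, hkr⟩ := h
        have hsm := hE x hxE
        have hKK := KK_of_KeyRel hG hs hsm hkr
        rw [← ENNReal.ofReal_mul (by positivity)]
        have h2 := key_weight hL hG hsm.1 hkr
        have hy0 : (0 : ℝ) < y := by exact_mod_cast Nat.pos_of_ne_zero hKK.1
        have h3 : (2 : ℝ≥0∞) / (y : ℝ≥0∞) = ENNReal.ofReal (2 * (1 / (y : ℝ))) := by
          rw [mul_one_div, ENNReal.ofReal_div_of_pos hy0]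
          simp
        rw [h3]
        refine ENNReal.ofReal_le_ofReal ?_
        have h4 := hkey j x y hxE hkr
        have hwt0 : 0 ≤ wt (hst L j) y := by
          unfold wt
          exact div_nonneg (hp_nonneg (fun p => zero_le_one.trans (hst_bounds L j p).1) y) hy0.le
        have h5 : wt (fun p => hst L j p * k p) y = wt (hst L j) y * hp k y := by
          unfold wt
          rw [hp_fun_mul]
          ring
        rw [h5]
        have h6 : Real.exp (-((2 : ℝ) ^ j - 1) / 8) * wt (hst L j) y ≤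
            Real.exp (-((2 : ℝ) ^ j - 1) / 8) * wt (hst L j) y * (A * hp k y) :=
          le_mul_of_one_le_right (mul_nonneg (Real.exp_pos _).le hwt0) h4
        calc 2 * (1 / (y : ℝ)) ≤
            2 * (Real.exp (-((2 : ℝ) ^ j - 1) / 8) * wt (hst L j) y * (A * hp k y)) :=
              mul_le_mul_of_nonneg_left (h2.trans h6) (by norm_num)
          _ = _ := by ring
      · obtain ⟨x, hxE, hkr⟩ := h
        exact absurd (KK_of_KeyRel hG hs (hE x hxE) hkr) h'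
      · exact zero_le
      · exact zero_le
    refine (ENNReal.tsum_le_tsum h1).trans ?_
    rw [ENNReal.tsum_mul_left]
    have h5 := hZ ld hG j ∅ (by simp) (fun p => hst L j p * k p) (fun p => ⟨by
      have := (hst_bounds L j p).1
      have := (hk p).1
      positivity, mul_le_mul (hst_bounds L j p).2 (hk p).2 (by linarith [(hk p).1])
        (Real.exp_pos _).le⟩)
    refine (mul_le_mul_right h5 _).trans ?_
    rw [← ENNReal.ofReal_mul (by positivity)]
    refine ENNReal.ofReal_le_ofReal (le_of_eq ?_)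
    rw [hw]
    ring
  refine (ENNReal.tsum_le_tsum hstep).trans ?_
  rw [← ENNReal.ofReal_tsum_of_nonneg (fun j => mul_nonneg hA (hw0 j).le)
    (hws.mul_left _), tsum_mul_left]

/-- All numbers: `Cr ≤ C`. (`Cr_le_weight` with `k = 1`, `A = 1`.) -/
theorem Cr_all : ∃ C : ℝ, 0 < C ∧ ∀ᶠ L : ℕ in atTop, ∀ s : ℕ,
    s < 2 ^ (L + 1) → ∀ ld : ℕ → ℕ, Grouping (gsz L) ld → ∀ E : Set ℕ, (∀ x ∈ E, Smooth s x) →
    Cr L ld E ≤ ENNReal.ofReal C := by
  obtain ⟨C, hC, h⟩ := Cr_le_weight 1 le_rfl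
  refine ⟨C, hC, ?_⟩
  filter_upwards [h] with L hL s hs ld hG E hE
  have h1 := hL s hs ld hG E hE (fun _ => 1) (fun _ => ⟨le_rfl, le_rfl⟩) 1 zero_le_one
    (fun j x y _ _ => by rw [one_mul]; exact hp_one_le (fun _ => le_rfl) y)
  rwa [one_mul] at h1

end Pool.Agent.W_a617e8_h51
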