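import Pool.Agent.W_a617e8_h51.E0b

set_option autoImplicit false

/-! E1: numbers with a large prime factor. -/

noncomputable section

open scoped ENNReal

open Filter

namespace Pool.Agent.W_a617e8_h51

/-- Numbers with a prime factor of level `≥ i₁`: cost `≤ C (L + 1 - i₁)/i₁`.
Proof: the multiset of `ld`-values, hence of levels, of a key `y` is that of `x / tp` (`key_map`), so
`y` has a prime factor `a` of level in `[i₁, L]`.  `2/y ≤ 2 exp(-(2^j-1)/8) wt (hst L j) y`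
(`key_weight`), `Zbound_one` with `H = e^3`, sum over `a`: `∑ 1/a ≤ ∑_{i₁ ≤ i ≤ L} 8/(i+1)`
(`card_PL_le`) `≤ 8 (L + 1 - i₁)/i₁`; `stage_sum`. -/
theorem Cr_big : ∃ C : ℝ, 0 < C ∧ ∀ᶠ L : ℕ in atTop, ∀ s : ℕ,
    s < 2 ^ (L + 1) → ∀ ld : ℕ → ℕ, Grouping (gsz L) ld → ∀ i₁ : ℕ, iz L ≤ i₁ → i₁ ≤ L →
    Cr L ld {x | Smooth s x ∧ ∃ p : ℕ, p.Prime ∧ p ∣ x ∧ i₁ ≤ lev p} ≤
      ENNReal.ofReal (C * ((L + 1 - i₁) / i₁)) := by
  classical
  set H : ℝ := Real.exp 3 with hH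
  have hH1 : 1 ≤ H := Real.one_le_exp (by norm_num)
  have hH0 : 0 < H := by linarith
  obtain ⟨C₀, hC₀, hZ⟩ := Zbound_one H hH1
  set b : ℕ → ℝ := fun j => 2 * Real.exp (-((2 : ℝ) ^ j - 1) / 8) * Real.exp (C₀ * (j + 1)) with hb
  have hbs : Summable b := stage_sum C₀
  have hb0 : ∀ j, 0 ≤ b j := fun j => by
    simp only [hb]
    positivity
  have hS0 : 0 ≤ ∑' j, b j := tsum_nonneg hb0
  refine ⟨8 * H * (∑' j, b j + 1), by positivity, ?_⟩
  filter_upwards [hZ, eventually_ge_atTop 1] with L hL hL1 s hs ld hG i₁ hi₁ hi₁L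
  have hiz : 1 ≤ iz L := Nat.le_add_left 1 _
  have hi1 : 1 ≤ i₁ := hiz.trans hi₁
  have hi1r : (0 : ℝ) < i₁ := by exact_mod_cast hi1
  set A : Finset ℕ := (Finset.Icc i₁ L).biUnion PL with hA
  have hAprime : ∀ a ∈ A, a.Prime := by
    intro a ha
    rw [hA, Finset.mem_biUnion] at ha
    obtain ⟨i, -, hi⟩ := ha
    exact (mem_PL.1 hi).1
  -- the sum of 1 / a
  have hAsum : ∑ a ∈ A, (1 : ℝ) / a ≤ 8 * ((L + 1 - i₁) / i₁) := by
    have h1 : ∑ a ∈ A, (1 : ℝ) / a = ∑ i ∈ Finset.Icc i₁ L, ∑ a ∈ PL i, (1 : ℝ) / a := by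
      rw [hA]
      refine Finset.sum_biUnion ?_
      intro x _ y _ hxy
      rw [Function.onFun, Finset.disjoint_left]
      intro p hpx hpy
      exact hxy ((mem_PL.1 hpx).2.symm.trans (mem_PL.1 hpy).2)
    rw [h1]
    have h2 : ∀ i ∈ Finset.Icc i₁ L, ∑ a ∈ PL i, (1 : ℝ) / a ≤ 8 / i₁ := by
      intro i hi
      have h3 : ∀ p ∈ PL i, (1 : ℝ) / p ≤ 1 / 2 ^ i := by
        intro p hp
        have h4 := (Finset.mem_Ico.1 (Finset.mem_filter.1 hp).1).1
        exact one_div_le_one_div_of_le (by positivity) (by exact_mod_cast h4)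
      have h4 := card_PL_le i
      have h5 : (i₁ : ℝ) ≤ (i : ℝ) + 1 := by
        have : (i₁ : ℝ) ≤ i := by exact_mod_cast (Finset.mem_Icc.1 hi).1
        linarith
      calc ∑ a ∈ PL i, (1 : ℝ) / a ≤ ∑ _a ∈ PL i, (1 : ℝ) / 2 ^ i := Finset.sum_le_sum h3
        _ = ((PL i).card : ℝ) * (1 / 2 ^ i) := by rw [Finset.sum_const, nsmul_eq_mul]
        _ ≤ 8 * 2 ^ i / (i + 1) * (1 / 2 ^ i) := mul_le_mul_of_nonneg_right h4 (by positivity)
        _ = 8 / ((i : ℝ) + 1) := by field_simp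
        _ ≤ 8 / i₁ := div_le_div_of_nonneg_left (by norm_num) hi1r h5
    refine (Finset.sum_le_sum h2).trans (le_of_eq ?_)
    rw [Finset.sum_const, nsmul_eq_mul, Nat.card_Icc, Nat.cast_sub (by omega)]
    push_cast
    ring
  have hAnn : 0 ≤ ∑ a ∈ A, (1 : ℝ) / a := Finset.sum_nonneg fun a _ => by positivity
  -- one term
  have hterm : ∀ j y : ℕ, (if ∃ x ∈ {x | Smooth s x ∧ ∃ p : ℕ, p.Prime ∧ p ∣ x ∧ i₁ ≤ lev p},
      KeyRel L ld j x y then (2 : ℝ≥0∞) / (y : ℝ≥0∞) else 0) ≤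
      ∑ a ∈ A, ENNReal.ofReal (2 * Real.exp (-((2 : ℝ) ^ j - 1) / 8)) *
        (if KK L ld j ∅ y ∧ a ∣ y then ENNReal.ofReal (wt (hst L j) y) else 0) := by
    intro j y
    split_ifs with hex
    · obtain ⟨x, ⟨hsm, p, hp, hpx, hpl⟩, hk⟩ := hex
      have hx0 := hsm.1
      obtain ⟨hy, hmap⟩ := key_map hG hx0 hk.1
      have hKK := KK_of_KeyRel hG hs hsm hk
      have h0 : p ∈ (x / tp L x).primeFactors := by
        rw [primeFactors_div_tp L x hx0, Finset.mem_filter, Nat.mem_primeFactors]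
        exact ⟨⟨hp, hpx, hx0⟩, hi₁.trans hpl⟩
      have h1 : ld p ∈ (((x / tp L x).primeFactorsList : Multiset ℕ)).map ld :=
        Multiset.mem_map.2 ⟨p, Multiset.mem_coe.2
          (Nat.mem_primeFactors_iff_mem_primeFactorsList.1 h0), rfl⟩
      rw [← hmap] at h1
      obtain ⟨a, ha, he⟩ := Multiset.mem_map.1 h1
      have ha' := Multiset.mem_coe.1 ha
      have hap := Nat.prime_of_mem_primeFactorsList ha'
      have hay := Nat.dvd_of_mem_primeFactorsList ha'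
      have hlev : lev a = lev p := by
        rw [← hG.lev_eq a hap, he, hG.lev_eq p hp]
      have haA : a ∈ A := by
        rw [hA, Finset.mem_biUnion]
        refine ⟨lev a, Finset.mem_Icc.2 ⟨hlev ▸ hpl, (hKK.2.1 a hap hay).2⟩, mem_PL.2 ⟨hap, rfl⟩⟩
      refine le_trans ?_ (Finset.single_le_sum (f := fun a =>
        ENNReal.ofReal (2 * Real.exp (-((2 : ℝ) ^ j - 1) / 8)) *
        (if KK L ld j ∅ y ∧ a ∣ y then ENNReal.ofReal (wt (hst L j) y) else 0))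
        (fun _ _ => zero_le) haA)
      rw [if_pos ⟨hKK, hay⟩, ← ENNReal.ofReal_mul (by positivity)]
      have hy0 : (0 : ℝ) < y := by exact_mod_cast Nat.pos_of_ne_zero hy
      have h2 : (2 : ℝ≥0∞) / (y : ℝ≥0∞) = ENNReal.ofReal (2 / y) := by
        rw [ENNReal.ofReal_div_of_pos hy0, ENNReal.ofReal_ofNat, ENNReal.ofReal_natCast]
      rw [h2]
      apply ENNReal.ofReal_le_ofReal
      have h3 := key_weight hL1 hG hx0 hk
      calc (2 : ℝ) / y = 2 * (1 / y) := by ring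
        _ ≤ 2 * (Real.exp (-((2 : ℝ) ^ j - 1) / 8) * wt (hst L j) y) :=
            mul_le_mul_of_nonneg_left h3 (by norm_num)
        _ = 2 * Real.exp (-((2 : ℝ) ^ j - 1) / 8) * wt (hst L j) y := by ring
    · exact zero_le
  -- sum over y
  have hstage : ∀ j : ℕ, (∑' y : ℕ,
      if ∃ x ∈ {x | Smooth s x ∧ ∃ p : ℕ, p.Prime ∧ p ∣ x ∧ i₁ ≤ lev p},
      KeyRel L ld j x y then (2 : ℝ≥0∞) / (y : ℝ≥0∞) else 0) ≤
      ENNReal.ofReal (b j * (H * ∑ a ∈ A, (1 : ℝ) / a)) := by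
    intro j
    refine (ENNReal.tsum_le_tsum (hterm j)).trans ?_
    rw [Summable.tsum_finsetSum (fun a _ => ENNReal.summable)]
    have h1 : ∀ a ∈ A, (∑' y : ℕ, ENNReal.ofReal (2 * Real.exp (-((2 : ℝ) ^ j - 1) / 8)) *
        (if KK L ld j ∅ y ∧ a ∣ y then ENNReal.ofReal (wt (hst L j) y) else 0)) ≤
        ENNReal.ofReal (b j * (H * (1 / a))) := by
      intro a ha
      rw [ENNReal.tsum_mul_left]
      have h2 := hL ld hG j (hst L j) (fun p => ⟨by linarith [(hst_bounds L j p).1],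
        (hst_bounds L j p).2⟩) a (hAprime a ha)
      refine (mul_le_mul_right h2 _).trans (le_of_eq ?_)
      rw [← ENNReal.ofReal_mul (by positivity)]
      congr 1
      simp only [hb]
      ring
    refine (Finset.sum_le_sum h1).trans (le_of_eq ?_)
    rw [← ENNReal.ofReal_sum_of_nonneg (fun a _ => by have := hb0 j; positivity)]
    congr 1
    rw [Finset.mul_sum, Finset.mul_sum]
  unfold Cr
  refine (ENNReal.tsum_le_tsum hstage).trans ?_
  rw [← ENNReal.ofReal_tsum_of_nonneg (fun j => mul_nonneg (hb0 j) (mul_nonneg hH0.le hAnn))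
    (hbs.mul_right _), tsum_mul_right]
  apply ENNReal.ofReal_le_ofReal
  have hnn : 0 ≤ ((L : ℝ) + 1 - i₁) / i₁ := by
    apply div_nonneg _ hi1r.le
    have : (i₁ : ℝ) ≤ L := by exact_mod_cast hi₁L
    linarith
  calc (∑' j, b j) * (H * ∑ a ∈ A, (1 : ℝ) / a)
      ≤ (∑' j, b j + 1) * (H * (8 * ((L + 1 - i₁) / i₁))) := by
        apply mul_le_mul (by linarith) (mul_le_mul_of_nonneg_left hAsum hH0.le)
          (mul_nonneg hH0.le hAnn) (by linarith)
    _ = 8 * H * (∑' j, b j + 1) * ((L + 1 - i₁) / i₁) := by ring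

end Pool.Agent.W_a617e8_h51
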