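import Pool.Agent.W_a617e8_h51.E0b

set_option autoImplicit false

/-! E1b: numbers with close prime factors. -/

noncomputable section

open scoped ENNReal

open Filter

namespace Pool.Agent.W_a617e8_h51

/-- Two prime divisors (with multiplicity) of `x` of non-tiny level give two prime divisors (with
multiplicity) of every key with the same `ld`-values. -/
theorem E1b_two_of_key {L : ℕ} {ld : ℕ → ℕ} (hG : Grouping (gsz L) ld) {I x y : ℕ} (hx : x ≠ 0)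
    (hk : IsKey L ld I x y) {a b : ℕ} (ha : a.Prime) (hb : b.Prime) (hab : a * b ∣ x)
    (hla : iz L ≤ lev a) (hlb : iz L ≤ lev b) :
    ∃ a' b' : ℕ, a'.Prime ∧ b'.Prime ∧ a' * b' ∣ y ∧ ld a' = ld a ∧ ld b' = ld b := by
  obtain ⟨hy, hm⟩ := key_map hG hx hk
  obtain ⟨htd, ht0⟩ := tp_dvd L x hx
  have hxt : x / tp L x ≠ 0 := (Nat.div_pos (Nat.le_of_dvd (Nat.pos_of_ne_zero hx) htd)
    (Nat.pos_of_ne_zero ht0)).ne'
  have hcop : ∀ p : ℕ, p.Prime → iz L ≤ lev p → Nat.Coprime p (tp L x) := by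
    intro p hp hl
    rw [hp.coprime_iff_not_dvd]
    intro hd
    unfold tp at hd
    rw [hp.prime.dvd_finsetProd_iff] at hd
    obtain ⟨q, hq, hpq⟩ := hd
    rw [Finset.mem_filter] at hq
    have hqp := Nat.prime_of_mem_primeFactors hq.1
    have h1 : p ∣ q := hp.dvd_of_dvd_pow hpq
    have h2 : p = q := (Nat.prime_dvd_prime_iff_eq hp hqp).1 h1
    rw [h2] at hl
    omega
  have hab' : a * b ∣ x / tp L x := by
    have h1 : a * b ∣ tp L x * (x / tp L x) := by rw [Nat.mul_div_cancel' htd]; exact hab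
    exact (Nat.Coprime.mul_left (hcop a ha hla) (hcop b hb hlb)).dvd_of_dvd_mul_left h1
  have hsub : ({a, b} : Multiset ℕ) ≤ ((x / tp L x).primeFactorsList : Multiset ℕ) := by
    have h1 : ((a * b).primeFactorsList : Multiset ℕ) = {a, b} := by
      have h2 := Nat.perm_primeFactorsList_mul ha.ne_zero hb.ne_zero
      rw [Multiset.coe_eq_coe.2 h2, Nat.primeFactorsList_prime ha, Nat.primeFactorsList_prime hb]
      rfl
    rw [← h1]
    exact (Nat.primeFactorsList_sublist_of_dvd hab' hxt).subperm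
  have hsub' : ld a ::ₘ ld b ::ₘ 0 ≤ (y.primeFactorsList : Multiset ℕ).map ld := by
    rw [hm]
    have := Multiset.map_le_map (f := ld) hsub
    simpa using this
  have hmem : ld a ∈ (y.primeFactorsList : Multiset ℕ).map ld :=
    Multiset.mem_of_le hsub' (Multiset.mem_cons_self _ _)
  obtain ⟨a', ha', haa⟩ := Multiset.mem_map.1 hmem
  have he : (y.primeFactorsList : Multiset ℕ) =
      a' ::ₘ (y.primeFactorsList : Multiset ℕ).erase a' := (Multiset.cons_erase ha').symm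
  rw [he, Multiset.map_cons, haa, Multiset.cons_le_cons_iff] at hsub'
  have hmem2 : ld b ∈ ((y.primeFactorsList : Multiset ℕ).erase a').map ld :=
    Multiset.mem_of_le hsub' (Multiset.mem_cons_self _ _)
  obtain ⟨b', hb', hbb⟩ := Multiset.mem_map.1 hmem2
  have hle : a' ::ₘ b' ::ₘ 0 ≤ (y.primeFactorsList : Multiset ℕ) := by
    rw [he, Multiset.cons_le_cons_iff]
    exact Multiset.singleton_le.2 hb'
  refine ⟨a', b', Nat.prime_of_mem_primeFactorsList (Multiset.mem_coe.1 ha'),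
    Nat.prime_of_mem_primeFactorsList (Multiset.mem_coe.1 (Multiset.mem_of_mem_erase hb')), ?_,
    haa, hbb⟩
  have h1 := Multiset.prod_dvd_prod_of_le hle
  rw [Multiset.prod_coe, Nat.prod_primeFactorsList hy] at h1
  simpa using h1

/-- General bound for sets of numbers with two prescribed prime divisors. -/
theorem E1b_Cr_two : ∃ C : ℝ, 0 < C ∧ ∀ᶠ L : ℕ in atTop, ∀ s : ℕ,
    s < 2 ^ (L + 1) → ∀ ld : ℕ → ℕ, Grouping (gsz L) ld → ∀ Q : Finset (ℕ × ℕ),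
    (∀ q ∈ Q, q.1.Prime ∧ q.2.Prime) → ∀ E : Set ℕ,
    (∀ x ∈ E, Smooth s x ∧ ∃ a b : ℕ, a.Prime ∧ b.Prime ∧ a * b ∣ x ∧ iz L ≤ lev a ∧
      iz L ≤ lev b ∧ ∀ a' b' : ℕ, a'.Prime → b'.Prime → ld a' = ld a → ld b' = ld b →
        lev a' ≤ L → lev b' ≤ L → (a', b') ∈ Q) →
    Cr L ld E ≤ ENNReal.ofReal (C * ∑ q ∈ Q, 1 / (q.1 : ℝ) * (1 / (q.2 : ℝ))) := by
  classical
  have hH1 : (1 : ℝ) ≤ Real.exp 3 := Real.one_le_exp (by norm_num)
  obtain ⟨C, hC, hZ⟩ := Zbound_two (Real.exp 3) hH1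
  set w : ℕ → ℝ := fun j => 2 * Real.exp (-((2 : ℝ) ^ j - 1) / 8) * Real.exp (C * (j + 1)) with hw
  have hws : Summable w := stage_sum C
  have hw0 : ∀ j, 0 < w j := fun j => by rw [hw]; positivity
  refine ⟨Real.exp 3 * Real.exp 3 * ∑' j, w j, mul_pos (by positivity)
    (hws.tsum_pos (fun j => (hw0 j).le) 0 (hw0 0)), ?_⟩
  filter_upwards [hZ, eventually_ge_atTop 1] with L hZ hL s hs ld hG Q hQ E hE
  unfold Cr
  have hstep : ∀ j : ℕ, (∑' y : ℕ, if ∃ x ∈ E, KeyRel L ld j x y then (2 : ℝ≥0∞) / (y : ℝ≥0∞)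
      else 0) ≤ ENNReal.ofReal (w j * (Real.exp 3 * Real.exp 3 *
        ∑ q ∈ Q, 1 / (q.1 : ℝ) * (1 / (q.2 : ℝ)))) := by
    intro j
    have h1 : ∀ y : ℕ, (if ∃ x ∈ E, KeyRel L ld j x y then (2 : ℝ≥0∞) / (y : ℝ≥0∞) else 0) ≤
        ∑ q ∈ Q, ENNReal.ofReal (2 * Real.exp (-((2 : ℝ) ^ j - 1) / 8)) *
          (if KK L ld j ∅ y ∧ q.1 * q.2 ∣ y then ENNReal.ofReal (wt (hst L j) y) else 0) := by
      intro y
      split_ifs with h
      · obtain ⟨x, hxE, hk⟩ := h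
        obtain ⟨hsm, a, b, ha, hb, hab, hla, hlb, hcl⟩ := hE x hxE
        obtain ⟨a', b', ha', hb', hab', haa, hbb⟩ :=
          E1b_two_of_key hG hsm.1 hk.1 ha hb hab hla hlb
        have hKK := KK_of_KeyRel hG hs hsm hk
        have hq : (a', b') ∈ Q := hcl a' b' ha' hb' haa hbb
          (hKK.2.1 a' ha' ((dvd_mul_right a' b').trans hab')).2
          (hKK.2.1 b' hb' ((dvd_mul_left b' a').trans hab')).2
        refine le_trans ?_ (Finset.single_le_sum (f := fun q : ℕ × ℕ =>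
          ENNReal.ofReal (2 * Real.exp (-((2 : ℝ) ^ j - 1) / 8)) *
          (if KK L ld j ∅ y ∧ q.1 * q.2 ∣ y then ENNReal.ofReal (wt (hst L j) y) else 0))
          (fun _ _ => zero_le) hq)
        simp only
        rw [if_pos ⟨hKK, hab'⟩, ← ENNReal.ofReal_mul (by positivity)]
        have h2 := key_weight hL hG hsm.1 hk
        have hy0 : (0 : ℝ) < y := by exact_mod_cast Nat.pos_of_ne_zero hKK.1
        have h3 : (2 : ℝ≥0∞) / (y : ℝ≥0∞) = ENNReal.ofReal (2 * (1 / (y : ℝ))) := by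
          rw [mul_one_div, ENNReal.ofReal_div_of_pos hy0]
          simp
        rw [h3]
        refine ENNReal.ofReal_le_ofReal ?_
        rw [mul_assoc]
        exact mul_le_mul_of_nonneg_left h2 (by norm_num)
      · exact zero_le
    refine (ENNReal.tsum_le_tsum h1).trans ?_
    rw [Summable.tsum_finsetSum (fun _ _ => ENNReal.summable)]
    simp_rw [ENNReal.tsum_mul_left]
    have h4 : ∀ q ∈ Q, ENNReal.ofReal (2 * Real.exp (-((2 : ℝ) ^ j - 1) / 8)) *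
        (∑' y : ℕ, if KK L ld j ∅ y ∧ q.1 * q.2 ∣ y then ENNReal.ofReal (wt (hst L j) y)
          else 0) ≤ ENNReal.ofReal (w j * (Real.exp 3 * Real.exp 3 *
            (1 / (q.1 : ℝ) * (1 / (q.2 : ℝ))))) := by
      intro q hq
      have h5 := hZ ld hG j (hst L j) (fun p => ⟨zero_le_one.trans (hst_bounds L j p).1,
        (hst_bounds L j p).2⟩) q.1 q.2 (hQ q hq).1 (hQ q hq).2
      refine (mul_le_mul_right h5 _).trans ?_
      rw [← ENNReal.ofReal_mul (by positivity)]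
      refine ENNReal.ofReal_le_ofReal (le_of_eq ?_)
      rw [hw]
      ring
    refine (Finset.sum_le_sum h4).trans ?_
    rw [← ENNReal.ofReal_sum_of_nonneg (fun q _ => by have := (hw0 j).le; positivity)]
    refine ENNReal.ofReal_le_ofReal (le_of_eq ?_)
    rw [Finset.mul_sum, Finset.mul_sum]
  refine (ENNReal.tsum_le_tsum hstep).trans ?_
  rw [← ENNReal.ofReal_tsum_of_nonneg (fun j => by have := (hw0 j).le; positivity)
    (hws.mul_right _)]
  refine ENNReal.ofReal_le_ofReal (le_of_eq ?_)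
  rw [tsum_mul_right]
  ring

theorem E1b_sum_PL (i : ℕ) : ∑ p ∈ PL i, 1 / (p : ℝ) ≤ 8 / (i + 1) := by
  have h1 : ∀ p ∈ PL i, 1 / (p : ℝ) ≤ 1 / 2 ^ i := by
    intro p hp
    unfold PL at hp
    rw [Finset.mem_filter, Finset.mem_Ico] at hp
    have h2 : ((2 : ℝ) ^ i) ≤ p := by exact_mod_cast hp.1.1
    exact one_div_le_one_div_of_le (by positivity) h2
  refine (Finset.sum_le_sum h1).trans ?_
  rw [Finset.sum_const, nsmul_eq_mul]
  have h2 := card_PL_le i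
  have h3 : (0 : ℝ) < 2 ^ i := by positivity
  calc ((PL i).card : ℝ) * (1 / 2 ^ i) ≤ 8 * 2 ^ i / (i + 1) * (1 / 2 ^ i) :=
        mul_le_mul_of_nonneg_right h2 (by positivity)
    _ = 8 / (i + 1) := by field_simp

theorem E1b_sum_biUnion_le {α β : Type} [DecidableEq β] (s : Finset α) (t : α → Finset β)
    {f : β → ℝ} (hf : ∀ b, 0 ≤ f b) :
    ∑ x ∈ s.biUnion t, f x ≤ ∑ i ∈ s, ∑ x ∈ t i, f x := by
  classical
  induction s using Finset.induction_on with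
  | empty => simp
  | insert a s ha ih =>
    rw [Finset.biUnion_insert, Finset.sum_insert ha]
    have h1 := Finset.sum_union_inter (s₁ := t a) (s₂ := s.biUnion t) (f := f)
    have h2 : 0 ≤ ∑ x ∈ t a ∩ s.biUnion t, f x := Finset.sum_nonneg fun b _ => hf b
    linarith

theorem E1b_tele (i₀ n : ℕ) (h0 : 1 ≤ i₀) (hn : i₀ ≤ n) :
    ∑ i ∈ Finset.Ico i₀ n, 1 / ((i : ℝ) + 1) ^ 2 + 1 / (n : ℝ) ≤ 1 / (i₀ : ℝ) := by
  induction n, hn using Nat.le_induction with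
  | base => simp
  | succ n hn ih =>
    rw [Finset.sum_Ico_succ_top hn]
    have hn0 : (0 : ℝ) < n := by exact_mod_cast (lt_of_lt_of_le h0 hn)
    have h1 : 1 / ((n : ℝ) + 1) ^ 2 + 1 / ((n + 1 : ℕ) : ℝ) ≤ 1 / (n : ℝ) := by
      push_cast
      rw [div_add_div _ _ (by positivity) (by positivity), div_le_div_iff₀ (by positivity) hn0]
      nlinarith [sq_nonneg ((n : ℝ)), hn0]
    linarith

/-- Numbers with two prime factors (with multiplicity) of close levels `≥ i₀`: cost `≤ C / i₀`.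
Proof: the key has two prime factors `a, b` (with multiplicity) of the same levels
(`key_map`); `Zbound_two` and
`∑_{i ≥ i₀} ∑_{i ≤ i' ≤ i+2} (8/(i+1)) (8/(i'+1)) ≤ 192 ∑_{i ≥ i₀} 1/(i+1)^2 ≤ 192 / i₀`. -/
theorem Cr_close : ∃ C : ℝ, 0 < C ∧ ∀ᶠ L : ℕ in atTop, ∀ s : ℕ,
    s < 2 ^ (L + 1) → ∀ ld : ℕ → ℕ, Grouping (gsz L) ld → ∀ i₀ : ℕ, iz L ≤ i₀ →
    Cr L ld {x | Smooth s x ∧ ∃ a b : ℕ, a.Prime ∧ b.Prime ∧ a * b ∣ x ∧ i₀ ≤ lev a ∧
      lev a ≤ lev b ∧ lev b ≤ lev a + 2} ≤ ENNReal.ofReal (C / i₀) := by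
  classical
  obtain ⟨C, hC, hT⟩ := E1b_Cr_two
  refine ⟨C * 192, by positivity, ?_⟩
  filter_upwards [hT] with L hT s hs ld hG i₀ hi₀
  have hiz : 1 ≤ iz L := by unfold iz; omega
  have hi1 : 1 ≤ i₀ := hiz.trans hi₀
  set Q : Finset (ℕ × ℕ) := (Finset.Ico i₀ (L + 1)).biUnion fun i =>
    (Finset.Icc i (i + 2)).biUnion fun i' => PL i ×ˢ PL i' with hQdef
  have hQ : ∀ q ∈ Q, q.1.Prime ∧ q.2.Prime := by
    intro q hq
    rw [hQdef, Finset.mem_biUnion] at hq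
    obtain ⟨i, -, hq⟩ := hq
    rw [Finset.mem_biUnion] at hq
    obtain ⟨i', -, hq⟩ := hq
    rw [Finset.mem_product, mem_PL, mem_PL] at hq
    exact ⟨hq.1.1, hq.2.1⟩
  refine (hT s hs ld hG Q hQ _ ?_).trans (ENNReal.ofReal_le_ofReal ?_)
  · rintro x ⟨hsm, a, b, ha, hb, hab, hla, hlab, hlb⟩
    refine ⟨hsm, a, b, ha, hb, hab, hi₀.trans hla, hi₀.trans (hla.trans hlab), ?_⟩
    intro a' b' ha' hb' haa hbb hL1 hL2
    have e1 : lev a' = lev a := by rw [← hG.lev_eq a' ha', haa, hG.lev_eq a ha]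
    have e2 : lev b' = lev b := by rw [← hG.lev_eq b' hb', hbb, hG.lev_eq b hb]
    rw [hQdef, Finset.mem_biUnion]
    refine ⟨lev a', Finset.mem_Ico.2 ⟨by omega, by omega⟩, ?_⟩
    rw [Finset.mem_biUnion]
    refine ⟨lev b', Finset.mem_Icc.2 ⟨by omega, by omega⟩, ?_⟩
    rw [Finset.mem_product, mem_PL, mem_PL]
    exact ⟨⟨ha', rfl⟩, hb', rfl⟩
  · have hf : ∀ q : ℕ × ℕ, 0 ≤ 1 / (q.1 : ℝ) * (1 / (q.2 : ℝ)) := fun q => by positivity
    have h1 : ∑ q ∈ Q, 1 / (q.1 : ℝ) * (1 / (q.2 : ℝ)) ≤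
        ∑ i ∈ Finset.Ico i₀ (L + 1), ∑ i' ∈ Finset.Icc i (i + 2),
          ∑ q ∈ PL i ×ˢ PL i', 1 / (q.1 : ℝ) * (1 / (q.2 : ℝ)) := by
      refine (E1b_sum_biUnion_le _ _ hf).trans (Finset.sum_le_sum fun i _ => ?_)
      exact E1b_sum_biUnion_le _ _ hf
    have h2 : ∀ i i' : ℕ, i ≤ i' → ∑ q ∈ PL i ×ˢ PL i', 1 / (q.1 : ℝ) * (1 / (q.2 : ℝ)) ≤
        64 * (1 / ((i : ℝ) + 1) ^ 2) := by
      intro i i' hii
      rw [Finset.sum_product]
      simp only
      rw [← Finset.sum_mul_sum]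
      have h3 := E1b_sum_PL i
      have h4 := E1b_sum_PL i'
      have h5 : (8 : ℝ) / (i' + 1) ≤ 8 / (i + 1) := by
        have : (i : ℝ) ≤ i' := by exact_mod_cast hii
        gcongr
      have h6 : 0 ≤ ∑ p ∈ PL i', 1 / (p : ℝ) := Finset.sum_nonneg fun _ _ => by positivity
      calc (∑ p ∈ PL i, 1 / (p : ℝ)) * ∑ p ∈ PL i', 1 / (p : ℝ) ≤ 8 / (i + 1) * (8 / (i + 1)) :=
            mul_le_mul h3 (h4.trans h5) h6 (by positivity)
        _ = 64 * (1 / ((i : ℝ) + 1) ^ 2) := by field_simp; norm_num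
    have h3 : ∑ i ∈ Finset.Ico i₀ (L + 1), ∑ i' ∈ Finset.Icc i (i + 2),
          ∑ q ∈ PL i ×ˢ PL i', 1 / (q.1 : ℝ) * (1 / (q.2 : ℝ)) ≤
        ∑ i ∈ Finset.Ico i₀ (L + 1), 192 * (1 / ((i : ℝ) + 1) ^ 2) := by
      refine Finset.sum_le_sum fun i _ => ?_
      refine (Finset.sum_le_sum fun i' hi' => h2 i i' (Finset.mem_Icc.1 hi').1).trans ?_
      rw [Finset.sum_const, Nat.card_Icc, nsmul_eq_mul]
      have : ((i + 2 + 1 - i : ℕ) : ℝ) = 3 := by
        have : i + 2 + 1 - i = 3 := by omega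
        rw [this]; norm_num
      rw [this]
      linarith
    have h4 : ∑ i ∈ Finset.Ico i₀ (L + 1), 1 / ((i : ℝ) + 1) ^ 2 ≤ 1 / (i₀ : ℝ) := by
      rcases le_or_gt i₀ (L + 1) with hLi | hLi
      · have h4 := E1b_tele i₀ (L + 1) hi1 hLi
        have h5 : (0 : ℝ) ≤ 1 / ((L + 1 : ℕ) : ℝ) := by positivity
        linarith
      · rw [Finset.Ico_eq_empty (by omega), Finset.sum_empty]
        positivity
    rw [← Finset.mul_sum] at h3
    have h6 : ∑ q ∈ Q, 1 / (q.1 : ℝ) * (1 / (q.2 : ℝ)) ≤ 192 * (1 / (i₀ : ℝ)) := by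
      refine (h1.trans h3).trans ?_
      exact mul_le_mul_of_nonneg_left h4 (by norm_num)
    calc C * ∑ q ∈ Q, 1 / (q.1 : ℝ) * (1 / (q.2 : ℝ)) ≤ C * (192 * (1 / (i₀ : ℝ))) :=
          mul_le_mul_of_nonneg_left h6 hC.le
      _ = C * 192 / i₀ := by ring

end Pool.Agent.W_a617e8_h51
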