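import Pool.Agent.W_a617e8_h51.E1b

set_option autoImplicit false

/-! E1c: numbers with two prime factors in a group. -/

noncomputable section

open scoped ENNReal

open Filter

namespace Pool.Agent.W_a617e8_h51

theorem E1c_gsz_le (L i : ℕ) : (gsz L i : ℝ) ≤ 2 * Real.sqrt (L + 1) := by
  have h1 : Nat.sqrt ((L + 1) / (i + 1)) ≤ Nat.sqrt (L + 1) :=
    Nat.sqrt_le_sqrt (Nat.div_le_self _ _)
  have h2 : (Nat.sqrt (L + 1) : ℝ) ≤ Real.sqrt ((L + 1 : ℕ) : ℝ) := Real.nat_sqrt_le_real_sqrt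
  have h3 : (1 : ℝ) ≤ Real.sqrt ((L + 1 : ℕ) : ℝ) := by
    rw [Real.one_le_sqrt]
    push_cast
    linarith [Nat.cast_nonneg (α := ℝ) L]
  unfold gsz
  push_cast at h2 h3 ⊢
  have h4 : (Nat.sqrt ((L + 1) / (i + 1)) : ℝ) ≤ (Nat.sqrt (L + 1) : ℝ) := by exact_mod_cast h1
  linarith

theorem E1c_geom (i₀ n : ℕ) (hn : i₀ ≤ n) :
    ∑ i ∈ Finset.Ico i₀ n, (1 : ℝ) / 2 ^ i + 2 / 2 ^ n = 2 / 2 ^ i₀ := by
  induction n, hn using Nat.le_induction with
  | base => simp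
  | succ n hn ih =>
    rw [Finset.sum_Ico_succ_top hn, ← ih, pow_succ]
    have : (0 : ℝ) < 2 ^ n := by positivity
    field_simp
    ring

/-- Numbers with two prime factors (with multiplicity) in the same non-tiny group: cost `→ 0`.
Proof: the key has two prime factors `a, b` (with multiplicity) with `ld a = ld b`; `Zbound_two`,
and the number of pairs at level `i` is at most `(#PL i / g + 1) g^2`, each of weight
`≤ 4^(-i)`; the sum over `i ≥ iz L` is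
`≤ ∑ (8 g / 2^i + g^2 / 4^i)`, `g ≤ 2 sqrt(L+1)`, which is `O((L+1)^(-1/4))` by `iz_bounds`. -/
theorem Cr_same (ε : ℝ) (hε : 0 < ε) : ∀ᶠ L : ℕ in atTop, ∀ s : ℕ,
    s < 2 ^ (L + 1) → ∀ ld : ℕ → ℕ, Grouping (gsz L) ld →
    Cr L ld {x | Smooth s x ∧ ∃ a b : ℕ, a.Prime ∧ b.Prime ∧ a * b ∣ x ∧ iz L ≤ lev a ∧
      ld a = ld b} ≤ ENNReal.ofReal ε := by
  classical
  obtain ⟨C, hC, hT⟩ := E1b_Cr_two
  have hlim : Tendsto (fun L : ℕ => C * 64 * ((L : ℝ) + 1) ^ (-(1 / 4 : ℝ))) atTop (nhds 0) := by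
    have h1 : Tendsto (fun L : ℕ => ((L : ℝ) + 1) ^ (-(1 / 4 : ℝ))) atTop (nhds 0) :=
      (tendsto_rpow_neg_atTop (by norm_num)).comp
        (tendsto_atTop_add_const_right _ 1 tendsto_natCast_atTop_atTop)
    simpa using h1.const_mul (C * 64)
  filter_upwards [hT, hlim.eventually (gt_mem_nhds hε)] with L hT hLε s hs ld hG
  set Q : Finset (ℕ × ℕ) := (Finset.Ico (iz L) (L + 1)).biUnion fun i =>
    (PL i ×ˢ PL i).filter fun q => ld q.2 = ld q.1 with hQdef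
  have hQ : ∀ q ∈ Q, q.1.Prime ∧ q.2.Prime := by
    intro q hq
    rw [hQdef, Finset.mem_biUnion] at hq
    obtain ⟨i, -, hq⟩ := hq
    rw [Finset.mem_filter, Finset.mem_product, mem_PL, mem_PL] at hq
    exact ⟨hq.1.1.1, hq.1.2.1⟩
  refine (hT s hs ld hG Q hQ _ ?_).trans (ENNReal.ofReal_le_ofReal ?_)
  · rintro x ⟨hsm, a, b, ha, hb, hab, hla, hld⟩
    have eab : lev b = lev a := by rw [← hG.lev_eq b hb, ← hld, hG.lev_eq a ha]
    refine ⟨hsm, a, b, ha, hb, hab, hla, by omega, ?_⟩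
    intro a' b' ha' hb' haa hbb hL1 hL2
    have e1 : lev a' = lev a := by rw [← hG.lev_eq a' ha', haa, hG.lev_eq a ha]
    have e2 : lev b' = lev b := by rw [← hG.lev_eq b' hb', hbb, hG.lev_eq b hb]
    rw [hQdef, Finset.mem_biUnion]
    refine ⟨lev a', Finset.mem_Ico.2 ⟨by omega, by omega⟩, ?_⟩
    rw [Finset.mem_filter, Finset.mem_product, mem_PL, mem_PL]
    refine ⟨⟨⟨ha', rfl⟩, hb', by show lev b' = lev a'; omega⟩, ?_⟩
    show ld b' = ld a'
    rw [haa, hbb, hld]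
  · have hf : ∀ q : ℕ × ℕ, 0 ≤ 1 / (q.1 : ℝ) * (1 / (q.2 : ℝ)) := fun q => by positivity
    have h1 := E1b_sum_biUnion_le (Finset.Ico (iz L) (L + 1))
      (fun i => (PL i ×ˢ PL i).filter fun q => ld q.2 = ld q.1) hf
    have hgr : ∀ i, ∀ a ∈ PL i, ∑ b ∈ (PL i).filter (fun b => ld b = ld a), 1 / (b : ℝ) ≤
        2 * Real.sqrt (L + 1) / 2 ^ i := by
      intro i a ha
      rw [mem_PL] at ha
      have h2 : ∀ b ∈ (PL i).filter (fun b => ld b = ld a), 1 / (b : ℝ) ≤ 1 / 2 ^ i := by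
        intro b hb
        have hb' := (Finset.mem_filter.1 hb).1
        unfold PL at hb'
        rw [Finset.mem_filter, Finset.mem_Ico] at hb'
        have h2 : ((2 : ℝ) ^ i) ≤ b := by exact_mod_cast hb'.1.1
        exact one_div_le_one_div_of_le (by positivity) h2
      refine (Finset.sum_le_sum h2).trans ?_
      rw [Finset.sum_const, nsmul_eq_mul, mul_one_div]
      have h3 := hG.card_le (ld a) (hG.prime a ha.1)
      rw [hG.lev_eq a ha.1, ha.2] at h3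
      have h4 : (((PL i).filter (fun b => ld b = ld a)).card : ℝ) ≤ gsz L i := by
        exact_mod_cast h3
      have h5 := E1c_gsz_le L i
      gcongr
      linarith
    have h2 : ∀ i ∈ Finset.Ico (iz L) (L + 1),
        ∑ q ∈ (PL i ×ˢ PL i).filter (fun q => ld q.2 = ld q.1), 1 / (q.1 : ℝ) * (1 / (q.2 : ℝ)) ≤
        16 * Real.sqrt (L + 1) * (1 / 2 ^ i) := by
      intro i _
      rw [Finset.sum_filter, Finset.sum_product]
      have h3 : ∀ a ∈ PL i, (∑ b ∈ PL i, if ld (a, b).2 = ld (a, b).1 then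
          1 / ((a, b).1 : ℝ) * (1 / ((a, b).2 : ℝ)) else 0) ≤
          1 / (a : ℝ) * (2 * Real.sqrt (L + 1) / 2 ^ i) := by
        intro a ha
        simp only
        rw [← Finset.sum_filter, ← Finset.mul_sum]
        exact mul_le_mul_of_nonneg_left (hgr i a ha) (by positivity)
      refine (Finset.sum_le_sum h3).trans ?_
      rw [← Finset.sum_mul]
      have h4 := E1b_sum_PL i
      have h5 : (8 : ℝ) / (i + 1) ≤ 8 := by
        rw [div_le_iff₀ (by positivity)]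
        nlinarith [Nat.cast_nonneg (α := ℝ) i]
      have h6 : 0 ≤ 2 * Real.sqrt (L + 1) / 2 ^ i := by positivity
      calc (∑ a ∈ PL i, 1 / (a : ℝ)) * (2 * Real.sqrt (L + 1) / 2 ^ i) ≤
            8 * (2 * Real.sqrt (L + 1) / 2 ^ i) :=
            mul_le_mul_of_nonneg_right (h4.trans h5) h6
        _ = 16 * Real.sqrt (L + 1) * (1 / 2 ^ i) := by ring
    have h3 : ∑ i ∈ Finset.Ico (iz L) (L + 1), (1 : ℝ) / 2 ^ i ≤ 2 / 2 ^ iz L := by
      rcases le_or_gt (iz L) (L + 1) with hLi | hLi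
      · have h4 := E1c_geom (iz L) (L + 1) hLi
        have h5 : (0 : ℝ) ≤ 2 / 2 ^ (L + 1) := by positivity
        linarith
      · rw [Finset.Ico_eq_empty (by omega), Finset.sum_empty]
        positivity
    have h4 : ∑ q ∈ Q, 1 / (q.1 : ℝ) * (1 / (q.2 : ℝ)) ≤
        16 * Real.sqrt (L + 1) * (2 / 2 ^ iz L) := by
      refine h1.trans ((Finset.sum_le_sum h2).trans ?_)
      rw [← Finset.mul_sum]
      exact mul_le_mul_of_nonneg_left h3 (by positivity)
    have h5 := (iz_bounds L).1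
    have hL1 : (0 : ℝ) < (L : ℝ) + 1 := by positivity
    have h6 : (2 : ℝ) / 2 ^ iz L ≤ 4 * ((L : ℝ) + 1) ^ (-(3 / 4 : ℝ)) := by
      rw [Real.rpow_neg hL1.le, div_le_iff₀ (by positivity)]
      have h7 : 0 < ((L : ℝ) + 1) ^ ((3 : ℝ) / 4) := by positivity
      rw [mul_assoc, mul_comm, ← div_le_iff₀ (by norm_num : (0:ℝ) < 4)]
      rw [inv_mul_eq_div, le_div_iff₀ h7]
      linarith
    have h7 : Real.sqrt ((L : ℝ) + 1) * ((L : ℝ) + 1) ^ (-(3 / 4 : ℝ)) =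
        ((L : ℝ) + 1) ^ (-(1 / 4 : ℝ)) := by
      rw [Real.sqrt_eq_rpow, ← Real.rpow_add hL1]
      norm_num
    calc C * ∑ q ∈ Q, 1 / (q.1 : ℝ) * (1 / (q.2 : ℝ)) ≤
          C * (16 * Real.sqrt (L + 1) * (4 * ((L : ℝ) + 1) ^ (-(3 / 4 : ℝ)))) := by
          refine mul_le_mul_of_nonneg_left (h4.trans ?_) hC.le
          exact mul_le_mul_of_nonneg_left h6 (by positivity)
      _ = C * 64 * (Real.sqrt (L + 1) * ((L : ℝ) + 1) ^ (-(3 / 4 : ℝ))) := by ring
      _ = C * 64 * ((L : ℝ) + 1) ^ (-(1 / 4 : ℝ)) := by rw [h7]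
      _ ≤ ε := hLε.le

end Pool.Agent.W_a617e8_h51
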