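import Pool.Agent.W_a617e8_h51.E0b

set_option autoImplicit false

/-! E2: numbers with a large budget. -/

noncomputable section

open scoped ENNReal

open Filter

namespace Pool.Agent.W_a617e8_h51

/-- Numbers with large budget below level `i₀`.
Proof: `Cr_le_weight` with `H = e^2`,
`k p = exp(Λ (gsz - 1)(lev p + 1)/(L+1))` for `iz L ≤ lev p < i₀` (and `1` otherwise); by
`gsz_bounds` the exponent is `≤ Λ sqrt(i₀/(L+1)) ≤ 1`; `hp k y ≥ exp(Λ bud(y)/(L+1))`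
(`hp_ge_of_Mt`), `bud L ld i₀ y = bud L ld i₀ x ≥ B`. -/
theorem Cr_budget : ∃ C : ℝ, 0 < C ∧ ∀ᶠ L : ℕ in atTop, ∀ s : ℕ,
    s < 2 ^ (L + 1) → ∀ ld : ℕ → ℕ, Grouping (gsz L) ld → ∀ i₀ : ℕ, ∀ B Λ : ℝ, 0 ≤ Λ →
    Λ * Real.sqrt (i₀ / (L + 1)) ≤ 1 →
    Cr L ld {x | Smooth s x ∧ B ≤ (bud L ld i₀ x : ℝ)} ≤
      ENNReal.ofReal (C * Real.exp (-(Λ * B / (L + 1)))) := by
  obtain ⟨C, hC, h⟩ := Cr_le_weight (Real.exp 1) (Real.one_le_exp zero_le_one)
  refine ⟨C, hC, ?_⟩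
  filter_upwards [h] with L hL s hs ld hG i₀ B Λ hΛ hΛ1
  have hL0 : (0 : ℝ) < (L : ℝ) + 1 := by positivity
  set φ : ℕ → ℝ := fun i => Λ * (((gsz L i - 1) * (i + 1) : ℕ) : ℝ) / (L + 1) with hφ
  have hφ0 : ∀ i, 0 ≤ φ i := fun i => by
    simp only [hφ]
    positivity
  have hφ1 : ∀ i, i < i₀ → φ i ≤ 1 := by
    intro i hi
    simp only [hφ]
    have h1 := (gsz_bounds L i).1
    have h2 : Real.sqrt (((L : ℝ) + 1) * (i + 1)) / (L + 1) ≤ Real.sqrt (i₀ / (L + 1)) := by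
      rw [div_le_iff₀ hL0]
      have h3 : Real.sqrt ((i₀ : ℝ) / (L + 1)) * (L + 1) = Real.sqrt (((L : ℝ) + 1) * i₀) := by
        have h4 : ((L : ℝ) + 1) * i₀ = ((L : ℝ) + 1) ^ 2 * ((i₀ : ℝ) / (L + 1)) := by
          field_simp
        rw [h4, Real.sqrt_mul (by positivity), Real.sqrt_sq hL0.le]
        ring
      rw [h3]
      apply Real.sqrt_le_sqrt
      have h5 : (i : ℝ) + 1 ≤ i₀ := by exact_mod_cast hi
      exact mul_le_mul_of_nonneg_left h5 hL0.le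
    calc Λ * (((gsz L i - 1) * (i + 1) : ℕ) : ℝ) / (L + 1)
        ≤ Λ * Real.sqrt (((L : ℝ) + 1) * (i + 1)) / (L + 1) := by gcongr
      _ = Λ * (Real.sqrt (((L : ℝ) + 1) * (i + 1)) / (L + 1)) := by ring
      _ ≤ Λ * Real.sqrt (i₀ / (L + 1)) := mul_le_mul_of_nonneg_left h2 hΛ
      _ ≤ 1 := hΛ1
  have hmain := hL s hs ld hG {x | Smooth s x ∧ B ≤ (bud L ld i₀ x : ℝ)} (fun x hx => hx.1)
    (fun p => Real.exp (if iz L ≤ lev p ∧ lev p < i₀ then φ (lev p) else 0)) (fun p => by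
      split_ifs with hp
      · exact ⟨Real.one_le_exp (hφ0 _), Real.exp_le_exp.2 (hφ1 _ hp.2)⟩
      · rw [Real.exp_zero]
        exact ⟨le_rfl, Real.one_le_exp zero_le_one⟩)
    (Real.exp (-(Λ * B / (L + 1)))) (Real.exp_pos _).le (fun j x y hx hk => by
      have hx0 := hx.1.1
      obtain ⟨hy, hmap⟩ := key_map hG hx0 hk.1
      have h1 := hp_ge_of_Mt hG φ hφ0 i₀ y hy
      rw [Mt_congr hG hx0 hmap i₀] at h1
      have h2 : ∑ m ∈ Mt L ld i₀ x, φ (lev m) = Λ * (bud L ld i₀ x : ℝ) / (L + 1) := by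
        unfold bud
        simp only [hφ]
        rw [← Finset.sum_div, ← Finset.mul_sum]
        push_cast
        rfl
      rw [h2] at h1
      have h3 : Λ * B / (L + 1) ≤ Λ * (bud L ld i₀ x : ℝ) / (L + 1) := by
        have := hx.2
        gcongr
      calc (1 : ℝ) = Real.exp (-(Λ * B / (L + 1))) * Real.exp (Λ * B / (L + 1)) := by
            rw [← Real.exp_add, neg_add_cancel, Real.exp_zero]
        _ ≤ Real.exp (-(Λ * B / (L + 1))) * _ :=
            mul_le_mul_of_nonneg_left ((Real.exp_le_exp.2 h3).trans h1) (Real.exp_pos _).le)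
  rw [mul_comm C]
  exact hmain

end Pool.Agent.W_a617e8_h51
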