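import Pool.Agent.W_a617e8_h51.E0b

set_option autoImplicit false

/-! E2b: large numbers. -/

noncomputable section

open scoped ENNReal

open Filter

namespace Pool.Agent.W_a617e8_h51

theorem E2b_prod_le (l : List ℕ) (hl : ∀ p ∈ l, p ≠ 0) :
    l.prod ≤ 2 ^ (l.map fun p => lev p + 1).sum := by
  induction l with
  | nil => simp
  | cons a l ih =>
    rw [List.prod_cons, List.map_cons, List.sum_cons, pow_add]
    refine Nat.mul_le_mul ?_ (ih fun p hp => hl p (List.mem_cons_of_mem _ hp))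
    exact (Nat.lt_pow_succ_log_self (by norm_num) a).le

theorem E2b_sum (L : ℕ) (l : List ℕ) (hl : ∀ p ∈ l, lev p ≤ L) :
    (l.map fun p => if lev p ≤ L then ((lev p : ℝ) + 1) / (L + 1) else 0).sum =
      (((l.map fun p => lev p + 1).sum : ℕ) : ℝ) / (L + 1) := by
  induction l with
  | nil => simp
  | cons a l ih =>
    rw [List.map_cons, List.sum_cons, List.map_cons, List.sum_cons,
      ih fun p hp => hl p (List.mem_cons_of_mem _ hp), if_pos (hl a List.mem_cons_self)]
    push_cast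
    ring

/-- Large numbers. Proof: `Cr_le_weight` with `k p = exp((lev p + 1)/(L+1))` (level `≤ L`, else `1`);
`x = tp * (x/tp) < Fl * 2^(∑ (lev p + 1))`, so `∑_{p} (lev p + 1) ≥ K - Nat.log 2 (Fl L) - 1`,
and this sum over the prime factors of `x / tp` equals the one over those of the key `y`
(`key_map`). -/
theorem Cr_large : ∃ C : ℝ, 0 < C ∧ ∀ᶠ L : ℕ in atTop, ∀ s : ℕ,
    s < 2 ^ (L + 1) → ∀ ld : ℕ → ℕ, Grouping (gsz L) ld → ∀ K : ℕ,
    Cr L ld {x | Smooth s x ∧ tp L x ∣ Fl L ∧ 2 ^ K ≤ x} ≤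
      ENNReal.ofReal (C * Real.exp (-(((K : ℝ) - Nat.log 2 (Fl L)) / (L + 1)))) := by
  obtain ⟨C, hC, h⟩ := Cr_le_weight (Real.exp 1) (Real.one_le_exp zero_le_one)
  refine ⟨C, hC, ?_⟩
  filter_upwards [h] with L hL s hs ld hG K
  have hL0 : (0 : ℝ) < (L : ℝ) + 1 := by positivity
  set g : ℕ → ℝ := fun p => if lev p ≤ L then ((lev p : ℝ) + 1) / (L + 1) else 0 with hg
  have hg0 : ∀ p, 0 ≤ g p := by
    intro p
    simp only [hg]
    split_ifs
    · positivity
    · exact le_rfl
  have hg1 : ∀ p, g p ≤ 1 := by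
    intro p
    simp only [hg]
    split_ifs with hp
    · rw [div_le_one hL0]
      have : (lev p : ℝ) ≤ L := by exact_mod_cast hp
      linarith
    · exact zero_le_one
  have hmain := hL s hs ld hG {x | Smooth s x ∧ tp L x ∣ Fl L ∧ 2 ^ K ≤ x} (fun x hx => hx.1)
    (fun p => Real.exp (g p)) (fun p => ⟨Real.one_le_exp (hg0 p), Real.exp_le_exp.2 (hg1 p)⟩)
    (Real.exp (-(((K : ℝ) - Nat.log 2 (Fl L)) / (L + 1)))) (Real.exp_pos _).le
    (fun j x y hx hk => by
      obtain ⟨hsm, htF, hKx⟩ := hx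
      have hx0 := hsm.1
      obtain ⟨hy, hmap⟩ := key_map hG hx0 hk.1
      have hcongr : hp (fun p => Real.exp (g p)) y = hp (fun p => Real.exp (g p)) (x / tp L x) := by
        refine hp_congr (k := fun p => Real.exp (g p)) (ld := ld) (fun p hp => ?_) hmap
        simp only [hg]
        rw [hG.lev_eq p hp]
      rw [hcongr, D0b_exp]
      obtain ⟨ht1, ht2⟩ := tp_dvd L x hx0
      have hxt : x / tp L x ≠ 0 := (Nat.div_pos (Nat.le_of_dvd (Nat.pos_of_ne_zero hx0) ht1)
        (Nat.pos_of_ne_zero ht2)).ne'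
      have hlev : ∀ p ∈ (x / tp L x).primeFactorsList, lev p ≤ L := by
        intro p hp
        have hpp := Nat.prime_of_mem_primeFactorsList hp
        have hpd : p ∣ x := (Nat.dvd_of_mem_primeFactorsList hp).trans (Nat.div_dvd_of_dvd ht1)
        rw [lev_le_iff hpp.ne_zero]
        exact (hsm.2 p hpp hpd).trans_lt hs
      rw [E2b_sum L _ hlev]
      set S := ((x / tp L x).primeFactorsList.map fun p => lev p + 1).sum with hS
      have h1 : x / tp L x ≤ 2 ^ S := by
        have := E2b_prod_le (x / tp L x).primeFactorsList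
          (fun p hp => (Nat.prime_of_mem_primeFactorsList hp).ne_zero)
        rwa [Nat.prod_primeFactorsList hxt] at this
      have hFl : 0 < Fl L := by
        unfold Fl
        exact pow_pos (primorial_pos _) _
      have h2 : tp L x < 2 ^ (Nat.log 2 (Fl L) + 1) :=
        (Nat.le_of_dvd hFl htF).trans_lt (Nat.lt_pow_succ_log_self (by norm_num) _)
      have h3 : 2 ^ K < 2 ^ (Nat.log 2 (Fl L) + 1 + S) := by
        calc 2 ^ K ≤ x := hKx
          _ = tp L x * (x / tp L x) := (Nat.mul_div_cancel' ht1).symm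
          _ < 2 ^ (Nat.log 2 (Fl L) + 1) * 2 ^ S :=
              Nat.mul_lt_mul_of_lt_of_le h2 h1 (by positivity)
          _ = 2 ^ (Nat.log 2 (Fl L) + 1 + S) := (pow_add _ _ _).symm
      have h4 : K < Nat.log 2 (Fl L) + 1 + S := (Nat.pow_lt_pow_iff_right (by norm_num)).1 h3
      have h5 : (K : ℝ) - Nat.log 2 (Fl L) ≤ S := by
        have : K ≤ Nat.log 2 (Fl L) + S := by omega
        have : (K : ℝ) ≤ Nat.log 2 (Fl L) + S := by exact_mod_cast this
        linarith
      rw [← Real.exp_add]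
      apply Real.one_le_exp
      have h6 : ((K : ℝ) - Nat.log 2 (Fl L)) / (L + 1) ≤ (S : ℝ) / (L + 1) :=
        div_le_div_of_nonneg_right h5 hL0.le
      linarith)
  rw [mul_comm C]
  exact hmain

end Pool.Agent.W_a617e8_h51
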