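import Pool.Agent.W_a617e8_h51.D2
import Pool.Agent.W_a617e8_h51.C3

set_option autoImplicit false

/-! E2c: the filler. -/

noncomputable section

open scoped ENNReal

open Filter

namespace Pool.Agent.W_a617e8_h51

/-- The filler is small: `Fl L ≤ 4^(2^(iz L) ez L)` (`primorial_le_four_pow`), `iz_bounds`. -/
theorem Fl_small (ε : ℝ) (hε : 0 < ε) : ∀ᶠ L : ℕ in atTop, (Nat.log 2 (Fl L) : ℝ) + 1 ≤ ε * L := by
  have h1 : Tendsto (fun L : ℕ => ((L : ℝ) + 1) ^ ((1 : ℝ) / 8)) atTop atTop := by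
    refine (tendsto_rpow_atTop (by norm_num)).comp ?_
    exact tendsto_atTop_add_const_right _ _ tendsto_natCast_atTop_atTop
  filter_upwards [h1.eventually_ge_atTop (max (410 / ε) 2)] with L hL
  set y := ((L : ℝ) + 1) ^ ((1 : ℝ) / 8) with hy
  have hye : 410 / ε ≤ y := (le_max_left _ _).trans hL
  have hy2 : 2 ≤ y := (le_max_right _ _).trans hL
  have hL0 : (0 : ℝ) ≤ (L : ℝ) + 1 := by positivity
  have hy8 : y ^ 8 = (L : ℝ) + 1 := by
    rw [hy, ← Real.rpow_natCast, ← Real.rpow_mul hL0]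
    norm_num
  have hy6 : ((L : ℝ) + 1) ^ ((3 : ℝ) / 4) = y ^ 6 := by
    rw [hy, ← Real.rpow_natCast, ← Real.rpow_mul hL0]
    norm_num
  have hiz := (iz_bounds L).2
  rw [hy6] at hiz
  -- the logarithm
  have hk : (Nat.log 2 (L + 1) : ℝ) ≤ 16 * y := by
    have h2 := Real.natLog_le_logb (L + 1) 2
    have h3 : Real.logb ((2 : ℕ) : ℝ) ((L + 1 : ℕ) : ℝ) = Real.log ((L : ℝ) + 1) / Real.log 2 := by
      rw [Real.logb]
      push_cast
      rfl
    rw [h3] at h2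
    have h4 : Real.log ((L : ℝ) + 1) ≤ y / (1 / 8) :=
      Real.log_le_rpow_div hL0 (by norm_num)
    have h5 : (1 : ℝ) / 2 ≤ Real.log 2 := by
      have := Real.log_two_gt_d9
      linarith
    refine h2.trans ?_
    rw [div_le_iff₀ (by linarith)]
    have h6 : 16 * y * (1 / 2) ≤ 16 * y * Real.log 2 :=
      mul_le_mul_of_nonneg_left h5 (by linarith)
    linarith
  have hez : (ez L : ℝ) ≤ 51 * y := by
    unfold ez
    push_cast
    linarith
  have hFl : Nat.log 2 (Fl L) ≤ 2 * (2 ^ iz L * ez L) := by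
    have h2 : Fl L ≤ 2 ^ (2 * (2 ^ iz L * ez L)) := by
      unfold Fl
      calc primorial (2 ^ iz L) ^ ez L ≤ (4 ^ (2 ^ iz L)) ^ ez L :=
            Nat.pow_le_pow_left (primorial_le_four_pow _) _
        _ = 2 ^ (2 * (2 ^ iz L * ez L)) := by
            rw [← pow_mul, pow_mul 2 2]
            norm_num
    calc Nat.log 2 (Fl L) ≤ Nat.log 2 (2 ^ (2 * (2 ^ iz L * ez L))) := Nat.log_mono_right h2
      _ = _ := Nat.log_pow (by norm_num) _
  have hFl' : (Nat.log 2 (Fl L) : ℝ) ≤ 2 * ((2 : ℝ) ^ iz L * ez L) := by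
    exact_mod_cast hFl
  have h7 : (2 : ℝ) ^ iz L * ez L ≤ (2 * y ^ 6) * (51 * y) :=
    mul_le_mul hiz hez (Nat.cast_nonneg _) (by positivity)
  have h8 : (1 : ℝ) ≤ y ^ 7 := one_le_pow₀ (by linarith)
  have h9 : (Nat.log 2 (Fl L) : ℝ) + 1 ≤ 205 * y ^ 7 := by
    have : (2 * y ^ 6) * (51 * y) = 102 * y ^ 7 := by ring
    linarith
  have h10 : 410 ≤ ε * y := by
    rw [div_le_iff₀ hε] at hye
    linarith
  have h11 : (L : ℝ) = y ^ 8 - 1 := by linarith
  have h12 : 205 * y ^ 7 ≤ ε * y ^ 8 / 2 := by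
    have : 410 * y ^ 7 ≤ (ε * y) * y ^ 7 := mul_le_mul_of_nonneg_right h10 (by positivity)
    nlinarith
  have h13 : ε * 1 ≤ ε * y ^ 8 / 2 := by
    have : (2 : ℝ) ≤ y ^ 8 := by
      calc (2 : ℝ) ≤ 2 ^ 8 := by norm_num
        _ ≤ y ^ 8 := by gcongr
    nlinarith
  rw [h11]
  nlinarith

/-- `tp L x ∤ Fl L` forces `p^(ez L + 1) ∣ x` for a prime `p` of level `< iz L`. -/
theorem exists_pow_of_not_dvd {L x : ℕ} (hx : x ≠ 0) (h : ¬ tp L x ∣ Fl L) :
    ∃ p : ℕ, p.Prime ∧ lev p < iz L ∧ p ^ (ez L + 1) ∣ x := by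
  by_contra hcon
  push Not at hcon
  apply h
  unfold tp Fl
  have h1 : ∏ p ∈ x.primeFactors.filter (fun p => lev p < iz L), p ^ (x.factorization p) ∣
      ∏ p ∈ x.primeFactors.filter (fun p => lev p < iz L), p ^ ez L := by
    refine Finset.prod_dvd_prod_of_dvd _ _ fun p hp => ?_
    obtain ⟨h2, h3⟩ := Finset.mem_filter.1 hp
    have hpp := Nat.prime_of_mem_primeFactors h2
    refine pow_dvd_pow p ?_
    by_contra h4
    push Not at h4
    exact hcon p hpp h3 ((hpp.pow_dvd_iff_le_factorization hx).2 h4)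
  refine h1.trans ?_
  rw [Finset.prod_pow]
  refine pow_dvd_pow_of_dvd ?_ _
  unfold primorial
  refine Finset.prod_dvd_prod_of_subset _ _ _ ?_
  intro p hp
  obtain ⟨h2, h3⟩ := Finset.mem_filter.1 hp
  have hpp := Nat.prime_of_mem_primeFactors h2
  refine Finset.mem_filter.2 ⟨Finset.mem_range.2 ?_, hpp⟩
  have h4 : p < 2 ^ (Nat.log 2 p + 1) := Nat.lt_pow_succ_log_self (by norm_num) p
  have h5 : 2 ^ (Nat.log 2 p + 1) ≤ 2 ^ iz L := by
    refine Nat.pow_le_pow_right (by norm_num) ?_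
    unfold lev at h3
    omega
  omega

private theorem E2c_smooth_iff (s x : ℕ) : Smooth s x ↔ x ∈ Nat.smoothNumbers (s + 1) := by
  rw [Nat.mem_smoothNumbers]
  unfold Smooth
  constructor
  · rintro ⟨h1, h2⟩
    refine ⟨h1, fun p hp => ?_⟩
    have := h2 p (Nat.prime_of_mem_primeFactorsList hp) (Nat.dvd_of_mem_primeFactorsList hp)
    omega
  · rintro ⟨h1, h2⟩
    refine ⟨h1, fun p hp hd => ?_⟩
    have := h2 p ((Nat.mem_primeFactorsList h1).2 ⟨hp, hd⟩)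
    omega

/-- the reciprocal as a monoid homomorphism -/
private def E2c_inv : ℕ →* ℝ where
  toFun n := ((n : ℝ))⁻¹
  map_one' := by simp
  map_mul' a b := by
    push_cast
    rw [mul_inv]

private theorem E2c_sum (s : ℕ) :
    ∑' y : {y : ℕ // Smooth s y}, (((y : ℕ) : ℝ≥0∞))⁻¹ = ENNReal.ofReal ((dl s)⁻¹) := by
  have hp : ∀ {p : ℕ}, p.Prime → ‖E2c_inv p‖ < 1 := by
    intro p hp
    have h1 : (1 : ℝ) < p := by exact_mod_cast hp.one_lt
    show ‖((p : ℝ))⁻¹‖ < 1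
    rw [Real.norm_of_nonneg (by positivity)]
    exact inv_lt_one_of_one_lt₀ h1
  obtain ⟨-, h2⟩ :=
    EulerProduct.summable_and_hasSum_smoothNumbers_prod_primesBelow_geometric hp (s + 1)
  have hprod : ∏ p ∈ (s + 1).primesBelow, (1 - E2c_inv p)⁻¹ = (dl s)⁻¹ := by
    unfold dl
    rw [← Finset.prod_inv_distrib]
    have hset : (s + 1).primesBelow = (Finset.Icc 1 s).filter Nat.Prime := by
      ext p
      rw [Nat.mem_primesBelow, Finset.mem_filter, Finset.mem_Icc]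
      constructor
      · rintro ⟨h3, h4⟩
        exact ⟨⟨h4.one_le, by omega⟩, h4⟩
      · rintro ⟨⟨h3, h4⟩, h5⟩
        exact ⟨by omega, h5⟩
    rw [hset]
    refine Finset.prod_congr rfl fun p _ => ?_
    show (1 - ((p : ℝ))⁻¹)⁻¹ = _
    rw [one_div]
  rw [hprod] at h2
  set eqv : {y : ℕ // Smooth s y} ≃ Nat.smoothNumbers (s + 1) :=
    Equiv.subtypeEquivRight (E2c_smooth_iff s) with heqv
  have h3 : HasSum (fun y : {y : ℕ // Smooth s y} => (((y : ℕ) : ℝ))⁻¹) ((dl s)⁻¹) :=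
    (eqv.hasSum_iff).2 h2
  rw [← h3.tsum_eq, ENNReal.ofReal_tsum_of_nonneg (fun _ => by positivity) h3.summable]
  refine tsum_congr fun y => ?_
  have hy : 0 < (y : ℕ) := Nat.pos_of_ne_zero y.2.1
  rw [ENNReal.ofReal_inv_of_pos (by exact_mod_cast hy), ENNReal.ofReal_natCast]

private theorem E2c_pow_bounds (L : ℕ) :
    (2 : ℝ) ^ iz L ≤ 2 * ((L : ℝ) + 1) ∧ 2 * ((L : ℝ) + 1) ^ 3 ≤ (2 : ℝ) ^ (ez L + 1) := by
  have hL1 : (1 : ℝ) ≤ (L : ℝ) + 1 := by
    have : (0 : ℝ) ≤ L := Nat.cast_nonneg _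
    linarith
  constructor
  · refine (iz_bounds L).2.trans ?_
    have h1 : ((L : ℝ) + 1) ^ ((3 : ℝ) / 4) ≤ ((L : ℝ) + 1) ^ (1 : ℝ) :=
      Real.rpow_le_rpow_of_exponent_le hL1 (by norm_num)
    rw [Real.rpow_one] at h1
    linarith
  · set k := Nat.log 2 (L + 1) with hk
    have hk2 : L + 1 < 2 ^ (k + 1) := Nat.lt_pow_succ_log_self (by norm_num) _
    have hk2r : (L : ℝ) + 1 ≤ 2 * (2 : ℝ) ^ k := by
      have h1 : ((L + 1 : ℕ) : ℝ) ≤ ((2 ^ (k + 1) : ℕ) : ℝ) := by exact_mod_cast hk2.le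
      push_cast at h1
      rw [pow_succ] at h1
      linarith
    have h2 : (2 : ℝ) ^ (ez L + 1) = 2 * (2 * (2 : ℝ) ^ k) ^ 3 := by
      unfold ez
      rw [← hk, mul_pow, ← pow_mul, mul_comm 3 k, pow_add, pow_add]
      norm_num
      ring
    rw [h2]
    have h3 : ((L : ℝ) + 1) ^ 3 ≤ (2 * (2 : ℝ) ^ k) ^ 3 :=
      pow_le_pow_left₀ (by positivity) hk2r 3
    linarith

/-- Non-divisors of the filler: `T = {s x : x ∈ E}` (`j = s`), cost `∑_{x ∈ E} 1/x`; by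
`exists_pow_of_not_dvd` this is at most `∑_{p tiny} p^(-ez-1) ∑_{x smooth} 1/x ≤
2^(iz L) 2^(-ez L - 1) (dl s)⁻¹ → 0` (`∑_{x smooth} 1/x = (dl s)⁻¹`, Euler product over `p ≤ s`:
`EulerProduct.summable_and_hasSum_factoredNumbers_prod_filter_prime_geometric` or the
`smoothNumbers` version). -/
theorem nondiv_cover (C : ℝ) (ε : ℝ) (hε : 0 < ε) : ∀ᶠ L : ℕ in atTop, ∀ s : ℕ, 2 ^ L ≤ s →
    s < 2 ^ (L + 1) → (dl s)⁻¹ ≤ C * (L + 1) →
    ∃ T : Set ℕ, 0 ∉ T ∧ (∀ x, Smooth s x → ¬ tp L x ∣ Fl L → Hit s T x) ∧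
      cst s T ≤ ENNReal.ofReal ε := by
  have ht : Tendsto (fun L : ℕ => ((L : ℝ) + 1)) atTop atTop :=
    tendsto_atTop_add_const_right _ _ tendsto_natCast_atTop_atTop
  filter_upwards [ht.eventually_ge_atTop (C / ε)] with L hL s hs1 hs2 hdl
  have hs : 1 ≤ s := le_trans Nat.one_le_two_pow hs1
  have hs' : (s : ℝ≥0∞) ≠ 0 := by
    have : s ≠ 0 := by omega
    exact_mod_cast this
  set E : Set ℕ := {x | Smooth s x ∧ ¬ tp L x ∣ Fl L} with hE
  refine ⟨(fun x => s * x) '' E, ?_, ?_, ?_⟩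
  · rintro ⟨x, hx, hx0⟩
    have h1 : x ≠ 0 := hx.1.1
    have h2 : s * x = 0 := hx0
    rcases Nat.mul_eq_zero.1 h2 with h3 | h3
    · omega
    · exact h1 h3
  · intro x hx hnd
    exact ⟨s, hs, le_rfl, ⟨x, ⟨hx, hnd⟩, rfl⟩⟩
  · -- the cost
    refine (cst_image_le s E (fun x => s * x)).trans ?_
    set P : Finset ℕ := (Finset.range (2 ^ iz L)).filter Nat.Prime with hP
    have hex : ∀ x : E, ∃ pr : P × {y : ℕ // Smooth s y},
        (x : ℕ) = ((pr.1 : ℕ)) ^ (ez L + 1) * (pr.2 : ℕ) := by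
      rintro ⟨x, hx, hnd⟩
      obtain ⟨p, hp, hlp, hd⟩ := exists_pow_of_not_dvd hx.1 hnd
      obtain ⟨y, hy⟩ := hd
      have hy0 : y ≠ 0 := by
        rintro rfl
        rw [Nat.mul_zero] at hy
        exact hx.1 hy
      have hpP : p ∈ P := by
        rw [hP, Finset.mem_filter, Finset.mem_range]
        refine ⟨?_, hp⟩
        have h4 : p < 2 ^ (Nat.log 2 p + 1) := Nat.lt_pow_succ_log_self (by norm_num) p
        have h5 : 2 ^ (Nat.log 2 p + 1) ≤ 2 ^ iz L := by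
          refine Nat.pow_le_pow_right (by norm_num) ?_
          unfold lev at hlp
          omega
        omega
      have hys : Smooth s y := by
        refine ⟨hy0, fun r hr hrd => hx.2 r hr ?_⟩
        rw [hy]
        exact Dvd.dvd.mul_left hrd _
      exact ⟨(⟨p, hpP⟩, ⟨y, hys⟩), hy⟩
    choose g hg using hex
    have hinj : Function.Injective g := by
      intro a b hab
      apply Subtype.ext
      rw [hg a, hg b, hab]
    have h1 : ∀ x : E, (s : ℝ≥0∞) / ((s * (x : ℕ) : ℕ) : ℝ≥0∞) =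
        (fun pr : P × {y : ℕ // Smooth s y} =>
          ((((pr.1 : ℕ) : ℝ≥0∞)) ^ (ez L + 1))⁻¹ * (((pr.2 : ℕ) : ℝ≥0∞))⁻¹) (g x) := by
      intro x
      have hx0 : ((x : ℕ) : ℝ≥0∞) ≠ 0 := by
        have : (x : ℕ) ≠ 0 := x.2.1.1
        exact_mod_cast this
      have hp0 : (((g x).1 : ℕ) : ℝ≥0∞) ≠ 0 := by
        have h2 := (Finset.mem_filter.1 (g x).1.2).2.ne_zero
        exact_mod_cast h2
      have hst : (s : ℝ≥0∞) ≠ ⊤ := ENNReal.natCast_ne_top s
      show (s : ℝ≥0∞) / ((s * (x : ℕ) : ℕ) : ℝ≥0∞) =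
        (((((g x).1 : ℕ) : ℝ≥0∞)) ^ (ez L + 1))⁻¹ * ((((g x).2 : ℕ) : ℝ≥0∞))⁻¹
      rw [← ENNReal.mul_inv (Or.inl (pow_ne_zero _ hp0))
        (Or.inl (ENNReal.pow_ne_top (ENNReal.natCast_ne_top _)))]
      have h3 : ((((g x).1 : ℕ) : ℝ≥0∞)) ^ (ez L + 1) * (((g x).2 : ℕ) : ℝ≥0∞) =
          ((x : ℕ) : ℝ≥0∞) := by
        rw [hg x]
        push_cast
        rfl
      rw [h3]
      push_cast
      rw [div_eq_mul_inv, ENNReal.mul_inv (Or.inl hs') (Or.inl hst), ← mul_assoc,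
        ENNReal.mul_inv_cancel hs' hst, one_mul]
    have h2 : ∑' x : E, (s : ℝ≥0∞) / ((s * (x : ℕ) : ℕ) : ℝ≥0∞) ≤
        ∑' pr : P × {y : ℕ // Smooth s y},
          ((((pr.1 : ℕ) : ℝ≥0∞)) ^ (ez L + 1))⁻¹ * (((pr.2 : ℕ) : ℝ≥0∞))⁻¹ := by
      rw [tsum_congr h1]
      exact ENNReal.tsum_comp_le_tsum_of_injective hinj _
    refine h2.trans ?_
    rw [ENNReal.tsum_prod (f := fun (p : P) (y : {y : ℕ // Smooth s y}) =>
      ((((p : ℕ) : ℝ≥0∞)) ^ (ez L + 1))⁻¹ * (((y : ℕ) : ℝ≥0∞))⁻¹)]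
    have h3 : ∀ p : P, ∑' y : {y : ℕ // Smooth s y},
        ((((p : ℕ) : ℝ≥0∞)) ^ (ez L + 1))⁻¹ * (((y : ℕ) : ℝ≥0∞))⁻¹ ≤
        ENNReal.ofReal ((1 / (2 * ((L : ℝ) + 1) ^ 3)) * (C * (L + 1))) := by
      intro p
      rw [ENNReal.tsum_mul_left, E2c_sum]
      have hp2 : (2 : ℝ) ≤ (p : ℕ) := by
        exact_mod_cast (Finset.mem_filter.1 p.2).2.two_le
      have h4 : (1 : ℝ) / (((p : ℕ) : ℝ) ^ (ez L + 1)) ≤ 1 / (2 * ((L : ℝ) + 1) ^ 3) := by
        refine div_le_div_of_nonneg_left (by norm_num) (by positivity) ?_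
        exact (E2c_pow_bounds L).2.trans (pow_le_pow_left₀ (by norm_num) hp2 _)
      have h5 : ((((p : ℕ) : ℝ≥0∞)) ^ (ez L + 1))⁻¹ =
          ENNReal.ofReal (1 / (((p : ℕ) : ℝ) ^ (ez L + 1))) := by
        rw [one_div, ENNReal.ofReal_inv_of_pos (by positivity),
          ENNReal.ofReal_pow (by positivity), ENNReal.ofReal_natCast]
      rw [h5, ENNReal.ofReal_mul (by positivity)]
      exact mul_le_mul' (ENNReal.ofReal_le_ofReal h4) (ENNReal.ofReal_le_ofReal hdl)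
    refine (ENNReal.tsum_le_tsum h3).trans ?_
    have hdl0 : 0 ≤ (dl s)⁻¹ := by
      unfold dl
      refine inv_nonneg.2 (Finset.prod_nonneg fun p hp => ?_)
      have h6 : (1 : ℝ) ≤ p := by
        exact_mod_cast (Finset.mem_filter.1 hp).2.one_le
      have h7 : 1 / (p : ℝ) ≤ 1 := by
        rw [div_le_one (by linarith)]
        exact h6
      linarith
    have hL0 : (0 : ℝ) < (L : ℝ) + 1 := by positivity
    have hC0 : 0 ≤ C * ((L : ℝ) + 1) := hdl0.trans hdl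
    have hC : 0 ≤ C := by
      by_contra hneg
      push Not at hneg
      have := mul_neg_of_neg_of_pos hneg hL0
      linarith
    rw [tsum_fintype, Finset.sum_const, nsmul_eq_mul, Finset.card_univ, Fintype.card_coe,
      ← ENNReal.ofReal_natCast, ← ENNReal.ofReal_mul (by positivity)]
    refine ENNReal.ofReal_le_ofReal ?_
    have hcard : (P.card : ℝ) ≤ 2 * ((L : ℝ) + 1) := by
      refine le_trans ?_ (E2c_pow_bounds L).1
      have h8 : P.card ≤ 2 ^ iz L := by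
        rw [hP]
        exact (Finset.card_filter_le _ _).trans (by rw [Finset.card_range])
      exact_mod_cast h8
    calc (P.card : ℝ) * (1 / (2 * ((L : ℝ) + 1) ^ 3) * (C * (L + 1))) ≤
        (2 * ((L : ℝ) + 1)) * (1 / (2 * ((L : ℝ) + 1) ^ 3) * (C * (L + 1))) :=
          mul_le_mul_of_nonneg_right hcard (by positivity)
      _ = C / ((L : ℝ) + 1) := by
          field_simp
      _ ≤ ε := by
          rw [div_le_iff₀ hL0]
          rw [div_le_iff₀ hε] at hL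
          linarith

end Pool.Agent.W_a617e8_h51
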