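import Pool.Agent.W_a617e8_h51.X1

set_option autoImplicit false

/-! X1b: approximate solutions. -/

noncomputable section

open scoped ENNReal

open MeasureTheory Filter Topology

namespace Pool.Agent.W_a617e8_h51

/-- Approximate version of `Good` (a closed condition). -/
structure AGood (δ ε : ℝ) (m : ℕ) (F : Finset (Finset (Fin m))) (c : Fin m → ℝ) : Prop where
  ne : F.Nonempty
  mem_ne : ∀ S ∈ F, S.Nonempty
  lo : ∀ i, δ ≤ c i
  hi : ∀ i, c i ≤ 1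
  bal : ∀ S ∈ F, ∀ S' ∈ F, ∑ i ∈ S, c i ≤ ∑ i ∈ S', c i + ε
  tot : ∀ S ∈ F, ∑ i, c i ≤ 1 + ∑ i ∈ S, c i

private theorem X1b_swap (I : Finset ℕ) (w : ℕ → ℝ≥0∞)
    (f : ℕ → (m : ℕ) → Finset (Finset (Fin m)) → ℝ≥0∞) :
    ∑' m : ℕ, ∑ F : Finset (Finset (Fin m)), ∑ n ∈ I, w n * f n m F =
      ∑ n ∈ I, w n * ∑' m : ℕ, ∑ F : Finset (Finset (Fin m)), f n m F := by
  have h1 : ∀ m : ℕ, ∑ F : Finset (Finset (Fin m)), ∑ n ∈ I, w n * f n m F =
      ∑ n ∈ I, w n * ∑ F : Finset (Finset (Fin m)), f n m F := by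
    intro m
    rw [Finset.sum_comm]
    exact Finset.sum_congr rfl fun n _ => (Finset.mul_sum _ _ _).symm
  simp_rw [h1]
  rw [Summable.tsum_finsetSum (fun t _ => ENNReal.summable)]
  exact Finset.sum_congr rfl fun n _ => ENNReal.tsum_mul_left

private theorem X1b_tele (N : ℕ) (hN : 1 ≤ N) :
    ∑ n ∈ Finset.Ico 1 N, (1 : ℝ) / ((n : ℝ) * (n + 1)) = 1 - 1 / N := by
  induction N, hN using Nat.le_induction with
  | base => simp
  | succ N hN ih =>
    rw [Finset.sum_Ico_succ_top hN, ih]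
    have h1 : (0 : ℝ) < N := by
      have : 0 < N := by omega
      exact_mod_cast this
    push_cast
    field_simp
    ring

/-- The weights `1 / (n (n + 1))`. -/
private def X1bw (n : ℕ) : ℝ≥0∞ := ENNReal.ofReal (1 / ((n : ℝ) * (n + 1)))

private theorem X1b_GG (s : ℕ) : GG s = ∑' n : ℕ, X1bw n * (NN s n : ℝ≥0∞) := by
  rw [tsum_eq_zero_add' ENNReal.summable, NN_zero, Nat.cast_zero, mul_zero, zero_add]
  unfold GG
  refine tsum_congr fun n => ?_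
  rw [div_eq_mul_inv, mul_comm]
  congr 1
  unfold X1bw
  rw [one_div, ENNReal.ofReal_inv_of_pos (by positivity), ← ENNReal.ofReal_natCast]
  congr 2
  push_cast
  ring

private theorem X1b_mass (s N1 N2 : ℕ) (hs : 1 ≤ s) (hN : 1 ≤ N1) :
    ∑ n ∈ Finset.Icc N1 N2, X1bw n * (NN s n : ℝ≥0∞) + 1 ≤
      GG s + ENNReal.ofReal (1 / (N1 : ℝ)) := by
  have hN' : (1 : ℝ) ≤ N1 := by exact_mod_cast hN
  have h1 : ENNReal.ofReal (1 - 1 / (N1 : ℝ)) ≤
      ∑ n ∈ Finset.Ico 1 N1, X1bw n * (NN s n : ℝ≥0∞) := by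
    rw [← X1b_tele N1 hN, ENNReal.ofReal_sum_of_nonneg (fun n _ => by positivity)]
    refine Finset.sum_le_sum fun n hn => ?_
    have h2 := one_le_NN s n hs (Finset.mem_Ico.1 hn).1
    calc ENNReal.ofReal (1 / ((n : ℝ) * (n + 1))) = X1bw n * 1 := (mul_one _).symm
      _ ≤ X1bw n * (NN s n : ℝ≥0∞) := by
        gcongr
        exact_mod_cast h2
  have h2 : ∑ n ∈ Finset.Icc N1 N2, X1bw n * (NN s n : ℝ≥0∞) +
      ∑ n ∈ Finset.Ico 1 N1, X1bw n * (NN s n : ℝ≥0∞) ≤ GG s := by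
    rw [X1b_GG, ← Finset.sum_union]
    · exact ENNReal.sum_le_tsum _
    · rw [Finset.disjoint_left]
      intro x hx hx'
      have h3 := (Finset.mem_Icc.1 hx).1
      have h4 := (Finset.mem_Ico.1 hx').2
      omega
  have h3 : (1 : ℝ≥0∞) = ENNReal.ofReal (1 - 1 / (N1 : ℝ)) + ENNReal.ofReal (1 / (N1 : ℝ)) := by
    rw [← ENNReal.ofReal_add, sub_add_cancel, ENNReal.ofReal_one]
    · rw [sub_nonneg, div_le_one (by linarith)]
      exact hN'
    · positivity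
  rw [h3, ← add_assoc]
  gcongr
  exact (add_le_add le_rfl h1).trans h2

private theorem X1b_spec (δ : ℝ) (hδ : 0 < δ) (hδ1 : δ < 1) :
    ∃ B : ℕ → ℕ → (m : ℕ) → Finset (Finset (Fin m)) → Measure (Fin m → ℝ),
      ∀ s n : ℕ, 2 ≤ s → 1 ≤ n → 1 ≤ Real.log s → (s : ℝ) ^ δ * Real.log s ≤ n →
      (∑' m : ℕ, ∑ F : Finset (Finset (Fin m)), B s n m F Set.univ ≤ NN s n) ∧
      (∀ (m : ℕ) (F : Finset (Finset (Fin m))), ∀ᵐ c ∂(B s n m F), F.Nonempty ∧
        (∀ S ∈ F, S.Nonempty) ∧ (∀ i, δ < c i ∧ c i ≤ 1) ∧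
        (∀ S ∈ F, Real.log (n / Real.log s) / Real.log s ≤ ∑ i ∈ S, c i ∧
          ∑ i ∈ S, c i ≤ Real.log n / Real.log s) ∧ ∀ S ∈ F, ∑ i, c i ≤ 1 + ∑ i ∈ S, c i) ∧
      (∀ (k : ℕ) (a b : Fin k → ℝ), 1 ≤ k → (∀ i, δ < a i ∧ a i < b i ∧ b i < 1) →
        (∀ i j, i < j → b i < a j) →
        ∑' m : ℕ, ∑ F : Finset (Finset (Fin m)), ∑ S ∈ F, B s n m F (Hset k m a b S) =
          ((Uset s k a b (Real.log s) n).card : ℝ≥0∞)) := by
  have h : ∀ s n : ℕ, ∃ β : (m : ℕ) → Finset (Finset (Fin m)) → Measure (Fin m → ℝ),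
      2 ≤ s → 1 ≤ n → 1 ≤ Real.log s → (s : ℝ) ^ δ * Real.log s ≤ n →
      (∑' m : ℕ, ∑ F : Finset (Finset (Fin m)), β m F Set.univ ≤ NN s n) ∧
      (∀ (m : ℕ) (F : Finset (Finset (Fin m))), ∀ᵐ c ∂(β m F), F.Nonempty ∧
        (∀ S ∈ F, S.Nonempty) ∧ (∀ i, δ < c i ∧ c i ≤ 1) ∧
        (∀ S ∈ F, Real.log (n / Real.log s) / Real.log s ≤ ∑ i ∈ S, c i ∧
          ∑ i ∈ S, c i ≤ Real.log n / Real.log s) ∧ ∀ S ∈ F, ∑ i, c i ≤ 1 + ∑ i ∈ S, c i) ∧
      (∀ (k : ℕ) (a b : Fin k → ℝ), 1 ≤ k → (∀ i, δ < a i ∧ a i < b i ∧ b i < 1) →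
        (∀ i j, i < j → b i < a j) →
        ∑' m : ℕ, ∑ F : Finset (Finset (Fin m)), ∑ S ∈ F, β m F (Hset k m a b S) =
          ((Uset s k a b (Real.log s) n).card : ℝ≥0∞)) := by
    intro s n
    by_cases hc : 2 ≤ s ∧ 1 ≤ n ∧ 1 ≤ Real.log s ∧ (s : ℝ) ^ δ * Real.log s ≤ n
    · obtain ⟨h1, h2, h3, h4⟩ := hc
      obtain ⟨β, hβ⟩ := one_n s n h1 h2 δ (Real.log s) hδ hδ1 h3 h4
      exact ⟨β, fun _ _ _ _ => hβ⟩
    · exact ⟨fun _ _ => 0, fun h1 h2 h3 h4 => absurd ⟨h1, h2, h3, h4⟩ hc⟩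
  choose B hB using h
  exact ⟨B, hB⟩

/-- **Approximate solutions.**  Proof: `β s = ∑_{n ∈ nrange} (1/(n (n+1))) β_{s,n}` with `one_n`,
`K = log s` (and `0` for small `s`).  Support: by (ii) of `one_n`,
`m δ ≤ ∑ c ≤ 1 + log n / log s ≤ 1 + Y`.  Mass: `∑_{n ∈ nrange} NN s n/(n(n+1)) + (1 - 1/N₁) ≤ GG s`,
as `NN s n ≥ 1` (`one_le_NN`), `N₁ = ⌈s^δ log s⌉ → ∞`.  Balance: all sums `∑_S c` lie in an interval
of length `log K / log s = loglog s/log s → 0`. -/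
theorem approx (δ Y : ℝ) (hδ : 0 < δ) (hδ1 : δ < 1) (hY : 1 ≤ Y) :
    ∃ β : ℕ → (m : ℕ) → Finset (Finset (Fin m)) → Measure (Fin m → ℝ),
      (∀ (s m : ℕ) (F : Finset (Finset (Fin m))), (1 + Y) / δ < (m : ℝ) → β s m F = 0) ∧
      (∀ ε : ℝ, 0 < ε → ∀ᶠ s : ℕ in atTop,
        ∑' m : ℕ, ∑ F : Finset (Finset (Fin m)), β s m F Set.univ + 1 ≤
          GG s + ENNReal.ofReal ε) ∧
      (∀ ε : ℝ, 0 < ε → ∀ᶠ s : ℕ in atTop, ∀ (m : ℕ) (F : Finset (Finset (Fin m))),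
        ∀ᵐ c ∂(β s m F), AGood δ ε m F c) ∧
      (∀ (k : ℕ) (a b : Fin k → ℝ), 1 ≤ k → (∀ i, δ < a i ∧ a i < b i ∧ b i < 1) →
        (∀ i j, i < j → b i < a j) → ∑ i, b i < Y →
        Tendsto (fun s : ℕ => ∑' m : ℕ, ∑ F : Finset (Finset (Fin m)), ∑ S ∈ F,
          β s m F (Hset k m a b S)) atTop (𝓝 (ENNReal.ofReal (∏ i, Real.log (b i / a i))))) := by
  classical
  obtain ⟨B, hB⟩ := X1b_spec δ hδ hδ1
  let β : ℕ → (m : ℕ) → Finset (Finset (Fin m)) → Measure (Fin m → ℝ) := fun s m F =>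
    if 2 ≤ s ∧ 1 ≤ Real.log s then ∑ n ∈ nrange δ Y s, X1bw n • B s n m F else 0
  have hβ : ∀ s : ℕ, 2 ≤ s → 1 ≤ Real.log s → ∀ (m : ℕ) (F : Finset (Finset (Fin m))),
      β s m F = ∑ n ∈ nrange δ Y s, X1bw n • B s n m F := by
    intro s h1 h2 m F
    exact if_pos ⟨h1, h2⟩
  have hβa : ∀ s : ℕ, 2 ≤ s → 1 ≤ Real.log s → ∀ (m : ℕ) (F : Finset (Finset (Fin m)))
      (E : Set (Fin m → ℝ)), β s m F E = ∑ n ∈ nrange δ Y s, X1bw n * B s n m F E := by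
    intro s h1 h2 m F E
    rw [hβ s h1 h2, Measure.finsetSum_apply]
    rfl
  have hpos : ∀ s : ℕ, 2 ≤ s → 1 ≤ Real.log s → 1 ≤ (s : ℝ) ^ δ * Real.log s := by
    intro s h1 h2
    have h3 : (1 : ℝ) ≤ s := by
      have : 1 ≤ s := by omega
      exact_mod_cast this
    have h4 : (1 : ℝ) ≤ (s : ℝ) ^ δ := Real.one_le_rpow h3 hδ.le
    nlinarith
  have hrange : ∀ s n : ℕ, 2 ≤ s → 1 ≤ Real.log s → n ∈ nrange δ Y s →
      1 ≤ n ∧ (s : ℝ) ^ δ * Real.log s ≤ n ∧ (n : ℝ) ≤ (s : ℝ) ^ Y := by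
    intro s n h1 h2 hn
    unfold nrange at hn
    rw [Finset.mem_Icc, Nat.ceil_le, Nat.le_floor_iff (by positivity)] at hn
    refine ⟨?_, hn⟩
    have h3 := (hpos s h1 h2).trans hn.1
    exact_mod_cast h3
  have hcast : Tendsto (fun s : ℕ => (s : ℝ)) atTop atTop := tendsto_natCast_atTop_atTop
  have hlog : Tendsto (fun s : ℕ => Real.log (s : ℝ)) atTop atTop :=
    Real.tendsto_log_atTop.comp hcast
  refine ⟨β, ?_, ?_, ?_, ?_⟩
  · intro s m F hm
    by_cases h : 2 ≤ s ∧ 1 ≤ Real.log s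
    · rw [hβ s h.1 h.2]
      refine Finset.sum_eq_zero fun n hn => ?_
      obtain ⟨hn1, hn2, hn3⟩ := hrange s n h.1 h.2 hn
      obtain ⟨-, h2, -⟩ := hB s n h.1 hn1 h.2 hn2
      have hs0 : (0 : ℝ) < s := by
        have : 0 < s := by omega
        exact_mod_cast this
      have hn0 : (0 : ℝ) < n := by exact_mod_cast hn1
      have hl0 : 0 < Real.log s := by linarith [h.2]
      have h3 : ∀ᵐ c ∂(B s n m F), False := by
        filter_upwards [h2 m F] with c hc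
        obtain ⟨⟨S, hS⟩, -, h4, h5, h6⟩ := hc
        have h7 := h6 S hS
        have h8 := (h5 S hS).2
        have h9 : (m : ℝ) * δ ≤ ∑ i, c i := by
          calc (m : ℝ) * δ = ∑ _i : Fin m, δ := by simp
            _ ≤ _ := Finset.sum_le_sum fun i _ => (h4 i).1.le
        have h10 : Real.log n / Real.log s ≤ Y := by
          rw [div_le_iff₀ hl0, ← Real.log_rpow hs0]
          exact Real.log_le_log hn0 hn3
        rw [div_lt_iff₀ hδ] at hm
        linarith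
      have h4 : B s n m F = 0 := by
        rw [Filter.eventually_false_iff_eq_bot, MeasureTheory.ae_eq_bot] at h3
        exact h3
      rw [h4, smul_zero]
    · exact if_neg h
  · intro ε hε
    have hpow : Tendsto (fun s : ℕ => (s : ℝ) ^ δ) atTop atTop :=
      (tendsto_rpow_atTop hδ).comp hcast
    filter_upwards [eventually_ge_atTop 2, hlog.eventually_ge_atTop 1,
      hpow.eventually_ge_atTop (1 / ε)] with s h1 h2 h3
    have h4 : ∑' m : ℕ, ∑ F : Finset (Finset (Fin m)), β s m F Set.univ ≤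
        ∑ n ∈ nrange δ Y s, X1bw n * (NN s n : ℝ≥0∞) := by
      simp_rw [hβa s h1 h2]
      rw [X1b_swap (nrange δ Y s) X1bw (fun n m F => B s n m F Set.univ)]
      refine Finset.sum_le_sum fun n hn => ?_
      obtain ⟨hn1, hn2, -⟩ := hrange s n h1 h2 hn
      gcongr
      exact (hB s n h1 hn1 h2 hn2).1
    have hN1 : 1 ≤ ⌈(s : ℝ) ^ δ * Real.log s⌉₊ := by
      rw [Nat.one_le_ceil_iff]
      linarith [hpos s h1 h2]
    refine (add_le_add h4 le_rfl).trans ((X1b_mass s _ _ (by omega) hN1).trans ?_)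
    gcongr
    have h5 : (1 : ℝ) / ε ≤ ⌈(s : ℝ) ^ δ * Real.log s⌉₊ := by
      refine le_trans ?_ (Nat.le_ceil _)
      have h6 : 0 < (s : ℝ) ^ δ := by
        have : 0 < 1 / ε := by positivity
        linarith
      nlinarith
    rw [div_le_iff₀ hε] at h5
    rw [div_le_iff₀ (by exact_mod_cast hN1)]
    linarith
  · intro ε hε
    have hll : Tendsto (fun s : ℕ => Real.log (Real.log (s : ℝ)) / Real.log s) atTop (𝓝 0) := by
      have h1 : Tendsto (fun x : ℝ => Real.log x / x) atTop (𝓝 0) := by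
        have h2 := Real.isLittleO_log_id_atTop.tendsto_div_nhds_zero
        exact h2
      exact h1.comp hlog
    filter_upwards [eventually_ge_atTop 2, hlog.eventually_ge_atTop 1,
      hll.eventually_le_const hε] with s h1 h2 h3
    intro m F
    rw [ae_iff, hβa s h1 h2]
    refine Finset.sum_eq_zero fun n hn => ?_
    obtain ⟨hn1, hn2, -⟩ := hrange s n h1 h2 hn
    have h4 : ∀ᵐ c ∂(B s n m F), AGood δ ε m F c := by
      have hn0 : (0 : ℝ) < n := by exact_mod_cast hn1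
      have hl0 : 0 < Real.log s := by linarith
      filter_upwards [(hB s n h1 hn1 h2 hn2).2.1 m F] with c hc
      obtain ⟨h5, h6, h7, h8, h9⟩ := hc
      refine ⟨h5, h6, fun i => (h7 i).1.le, fun i => (h7 i).2, fun S hS S' hS' => ?_, h9⟩
      have h10 := (h8 S hS).2
      have h11 := (h8 S' hS').1
      rw [Real.log_div hn0.ne' hl0.ne', sub_div] at h11
      linarith
    rw [ae_iff] at h4
    rw [h4, mul_zero]
  · intro k a b hk hab hd hbY
    refine Tendsto.congr' ?_ (ENNReal.tendsto_ofReal (sum_Uset δ Y hδ hδ1 k a b hk hab hd hbY))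
    filter_upwards [eventually_ge_atTop 2, hlog.eventually_ge_atTop 1] with s h1 h2
    have h3 : ∀ (m : ℕ) (F : Finset (Finset (Fin m))),
        ∑ S ∈ F, β s m F (Hset k m a b S) =
          ∑ n ∈ nrange δ Y s, X1bw n * ∑ S ∈ F, B s n m F (Hset k m a b S) := by
      intro m F
      simp_rw [hβa s h1 h2]
      rw [Finset.sum_comm]
      exact Finset.sum_congr rfl fun n _ => (Finset.mul_sum _ _ _).symm
    simp_rw [h3]
    rw [X1b_swap (nrange δ Y s) X1bw (fun n m F => ∑ S ∈ F, B s n m F (Hset k m a b S)),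
      ENNReal.ofReal_sum_of_nonneg (fun n _ => by positivity)]
    refine Finset.sum_congr rfl fun n hn => ?_
    obtain ⟨hn1, hn2, -⟩ := hrange s n h1 h2 hn
    rw [(hB s n h1 hn1 h2 hn2).2.2 k a b hk hab hd]
    unfold X1bw
    rw [← ENNReal.ofReal_natCast, ← ENNReal.ofReal_mul (by positivity)]
    congr 1
    ring

end Pool.Agent.W_a617e8_h51
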