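import Pool.Agent.W_a617e8_h51.X2
import Pool.Agent.W_a617e8_h51.X1b

set_option autoImplicit false

/-! X2b: extraction of a feasible solution. -/

noncomputable section

open scoped ENNReal NNReal

open MeasureTheory Filter Topology

namespace Pool.Agent.W_a617e8_h51

private theorem X2b_lim (𝒰 : Ultrafilter ℕ) (u : ℕ → ℝ≥0∞) :
    ∃ l, Tendsto u (𝒰 : Filter ℕ) (𝓝 l) :=
  ⟨(𝒰.map u).lim, (𝒰.map u).le_nhds_lim⟩

private theorem X2b_liminf (𝒰 : Ultrafilter ℕ) (u : ℕ → ℝ≥0∞) :
    Tendsto u (𝒰 : Filter ℕ) (𝓝 (liminf u (𝒰 : Filter ℕ))) := by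
  obtain ⟨l, hl⟩ := X2b_lim 𝒰 u
  rw [hl.liminf_eq]
  exact hl

private theorem X2b_limsup (𝒰 : Ultrafilter ℕ) (u : ℕ → ℝ≥0∞) :
    Tendsto u (𝒰 : Filter ℕ) (𝓝 (limsup u (𝒰 : Filter ℕ))) := by
  obtain ⟨l, hl⟩ := X2b_lim 𝒰 u
  rw [hl.limsup_eq]
  exact hl

private theorem X2b_tsum {R : ℝ} (g : (m : ℕ) → Finset (Finset (Fin m)) → ℝ≥0∞)
    (hg : ∀ (m : ℕ) (F : Finset (Finset (Fin m))), R < (m : ℝ) → g m F = 0) :
    ∑' m : ℕ, ∑ F : Finset (Finset (Fin m)), g m F =
      ∑ m ∈ Finset.range (⌊R⌋₊ + 1), ∑ F : Finset (Finset (Fin m)), g m F := by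
  refine tsum_eq_sum fun m hm => Finset.sum_eq_zero fun F _ => hg m F ?_
  rw [Finset.mem_range, not_lt] at hm
  exact (Nat.floor_lt' (by omega)).1 (by omega)

private theorem X2b_closed (δ ε : ℝ) (m : ℕ) (F : Finset (Finset (Fin m))) :
    IsClosed {c : Fin m → ℝ | AGood δ ε m F c} := by
  have h1 : {c : Fin m → ℝ | AGood δ ε m F c} = {_c : Fin m → ℝ | F.Nonempty} ∩
      ({_c : Fin m → ℝ | ∀ S ∈ F, S.Nonempty} ∩ ((⋂ i, {c : Fin m → ℝ | δ ≤ c i}) ∩
      ((⋂ i, {c : Fin m → ℝ | c i ≤ 1}) ∩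
      ((⋂ S ∈ F, ⋂ S' ∈ F, {c : Fin m → ℝ | ∑ i ∈ S, c i ≤ ∑ i ∈ S', c i + ε}) ∩
      (⋂ S ∈ F, {c : Fin m → ℝ | ∑ i, c i ≤ 1 + ∑ i ∈ S, c i}))))) := by
    ext c
    simp only [Set.mem_inter_iff, Set.mem_iInter, Set.mem_ofPred_eq]
    constructor
    · intro h
      exact ⟨h.ne, h.mem_ne, h.lo, h.hi, h.bal, h.tot⟩
    · rintro ⟨h1, h2, h3, h4, h5, h6⟩
      exact ⟨h1, h2, h3, h4, h5, h6⟩
  rw [h1]
  refine isClosed_const.inter (isClosed_const.inter ((isClosed_iInter fun i =>
    isClosed_le continuous_const (continuous_apply i)).inter ((isClosed_iInter fun i =>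
    isClosed_le (continuous_apply i) continuous_const).inter ((isClosed_biInter fun S _ =>
    isClosed_biInter fun S' _ => isClosed_le ?_ ?_).inter (isClosed_biInter fun S _ =>
    isClosed_le ?_ ?_)))))
  all_goals fun_prop

private theorem X2b_closedwin (k m : ℕ) (a b : Fin k → ℝ) (S : Finset (Fin m)) :
    IsClosed {c : Fin m → ℝ | S.card = k ∧ ∀ i, ∃ x ∈ S, a i ≤ c x ∧ c x ≤ b i} := by
  have h1 : {c : Fin m → ℝ | S.card = k ∧ ∀ i, ∃ x ∈ S, a i ≤ c x ∧ c x ≤ b i} =
      {_c : Fin m → ℝ | S.card = k} ∩ ⋂ i, ⋃ x ∈ S, {c : Fin m → ℝ | a i ≤ c x ∧ c x ≤ b i} := by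
    ext c
    simp only [Set.mem_inter_iff, Set.mem_iInter, Set.mem_iUnion, Set.mem_ofPred_eq, exists_prop]
  rw [h1]
  refine isClosed_const.inter (isClosed_iInter fun i => ?_)
  refine Set.Finite.isClosed_biUnion S.finite_toSet fun x _ => ?_
  exact (isClosed_le continuous_const (continuous_apply x)).inter
    (isClosed_le (continuous_apply x) continuous_const)

private theorem X2b_openwin (k m : ℕ) (a b : Fin k → ℝ) (S : Finset (Fin m)) :
    IsOpen {c : Fin m → ℝ | S.card = k ∧ ∀ i, ∃ x ∈ S, a i < c x ∧ c x < b i} := by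
  have h1 : {c : Fin m → ℝ | S.card = k ∧ ∀ i, ∃ x ∈ S, a i < c x ∧ c x < b i} =
      {_c : Fin m → ℝ | S.card = k} ∩ ⋂ i, ⋃ x ∈ S, {c : Fin m → ℝ | a i < c x ∧ c x < b i} := by
    ext c
    simp only [Set.mem_inter_iff, Set.mem_iInter, Set.mem_iUnion, Set.mem_ofPred_eq, exists_prop]
  rw [h1]
  refine isOpen_const.inter (isOpen_iInter_of_finite fun i => ?_)
  refine isOpen_biUnion fun x _ => ?_
  exact (isOpen_lt continuous_const (continuous_apply x)).inter
    (isOpen_lt (continuous_apply x) continuous_const)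

/-- **Extraction.**  Proof: take `β` from `approx` and an ultrafilter `𝒰 ≤ atTop` containing
`{s | GG s ≤ Γ}`; for `m ≤ (1 + Y)/δ` and each `F` let `α m F` be the ultralimit of `β s m F`
(for `s` outside a member of `𝒰` replace `β` by `0`, so that the hypotheses hold for all `s`), and
`0` for other `m`.  Mass: total mass of the limits `≤ liminf` (open set `univ`).  `Good`: the
complement of `{AGood δ ε}` is open and null for `β s` for large `s`, so it is null for `α`; take
`ε = 1/n`.  Marginals: `Hset a b` is between `{closed windows [a, b'']}` for `b'' < b` and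
`{open windows (a', b)}` for `a' < a`; use closed and open windows, and continuity of
`∏ log(b_i/a_i)`; the finite sums of liminf/limsup are handled by `le_liminf_add`-type inequalities
(for an ultrafilter all limits in `ℝ≥0∞` exist: `Ultrafilter` + compactness of `ℝ≥0∞`). -/
theorem extract (δ Y Γ : ℝ) (hδ : 0 < δ) (hδ1 : δ < 1) (hY : 1 ≤ Y) (hΓ : 1 ≤ Γ)
    (h : ∃ᶠ s : ℕ in atTop, GG s ≤ ENNReal.ofReal Γ) :
    ∃ α : (m : ℕ) → Finset (Finset (Fin m)) → Measure (Fin m → ℝ), Feas δ Y α (Γ - 1) := by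
  classical
  obtain ⟨β, hsupp, hmass, hgood, hmarg⟩ := approx δ Y hδ hδ1 hY
  set R : ℝ := (1 + Y) / δ with hR
  have hne : (atTop ⊓ 𝓟 {s : ℕ | GG s ≤ ENNReal.ofReal Γ}).NeBot := frequently_mem_iff_neBot.1 h
  set 𝒰 : Ultrafilter ℕ := Ultrafilter.of (atTop ⊓ 𝓟 {s : ℕ | GG s ≤ ENNReal.ofReal Γ}) with h𝒰
  have h𝒰le : (𝒰 : Filter ℕ) ≤ atTop ⊓ 𝓟 {s : ℕ | GG s ≤ ENNReal.ofReal Γ} := Ultrafilter.of_le _
  have h𝒰1 : (𝒰 : Filter ℕ) ≤ atTop := h𝒰le.trans inf_le_left
  have h𝒰2 : ∀ᶠ s in (𝒰 : Filter ℕ), GG s ≤ ENNReal.ofReal Γ :=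
    (h𝒰le.trans inf_le_right) (mem_principal_self _)
  -- the total mass
  have htot : ∀ s, ∑' m : ℕ, ∑ F : Finset (Finset (Fin m)), β s m F Set.univ =
      ∑ m ∈ Finset.range (⌊R⌋₊ + 1), ∑ F : Finset (Finset (Fin m)), β s m F Set.univ := by
    intro s
    refine X2b_tsum (R := R) _ fun m F hm => ?_
    rw [hsupp s m F hm]
    rfl
  set E : Set ℕ := {s | (∑' m : ℕ, ∑ F : Finset (Finset (Fin m)), β s m F Set.univ + 1 ≤
    ENNReal.ofReal Γ + 1) ∧ ∀ (m : ℕ) (F : Finset (Finset (Fin m))),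
      ∀ᵐ c ∂(β s m F), AGood δ 1 m F c} with hE
  have hE𝒰 : ∀ᶠ s in (𝒰 : Filter ℕ), s ∈ E := by
    filter_upwards [h𝒰1 (hmass 1 one_pos), h𝒰1 (hgood 1 one_pos), h𝒰2] with s h1 h2 h3
    refine ⟨h1.trans ?_, h2⟩
    rw [ENNReal.ofReal_one]
    gcongr
  set μ : (m : ℕ) → Finset (Finset (Fin m)) → ℕ → Measure (Fin m → ℝ) :=
    fun m F s => if s ∈ E then β s m F else 0 with hμ
  have hμ1 : ∀ (m : ℕ) (F : Finset (Finset (Fin m))) (s : ℕ), μ m F s Set.univ ≤ Γ.toNNReal := by
    intro m F s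
    by_cases hs : s ∈ E
    · have e1 : μ m F s = β s m F := if_pos hs
      rw [e1]
      have h2 : ∑' m : ℕ, ∑ F : Finset (Finset (Fin m)), β s m F Set.univ ≤ ENNReal.ofReal Γ :=
        (ENNReal.add_le_add_iff_right ENNReal.one_ne_top).1 hs.1
      refine le_trans ?_ h2
      refine le_trans ?_ (ENNReal.le_tsum m)
      exact Finset.single_le_sum (f := fun F => β s m F Set.univ) (fun _ _ => zero_le)
        (Finset.mem_univ F)
    · have e1 : μ m F s = 0 := if_neg hs
      rw [e1]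
      exact zero_le
  have hμ2 : ∀ (m : ℕ) (F : Finset (Finset (Fin m))) (s : ℕ), μ m F s (Set.Icc 0 1)ᶜ = 0 := by
    intro m F s
    by_cases hs : s ∈ E
    · have e1 : μ m F s = β s m F := if_pos hs
      rw [e1, ← mem_ae_iff]
      filter_upwards [hs.2 m F] with c hc
      exact ⟨fun i => (hδ.le).trans (hc.lo i), fun i => hc.hi i⟩
    · have e1 : μ m F s = 0 := if_neg hs
      rw [e1]
      rfl
  choose ν hν1 hν2 hν3 hν4 using fun (m : ℕ) (F : Finset (Finset (Fin m))) =>
    exists_ultralimit m (μ m F) Γ.toNNReal (hμ1 m F) (hμ2 m F) 𝒰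
  obtain ⟨α, hα⟩ : ∃ α : (m : ℕ) → Finset (Finset (Fin m)) → Measure (Fin m → ℝ),
      ∀ m F, α m F = if R < (m : ℝ) then 0 else ν m F := ⟨fun m F => _, fun _ _ => rfl⟩
  have hα0 : ∀ (m : ℕ) (F : Finset (Finset (Fin m))), R < (m : ℝ) → α m F = 0 := by
    intro m F hm
    rw [hα, if_pos hm]
  have hopen : ∀ (m : ℕ) (F : Finset (Finset (Fin m))) (U : Set (Fin m → ℝ)), IsOpen U →
      α m F U ≤ liminf (fun s => β s m F U) (𝒰 : Filter ℕ) := by
    intro m F U hU
    by_cases hm : R < (m : ℝ)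
    · rw [hα0 m F hm]
      exact zero_le
    · rw [hα, if_neg hm]
      refine (hν3 m F U hU).trans (le_of_eq (liminf_congr ?_))
      filter_upwards [hE𝒰] with s hs
      simp only [hμ, hs, if_true]
  have hclosed : ∀ (m : ℕ) (F : Finset (Finset (Fin m))) (C : Set (Fin m → ℝ)), IsClosed C →
      limsup (fun s => β s m F C) (𝒰 : Filter ℕ) ≤ α m F C := by
    intro m F C hC
    by_cases hm : R < (m : ℝ)
    · have e1 : (fun s => β s m F C) = fun _ => (0 : ℝ≥0∞) := by
        funext s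
        rw [hsupp s m F hm]
        rfl
      rw [e1, limsup_const]
      exact zero_le
    · rw [hα, if_neg hm]
      refine le_trans (le_of_eq (limsup_congr ?_)) (hν4 m F C hC)
      filter_upwards [hE𝒰] with s hs
      simp only [hμ, hs, if_true]
  refine ⟨α, hα0, ?_, ?_, ?_⟩
  · -- mass
    rw [X2b_tsum (R := R) (fun m F => α m F Set.univ) (fun m F hm => by rw [hα0 m F hm]; rfl)]
    have h1 : ∑ m ∈ Finset.range (⌊R⌋₊ + 1), ∑ F : Finset (Finset (Fin m)), α m F Set.univ ≤
        ∑ m ∈ Finset.range (⌊R⌋₊ + 1), ∑ F : Finset (Finset (Fin m)),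
          liminf (fun s => β s m F Set.univ) (𝒰 : Filter ℕ) :=
      Finset.sum_le_sum fun m _ => Finset.sum_le_sum fun F _ => hopen m F _ isOpen_univ
    refine h1.trans ?_
    have h2 : Tendsto (fun s => ∑ m ∈ Finset.range (⌊R⌋₊ + 1), ∑ F : Finset (Finset (Fin m)),
        β s m F Set.univ) (𝒰 : Filter ℕ) (𝓝 (∑ m ∈ Finset.range (⌊R⌋₊ + 1),
        ∑ F : Finset (Finset (Fin m)), liminf (fun s => β s m F Set.univ) (𝒰 : Filter ℕ))) :=
      tendsto_finsetSum _ fun m _ => tendsto_finsetSum _ fun F _ => X2b_liminf 𝒰 _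
    refine ENNReal.le_of_forall_pos_le_add fun ε hε _ => ?_
    refine le_of_tendsto h2 ?_
    filter_upwards [h𝒰1 (hmass ε (by exact_mod_cast hε)), h𝒰2] with s h3 h4
    rw [← htot s]
    have h5 : ∑' m : ℕ, ∑ F : Finset (Finset (Fin m)), β s m F Set.univ + 1 ≤
        (ENNReal.ofReal (Γ - 1) + ε) + 1 := by
      refine h3.trans ?_
      have h6 : ENNReal.ofReal Γ = ENNReal.ofReal (Γ - 1) + 1 := by
        rw [← ENNReal.ofReal_one, ← ENNReal.ofReal_add (by linarith) zero_le_one]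
        congr 1
        ring
      rw [ENNReal.ofReal_coe_nnreal]
      calc GG s + (ε : ℝ≥0∞) ≤ ENNReal.ofReal Γ + ε := by gcongr
        _ = (ENNReal.ofReal (Γ - 1) + ε) + 1 := by rw [h6]; ring
    exact (ENNReal.add_le_add_iff_right ENNReal.one_ne_top).1 h5
  · -- support
    intro m F
    have h1 : ∀ n : ℕ, ∀ᵐ c ∂(α m F), AGood δ (1 / ((n : ℝ) + 1)) m F c := by
      intro n
      have hε : (0 : ℝ) < 1 / ((n : ℝ) + 1) := by positivity
      rw [ae_iff]
      refine le_antisymm ?_ zero_le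
      refine (hopen m F _ (X2b_closed δ (1 / ((n : ℝ) + 1)) m F).isOpen_compl).trans ?_
      have h2 : ∀ᶠ s in (𝒰 : Filter ℕ),
          β s m F {c : Fin m → ℝ | AGood δ (1 / ((n : ℝ) + 1)) m F c}ᶜ = 0 := by
        filter_upwards [h𝒰1 (hgood _ hε)] with s hs
        exact ae_iff.1 (hs m F)
      rw [liminf_congr h2, liminf_const]
    rw [← ae_all_iff] at h1
    filter_upwards [h1] with c hc
    have hle : ∀ S ∈ F, ∀ S' ∈ F, ∑ i ∈ S, c i ≤ ∑ i ∈ S', c i := by
      intro S hS S' hS'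
      refine le_of_forall_pos_le_add fun ε hε => ?_
      obtain ⟨n, hn⟩ := exists_nat_one_div_lt hε
      have := (hc n).bal S hS S' hS'
      linarith
    exact ⟨(hc 0).ne, (hc 0).mem_ne, (hc 0).lo, (hc 0).hi,
      fun S hS S' hS' => le_antisymm (hle S hS S' hS') (hle S' hS' S hS), (hc 0).tot⟩
  · -- marginals
    intro k a b hk hab hsep hbY
    have hαsum : ∀ X : (m : ℕ) → Finset (Fin m) → Set (Fin m → ℝ),
        ∑' m : ℕ, ∑ F : Finset (Finset (Fin m)), ∑ S ∈ F, α m F (X m S) =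
        ∑ m ∈ Finset.range (⌊R⌋₊ + 1), ∑ F : Finset (Finset (Fin m)), ∑ S ∈ F, α m F (X m S) := by
      intro X
      refine X2b_tsum (R := R) _ fun m F hm => Finset.sum_eq_zero fun S _ => ?_
      rw [hα0 m F hm]
      rfl
    have hβsum : ∀ (s : ℕ) (X : (m : ℕ) → Finset (Fin m) → Set (Fin m → ℝ)),
        ∑' m : ℕ, ∑ F : Finset (Finset (Fin m)), ∑ S ∈ F, β s m F (X m S) =
        ∑ m ∈ Finset.range (⌊R⌋₊ + 1), ∑ F : Finset (Finset (Fin m)),
          ∑ S ∈ F, β s m F (X m S) := by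
      intro s X
      refine X2b_tsum (R := R) _ fun m F hm => Finset.sum_eq_zero fun S _ => ?_
      rw [hsupp s m F hm]
      rfl
    rw [hαsum (fun m S => Hset k m a b S)]
    apply le_antisymm
    · -- upper bound, windows `(a - η, b)`
      have hstep : ∀ η : ℝ, 0 < η → (∀ i, δ < a i - η) → (∀ i j, i < j → b i < a j - η) →
          ∑ m ∈ Finset.range (⌊R⌋₊ + 1), ∑ F : Finset (Finset (Fin m)),
            ∑ S ∈ F, α m F (Hset k m a b S) ≤
          ENNReal.ofReal (∏ i, Real.log (b i / (a i - η))) := by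
        intro η hη h1 h2
        have h3 := hmarg k (fun i => a i - η) b hk
          (fun i => ⟨h1 i, by have := (hab i).2.1; show a i - η < b i; linarith, (hab i).2.2⟩)
          h2 hbY
        have h4 := h3.mono_left h𝒰1
        simp_rw [hβsum _ (fun m S => Hset k m (fun i => a i - η) b S)] at h4
        have h5 : Tendsto (fun s => ∑ m ∈ Finset.range (⌊R⌋₊ + 1),
            ∑ F : Finset (Finset (Fin m)), ∑ S ∈ F, β s m F (Hset k m (fun i => a i - η) b S))
            (𝒰 : Filter ℕ) (𝓝 (∑ m ∈ Finset.range (⌊R⌋₊ + 1),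
            ∑ F : Finset (Finset (Fin m)), ∑ S ∈ F,
              liminf (fun s => β s m F (Hset k m (fun i => a i - η) b S)) (𝒰 : Filter ℕ))) :=
          tendsto_finsetSum _ fun m _ => tendsto_finsetSum _ fun F _ =>
            tendsto_finsetSum _ fun S _ => X2b_liminf 𝒰 _
        rw [← tendsto_nhds_unique h5 h4]
        refine Finset.sum_le_sum fun m _ => Finset.sum_le_sum fun F _ =>
          Finset.sum_le_sum fun S _ => ?_
        have h6 : Hset k m a b S ⊆
            {c : Fin m → ℝ | S.card = k ∧ ∀ i, ∃ x ∈ S, a i - η < c x ∧ c x < b i} := by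
          rintro c ⟨h7, h8⟩
          refine ⟨h7, fun i => ?_⟩
          obtain ⟨x, hx, hx1, hx2⟩ := h8 i
          exact ⟨x, hx, by linarith, hx2⟩
        have h9 : {c : Fin m → ℝ | S.card = k ∧ ∀ i, ∃ x ∈ S, a i - η < c x ∧ c x < b i} ⊆
            Hset k m (fun i => a i - η) b S := by
          rintro c ⟨h7, h8⟩
          refine ⟨h7, fun i => ?_⟩
          obtain ⟨x, hx, hx1, hx2⟩ := h8 i
          exact ⟨x, hx, hx1.le, hx2⟩
        refine (measure_mono h6).trans ((hopen m F _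
          (X2b_openwin k m (fun i => a i - η) b S)).trans ?_)
        exact liminf_le_liminf (Eventually.of_forall fun s => measure_mono h9)
      have hlim : Tendsto (fun η : ℝ => ENNReal.ofReal (∏ i, Real.log (b i / (a i - η))))
          (𝓝[>] 0) (𝓝 (ENNReal.ofReal (∏ i, Real.log (b i / a i)))) := by
        refine ENNReal.tendsto_ofReal (tendsto_finsetProd _ fun i _ => ?_)
        have h0 : Tendsto (fun η : ℝ => a i - η) (𝓝[>] 0) (𝓝 (a i)) := by
          have : Tendsto (fun η : ℝ => a i - η) (𝓝 0) (𝓝 (a i - 0)) :=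
            tendsto_const_nhds.sub tendsto_id
          rw [sub_zero] at this
          exact this.mono_left nhdsWithin_le_nhds
        have hai : 0 < a i := by have := (hab i).1; linarith
        have hbi : 0 < b i := by have := (hab i).2.1; linarith
        exact (tendsto_const_nhds.div h0 hai.ne').log (div_pos hbi hai).ne'
      refine ge_of_tendsto hlim ?_
      have hev1 : ∀ i, ∀ᶠ η : ℝ in 𝓝[>] 0, δ < a i - η := by
        intro i
        have h0 : Tendsto (fun η : ℝ => a i - η) (𝓝[>] 0) (𝓝 (a i)) := by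
          have : Tendsto (fun η : ℝ => a i - η) (𝓝 0) (𝓝 (a i - 0)) :=
            tendsto_const_nhds.sub tendsto_id
          rw [sub_zero] at this
          exact this.mono_left nhdsWithin_le_nhds
        exact h0.eventually_const_lt (hab i).1
      have hev2 : ∀ i j, ∀ᶠ η : ℝ in 𝓝[>] 0, i < j → b i < a j - η := by
        intro i j
        by_cases hij : i < j
        · have h0 : Tendsto (fun η : ℝ => a j - η) (𝓝[>] 0) (𝓝 (a j)) := by
            have : Tendsto (fun η : ℝ => a j - η) (𝓝 0) (𝓝 (a j - 0)) :=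
              tendsto_const_nhds.sub tendsto_id
            rw [sub_zero] at this
            exact this.mono_left nhdsWithin_le_nhds
          filter_upwards [h0.eventually_const_lt (hsep i j hij)] with η hη _ using hη
        · exact Eventually.of_forall fun η h => absurd h hij
      filter_upwards [self_mem_nhdsWithin, eventually_all.2 hev1,
        eventually_all.2 fun i => eventually_all.2 (hev2 i)] with η h1 h2 h3
      exact hstep η h1 h2 h3
    · -- lower bound, windows `[a, b - η]`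
      have hstep : ∀ η : ℝ, 0 < η → (∀ i, a i < b i - η) →
          ENNReal.ofReal (∏ i, Real.log ((b i - η) / a i)) ≤
          ∑ m ∈ Finset.range (⌊R⌋₊ + 1), ∑ F : Finset (Finset (Fin m)),
            ∑ S ∈ F, α m F (Hset k m a b S) := by
        intro η hη h1
        have h3 := hmarg k a (fun i => b i - η) hk
          (fun i => ⟨(hab i).1, h1 i, by have := (hab i).2.2; show b i - η < 1; linarith⟩)
          (fun i j hij => by have := hsep i j hij; show b i - η < a j; linarith)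
          (lt_of_le_of_lt (Finset.sum_le_sum fun i _ => by
            show b i - η ≤ b i; linarith) hbY)
        have h4 := h3.mono_left h𝒰1
        simp_rw [hβsum _ (fun m S => Hset k m a (fun i => b i - η) S)] at h4
        have h5 : Tendsto (fun s => ∑ m ∈ Finset.range (⌊R⌋₊ + 1),
            ∑ F : Finset (Finset (Fin m)), ∑ S ∈ F, β s m F (Hset k m a (fun i => b i - η) S))
            (𝒰 : Filter ℕ) (𝓝 (∑ m ∈ Finset.range (⌊R⌋₊ + 1),
            ∑ F : Finset (Finset (Fin m)), ∑ S ∈ F,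
              limsup (fun s => β s m F (Hset k m a (fun i => b i - η) S)) (𝒰 : Filter ℕ))) :=
          tendsto_finsetSum _ fun m _ => tendsto_finsetSum _ fun F _ =>
            tendsto_finsetSum _ fun S _ => X2b_limsup 𝒰 _
        rw [← tendsto_nhds_unique h5 h4]
        refine Finset.sum_le_sum fun m _ => Finset.sum_le_sum fun F _ =>
          Finset.sum_le_sum fun S _ => ?_
        have h6 : Hset k m a (fun i => b i - η) S ⊆
            {c : Fin m → ℝ | S.card = k ∧ ∀ i, ∃ x ∈ S, a i ≤ c x ∧ c x ≤ b i - η} := by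
          rintro c ⟨h7, h8⟩
          refine ⟨h7, fun i => ?_⟩
          obtain ⟨x, hx, hx1, hx2⟩ := h8 i
          exact ⟨x, hx, hx1, hx2.le⟩
        have h9 : {c : Fin m → ℝ | S.card = k ∧ ∀ i, ∃ x ∈ S, a i ≤ c x ∧ c x ≤ b i - η} ⊆
            Hset k m a b S := by
          rintro c ⟨h7, h8⟩
          refine ⟨h7, fun i => ?_⟩
          obtain ⟨x, hx, hx1, hx2⟩ := h8 i
          exact ⟨x, hx, hx1, by linarith⟩
        refine le_trans ?_ ((hclosed m F _
          (X2b_closedwin k m a (fun i => b i - η) S)).trans (measure_mono h9))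
        exact limsup_le_limsup (Eventually.of_forall fun s => measure_mono h6)
      have hlim : Tendsto (fun η : ℝ => ENNReal.ofReal (∏ i, Real.log ((b i - η) / a i)))
          (𝓝[>] 0) (𝓝 (ENNReal.ofReal (∏ i, Real.log (b i / a i)))) := by
        refine ENNReal.tendsto_ofReal (tendsto_finsetProd _ fun i _ => ?_)
        have h0 : Tendsto (fun η : ℝ => b i - η) (𝓝[>] 0) (𝓝 (b i)) := by
          have : Tendsto (fun η : ℝ => b i - η) (𝓝 0) (𝓝 (b i - 0)) :=
            tendsto_const_nhds.sub tendsto_id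
          rw [sub_zero] at this
          exact this.mono_left nhdsWithin_le_nhds
        have hai : 0 < a i := by have := (hab i).1; linarith
        have hbi : 0 < b i := by have := (hab i).2.1; linarith
        exact (h0.div tendsto_const_nhds hai.ne').log (div_pos hbi hai).ne'
      refine le_of_tendsto hlim ?_
      have hev1 : ∀ i, ∀ᶠ η : ℝ in 𝓝[>] 0, a i < b i - η := by
        intro i
        have h0 : Tendsto (fun η : ℝ => b i - η) (𝓝[>] 0) (𝓝 (b i)) := by
          have : Tendsto (fun η : ℝ => b i - η) (𝓝 0) (𝓝 (b i - 0)) :=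
            tendsto_const_nhds.sub tendsto_id
          rw [sub_zero] at this
          exact this.mono_left nhdsWithin_le_nhds
        exact h0.eventually_const_lt (hab i).2.1
      filter_upwards [self_mem_nhdsWithin, eventually_all.2 hev1] with η h1 h2
      exact hstep η h1 h2

end Pool.Agent.W_a617e8_h51
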