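import Pool.Agent.W_a617e8_h51.U1
import Pool.Agent.W_a617e8_h51.X2b
import Pool.Agent.W_a617e8_h51.A1b

set_option autoImplicit false

/-! Fin: the limit exists. -/

noncomputable section

open scoped ENNReal

open MeasureTheory Filter Topology

namespace Pool.Agent.W_a617e8_h51

/-- Eventually small, frequently small: the step from `liminf` to `limsup`. -/
theorem GG_limsup_step (ℓ : ℝ) (hℓ : 1 ≤ ℓ)
    (h : ∀ ε' : ℝ, 0 < ε' → ∃ᶠ s : ℕ in atTop, GG s ≤ ENNReal.ofReal (ℓ + ε')) (a : ℝ)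
    (ha : ℓ < a) : ∀ᶠ s : ℕ in atTop, (GG s).toReal < a := by
  obtain ⟨ε, hε, hε1, hεa⟩ : ∃ ε : ℝ, 0 < ε ∧ ε ≤ 1 ∧ ε * (ℓ + 3) < a - ℓ := by
    have h3 : 0 < ℓ + 3 := by linarith
    refine ⟨min 1 ((a - ℓ) / (2 * (ℓ + 3))), ?_, min_le_left _ _, ?_⟩
    · exact lt_min one_pos (div_pos (by linarith) (by linarith))
    · calc min 1 ((a - ℓ) / (2 * (ℓ + 3))) * (ℓ + 3)
          ≤ (a - ℓ) / (2 * (ℓ + 3)) * (ℓ + 3) :=
            mul_le_mul_of_nonneg_right (min_le_right _ _) h3.le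
        _ = (a - ℓ) / 2 := by field_simp
        _ < a - ℓ := by linarith
  obtain ⟨δ, Y, hδ, hδ1, hY, hup⟩ := upper ε hε
  obtain ⟨α, hα⟩ := extract δ Y (ℓ + ε) hδ hδ1 hY (by linarith) (h ε hε)
  filter_upwards [hup (ℓ + ε - 1) (by linarith) α hα] with s hs
  have h0 : 0 ≤ (1 + ε) * (1 + (ℓ + ε - 1)) + ε := by nlinarith
  have h1 := ENNReal.toReal_mono ENNReal.ofReal_ne_top hs
  rw [ENNReal.toReal_ofReal h0] at h1
  refine h1.trans_lt ?_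
  nlinarith

/-- `GG s` converges to `1 + V`, `V` the value of the linear programme.
Proof: let `ℓ = liminf (GG s)`, `1 ≤ ℓ < ∞` (`one_le_GG`, `GG_bdd`).  For `ε, ε' > 0`,
`∃ᶠ s, GG s ≤ ofReal (ℓ + ε')`; take `δ, Y` from `upper ε`; `extract` gives
`Feas δ Y α (ℓ + ε' - 1)`; so eventually `GG s ≤ ofReal ((1 + ε)(ℓ + ε') + ε)`.  `V = ℓ - 1`; third
claim: `extract` with `1 + Γ`; fourth: `upper` with `(1 + ε)(1 + Γ) + ε < 1 + V`. -/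
theorem GG_conv : ∃ V : ℝ, 0 ≤ V ∧ Tendsto (fun s : ℕ => (GG s).toReal) atTop (𝓝 (1 + V)) ∧
    (∀ δ Y Γ : ℝ, 0 < δ → δ < 1 → 1 ≤ Y → V < Γ →
      ∃ α : (m : ℕ) → Finset (Finset (Fin m)) → Measure (Fin m → ℝ), Feas δ Y α Γ) ∧
    (∀ Γ : ℝ, 0 ≤ Γ → Γ < V → ∃ δ Y : ℝ, 0 < δ ∧ δ < 1 ∧ 1 ≤ Y ∧
      ∀ α : (m : ℕ) → Finset (Finset (Fin m)) → Measure (Fin m → ℝ), ¬ Feas δ Y α Γ) := by
  obtain ⟨C, hC, hb⟩ := GG_bdd
  set Sg : Set ℝ := {Γ : ℝ | 1 ≤ Γ ∧ ∃ᶠ s : ℕ in atTop, GG s ≤ ENNReal.ofReal Γ} with hSg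
  have hne : Sg.Nonempty := by
    refine ⟨max C 1, le_max_right _ _, ?_⟩
    refine Eventually.frequently ?_
    filter_upwards [hb] with s hs
    exact hs.trans (ENNReal.ofReal_le_ofReal (le_max_left _ _))
  have hbd : BddBelow Sg := ⟨1, fun Γ hΓ => hΓ.1⟩
  set ℓ : ℝ := sInf Sg with hℓd
  have hℓ : 1 ≤ ℓ := le_csInf hne fun Γ hΓ => hΓ.1
  have hfr : ∀ ε' : ℝ, 0 < ε' → ∃ᶠ s : ℕ in atTop, GG s ≤ ENNReal.ofReal (ℓ + ε') := by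
    intro ε' hε'
    obtain ⟨Γ, hΓ, hlt⟩ := exists_lt_of_csInf_lt hne (lt_add_of_pos_right ℓ hε')
    exact hΓ.2.mono fun s hs => hs.trans (ENNReal.ofReal_le_ofReal hlt.le)
  have hlow : ∀ a : ℝ, a < ℓ → ∀ᶠ s : ℕ in atTop, a < (GG s).toReal := by
    intro a ha
    rcases lt_or_ge a 1 with h1 | h1
    · filter_upwards [eventually_ge_atTop 1] with s hs
      have h2 := ENNReal.toReal_mono (GG_ne_top s hs) (one_le_GG s hs)
      rw [ENNReal.toReal_one] at h2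
      linarith
    · have h2 : a ∉ Sg := fun h => absurd (csInf_le hbd h) (not_le.2 ha)
      have h3 : ¬ ∃ᶠ s : ℕ in atTop, GG s ≤ ENNReal.ofReal a := fun h => h2 ⟨h1, h⟩
      rw [not_frequently] at h3
      filter_upwards [h3, eventually_ge_atTop 1] with s hs hs1
      rw [not_le] at hs
      exact (ENNReal.ofReal_lt_iff_lt_toReal (by linarith) (GG_ne_top s hs1)).1 hs
  have htend : Tendsto (fun s : ℕ => (GG s).toReal) atTop (𝓝 ℓ) :=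
    tendsto_order.2 ⟨hlow, fun a ha => GG_limsup_step ℓ hℓ hfr a ha⟩
  refine ⟨ℓ - 1, by linarith, by simpa using htend, ?_, ?_⟩
  · intro δ Y Γ hδ hδ1 hY hΓ
    have h1 : ∃ᶠ s : ℕ in atTop, GG s ≤ ENNReal.ofReal (1 + Γ) := by
      have h2 := hfr (Γ - (ℓ - 1)) (by linarith)
      refine h2.mono fun s hs => hs.trans (ENNReal.ofReal_le_ofReal (by linarith))
    obtain ⟨α, hα⟩ := extract δ Y (1 + Γ) hδ hδ1 hY (by linarith) h1
    refine ⟨α, ?_⟩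
    simpa using hα
  · intro Γ hΓ0 hΓ
    obtain ⟨ε, hε, hεa⟩ : ∃ ε : ℝ, 0 < ε ∧ (1 + ε) * (1 + Γ) + ε < ℓ := by
      have h3 : 0 < Γ + 2 := by linarith
      refine ⟨(ℓ - 1 - Γ) / (2 * (Γ + 2)), div_pos (by linarith) (by linarith), ?_⟩
      have h4 : (ℓ - 1 - Γ) / (2 * (Γ + 2)) * (Γ + 2) = (ℓ - 1 - Γ) / 2 := by field_simp
      nlinarith
    obtain ⟨δ, Y, hδ, hδ1, hY, hup⟩ := upper ε hε
    refine ⟨δ, Y, hδ, hδ1, hY, fun α hα => ?_⟩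
    have h1 := hup Γ hΓ0 α hα
    have h2 := hlow _ hεa
    obtain ⟨s, hs1, hs2⟩ := (h1.and h2).exists
    have h0 : 0 ≤ (1 + ε) * (1 + Γ) + ε := by nlinarith
    have h3 := ENNReal.toReal_mono ENNReal.ofReal_ne_top hs1
    rw [ENNReal.toReal_ofReal h0] at h3
    exact absurd h3 (not_le.2 hs2)

/-- **Theorem.**  `1 - lam s = dl s / s * (GG s).toReal` (`density`), `mertens_prod`, `GG_conv`. -/
theorem main : ∃ lam : ℕ → ℝ,
    (∀ s : ℕ, 2 ≤ s → Tendsto (fun n : ℕ => (pmax s n : ℝ) / n) atTop (𝓝 (lam s))) ∧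
    ∃ c V : ℝ, 0 < c ∧ 0 ≤ V ∧
      Tendsto (fun s : ℕ => Real.log s * dl s) atTop (𝓝 c) ∧
      Tendsto (fun s : ℕ => s * Real.log s * (1 - lam s)) atTop (𝓝 (c * (1 + V))) ∧
      (∀ δ Y Γ : ℝ, 0 < δ → δ < 1 → 1 ≤ Y → V < Γ →
        ∃ α : (m : ℕ) → Finset (Finset (Fin m)) → Measure (Fin m → ℝ), Feas δ Y α Γ) ∧
      (∀ Γ : ℝ, 0 ≤ Γ → Γ < V → ∃ δ Y : ℝ, 0 < δ ∧ δ < 1 ∧ 1 ≤ Y ∧
        ∀ α : (m : ℕ) → Finset (Finset (Fin m)) → Measure (Fin m → ℝ), ¬ Feas δ Y α Γ) := by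
  obtain ⟨c, hc, hcl⟩ := mertens_prod
  obtain ⟨V, hV, hVl, h3, h4⟩ := GG_conv
  refine ⟨fun s => 1 - dl s / s * (GG s).toReal, fun s hs => density s (by omega), c, V, hc, hV,
    hcl, ?_, h3, h4⟩
  refine (hcl.mul hVl).congr' ?_
  filter_upwards [eventually_ge_atTop 1] with s hs
  have hs0 : (s : ℝ) ≠ 0 := by
    have : (1 : ℝ) ≤ s := by exact_mod_cast hs
    positivity
  field_simp
  ring

end Pool.Agent.W_a617e8_h51
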