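import Mathlib

set_option autoImplicit false

/-! LP: the limiting linear programme. -/

noncomputable section

open scoped ENNReal

open MeasureTheory

namespace Pool.Agent.W_a617e8_h51

/-- Positions `c` compatible with the family `F` of index sets: all positions in `[δ, 1]`, all
`S ∈ F` nonempty with the same sum `h`, total sum `≤ 1 + h`. -/
structure Good (δ : ℝ) (m : ℕ) (F : Finset (Finset (Fin m))) (c : Fin m → ℝ) : Prop where
  ne : F.Nonempty
  mem_ne : ∀ S ∈ F, S.Nonempty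
  lo : ∀ i, δ ≤ c i
  hi : ∀ i, c i ≤ 1
  bal : ∀ S ∈ F, ∀ S' ∈ F, ∑ i ∈ S, c i = ∑ i ∈ S', c i
  tot : ∀ S ∈ F, ∑ i, c i ≤ 1 + ∑ i ∈ S, c i

/-- `{c | S has k elements and every [a i, b i) contains some c x, x ∈ S}`. -/
def Hset (k m : ℕ) (a b : Fin k → ℝ) (S : Finset (Fin m)) : Set (Fin m → ℝ) :=
  {c | S.card = k ∧ ∀ i, ∃ x ∈ S, a i ≤ c x ∧ c x < b i}

/-- Feasible solutions of mass `≤ A` of the limiting linear programme. -/
structure Feas (δ Y : ℝ) (α : (m : ℕ) → Finset (Finset (Fin m)) → Measure (Fin m → ℝ))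
    (A : ℝ) : Prop where
  supp : ∀ (m : ℕ) (F : Finset (Finset (Fin m))), (1 + Y) / δ < (m : ℝ) → α m F = 0
  mass : ∑' m : ℕ, ∑ F : Finset (Finset (Fin m)), α m F Set.univ ≤ ENNReal.ofReal A
  good : ∀ (m : ℕ) (F : Finset (Finset (Fin m))), ∀ᵐ c ∂(α m F), Good δ m F c
  marg : ∀ (k : ℕ) (a b : Fin k → ℝ), 1 ≤ k → (∀ i, δ < a i ∧ a i < b i ∧ b i < 1) →
    (∀ i j, i < j → b i < a j) → ∑ i, b i < Y →
    ∑' m : ℕ, ∑ F : Finset (Finset (Fin m)), ∑ S ∈ F, α m F (Hset k m a b S) =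
      ENNReal.ofReal (∏ i, Real.log (b i / a i))

end Pool.Agent.W_a617e8_h51
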