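import Pool.Agent.W_a617e8_h51.P1

set_option autoImplicit false

/-! P1c: cells of positive measure. -/

noncomputable section

open scoped ENNReal

open MeasureTheory Filter Topology

namespace Pool.Agent.W_a617e8_h51

/-- Largest exponent. -/
def XX {m : ℕ} (F : Finset (Finset (Fin m))) (Z : Fin m → ℕ) : ℕ := F.sup fun S => ∑ x ∈ S, Z x

/-- What a cell of positive measure satisfies: pick a `Good` point `c` of the cell. -/
theorem cell_pos {δ Y A : ℝ} {α : (m : ℕ) → Finset (Finset (Fin m)) → Measure (Fin m → ℝ)}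
    (hF : Feas δ Y α A) (hδ : 0 < δ) (θ : ℝ) (hθ : 0 < θ) {m : ℕ} (F : Finset (Finset (Fin m)))
    (Z : Fin m → ℕ) (h : α m F (cell θ Z) ≠ 0) :
    F.Nonempty ∧ (∀ S ∈ F, S.Nonempty) ∧ (∀ x, δ < (Z x + 1) * θ ∧ Z x * θ ≤ 1) ∧
      (∀ S ∈ F, ∑ x ∈ S, Z x ≤ XX F Z ∧ XX F Z ≤ ∑ x ∈ S, Z x + m) ∧
      (∀ S ∈ F, (∑ x, (Z x : ℝ)) * θ ≤ 1 + (∑ x ∈ S, (Z x : ℝ)) * θ + m * θ) ∧
      (∀ S ∈ F, ∀ S' ∈ F, S ≠ S' → ∃ y ∈ S', y ∉ S) := by
  obtain ⟨c, hc, hg⟩ : ∃ c ∈ cell θ Z, Good δ m F c := by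
    by_contra hcon
    push Not at hcon
    refine h (measure_mono_null (t := {c | ¬ Good δ m F c}) (fun c hc => hcon c hc) ?_)
    exact (ae_iff.1 (hF.good m F))
  have hlt : ∀ S : Finset (Fin m), (∑ x ∈ S, (Z x : ℝ)) * θ ≤ ∑ x ∈ S, c x := by
    intro S
    rw [Finset.sum_mul]
    exact Finset.sum_le_sum fun x _ => (hc x).1
  have hgt : ∀ S : Finset (Fin m), ∑ x ∈ S, c x ≤ (∑ x ∈ S, (Z x : ℝ)) * θ + S.card * θ := by
    intro S
    calc ∑ x ∈ S, c x ≤ ∑ x ∈ S, ((Z x : ℝ) + 1) * θ := Finset.sum_le_sum fun x _ => (hc x).2.le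
      _ = (∑ x ∈ S, (Z x : ℝ)) * θ + S.card * θ := by
        rw [← Finset.sum_mul, Finset.sum_add_distrib]
        simp
        ring
  have hcard : ∀ S : Finset (Fin m), (S.card : ℝ) ≤ m := by
    intro S
    have := Finset.card_le_univ S
    rw [Fintype.card_fin] at this
    exact_mod_cast this
  refine ⟨hg.ne, hg.mem_ne, ?_, ?_, ?_, ?_⟩
  · intro x
    exact ⟨lt_of_le_of_lt (hg.lo x) (hc x).2, (hc x).1.trans (hg.hi x)⟩
  · intro S hS
    refine ⟨Finset.le_sup (f := fun S => ∑ x ∈ S, Z x) hS, ?_⟩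
    unfold XX
    refine Finset.sup_le fun S' hS' => ?_
    have h1 : (∑ x ∈ S', (Z x : ℝ)) * θ ≤ (∑ x ∈ S, (Z x : ℝ)) * θ + m * θ := by
      calc (∑ x ∈ S', (Z x : ℝ)) * θ ≤ ∑ x ∈ S', c x := hlt S'
        _ = ∑ x ∈ S, c x := hg.bal S' hS' S hS
        _ ≤ (∑ x ∈ S, (Z x : ℝ)) * θ + S.card * θ := hgt S
        _ ≤ (∑ x ∈ S, (Z x : ℝ)) * θ + m * θ := by
          have := mul_le_mul_of_nonneg_right (hcard S) hθ.le
          linarith
    have h2 : (∑ x ∈ S', (Z x : ℝ)) ≤ (∑ x ∈ S, (Z x : ℝ)) + m := by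
      rw [← add_mul] at h1
      exact le_of_mul_le_mul_right h1 hθ
    exact_mod_cast h2
  · intro S hS
    have h1 := hlt Finset.univ
    have h2 := hg.tot S hS
    have h3 := hgt S
    have h4 := mul_le_mul_of_nonneg_right (hcard S) hθ.le
    linarith
  · intro S hS S' hS' hne
    by_contra hcon
    push Not at hcon
    have hsub : S' ⊆ S := fun y hy => hcon y hy
    have hss : S' ⊂ S := lt_of_le_of_ne hsub (fun h => hne h.symm)
    have h1 : ∑ x ∈ S', c x < ∑ x ∈ S, c x := by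
      obtain ⟨y, hyS, hyS'⟩ := Finset.exists_of_ssubset hss
      refine Finset.sum_lt_sum_of_subset hsub hyS hyS' (lt_of_lt_of_le hδ (hg.lo y)) ?_
      intro j _ _
      exact hδ.le.trans (hg.lo j)
    exact absurd (hg.bal S' hS' S hS) h1.ne

end Pool.Agent.W_a617e8_h51
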