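import Pool.Agent.W_a617e8_h51.P1b
import Pool.Agent.W_a617e8_h51.P1c

set_option autoImplicit false

/-! P2: weights of the edges, upper bound for the degrees. -/

noncomputable section

open scoped ENNReal

open MeasureTheory Filter Topology

namespace Pool.Agent.W_a617e8_h51

open Classical in
/-- Weight of the edge `(m, F, q)`. -/
def we (ρ θ : ℝ) (α : (m : ℕ) → Finset (Finset (Fin m)) → Measure (Fin m → ℝ)) (m : ℕ)
    (F : Finset (Finset (Fin m))) (q : Fin m → ℕ) : ℝ :=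
  if (∀ x, (q x).Prime) ∧ Function.Injective q then
    ρ ^ XX F (fun x => widx ρ (q x)) * (α m F (cell θ fun x => widx ρ (q x))).toReal /
      ∏ x, (nwin ρ (widx ρ (q x)) : ℝ)
  else 0

/-- Vectors of numbers `< N`. -/
def QV (N m : ℕ) : Finset (Fin m → ℕ) := Fintype.piFinset fun _ => Finset.range N

/-- `θ = log_2 ρ / ell`. -/
def th (ρ : ℝ) (ell : ℕ) : ℝ := Real.logb 2 ρ / ell

/-- `∏_p ρ^(z_p) log((z_p+1)/z_p) / nwin z_p` over the primes `p` of `u`, `z_p = widx ρ p`. -/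
def PP (ρ : ℝ) (u : ℕ) : ℝ := ∏ p ∈ u.primeFactors,
  (ρ ^ widx ρ p * Real.log (((widx ρ p : ℝ) + 1) / widx ρ p) / nwin ρ (widx ρ p))

/-- products over a matching -/
theorem p2_match {ρ : ℝ} {m : ℕ} {S : Finset (Fin m)} {Z : Fin m → ℕ} {u : ℕ}
    (hu : Sep ρ u) (h : Mtch ρ S Z u) (f : ℕ → ℝ) :
    ∏ x ∈ S, f (Z x) = ∏ p ∈ u.primeFactors, f (widx ρ p) := by
  obtain ⟨hc, hx⟩ := h
  choose φ hφ hZ using hx
  have hinj : ∀ a₁ a₂ (ha₁ : a₁ ∈ u.primeFactors) (ha₂ : a₂ ∈ u.primeFactors),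
      φ a₁ ha₁ = φ a₂ ha₂ → a₁ = a₂ := by
    intro a₁ a₂ ha₁ ha₂ he
    have h1 := hZ a₁ ha₁
    rw [he, hZ a₂ ha₂] at h1
    exact (hu.2 a₂ ha₂ a₁ ha₁ h1).symm
  refine (Finset.prod_bij φ hφ (fun a₁ ha₁ a₂ ha₂ he => hinj a₁ a₂ ha₁ ha₂ he) ?_
    fun p hp => by rw [hZ]).symm
  intro b hb
  obtain ⟨a, ha, he⟩ := Finset.surj_on_of_inj_on_of_card_le φ hφ hinj hc.le b hb
  exact ⟨a, ha, he.symm⟩

theorem p2_sep {δ Y θ ρ : ℝ} {u : ℕ} (hu : Adm δ Y θ ρ u) : Sep ρ u := by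
  refine ⟨hu.sq, fun p hp q hq he => ?_⟩
  by_contra hne
  rcases hu.sep p hp q hq hne with h | h <;> omega

open Classical in
/-- grouping the prime vectors according to their windows -/
theorem p2_group {ρ : ℝ} (hρ : 1 < ρ) {m : ℕ} (S : Finset (Fin m)) (N J : ℕ)
    (hJ : ∀ n < N, widx ρ n < J) (u : ℕ) (g : (Fin m → ℕ) → ℝ) (hg : ∀ Z, 0 ≤ g Z) :
    ∑ q ∈ (QV N m).filter (fun q => (∀ x, (q x).Prime) ∧ ∏ x ∈ S, q x = u),
        g (fun x => widx ρ (q x)) ≤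
      ∑ Z ∈ ZZ J m, ((((PV ρ Z).filter fun q => ∏ x ∈ S, q x = u).card : ℕ) : ℝ) * g Z := by
  have hmaps : ∀ q ∈ (QV N m).filter (fun q => (∀ x, (q x).Prime) ∧ ∏ x ∈ S, q x = u),
      (fun x => widx ρ (q x)) ∈ ZZ J m := by
    intro q hq
    have h1 := (Finset.mem_filter.1 hq).1
    unfold QV at h1
    rw [Fintype.mem_piFinset] at h1
    unfold ZZ
    rw [Fintype.mem_piFinset]
    exact fun x => Finset.mem_range.2 (hJ _ (Finset.mem_range.1 (h1 x)))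
  rw [← Finset.sum_fiberwise_of_maps_to hmaps]
  refine Finset.sum_le_sum fun Z _ => ?_
  have h2 : ∀ q ∈ ((QV N m).filter (fun q => (∀ x, (q x).Prime) ∧ ∏ x ∈ S, q x = u)).filter
      (fun q => (fun x => widx ρ (q x)) = Z), g (fun x => widx ρ (q x)) = g Z := by
    intro q hq
    rw [(Finset.mem_filter.1 hq).2]
  rw [Finset.sum_congr rfl h2, Finset.sum_const, nsmul_eq_mul]
  refine mul_le_mul_of_nonneg_right ?_ (hg Z)
  refine Nat.cast_le.2 (Finset.card_le_card fun q hq => ?_)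
  obtain ⟨hq1, hq2⟩ := Finset.mem_filter.1 hq
  obtain ⟨_, hq3, hq4⟩ := Finset.mem_filter.1 hq1
  refine Finset.mem_filter.2 ⟨?_, hq4⟩
  unfold PV
  rw [Fintype.mem_piFinset]
  intro x
  rw [← widx_eq_iff hρ (hq3 x)]
  exact congrFun hq2 x

/-- one cell -/
theorem p2_cell {δ Y A : ℝ} {α : (m : ℕ) → Finset (Finset (Fin m)) → Measure (Fin m → ℝ)}
    (hF : Feas δ Y α A) (hδ : 0 < δ) (θ : ℝ) (hθ : 0 < θ) (M : ℕ) {ρ : ℝ} (hρ : 1 < ρ) {m : ℕ}
    (hm : m ≤ M) (F : Finset (Finset (Fin m))) (S : Finset (Fin m)) (hS : S ∈ F)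
    (Z : Fin m → ℕ) (u : ℕ) (hu : Sep ρ u) (hM : Mtch ρ S Z u) :
    (∏ x ∈ Finset.univ \ S, (nwin ρ (Z x) : ℝ)) *
        (ρ ^ XX F Z * (α m F (cell θ Z)).toReal / ∏ x, (nwin ρ (Z x) : ℝ)) ≤
      (ρ ^ M * ∏ p ∈ u.primeFactors, (ρ ^ widx ρ p / nwin ρ (widx ρ p))) *
        (α m F (cell θ Z)).toReal := by
  have hρ0 : 0 < ρ := by linarith
  have e1 : ∏ p ∈ u.primeFactors, (ρ ^ widx ρ p / (nwin ρ (widx ρ p) : ℝ)) =
      (∏ x ∈ S, ρ ^ Z x) / ∏ x ∈ S, (nwin ρ (Z x) : ℝ) := by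
    rw [← p2_match hu hM (fun j => ρ ^ j / (nwin ρ j : ℝ)), Finset.prod_div_distrib]
  rw [e1]
  rcases eq_or_ne (α m F (cell θ Z)).toReal 0 with h0 | h0
  · rw [h0]
    simp
  · have h1 : α m F (cell θ Z) ≠ 0 := fun h => h0 (by rw [h]; rfl)
    have ha : 0 ≤ (α m F (cell θ Z)).toReal := ENNReal.toReal_nonneg
    have h2 := ((cell_pos hF hδ θ hθ F Z h1).2.2.2.1 S hS).2
    have h3 : ρ ^ XX F Z ≤ ρ ^ M * ∏ x ∈ S, ρ ^ Z x := by
      rw [Finset.prod_pow_eq_pow_sum, ← pow_add]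
      exact pow_le_pow_right₀ hρ.le (by omega)
    have e2 : ∏ x, (nwin ρ (Z x) : ℝ) =
        (∏ x ∈ Finset.univ \ S, (nwin ρ (Z x) : ℝ)) * ∏ x ∈ S, (nwin ρ (Z x) : ℝ) :=
      (Finset.prod_sdiff (Finset.subset_univ S)).symm
    have hW' : 0 ≤ ∏ x ∈ S, (nwin ρ (Z x) : ℝ) := Finset.prod_nonneg fun _ _ => Nat.cast_nonneg _
    rw [e2]
    rcases eq_or_ne (∏ x ∈ Finset.univ \ S, (nwin ρ (Z x) : ℝ)) 0 with hW | hW
    · rw [hW, zero_mul]
      have h4 : 0 ≤ ∏ x ∈ S, ρ ^ Z x := Finset.prod_nonneg fun _ _ => (pow_pos hρ0 _).le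
      have h5 : 0 ≤ ρ ^ M := (pow_pos hρ0 _).le
      positivity
    · have e3 : (∏ x ∈ Finset.univ \ S, (nwin ρ (Z x) : ℝ)) *
          (ρ ^ XX F Z * (α m F (cell θ Z)).toReal /
            ((∏ x ∈ Finset.univ \ S, (nwin ρ (Z x) : ℝ)) * ∏ x ∈ S, (nwin ρ (Z x) : ℝ))) =
          ρ ^ XX F Z * (α m F (cell θ Z)).toReal / ∏ x ∈ S, (nwin ρ (Z x) : ℝ) := by
        rw [← mul_div_assoc, mul_div_mul_left _ _ hW]
      rw [e3]
      have e4 : ρ ^ M * ((∏ x ∈ S, ρ ^ Z x) / ∏ x ∈ S, (nwin ρ (Z x) : ℝ)) *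
          (α m F (cell θ Z)).toReal =
          (ρ ^ M * ∏ x ∈ S, ρ ^ Z x) * (α m F (cell θ Z)).toReal /
            ∏ x ∈ S, (nwin ρ (Z x) : ℝ) := by ring
      rw [e4]
      exact div_le_div_of_nonneg_right (mul_le_mul_of_nonneg_right h3 ha) hW'

open Classical in
/-- one family -/
theorem p2_fam {δ Y A : ℝ} {α : (m : ℕ) → Finset (Finset (Fin m)) → Measure (Fin m → ℝ)}
    (hF : Feas δ Y α A) (hδ : 0 < δ) (θ : ℝ) (hθ : 0 < θ) (M : ℕ) {ρ : ℝ} (hρ : 1 < ρ) {m : ℕ}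
    (hm : m ≤ M) (F : Finset (Finset (Fin m))) (N J : ℕ) (hJ : ∀ n < N, widx ρ n < J)
    (u : ℕ) (hu : Sep ρ u) :
    ∑ q ∈ (QV N m).filter (fun q => ∃ S ∈ F, ∏ x ∈ S, q x = u), we ρ θ α m F q ≤
      ∑ S ∈ F, ∑ Z ∈ (ZZ J m).filter (fun Z => Mtch ρ S Z u),
        (ρ ^ M * ∏ p ∈ u.primeFactors, (ρ ^ widx ρ p / nwin ρ (widx ρ p))) *
          (α m F (cell θ Z)).toReal := by
  have hρ0 : 0 < ρ := by linarith
  let g : (Fin m → ℕ) → ℝ := fun Z =>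
    ρ ^ XX F Z * (α m F (cell θ Z)).toReal / ∏ x, (nwin ρ (Z x) : ℝ)
  have hg : ∀ Z, 0 ≤ g Z := fun Z => div_nonneg
    (mul_nonneg (pow_pos hρ0 _).le ENNReal.toReal_nonneg)
    (Finset.prod_nonneg fun _ _ => Nat.cast_nonneg _)
  have hw : ∀ q, we ρ θ α m F q ≤
      if (∀ x, (q x).Prime) then g (fun x => widx ρ (q x)) else 0 := by
    intro q
    unfold we
    by_cases h1 : ∀ x, (q x).Prime
    · rw [if_pos h1]
      split_ifs
      · exact le_rfl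
      · exact hg _
    · rw [if_neg h1, if_neg (fun h => h1 h.1)]
  calc ∑ q ∈ (QV N m).filter (fun q => ∃ S ∈ F, ∏ x ∈ S, q x = u), we ρ θ α m F q
      ≤ ∑ q ∈ QV N m, ∑ S ∈ F,
        if (∀ x, (q x).Prime) ∧ ∏ x ∈ S, q x = u then g (fun x => widx ρ (q x)) else 0 := by
        rw [Finset.sum_filter]
        refine Finset.sum_le_sum fun q _ => ?_
        have hnn : ∀ S ∈ F, (0 : ℝ) ≤
            if (∀ x, (q x).Prime) ∧ ∏ x ∈ S, q x = u then g (fun x => widx ρ (q x)) else 0 := by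
          intro S _
          split_ifs
          · exact hg _
          · exact le_rfl
        split_ifs with h1
        · obtain ⟨S, hS, hSu⟩ := h1
          refine le_trans ?_ (Finset.single_le_sum hnn hS)
          refine (hw q).trans (le_of_eq ?_)
          by_cases h2 : ∀ x, (q x).Prime
          · rw [if_pos h2, if_pos ⟨h2, hSu⟩]
          · rw [if_neg h2, if_neg fun h => h2 h.1]
        · exact Finset.sum_nonneg hnn
    _ = ∑ S ∈ F, ∑ q ∈ (QV N m).filter (fun q => (∀ x, (q x).Prime) ∧ ∏ x ∈ S, q x = u),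
        g (fun x => widx ρ (q x)) := by
        rw [Finset.sum_comm]
        refine Finset.sum_congr rfl fun S _ => ?_
        rw [Finset.sum_filter]
    _ ≤ ∑ S ∈ F, ∑ Z ∈ ZZ J m,
        ((((PV ρ Z).filter fun q => ∏ x ∈ S, q x = u).card : ℕ) : ℝ) * g Z :=
        Finset.sum_le_sum fun S _ => p2_group hρ S N J hJ u g hg
    _ ≤ ∑ S ∈ F, ∑ Z ∈ ZZ J m, if Mtch ρ S Z u then
        (ρ ^ M * ∏ p ∈ u.primeFactors, (ρ ^ widx ρ p / nwin ρ (widx ρ p))) *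
          (α m F (cell θ Z)).toReal else 0 := by
        refine Finset.sum_le_sum fun S hS => Finset.sum_le_sum fun Z _ => ?_
        refine (mul_le_mul_of_nonneg_right (count_le hρ S Z u hu) (hg Z)).trans ?_
        split_ifs with hM
        · exact p2_cell hF hδ θ hθ M hρ hm F S hS Z u hu hM
        · rw [zero_mul]
    _ = _ := by
        refine Finset.sum_congr rfl fun S _ => ?_
        rw [Finset.sum_filter]

open Classical in
/-- **Degrees, upper bound.**  By grouping the `q` according to `Z = widx ∘ q` and bounding the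
indicator of `∃ S ∈ F` by the sum over `S ∈ F`, the sum is at most
`∑_{m,F} ∑_{S ∈ F} ∑_Z ρ^(XX F Z) α(cell Z) / ∏_x nwin (Z x) * #{q ∈ PV Z : ∏_S q = u}`; by
`count_le`, and `XX F Z ≤ ∑_S Z + m` for cells of positive measure (`cell_pos`), this is at most
`ρ^M ∏_p (ρ^(z_p) / nwin z_p) * ∑_{m,F,S,Z : Mtch} α(cell Z)`; `marg_cell`. -/
theorem deg_le {δ Y A : ℝ} {α : (m : ℕ) → Finset (Finset (Fin m)) → Measure (Fin m → ℝ)}
    (hF : Feas δ Y α A) (hδ : 0 < δ) (M : ℕ) (hM : (1 + Y) / δ < M) (ρ : ℝ) (hρ : 1 < ρ)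
    (hρ2 : ρ ≤ 2) (ell : ℕ) (hl : 1 ≤ ell) (u : ℕ) (hu : Adm δ Y (th ρ ell) ρ u) :
    ∑ m ∈ Finset.range M, ∑ F : Finset (Finset (Fin m)),
      ∑ q ∈ (QV (2 ^ (ell + 2)) m).filter (fun q => ∃ S ∈ F, ∏ x ∈ S, q x = u),
        we ρ (th ρ ell) α m F q ≤ ρ ^ M * PP ρ u := by
  have hρ0 : 0 < ρ := by linarith
  have hθ : 0 < th ρ ell := by
    unfold th
    have h1 : (0 : ℝ) < ell := by exact_mod_cast hl
    exact div_pos (Real.logb_pos (by norm_num) hρ) h1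
  obtain ⟨J₀, hJ₀⟩ := exists_nat_gt (1 / th ρ ell)
  obtain ⟨J, hJ⟩ : ∃ J : ℕ, J = J₀ + ∑ n ∈ Finset.range (2 ^ (ell + 2)), (widx ρ n + 1) :=
    ⟨_, rfl⟩
  have hJ1 : 1 < J * th ρ ell := by
    rw [div_lt_iff₀ hθ] at hJ₀
    have h1 : (J₀ : ℝ) ≤ J := by exact_mod_cast (by omega : J₀ ≤ J)
    nlinarith
  have hJ2 : ∀ n < 2 ^ (ell + 2), widx ρ n < J := by
    intro n hn
    have h1 : widx ρ n + 1 ≤ ∑ n ∈ Finset.range (2 ^ (ell + 2)), (widx ρ n + 1) :=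
      Finset.single_le_sum (f := fun n => widx ρ n + 1) (fun _ _ => Nat.zero_le _)
        (Finset.mem_range.2 hn)
    omega
  have h1 := marg_cell hF hδ (th ρ ell) ρ hθ M J hM hJ1 u hu
  have h2 : ρ ^ M * PP ρ u =
      (ρ ^ M * ∏ p ∈ u.primeFactors, (ρ ^ widx ρ p / nwin ρ (widx ρ p))) *
        ∏ p ∈ u.primeFactors, Real.log (((widx ρ p : ℝ) + 1) / widx ρ p) := by
    unfold PP
    rw [mul_assoc, ← Finset.prod_mul_distrib]
    congr 1
    refine Finset.prod_congr rfl fun p _ => ?_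
    ring
  rw [h2, ← h1, Finset.mul_sum]
  refine Finset.sum_le_sum fun m hm => ?_
  rw [Finset.mul_sum]
  refine Finset.sum_le_sum fun F _ => ?_
  refine (p2_fam hF hδ (th ρ ell) hθ M hρ (Finset.mem_range.1 hm).le F (2 ^ (ell + 2)) J hJ2 u
    (p2_sep hu)).trans (le_of_eq ?_)
  rw [Finset.mul_sum]
  refine Finset.sum_congr rfl fun S _ => ?_
  rw [Finset.mul_sum]

end Pool.Agent.W_a617e8_h51
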