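import Pool.Agent.W_a617e8_h51.P1b
import Pool.Agent.W_a617e8_h51.P2

set_option autoImplicit false

/-! P3a: admissible numbers. -/

noncomputable section

open scoped ENNReal

open MeasureTheory Filter Topology

namespace Pool.Agent.W_a617e8_h51

/-- The `u` to be covered at scale `ell`. -/
structure Uok (i₀ i₁ : ℕ) (u : ℕ) : Prop where
  sq : Squarefree u
  lev : ∀ p : ℕ, p.Prime → p ∣ u → i₀ ≤ lev p ∧ lev p < i₁
  sep : ∀ p q : ℕ, p.Prime → q.Prime → p ∣ u → q ∣ u → p ≠ q →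
    W_a617e8_h51.lev p + 3 ≤ W_a617e8_h51.lev q ∨ W_a617e8_h51.lev q + 3 ≤ W_a617e8_h51.lev p

private theorem p3a_lev {p : ℕ} (hp : p.Prime) :
    (lev p : ℝ) ≤ Real.logb 2 p ∧ Real.logb 2 p < lev p + 1 := by
  constructor
  · have h := Real.natLog_le_logb p 2
    exact_mod_cast h
  · have hp0 : (0 : ℝ) < p := by exact_mod_cast hp.pos
    rw [Real.logb_lt_iff_lt_rpow (by norm_num) hp0]
    have h := Nat.lt_pow_succ_log_self (b := 2) (by norm_num) p
    have h2 : (p : ℝ) < (2 : ℝ) ^ (lev p + 1) := by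
      unfold lev
      exact_mod_cast h
    have h3 : ((2 : ℝ) ^ ((lev p : ℝ) + 1)) = (2 : ℝ) ^ (lev p + 1) := by
      rw [← Real.rpow_natCast]
      push_cast
      rfl
    rw [h3]
    exact h2

private theorem p3a_widx {ρ : ℝ} (hρ : 1 < ρ) {p : ℕ} (hp : p.Prime) :
    (widx ρ p : ℝ) * Real.logb 2 ρ ≤ Real.logb 2 p ∧
      Real.logb 2 p < (widx ρ p + 1) * Real.logb 2 ρ := by
  have hl : 0 < Real.logb 2 ρ := Real.logb_pos (by norm_num) hρ
  have hp1 : (1 : ℝ) ≤ p := by exact_mod_cast hp.one_le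
  have h0 : 0 ≤ Real.logb ρ p := Real.logb_nonneg hρ hp1
  have e : Real.logb ρ p * Real.logb 2 ρ = Real.logb 2 p := by
    have h2 : Real.log ρ ≠ 0 := (Real.log_pos hρ).ne'
    unfold Real.logb
    field_simp
  rw [← e]
  exact ⟨mul_le_mul_of_nonneg_right (Nat.floor_le h0) hl.le,
    mul_lt_mul_of_pos_right (Nat.lt_floor_add_one _) hl⟩

/-- Such `u` are admissible: `log_2 p ∈ [lev p, lev p + 1)`,
`widx ρ p * θ ∈ (log_2 p / ell - θ, log_2 p / ell]`, `θ = log_2 ρ / ell ≤ 1/ell` for `ρ ≤ 2`. -/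
theorem adm_of_Uok {δ Y ε ρ : ℝ} (hδ : 0 < δ) (hε : 0 < ε) (hρ : 1 < ρ) (hρ2 : ρ ≤ 2) :
    ∀ᶠ ell : ℕ in atTop, ∀ i₀ i₁ : ℕ, δ * ell + 2 ≤ (i₀ : ℝ) → i₁ + 2 ≤ ell → ∀ u : ℕ, 1 < u →
      Uok i₀ i₁ u → (u : ℝ) < (2 : ℝ) ^ ((Y - ε) * ell) → Adm δ Y (th ρ ell) ρ u := by
  have hl : 0 < Real.logb 2 ρ := Real.logb_pos (by norm_num) hρ
  have hl1 : Real.logb 2 ρ ≤ 1 := by
    rw [Real.logb_le_iff_le_rpow (by norm_num) (by linarith), Real.rpow_one]
    exact hρ2
  filter_upwards [eventually_ge_atTop 1, eventually_gt_atTop ⌈(Y - ε) / (δ * ε)⌉₊]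
    with ell hell1 hell i₀ i₁ hi₀ hi₁ u hu hok hub
  have hL1 : (1 : ℝ) ≤ ell := by exact_mod_cast hell1
  have hL0 : (0 : ℝ) < ell := by linarith
  have hL2 : (Y - ε) / (δ * ε) < ell := lt_of_le_of_lt (Nat.le_ceil _) (by exact_mod_cast hell)
  have hi₁' : (i₁ : ℝ) + 2 ≤ ell := by exact_mod_cast hi₁
  have hpr : ∀ p ∈ u.primeFactors, p.Prime ∧ p ∣ u := fun p hp =>
    ⟨Nat.prime_of_mem_primeFactors hp, Nat.dvd_of_mem_primeFactors hp⟩
  have hlo : ∀ p ∈ u.primeFactors, (i₀ : ℝ) ≤ lev p := fun p hp => by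
    exact_mod_cast (hok.lev p (hpr p hp).1 (hpr p hp).2).1
  have hhi : ∀ p ∈ u.primeFactors, (lev p : ℝ) + 1 ≤ i₁ := fun p hp => by
    have := (hok.lev p (hpr p hp).1 (hpr p hp).2).2
    exact_mod_cast this
  have hsepl : ∀ p ∈ u.primeFactors, ∀ q ∈ u.primeFactors, lev p + 3 ≤ lev q →
      widx ρ p + 1 < widx ρ q := by
    intro p hp q hq hpq
    obtain ⟨a1, a2⟩ := p3a_lev (hpr p hp).1
    obtain ⟨b1, b2⟩ := p3a_lev (hpr q hq).1
    obtain ⟨c1, c2⟩ := p3a_widx hρ (hpr p hp).1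
    obtain ⟨d1, d2⟩ := p3a_widx hρ (hpr q hq).1
    have hpq' : (lev p : ℝ) + 3 ≤ lev q := by exact_mod_cast hpq
    have h1 : ((widx ρ p : ℝ) + 1 + 1) * Real.logb 2 ρ < (widx ρ q + 1) * Real.logb 2 ρ := by
      calc ((widx ρ p : ℝ) + 1 + 1) * Real.logb 2 ρ =
          widx ρ p * Real.logb 2 ρ + 2 * Real.logb 2 ρ := by ring
        _ ≤ Real.logb 2 p + 2 * 1 := by
            have := mul_le_mul_of_nonneg_left hl1 (zero_le_two : (0 : ℝ) ≤ 2)
            linarith
        _ < Real.logb 2 q := by linarith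
        _ < _ := d2
    have h2 := lt_of_mul_lt_mul_right h1 hl.le
    have h3 : (widx ρ p : ℝ) + 1 < widx ρ q := by linarith
    exact_mod_cast h3
  refine ⟨hok.sq, hu, ?_, ?_, ?_, ?_⟩
  · intro p hp
    obtain ⟨a1, a2⟩ := p3a_lev (hpr p hp).1
    obtain ⟨c1, c2⟩ := p3a_widx hρ (hpr p hp).1
    have h1 := hlo p hp
    unfold th
    rw [← mul_div_assoc, lt_div_iff₀ hL0]
    have h2 : ((widx ρ p : ℝ) + 1) * Real.logb 2 ρ =
      widx ρ p * Real.logb 2 ρ + Real.logb 2 ρ := by ring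
    linarith
  · intro p hp
    obtain ⟨a1, a2⟩ := p3a_lev (hpr p hp).1
    obtain ⟨c1, c2⟩ := p3a_widx hρ (hpr p hp).1
    have h1 := hhi p hp
    unfold th
    rw [← mul_div_assoc, div_lt_one hL0]
    have h2 : ((widx ρ p : ℝ) + 1) * Real.logb 2 ρ =
      widx ρ p * Real.logb 2 ρ + Real.logb 2 ρ := by ring
    linarith
  · intro p hp q hq hne
    rcases hok.sep p q (hpr p hp).1 (hpr q hq).1 (hpr p hp).2 (hpr q hq).2 hne with h | h
    · exact Or.inl (hsepl p hp q hq h)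
    · exact Or.inr (hsepl q hq p hp h)
  · have hu0 : (0 : ℝ) < u := by
      have : 0 < u := by omega
      exact_mod_cast this
    have hlogu : Real.logb 2 u < (Y - ε) * ell := by
      rw [Real.logb_lt_iff_lt_rpow (by norm_num) hu0]
      exact hub
    have hsum : ∑ p ∈ u.primeFactors, Real.logb 2 p = Real.logb 2 u := by
      rw [← Real.logb_prod]
      · congr 1
        have h := Nat.prod_primeFactors_of_squarefree hok.sq
        conv_rhs => rw [← h]
        rw [Nat.cast_prod]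
      · intro p hp
        have := (hpr p hp).1.pos
        positivity
    have hcard : (u.primeFactors.card : ℝ) * (δ * ell) ≤ Real.logb 2 u := by
      rw [← hsum, ← nsmul_eq_mul, ← Finset.sum_const]
      refine Finset.sum_le_sum fun p hp => ?_
      have := (p3a_lev (hpr p hp).1).1
      have := hlo p hp
      linarith
    have hcard2 : (u.primeFactors.card : ℝ) < ε * ell := by
      have h1 : (u.primeFactors.card : ℝ) * (δ * ell) < (Y - ε) * ell := by linarith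
      have h2 : (u.primeFactors.card : ℝ) * δ < Y - ε := by
        refine lt_of_mul_lt_mul_right ?_ hL0.le
        calc _ = (u.primeFactors.card : ℝ) * (δ * ell) := by ring
          _ < _ := h1
      rw [div_lt_iff₀ (by positivity)] at hL2
      refine lt_of_mul_lt_mul_right ?_ hδ.le
      calc (u.primeFactors.card : ℝ) * δ < Y - ε := h2
        _ < ell * (δ * ε) := hL2
        _ = _ := by ring
    have h3 : ∑ p ∈ u.primeFactors, ((widx ρ p + 1) * th ρ ell) ≤
        (Real.logb 2 u + u.primeFactors.card) / ell := by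
      rw [← hsum, le_div_iff₀ hL0, Finset.sum_mul, Finset.card_eq_sum_ones]
      push_cast
      rw [← Finset.sum_add_distrib]
      refine Finset.sum_le_sum fun p hp => ?_
      obtain ⟨c1, c2⟩ := p3a_widx hρ (hpr p hp).1
      unfold th
      have h4 : ((widx ρ p : ℝ) + 1) * (Real.logb 2 ρ / ell) * ell =
          widx ρ p * Real.logb 2 ρ + Real.logb 2 ρ := by
        field_simp
      linarith
    refine lt_of_le_of_lt h3 ?_
    rw [div_lt_iff₀ hL0]
    linarith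

end Pool.Agent.W_a617e8_h51
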