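import Pool.Agent.W_a617e8_h51.C2b
import Pool.Agent.W_a617e8_h51.P3a

set_option autoImplicit false

/-! M0: the main set of numbers. -/

noncomputable section

open scoped ENNReal

open MeasureTheory Filter Topology

namespace Pool.Agent.W_a617e8_h51

/-- The main set of numbers. -/
structure Main (L s : ℕ) (ld : ℕ → ℕ) (i₀ i₁ B K : ℕ) (x : ℕ) : Prop where
  smooth : Smooth s x
  tpd : tp L x ∣ Fl L
  same : ∀ a b : ℕ, a.Prime → b.Prime → a * b ∣ x → iz L ≤ lev a → ld a ≠ ld b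
  close : ∀ a b : ℕ, a.Prime → b.Prime → a * b ∣ x → i₀ ≤ lev a → lev a ≤ lev b →
    lev a + 2 < lev b
  big : ∀ p : ℕ, p.Prime → p ∣ x → lev p < i₁
  bud : bud L ld i₀ x ≤ B
  lt : x < 2 ^ K

/-- Structure of the main numbers: `x = tp * (∏_{m ∈ Mt} q_m) * u` with `q_m` in the group of `m`
and `Uok i₀ i₁ u`. -/
theorem main_decomp {L s : ℕ} {ld : ℕ → ℕ} (hG : Grouping (gsz L) ld) {i₀ i₁ B K : ℕ}
    (hi : iz L ≤ i₀) {x : ℕ} (hx : Main L s ld i₀ i₁ B K x) :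
    ∃ u : ℕ, ∃ q : ℕ → ℕ, Uok i₀ i₁ u ∧ (∀ m ∈ Mt L ld i₀ x, (q m).Prime ∧ ld (q m) = m) ∧
      x = tp L x * (∏ m ∈ Mt L ld i₀ x, q m) * u := by
  have hx0 : x ≠ 0 := hx.smooth.1
  obtain ⟨y, w, q, hq, hxw, -⟩ := exists_key hG i₀ x hx0
  obtain ⟨ht1, ht2⟩ := tp_dvd L x hx0
  have htpos : 0 < tp L x := Nat.pos_of_ne_zero ht2
  have hdiv : x / tp L x = (∏ m ∈ Mt L ld i₀ x, q m) * w := by
    refine Nat.div_eq_of_eq_mul_right htpos ?_
    rw [← mul_assoc]
    exact hxw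
  have hwx : w ∣ x := ⟨tp L x * ∏ m ∈ Mt L ld i₀ x, q m, by rw [mul_comm w]; exact hxw⟩
  have hlev : ∀ p : ℕ, p.Prime → p ∣ w → iz L ≤ lev p := by
    intro p hp hpw
    have h1 : p ∈ (x / tp L x).primeFactors := by
      rw [Nat.mem_primeFactors]
      refine ⟨hp, ?_, ?_⟩
      · rw [hdiv]
        exact Dvd.dvd.mul_left hpw _
      · exact (Nat.div_pos (Nat.le_of_dvd (Nat.pos_of_ne_zero hx0) ht1) htpos).ne'
    rw [primeFactors_div_tp L x hx0, Finset.mem_filter] at h1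
    exact h1.2
  have hlev0 : ∀ p : ℕ, p.Prime → p ∣ w → i₀ ≤ lev p := by
    intro p hp hpw
    by_contra hlt
    have h2 : lev p < i₀ := not_le.1 hlt
    have hmem : ld p ∈ Mt L ld i₀ x := by
      unfold Mt
      refine Finset.mem_image.2 ⟨p, ?_, rfl⟩
      rw [Finset.mem_filter, Nat.mem_primeFactors]
      exact ⟨⟨hp, hpw.trans hwx, hx0⟩, hlev p hp hpw, h2⟩
    obtain ⟨hq1, hq2⟩ := hq _ hmem
    have hdvd : q (ld p) * p ∣ x := by
      have h3 : q (ld p) ∣ ∏ m ∈ Mt L ld i₀ x, q m := Finset.dvd_prod_of_mem q hmem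
      have h4 : q (ld p) * p ∣ (∏ m ∈ Mt L ld i₀ x, q m) * w := mul_dvd_mul h3 hpw
      rw [← hdiv] at h4
      exact h4.trans (Nat.div_dvd_of_dvd ht1)
    have hl : iz L ≤ lev (q (ld p)) := by
      have e1 := hG.lev_eq (q (ld p)) hq1
      have e2 := hG.lev_eq p hp
      rw [hq2] at e1
      rw [← e1, e2]
      exact hlev p hp hpw
    exact hx.same (q (ld p)) p hq1 hp hdvd hl hq2
  refine ⟨w, q, ⟨?_, ?_, ?_⟩, hq, hxw⟩
  · rw [Nat.squarefree_iff_prime_squarefree]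
    intro p hp hpp
    have h5 := hx.close p p hp hp (hpp.trans hwx) (hlev0 p hp ((dvd_mul_right p p).trans hpp)) le_rfl
    omega
  · intro p hp hpw
    exact ⟨hlev0 p hp hpw, hx.big p hp (hpw.trans hwx)⟩
  · intro p r hp hr hpw hrw hne
    have hpr : p * r ∣ w :=
      Nat.Coprime.mul_dvd_of_dvd_of_dvd ((Nat.coprime_primes hp hr).2 hne) hpw hrw
    rcases le_total (lev p) (lev r) with h6 | h6
    · left
      have := hx.close p r hp hr (hpr.trans hwx) (hlev0 p hp hpw) h6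
      omega
    · right
      have h7 : r * p ∣ x := by rw [mul_comm]; exact hpr.trans hwx
      have := hx.close r p hr hp h7 (hlev0 r hr hrw) h6
      omega

end Pool.Agent.W_a617e8_h51
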