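import Pool.Agent.W_a617e8_h51.M0
import Pool.Agent.W_a617e8_h51.C3
import Pool.Agent.W_a617e8_h51.D1

set_option autoImplicit false

/-! M0b: the main cover. -/

noncomputable section

open scoped ENNReal

open MeasureTheory Filter Topology

namespace Pool.Agent.W_a617e8_h51

/-- `⌊s v / (t' P Fl)⌋`. -/
private def m0b_h (L s : ℕ) (ld : ℕ → ℕ) (i : (ℕ × ℕ) × Finset ℕ) : ℕ :=
  s * i.1.2 / (i.1.1 * (∏ m ∈ i.2, PG ld m / m) * Fl L)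

/-- The multiple used. -/
private def m0b_t (L s : ℕ) (ld : ℕ → ℕ) (i : (ℕ × ℕ) × Finset ℕ) : ℕ :=
  i.1.1 * (∏ m ∈ i.2, PG ld m) * Fl L * m0b_h L s ld i

private theorem m0b_PG_pos (ld : ℕ → ℕ) (m : ℕ) : 0 < PG ld m := by
  unfold PG
  apply Finset.prod_pos
  intro q hq
  unfold gr at hq
  rw [Finset.mem_filter, mem_PL] at hq
  exact hq.1.1.pos

private theorem m0b_Fl_pos (L : ℕ) : 0 < Fl L := by
  unfold Fl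
  exact pow_pos (primorial_pos _) _

private theorem m0b_LD {L : ℕ} {ld : ℕ → ℕ} (hG : Grouping (gsz L) ld) {i₀ m : ℕ}
    (hm : m ∈ LD L ld i₀ ∅) : m.Prime ∧ ld m = m := by
  unfold LD at hm
  rw [Finset.sdiff_empty, Finset.mem_biUnion] at hm
  obtain ⟨i, _, hi⟩ := hm
  obtain ⟨p, hp, rfl⟩ := Finset.mem_image.1 hi
  have hp' := (mem_PL.1 hp).1
  exact ⟨hG.prime p hp', hG.idem p hp'⟩

private theorem m0b_Mt_sub {L : ℕ} {ld : ℕ → ℕ} {i₀ x : ℕ} :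
    Mt L ld i₀ x ⊆ LD L ld i₀ ∅ := by
  intro m hm
  unfold Mt at hm
  obtain ⟨p, hp, rfl⟩ := Finset.mem_image.1 hm
  rw [Finset.mem_filter] at hp
  unfold LD
  rw [Finset.sdiff_empty, Finset.mem_biUnion]
  refine ⟨lev p, Finset.mem_Ico.2 hp.2, Finset.mem_image.2 ⟨p, ?_, rfl⟩⟩
  exact mem_PL.2 ⟨Nat.prime_of_mem_primeFactors hp.1, rfl⟩

private theorem m0b_prod {L : ℕ} {ld : ℕ → ℕ} (hG : Grouping (gsz L) ld) {M : Finset ℕ}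
    (hM : ∀ m ∈ M, m.Prime ∧ ld m = m) :
    ∏ m ∈ M, PG ld m = (∏ m ∈ M, m) * ∏ m ∈ M, PG ld m / m := by
  rw [← Finset.prod_mul_distrib]
  apply Finset.prod_congr rfl
  intro m hm
  exact (Nat.mul_div_cancel' (PG_div_le hG (hM m hm).1 (hM m hm).2).1).symm

private theorem m0b_P_le {L : ℕ} {ld : ℕ → ℕ} (hG : Grouping (gsz L) ld) {M : Finset ℕ}
    (hM : ∀ m ∈ M, m.Prime ∧ ld m = m) :
    ∏ m ∈ M, PG ld m / m ≤ 2 ^ (∑ m ∈ M, (gsz L (lev m) - 1) * (lev m + 1)) := by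
  rw [← Finset.prod_pow_eq_pow_sum]
  apply Finset.prod_le_prod'
  intro m hm
  exact (PG_div_le hG (hM m hm).1 (hM m hm).2).2

private theorem m0b_P_pos {L : ℕ} {ld : ℕ → ℕ} (hG : Grouping (gsz L) ld) {M : Finset ℕ}
    (hM : ∀ m ∈ M, m.Prime ∧ ld m = m) : 0 < ∏ m ∈ M, PG ld m / m := by
  apply Finset.prod_pos
  intro m hm
  exact Nat.div_pos (Nat.le_of_dvd (m0b_PG_pos ld m)
    (PG_div_le hG (hM m hm).1 (hM m hm).2).1) (hM m hm).1.pos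

private theorem m0b_h_ge {L s : ℕ} {ld : ℕ → ℕ} (hG : Grouping (gsz L) ld) (hs : 2 ^ L ≤ s)
    {B H₀ : ℕ} {c : ℕ × ℕ} (hc : 0 < c.1) (hsz : c.1 * 2 ^ B * Fl L * H₀ ≤ 2 ^ L * c.2)
    {M : Finset ℕ} (hM : ∀ m ∈ M, m.Prime ∧ ld m = m)
    (hb : ∑ m ∈ M, (gsz L (lev m) - 1) * (lev m + 1) ≤ B) :
    0 < c.1 * (∏ m ∈ M, PG ld m / m) * Fl L ∧ H₀ ≤ m0b_h L s ld (c, M) := by
  have hP := m0b_P_pos hG hM
  have hD : 0 < c.1 * (∏ m ∈ M, PG ld m / m) * Fl L :=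
    Nat.mul_pos (Nat.mul_pos hc hP) (m0b_Fl_pos L)
  refine ⟨hD, ?_⟩
  unfold m0b_h
  rw [Nat.le_div_iff_mul_le hD]
  have h1 : ∏ m ∈ M, PG ld m / m ≤ 2 ^ B :=
    (m0b_P_le hG hM).trans (Nat.pow_le_pow_right (by norm_num) hb)
  calc H₀ * (c.1 * (∏ m ∈ M, PG ld m / m) * Fl L)
      ≤ H₀ * (c.1 * 2 ^ B * Fl L) := by
        apply Nat.mul_le_mul_left
        apply Nat.mul_le_mul_right
        exact Nat.mul_le_mul_left _ h1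
    _ = c.1 * 2 ^ B * Fl L * H₀ := by ring
    _ ≤ 2 ^ L * c.2 := hsz
    _ ≤ s * c.2 := Nat.mul_le_mul_right _ hs

private theorem m0b_cost {L s : ℕ} {ld : ℕ → ℕ} (hG : Grouping (gsz L) ld) (hs : 2 ^ L ≤ s)
    {B H₀ : ℕ} (hH : 1 ≤ H₀) {c : ℕ × ℕ} (hc : 0 < c.1) (hc2 : 0 < c.2)
    (hsz : c.1 * 2 ^ B * Fl L * H₀ ≤ 2 ^ L * c.2)
    {M : Finset ℕ} (hM : ∀ m ∈ M, m.Prime ∧ ld m = m)
    (hb : ∑ m ∈ M, (gsz L (lev m) - 1) * (lev m + 1) ≤ B) :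
    0 < m0b_t L s ld (c, M) ∧ (s : ℝ≥0∞) / (m0b_t L s ld (c, M) : ℝ≥0∞) ≤
      ENNReal.ofReal ((1 + 1 / H₀) * ((1 : ℝ) / c.2) * ∏ m ∈ M, (1 / (m : ℝ))) := by
  obtain ⟨hD, hh⟩ := m0b_h_ge hG hs hc hsz hM hb
  have hprod := m0b_prod hG hM
  obtain ⟨D, hDD⟩ : ∃ D, D = c.1 * (∏ m ∈ M, PG ld m / m) * Fl L := ⟨_, rfl⟩
  obtain ⟨h, hhh⟩ : ∃ h, h = m0b_h L s ld (c, M) := ⟨_, rfl⟩
  obtain ⟨Q, hQ⟩ : ∃ Q, Q = ∏ m ∈ M, m := ⟨_, rfl⟩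
  have hQpos : 0 < Q := by
    rw [hQ]
    exact Finset.prod_pos fun m hm => (hM m hm).1.pos
  have ht : m0b_t L s ld (c, M) = Q * D * h := by
    unfold m0b_t
    rw [← hhh, hDD, hQ]
    show c.1 * (∏ m ∈ M, PG ld m) * Fl L * h = _
    rw [hprod]
    ring
  have hlt : s * c.2 < D * (h + 1) := by
    rw [hhh, hDD]
    unfold m0b_h
    exact Nat.lt_mul_div_succ _ hD
  rw [← hDD] at hD
  rw [← hhh] at hh
  have hhpos : 0 < h := by omega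
  have htpos : 0 < m0b_t L s ld (c, M) := by
    rw [ht]
    exact Nat.mul_pos (Nat.mul_pos hQpos hD) hhpos
  refine ⟨htpos, ?_⟩
  have htR : (0 : ℝ) < (m0b_t L s ld (c, M) : ℝ) := by exact_mod_cast htpos
  have e1 : (s : ℝ≥0∞) / (m0b_t L s ld (c, M) : ℝ≥0∞) =
      ENNReal.ofReal ((s : ℝ) / (m0b_t L s ld (c, M) : ℝ)) := by
    rw [ENNReal.ofReal_div_of_pos htR, ENNReal.ofReal_natCast, ENNReal.ofReal_natCast]
  rw [e1]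
  apply ENNReal.ofReal_le_ofReal
  have e2 : ∏ m ∈ M, (1 / (m : ℝ)) = 1 / (Q : ℝ) := by
    rw [hQ, Finset.prod_div_distrib]
    simp
  rw [e2, ht]
  have hQR : (0 : ℝ) < Q := by exact_mod_cast hQpos
  have hDR : (0 : ℝ) < D := by exact_mod_cast hD
  have hhR : (0 : ℝ) < h := by exact_mod_cast hhpos
  have hcR : (0 : ℝ) < (c.2 : ℝ) := by exact_mod_cast hc2
  have hHR : (0 : ℝ) < H₀ := by exact_mod_cast (by omega : 0 < H₀)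
  have hltR : (s : ℝ) * c.2 ≤ D * (h + 1) := by exact_mod_cast hlt.le
  have hhH : (H₀ : ℝ) ≤ h := by exact_mod_cast hh
  have h1 : (h : ℝ) + 1 ≤ h * (1 + 1 / H₀) := by
    have : 1 ≤ (h : ℝ) / H₀ := by
      rw [le_div_iff₀ hHR]
      linarith
    have e : (h : ℝ) * (1 + 1 / H₀) = h + h / H₀ := by ring
    rw [e]
    linarith
  have h2 : (s : ℝ) * c.2 ≤ D * (h * (1 + 1 / H₀)) :=
    hltR.trans (mul_le_mul_of_nonneg_left h1 hDR.le)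
  push_cast
  rw [div_le_iff₀ (by positivity)]
  have h3 : (1 + 1 / (H₀ : ℝ)) * (1 / (c.2 : ℝ)) * (1 / (Q : ℝ)) * ((Q : ℝ) * D * h) =
      (D * (h * (1 + 1 / H₀))) / c.2 := by
    field_simp
  rw [h3, le_div_iff₀ hcR]
  exact h2

private theorem m0b_hit {L s : ℕ} {ld : ℕ → ℕ} (hG : Grouping (gsz L) ld) (hs : 2 ^ L ≤ s)
    {i₀ i₁ B K : ℕ} (hi : iz L ≤ i₀) {H₀ : ℕ} (hH : 1 ≤ H₀) {𝒞 : Finset (ℕ × ℕ)}
    (hpos : ∀ c ∈ 𝒞, 0 < c.1 ∧ 0 < c.2)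
    (hsz : ∀ c ∈ 𝒞, c.1 * 2 ^ B * Fl L * H₀ ≤ 2 ^ L * c.2)
    (hcov : ∀ u : ℕ, Uok i₀ i₁ u → u < 2 ^ K → ∃ c ∈ 𝒞, u ∣ c.1 ∧ c.2 ≤ u)
    {x : ℕ} (hx : Main L s ld i₀ i₁ B K x) :
    ∃ c ∈ 𝒞, ∃ j, 1 ≤ j ∧ j ≤ s ∧ j * x = m0b_t L s ld (c, Mt L ld i₀ x) := by
  obtain ⟨u, q, hu, hq, hxe⟩ := main_decomp hG hi hx
  have hx0 : x ≠ 0 := hx.smooth.1
  have hu0 : u ≠ 0 := by
    rintro rfl
    rw [mul_zero] at hxe
    exact hx0 hxe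
  have hux : u ≤ x := Nat.le_of_dvd (Nat.pos_of_ne_zero hx0) (Dvd.intro_left _ hxe.symm)
  obtain ⟨c, hc, ⟨a, ha⟩, hcu⟩ := hcov u hu (lt_of_le_of_lt hux hx.lt)
  refine ⟨c, hc, ?_⟩
  obtain ⟨M, hMM⟩ : ∃ M, M = Mt L ld i₀ x := ⟨_, rfl⟩
  rw [← hMM] at hq hxe ⊢
  have hM : ∀ m ∈ M, m.Prime ∧ ld m = m := by
    intro m hm
    rw [hMM] at hm
    exact m0b_LD hG (m0b_Mt_sub hm)
  have hb : ∑ m ∈ M, (gsz L (lev m) - 1) * (lev m + 1) ≤ B := by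
    rw [hMM]
    exact hx.bud
  obtain ⟨hD, hh⟩ := m0b_h_ge hG hs (hpos c hc).1 (hsz c hc) hM hb
  obtain ⟨b, hb'⟩ := hx.tpd
  have hF := m0b_Fl_pos L
  have hb0 : 0 < b := by
    apply Nat.pos_of_ne_zero
    rintro rfl
    rw [mul_zero] at hb'
    omega
  have ha0 : 0 < a := by
    apply Nat.pos_of_ne_zero
    rintro rfl
    rw [mul_zero] at ha
    have := (hpos c hc).1
    omega
  have htp0 : 0 < tp L x := by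
    apply Nat.pos_of_ne_zero
    intro h
    rw [h, zero_mul] at hb'
    omega
  have hgr : ∀ m ∈ M, q m ∣ PG ld m ∧ m ≤ q m ∧ PG ld m / q m ≤ PG ld m / m := by
    intro m hm
    exact gr_dvd hG (hM m hm).1 ((mem_gr hG (hM m hm).1).2 (hq m hm))
  have hqprod : ∏ m ∈ M, PG ld m = (∏ m ∈ M, q m) * ∏ m ∈ M, PG ld m / q m := by
    rw [← Finset.prod_mul_distrib]
    apply Finset.prod_congr rfl
    intro m hm
    exact (Nat.mul_div_cancel' (hgr m hm).1).symm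
  have hqpos : 0 < ∏ m ∈ M, PG ld m / q m := by
    apply Finset.prod_pos
    intro m hm
    exact Nat.div_pos (Nat.le_of_dvd (m0b_PG_pos ld m) (hgr m hm).1) (hq m hm).1.pos
  have hqle : ∏ m ∈ M, PG ld m / q m ≤ ∏ m ∈ M, PG ld m / m := by
    apply Finset.prod_le_prod'
    intro m hm
    exact (hgr m hm).2.2
  obtain ⟨h, hhh⟩ : ∃ h, h = m0b_h L s ld (c, M) := ⟨_, rfl⟩
  rw [← hhh] at hh
  have hDh : c.1 * (∏ m ∈ M, PG ld m / m) * Fl L * h ≤ s * c.2 := by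
    rw [hhh]
    unfold m0b_h
    exact Nat.mul_div_le _ _
  refine ⟨a * (∏ m ∈ M, PG ld m / q m) * b * h, ?_, ?_, ?_⟩
  · have : 0 < h := by omega
    have := Nat.mul_pos (Nat.mul_pos (Nat.mul_pos ha0 hqpos) hb0) this
    omega
  · have hb1 : b ≤ Fl L := by
      rw [hb']
      exact Nat.le_mul_of_pos_left b htp0
    have h1 : a * (∏ m ∈ M, PG ld m / q m) * b * h * u ≤ s * u := by
      calc a * (∏ m ∈ M, PG ld m / q m) * b * h * u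
          = (u * a) * (∏ m ∈ M, PG ld m / q m) * b * h := by ring
        _ = c.1 * (∏ m ∈ M, PG ld m / q m) * b * h := by rw [← ha]
        _ ≤ c.1 * (∏ m ∈ M, PG ld m / m) * Fl L * h := by
            apply Nat.mul_le_mul_right
            exact Nat.mul_le_mul (Nat.mul_le_mul_left _ hqle) hb1
        _ ≤ s * c.2 := hDh
        _ ≤ s * u := Nat.mul_le_mul_left _ hcu
    exact Nat.le_of_mul_le_mul_right h1 (Nat.pos_of_ne_zero hu0)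
  · unfold m0b_t
    rw [← hhh]
    show _ = c.1 * (∏ m ∈ M, PG ld m) * Fl L * h
    rw [hqprod, ha]
    conv_lhs => rw [hxe]
    conv_rhs => rw [hb']
    ring

/-- **Main cover.**  `T` = all `t = t' (∏_{m ∈ M} PG m) Fl h`, `(t', v) ∈ 𝒞`, `M ⊆ LD L ld i₀ ∅` with
budget `≤ B`, `h = s v / (t' P Fl)` (floor), `P = ∏_{m ∈ M} PG m / m ≤ 2^B` (`PG_div_le`).  By `hsz`
`h ≥ H₀`, so `s / t ≤ (1 + 1/H₀)/(v ∏_{M} m)`.  For `x` as in `main_decomp`, `M = Mt L ld i₀ x`, and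
`(t', v)` with `u ∣ t'`, `v ≤ u`: `t = x * j`, `j = (t'/u) (∏ PG m / q_m) (Fl / tp) h ≤ s v / u ≤ s`
(`gr_dvd`).  Sum over `M`: `∏ (1 + 1/m)` (`Finset.prod_one_add`). -/
theorem main_cover {L s : ℕ} {ld : ℕ → ℕ} (hG : Grouping (gsz L) ld) (hs : 2 ^ L ≤ s)
    {i₀ i₁ B K : ℕ} (hi : iz L ≤ i₀) (H₀ : ℕ) (hH : 1 ≤ H₀) (𝒞 : Finset (ℕ × ℕ))
    (hpos : ∀ c ∈ 𝒞, 0 < c.1 ∧ 0 < c.2)
    (hsz : ∀ c ∈ 𝒞, c.1 * 2 ^ B * Fl L * H₀ ≤ 2 ^ L * c.2)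
    (hcov : ∀ u : ℕ, Uok i₀ i₁ u → u < 2 ^ K → ∃ c ∈ 𝒞, u ∣ c.1 ∧ c.2 ≤ u) :
    ∃ T : Set ℕ, 0 ∉ T ∧ (∀ x, Main L s ld i₀ i₁ B K x → Hit s T x) ∧
      cst s T ≤ ENNReal.ofReal ((1 + 1 / H₀) * (∑ c ∈ 𝒞, (1 : ℝ) / c.2) *
        ∏ m ∈ LD L ld i₀ ∅, (1 + 1 / (m : ℝ))) := by
  classical
  obtain ⟨I, hI⟩ : ∃ I : Finset ((ℕ × ℕ) × Finset ℕ), I = 𝒞 ×ˢ ((LD L ld i₀ ∅).powerset.filter
    fun M => ∑ m ∈ M, (gsz L (lev m) - 1) * (lev m + 1) ≤ B) := ⟨_, rfl⟩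
  have hmem : ∀ i ∈ I, i.1 ∈ 𝒞 ∧ (∀ m ∈ i.2, m.Prime ∧ ld m = m) ∧
      ∑ m ∈ i.2, (gsz L (lev m) - 1) * (lev m + 1) ≤ B := by
    intro i hi'
    rw [hI, Finset.mem_product, Finset.mem_filter, Finset.mem_powerset] at hi'
    exact ⟨hi'.1, fun m hm => m0b_LD hG (hi'.2.1 hm), hi'.2.2⟩
  refine ⟨m0b_t L s ld '' (I : Set ((ℕ × ℕ) × Finset ℕ)), ?_, ?_, ?_⟩
  · rintro ⟨i, hi', h0⟩
    obtain ⟨h1, h2, h3⟩ := hmem i hi'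
    have := (m0b_cost hG hs hH (hpos _ h1).1 (hpos _ h1).2 (hsz _ h1) h2 h3).1
    have e : m0b_t L s ld (i.1, i.2) = 0 := h0
    omega
  · intro x hx
    obtain ⟨c, hc, j, hj1, hj2, hj3⟩ := m0b_hit hG hs hi hH hpos hsz hcov hx
    refine ⟨j, hj1, hj2, ?_⟩
    rw [hj3]
    refine ⟨(c, Mt L ld i₀ x), ?_, rfl⟩
    rw [hI]
    refine Finset.mem_coe.2 (Finset.mem_product.2 ⟨hc, Finset.mem_filter.2 ⟨?_, hx.bud⟩⟩)
    exact Finset.mem_powerset.2 m0b_Mt_sub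
  · refine (cst_image_le s _ _).trans ?_
    have e0 : (∑' i : (I : Set ((ℕ × ℕ) × Finset ℕ)),
        (s : ℝ≥0∞) / (m0b_t L s ld i : ℝ≥0∞)) =
        ∑ i ∈ I, (s : ℝ≥0∞) / (m0b_t L s ld i : ℝ≥0∞) :=
      Finset.tsum_subtype I fun i => (s : ℝ≥0∞) / (m0b_t L s ld i : ℝ≥0∞)
    rw [e0]
    have e1 : ∑ i ∈ I, (s : ℝ≥0∞) / (m0b_t L s ld i : ℝ≥0∞) ≤
        ∑ i ∈ I, ENNReal.ofReal ((1 + 1 / H₀) * ((1 : ℝ) / i.1.2) * ∏ m ∈ i.2, (1 / (m : ℝ))) := by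
      apply Finset.sum_le_sum
      intro i hi'
      obtain ⟨h1, h2, h3⟩ := hmem i hi'
      exact (m0b_cost hG hs hH (hpos _ h1).1 (hpos _ h1).2 (hsz _ h1) h2 h3).2
    refine e1.trans ?_
    have hnn : ∀ i : (ℕ × ℕ) × Finset ℕ,
        0 ≤ (1 + 1 / (H₀ : ℝ)) * ((1 : ℝ) / i.1.2) * ∏ m ∈ i.2, (1 / (m : ℝ)) := by
      intro i
      have h4 : 0 ≤ ∏ m ∈ i.2, (1 / (m : ℝ)) := Finset.prod_nonneg fun m _ => by positivity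
      positivity
    rw [← ENNReal.ofReal_sum_of_nonneg fun i _ => hnn i]
    apply ENNReal.ofReal_le_ofReal
    have e2 : ∑ i ∈ I, (1 + 1 / (H₀ : ℝ)) * ((1 : ℝ) / i.1.2) * ∏ m ∈ i.2, (1 / (m : ℝ)) ≤
        ∑ i ∈ 𝒞 ×ˢ (LD L ld i₀ ∅).powerset,
          (1 + 1 / (H₀ : ℝ)) * ((1 : ℝ) / i.1.2) * ∏ m ∈ i.2, (1 / (m : ℝ)) := by
      apply Finset.sum_le_sum_of_subset_of_nonneg
      · rw [hI]
        exact Finset.product_subset_product_right (Finset.filter_subset _ _)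
      · intro i _ _
        exact hnn i
    refine e2.trans (le_of_eq ?_)
    rw [Finset.sum_product, Finset.prod_one_add]
    show ∑ c ∈ 𝒞, ∑ M ∈ (LD L ld i₀ ∅).powerset,
      (1 + 1 / (H₀ : ℝ)) * ((1 : ℝ) / c.2) * ∏ m ∈ M, (1 / (m : ℝ)) = _
    have e3 : ∀ c ∈ 𝒞, ∑ M ∈ (LD L ld i₀ ∅).powerset,
        (1 + 1 / (H₀ : ℝ)) * ((1 : ℝ) / c.2) * ∏ m ∈ M, (1 / (m : ℝ)) =
        (1 + 1 / (H₀ : ℝ)) * ((1 : ℝ) / c.2) *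
          ∑ M ∈ (LD L ld i₀ ∅).powerset, ∏ m ∈ M, (1 / (m : ℝ)) := by
      intro c _
      rw [Finset.mul_sum]
    rw [Finset.sum_congr rfl e3, ← Finset.sum_mul, ← Finset.mul_sum]

end Pool.Agent.W_a617e8_h51
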