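import Mathlib

set_option autoImplicit false

/-! N0: random subsets with independent choices, as finite sums. -/

noncomputable section

namespace Pool.Agent.W_a617e8_h51

variable {V E : Type} [Fintype V] [Fintype E] [DecidableEq V] [DecidableEq E]

/-- Expectation of `g Q`, `Q ⊆ A` random, `e ∈ Q` with probability `p e` independently. -/
def ex (A : Finset E) (p : E → ℝ) (g : Finset E → ℝ) : ℝ :=
  ∑ Q ∈ A.powerset, (∏ e ∈ Q, p e) * (∏ e ∈ A \ Q, (1 - p e)) * g Q

omit [Fintype E] in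
private theorem n0_prod (A : Finset E) (f g : E → ℝ) :
    ∑ Q ∈ A.powerset, (∏ e ∈ Q, f e) * (∏ e ∈ A \ Q, g e) = ∏ e ∈ A, (f e + g e) :=
  (Finset.prod_add f g A).symm

theorem ex_one (A : Finset E) (p : E → ℝ) : ex A p (fun _ => 1) = 1 := by
  unfold ex
  simp only [mul_one]
  rw [n0_prod A p fun e => 1 - p e]
  exact Finset.prod_eq_one fun e _ => by ring

omit [Fintype E] in
private theorem n0_w (A : Finset E) (p : E → ℝ) (hp : ∀ e, 0 ≤ p e ∧ p e ≤ 1) (Q : Finset E) :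
    0 ≤ (∏ e ∈ Q, p e) * (∏ e ∈ A \ Q, (1 - p e)) :=
  mul_nonneg (Finset.prod_nonneg fun e _ => (hp e).1)
    (Finset.prod_nonneg fun e _ => sub_nonneg.2 (hp e).2)

theorem ex_mono (A : Finset E) (p : E → ℝ) (hp : ∀ e, 0 ≤ p e ∧ p e ≤ 1) {g g' : Finset E → ℝ}
    (h : ∀ Q ⊆ A, g Q ≤ g' Q) : ex A p g ≤ ex A p g' := by
  refine Finset.sum_le_sum fun Q hQ => ?_
  exact mul_le_mul_of_nonneg_left (h Q (Finset.mem_powerset.1 hQ)) (n0_w A p hp Q)

/-- Probability of avoiding `D`. -/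
theorem ex_avoid (A D : Finset E) (p : E → ℝ) :
    ex A p (fun Q => if Disjoint Q D then 1 else 0) = ∏ e ∈ A ∩ D, (1 - p e) := by
  have h1 : ex A p (fun Q => if Disjoint Q D then 1 else 0) =
      ∑ Q ∈ A.powerset, (∏ e ∈ Q, (if e ∈ D then 0 else p e)) * (∏ e ∈ A \ Q, (1 - p e)) := by
    refine Finset.sum_congr rfl fun Q _ => ?_
    show (∏ e ∈ Q, p e) * (∏ e ∈ A \ Q, (1 - p e)) * (if Disjoint Q D then (1 : ℝ) else 0) = _
    by_cases hd : Disjoint Q D
    · rw [if_pos hd, mul_one]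
      congr 1
      refine Finset.prod_congr rfl fun e he => ?_
      rw [if_neg (Finset.disjoint_left.1 hd he)]
    · rw [if_neg hd, mul_zero]
      rw [Finset.not_disjoint_iff] at hd
      obtain ⟨e, he, heD⟩ := hd
      have h5 : ∏ e ∈ Q, (if e ∈ D then (0 : ℝ) else p e) = 0 :=
        Finset.prod_eq_zero he (if_pos heD)
      rw [h5, zero_mul]
  rw [h1, n0_prod A (fun e => if e ∈ D then 0 else p e) fun e => 1 - p e,
    ← Finset.prod_ite_mem A D]
  refine Finset.prod_congr rfl fun e _ => ?_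
  split_ifs <;> ring

omit [Fintype E] in
private theorem n0_add (A : Finset E) (p : E → ℝ) (g g' : Finset E → ℝ) :
    ex A p (fun Q => g Q + g' Q) = ex A p g + ex A p g' := by
  unfold ex
  rw [← Finset.sum_add_distrib]
  exact Finset.sum_congr rfl fun Q _ => by ring

private theorem n0_cost (A : Finset E) (p : E → ℝ) (c : E → ℝ) :
    ex A p (fun Q => ∑ e ∈ Q, c e) = ∑ e ∈ A, p e * c e := by
  have h1 : ex A p (fun Q => ∑ e ∈ Q, c e) = ∑ e ∈ A, c e *
      (ex A p (fun _ => 1) - ex A p (fun Q => if Disjoint Q {e} then 1 else 0)) := by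
    unfold ex
    simp only [← Finset.sum_sub_distrib, Finset.mul_sum]
    rw [Finset.sum_comm]
    refine Finset.sum_congr rfl fun Q hQ => ?_
    have hQA := Finset.mem_powerset.1 hQ
    have h2 : ∑ e ∈ Q, c e = ∑ e ∈ A, if e ∈ Q then c e else 0 := by
      rw [Finset.sum_ite_mem, Finset.inter_eq_right.2 hQA]
    rw [← Finset.mul_sum, h2, Finset.mul_sum]
    refine Finset.sum_congr rfl fun e _ => ?_
    by_cases he : e ∈ Q
    · rw [if_pos he, if_neg (by simp [he])]
      ring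
    · rw [if_neg he, if_pos (by simp [he])]
      ring
  rw [h1, ex_one]
  refine Finset.sum_congr rfl fun e he => ?_
  rw [ex_avoid, Finset.inter_singleton_of_mem he, Finset.prod_singleton]
  ring

/-- Expected cost: `ex A p (∑_{e ∈ Q} c e) = ∑_{e ∈ A} p e c e`; and some outcome is at most the
average. -/
theorem ex_exists (A : Finset E) (p : E → ℝ) (hp : ∀ e, 0 ≤ p e ∧ p e ≤ 1) (c : E → ℝ)
    (g : Finset E → ℝ) :
    ∃ Q ⊆ A, ∑ e ∈ Q, c e + g Q ≤ ∑ e ∈ A, p e * c e + ex A p g := by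
  by_contra hcon
  push Not at hcon
  have h0 : ex A p (fun _ => ∑ e ∈ A, p e * c e + ex A p g) =
      ∑ e ∈ A, p e * c e + ex A p g := by
    have h1 := ex_one A p
    unfold ex at h1 ⊢
    simp only [mul_one] at h1
    rw [← Finset.sum_mul, h1, one_mul]
  have h2 : ex A p (fun Q => ∑ e ∈ Q, c e + g Q) = ∑ e ∈ A, p e * c e + ex A p g := by
    rw [n0_add A p (fun Q => ∑ e ∈ Q, c e) g, n0_cost]
  obtain ⟨Q0, hQ0, hw⟩ : ∃ Q ∈ A.powerset,
      0 < (∏ e ∈ Q, p e) * (∏ e ∈ A \ Q, (1 - p e)) := by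
    by_contra hcon2
    push Not at hcon2
    have h3 := ex_one A p
    unfold ex at h3
    have h4 := Finset.sum_nonpos (s := A.powerset) (f := fun Q =>
      (∏ e ∈ Q, p e) * (∏ e ∈ A \ Q, (1 - p e)) * (1 : ℝ)) fun Q hQ => by
        rw [mul_one]
        exact hcon2 Q hQ
    linarith
  have h5 : ex A p (fun _ => ∑ e ∈ A, p e * c e + ex A p g) <
      ex A p (fun Q => ∑ e ∈ Q, c e + g Q) := by
    refine Finset.sum_lt_sum (fun Q hQ => ?_) ⟨Q0, hQ0, ?_⟩
    · exact mul_le_mul_of_nonneg_left (hcon Q (Finset.mem_powerset.1 hQ)).le (n0_w A p hp Q)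
    · exact mul_lt_mul_of_pos_left (hcon Q0 (Finset.mem_powerset.1 hQ0)) hw
  linarith

end Pool.Agent.W_a617e8_h51
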