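import Pool.Agent.W_a617e8_h51.N0

set_option autoImplicit false

/-! N0b: the process. -/

noncomputable section

namespace Pool.Agent.W_a617e8_h51

variable {V E : Type} [Fintype V] [Fintype E] [DecidableEq V] [DecidableEq E]

/-- Alive edges: contained in the set `X` of uncovered vertices. -/
def alive (B : E → Finset V) (X : Finset V) : Finset E := Finset.univ.filter fun e => B e ⊆ X

/-- One round. -/
def stp (B : E → Finset V) (p : E → ℝ) (f : Finset V → ℝ) (X : Finset V) : ℝ :=
  ex (alive B X) p fun Q => f (X \ Q.biUnion B)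

/-- Expectation of `f` (uncovered set after `r` rounds). -/
def EE (B : E → Finset V) (p : ℕ → E → ℝ) : ℕ → (Finset V → ℝ) → ℝ
  | 0, f => f Finset.univ
  | r + 1, f => EE B p r (stp B (p r) f)

omit [Fintype V] in
private theorem n0b_stp_add (B : E → Finset V) (p : E → ℝ) (f g : Finset V → ℝ) :
    stp B p (fun X => f X + g X) = fun X => stp B p f X + stp B p g X := by
  funext X
  unfold stp ex
  rw [← Finset.sum_add_distrib]
  exact Finset.sum_congr rfl fun Q _ => by ring

omit [Fintype V] in
private theorem n0b_stp_smul (B : E → Finset V) (p : E → ℝ) (a : ℝ) (f : Finset V → ℝ) :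
    stp B p (fun X => a * f X) = fun X => a * stp B p f X := by
  funext X
  unfold stp ex
  rw [Finset.mul_sum]
  exact Finset.sum_congr rfl fun Q _ => by ring

omit [Fintype V] in
private theorem n0b_stp_const (B : E → Finset V) (p : E → ℝ) (a : ℝ) :
    stp B p (fun _ => a) = fun _ => a := by
  funext X
  have h := ex_one (alive B X) p
  unfold stp
  unfold ex at h ⊢
  simp only [mul_one] at h
  rw [← Finset.sum_mul, h, one_mul]

theorem EE_add (B : E → Finset V) (p : ℕ → E → ℝ) (r : ℕ) (f g : Finset V → ℝ) :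
    EE B p r (fun X => f X + g X) = EE B p r f + EE B p r g := by
  induction r generalizing f g with
  | zero => rfl
  | succ r ih =>
    show EE B p r (stp B (p r) fun X => f X + g X) = _
    rw [n0b_stp_add, ih]
    rfl

theorem EE_smul (B : E → Finset V) (p : ℕ → E → ℝ) (r : ℕ) (a : ℝ) (f : Finset V → ℝ) :
    EE B p r (fun X => a * f X) = a * EE B p r f := by
  induction r generalizing f with
  | zero => rfl
  | succ r ih =>
    show EE B p r (stp B (p r) fun X => a * f X) = _
    rw [n0b_stp_smul, ih]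
    rfl

theorem EE_const (B : E → Finset V) (p : ℕ → E → ℝ) (r : ℕ) (a : ℝ) :
    EE B p r (fun _ => a) = a := by
  induction r with
  | zero => rfl
  | succ r ih =>
    show EE B p r (stp B (p r) fun _ => a) = _
    rw [n0b_stp_const, ih]

theorem EE_mono (B : E → Finset V) (p : ℕ → E → ℝ) (hp : ∀ r e, 0 ≤ p r e ∧ p r e ≤ 1) (r : ℕ)
    {f g : Finset V → ℝ} (h : ∀ X, f X ≤ g X) : EE B p r f ≤ EE B p r g := by
  induction r generalizing f g with
  | zero => exact h _
  | succ r ih =>
    exact ih fun X => ex_mono _ _ (hp r) fun Q _ => h _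

/-- **Good outcome.**  Induction on `R` for all `f` (use `ex_exists` in the last round).
(`0 ≤ c` is needed when some `B e` is empty: such an edge may be chosen in several rounds.) -/
theorem EE_exists (B : E → Finset V) (p : ℕ → E → ℝ) (hp : ∀ r e, 0 ≤ p r e ∧ p r e ≤ 1)
    (c : E → ℝ) (hc : ∀ e, 0 ≤ c e) (R : ℕ) (f : Finset V → ℝ) :
    ∃ E' : Finset E, ∃ X : Finset V, (∀ v, v ∈ X ∨ ∃ e ∈ E', v ∈ B e) ∧
      ∑ e ∈ E', c e + f X ≤
        (∑ r ∈ Finset.range R, EE B p r (fun X => ∑ e ∈ alive B X, p r e * c e)) +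
          EE B p R f := by
  induction R generalizing f with
  | zero =>
    refine ⟨∅, Finset.univ, fun v => Or.inl (Finset.mem_univ v), ?_⟩
    simp [EE]
  | succ R ih =>
    obtain ⟨E', X, hcov, hle⟩ := ih
      fun X => ∑ e ∈ alive B X, p R e * c e + stp B (p R) f X
    obtain ⟨Q, hQ, hQle⟩ := ex_exists (alive B X) (p R) (hp R) c fun Q => f (X \ Q.biUnion B)
    refine ⟨E' ∪ Q, X \ Q.biUnion B, fun v => ?_, ?_⟩
    · rcases hcov v with h | ⟨e, he, hv⟩
      · by_cases hv : v ∈ Q.biUnion B
        · obtain ⟨e, he, hv'⟩ := Finset.mem_biUnion.1 hv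
          exact Or.inr ⟨e, Finset.mem_union_right _ he, hv'⟩
        · exact Or.inl (Finset.mem_sdiff.2 ⟨h, hv⟩)
      · exact Or.inr ⟨e, Finset.mem_union_left _ he, hv⟩
    · have h1 : ∑ e ∈ E' ∪ Q, c e ≤ ∑ e ∈ E', c e + ∑ e ∈ Q, c e := by
        rw [← Finset.sum_union_inter]
        have h2 : 0 ≤ ∑ e ∈ E' ∩ Q, c e := Finset.sum_nonneg fun e _ => hc e
        linarith
      rw [Finset.sum_range_succ]
      rw [EE_add] at hle
      have h3 : EE B p (R + 1) f = EE B p R (stp B (p R) f) := rfl
      rw [h3]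
      have h4 : stp B (p R) f X = ex (alive B X) (p R) fun Q => f (X \ Q.biUnion B) := rfl
      rw [h4] at hle
      linarith

end Pool.Agent.W_a617e8_h51
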