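import Pool.Agent.W_a617e8_h51.N0b

set_option autoImplicit false

/-! N1: the recursion for the survival probabilities. -/

noncomputable section

namespace Pool.Agent.W_a617e8_h51

variable {V E : Type} [Fintype V] [Fintype E] [DecidableEq V] [DecidableEq E]

/-- Probability that all of `S` is uncovered after `r` rounds. -/
def qq (B : E → Finset V) (p : ℕ → E → ℝ) (S : Finset V) (r : ℕ) : ℝ :=
  EE B p r fun X => if S ⊆ X then 1 else 0

theorem qq_bounds (B : E → Finset V) (p : ℕ → E → ℝ) (hp : ∀ r e, 0 ≤ p r e ∧ p r e ≤ 1)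
    (S : Finset V) (r : ℕ) : 0 ≤ qq B p S r ∧ qq B p S r ≤ 1 ∧ qq B p S 0 = 1 := by
  refine ⟨?_, ?_, ?_⟩
  · have h := EE_mono B p hp r (f := fun _ => (0 : ℝ)) (g := fun X => if S ⊆ X then 1 else 0)
      fun X => by
        show (0 : ℝ) ≤ if S ⊆ X then 1 else 0
        split_ifs <;> norm_num
    rwa [EE_const] at h
  · have h := EE_mono B p hp r (f := fun X => if S ⊆ X then 1 else 0) (g := fun _ => (1 : ℝ))
      fun X => by
        show (if S ⊆ X then (1 : ℝ) else 0) ≤ 1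
        split_ifs <;> norm_num
    rwa [EE_const] at h
  · show (if S ⊆ Finset.univ then (1 : ℝ) else 0) = 1
    rw [if_pos (Finset.subset_univ S)]

/-- Edges meeting `S`. -/
def meet (B : E → Finset V) (S : Finset V) : Finset E :=
  Finset.univ.filter fun e => ¬ Disjoint (B e) S

/-- `|∏ (1 - p e) - 1 + ∑ p e| ≤ (∑ p e)^2` for `0 ≤ p ≤ 1`. -/
theorem prod_bound (A : Finset E) (p : E → ℝ) (hp : ∀ e, 0 ≤ p e ∧ p e ≤ 1) :
    |∏ e ∈ A, (1 - p e) - 1 + ∑ e ∈ A, p e| ≤ (∑ e ∈ A, p e) ^ 2 := by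
  have key : 0 ≤ ∏ e ∈ A, (1 - p e) - 1 + ∑ e ∈ A, p e ∧
      ∏ e ∈ A, (1 - p e) - 1 + ∑ e ∈ A, p e ≤ (∑ e ∈ A, p e) ^ 2 := by
    induction A using Finset.induction_on with
    | empty => simp
    | insert a A ha ih =>
      rw [Finset.prod_insert ha, Finset.sum_insert ha]
      obtain ⟨h1, h2⟩ := ih
      have hP0 : 0 ≤ ∏ e ∈ A, (1 - p e) :=
        Finset.prod_nonneg fun e _ => sub_nonneg.2 (hp e).2
      have hP1 : ∏ e ∈ A, (1 - p e) ≤ 1 :=
        Finset.prod_le_one (fun e _ => sub_nonneg.2 (hp e).2) fun e _ => by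
          linarith [(hp e).1]
      have hs0 : 0 ≤ ∑ e ∈ A, p e := Finset.sum_nonneg fun e _ => (hp e).1
      have ha0 := (hp a).1
      obtain ⟨P, hP⟩ : ∃ P, P = ∏ e ∈ A, (1 - p e) := ⟨_, rfl⟩
      obtain ⟨t, ht⟩ : ∃ t, t = ∑ e ∈ A, p e := ⟨_, rfl⟩
      rw [← hP] at h1 h2 hP0 hP1 ⊢
      rw [← ht] at h1 h2 hs0 ⊢
      have h3 : 0 ≤ p a * (1 - P) := mul_nonneg ha0 (by linarith)
      have h4 : p a * (1 - P) ≤ p a * t := mul_le_mul_of_nonneg_left (by linarith) ha0
      have h5 : (1 - p a) * P - 1 + (p a + t) = (P - 1 + t) + p a * (1 - P) := by ring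
      rw [h5]
      constructor
      · linarith
      · nlinarith [mul_nonneg ha0 hs0, sq_nonneg (p a)]
  rw [abs_of_nonneg key.1]
  exact key.2

private theorem n1_EE_sum (B : E → Finset V) (p : ℕ → E → ℝ) (r : ℕ) (A : Finset E)
    (g : E → Finset V → ℝ) :
    EE B p r (fun X => ∑ e ∈ A, g e X) = ∑ e ∈ A, EE B p r (g e) := by
  induction A using Finset.induction_on with
  | empty =>
    simp only [Finset.sum_empty]
    exact EE_const B p r 0
  | insert a A ha ih =>
    simp only [Finset.sum_insert ha]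
    rw [EE_add, ih]

private theorem n1_stp (B : E → Finset V) (p : E → ℝ) (S X : Finset V) :
    stp B p (fun X => if S ⊆ X then 1 else 0) X =
      (if S ⊆ X then 1 else 0) * ∏ e ∈ alive B X ∩ meet B S, (1 - p e) := by
  rw [← ex_avoid]
  unfold stp ex
  rw [Finset.mul_sum]
  refine Finset.sum_congr rfl fun Q _ => ?_
  have h1 : S ⊆ X \ Q.biUnion B ↔ S ⊆ X ∧ Disjoint Q (meet B S) := by
    rw [Finset.disjoint_left]
    constructor
    · intro h
      refine ⟨fun v hv => (Finset.mem_sdiff.1 (h hv)).1, fun e he hm => ?_⟩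
      unfold meet at hm
      rw [Finset.mem_filter] at hm
      apply hm.2
      rw [Finset.disjoint_left]
      intro v hv hvS
      exact (Finset.mem_sdiff.1 (h hvS)).2 (Finset.mem_biUnion.2 ⟨e, he, hv⟩)
    · rintro ⟨h, h'⟩ v hv
      rw [Finset.mem_sdiff]
      refine ⟨h hv, fun hb => ?_⟩
      obtain ⟨e, he, hve⟩ := Finset.mem_biUnion.1 hb
      apply h' he
      unfold meet
      rw [Finset.mem_filter]
      exact ⟨Finset.mem_univ e, Finset.not_disjoint_iff.2 ⟨v, hve, hv⟩⟩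
  have h2 : (if S ⊆ X \ Q.biUnion B then (1 : ℝ) else 0) =
      (if S ⊆ X then 1 else 0) * (if Disjoint Q (meet B S) then 1 else 0) := by
    by_cases h3 : S ⊆ X <;> by_cases h4 : Disjoint Q (meet B S) <;> simp [h1, h3, h4]
  show _ * (if S ⊆ X \ Q.biUnion B then (1 : ℝ) else 0) =
    (if S ⊆ X then 1 else 0) * (_ * (if Disjoint Q (meet B S) then 1 else 0))
  rw [h2]
  ring

/-- **Recursion.**  `stp (1_{S ⊆ .}) X = 1_{S ⊆ X} ∏_{e ∈ alive X ∩ meet S} (1 - p e)`
(`ex_avoid`), `prod_bound`, and `1_{S ⊆ X} 1_{B e ⊆ X} = 1_{S ∪ B e ⊆ X}`. -/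
theorem qq_succ (B : E → Finset V) (p : ℕ → E → ℝ) (hp : ∀ r e, 0 ≤ p r e ∧ p r e ≤ 1)
    (S : Finset V) (r : ℕ) :
    |qq B p S (r + 1) - qq B p S r + ∑ e ∈ meet B S, p r e * qq B p (S ∪ B e) r| ≤
      (∑ e ∈ meet B S, p r e) ^ 2 := by
  obtain ⟨f, hf⟩ : ∃ f : Finset V → ℝ, f = fun X =>
      (stp B (p r) (fun X => if S ⊆ X then 1 else 0) X + (-1) * (if S ⊆ X then 1 else 0)) +
        ∑ e ∈ meet B S, p r e * (if S ∪ B e ⊆ X then 1 else 0) := ⟨_, rfl⟩
  have h1 : qq B p S (r + 1) - qq B p S r + ∑ e ∈ meet B S, p r e * qq B p (S ∪ B e) r =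
      EE B p r f := by
    rw [hf, EE_add B p r (fun X => stp B (p r) (fun X => if S ⊆ X then 1 else 0) X +
      (-1) * (if S ⊆ X then 1 else 0)), EE_add B p r
      (stp B (p r) (fun X => if S ⊆ X then 1 else 0)) (fun X => (-1) * (if S ⊆ X then 1 else 0)),
      EE_smul, n1_EE_sum B p r (meet B S)
        (fun e X => p r e * (if S ∪ B e ⊆ X then 1 else 0))]
    have h2 : ∀ e, EE B p r (fun X => p r e * (if S ∪ B e ⊆ X then 1 else 0)) =
        p r e * qq B p (S ∪ B e) r := fun e => EE_smul B p r (p r e) _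
    simp only [h2]
    unfold qq
    show EE B p r (stp B (p r) fun X => if S ⊆ X then 1 else 0) - _ + _ = _
    ring
  have h2 : ∀ X, |f X| ≤ (∑ e ∈ meet B S, p r e) ^ 2 := by
    intro X
    have h3 : f X = (if S ⊆ X then 1 else 0) *
        (∏ e ∈ alive B X ∩ meet B S, (1 - p r e) - 1 + ∑ e ∈ alive B X ∩ meet B S, p r e) := by
      rw [hf]
      show stp B (p r) (fun X => if S ⊆ X then 1 else 0) X + (-1) * (if S ⊆ X then 1 else 0) +
        ∑ e ∈ meet B S, p r e * (if S ∪ B e ⊆ X then 1 else 0) = _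
      rw [n1_stp]
      have h4 : ∑ e ∈ meet B S, p r e * (if S ∪ B e ⊆ X then 1 else 0) =
          (if S ⊆ X then 1 else 0) * ∑ e ∈ alive B X ∩ meet B S, p r e := by
        rw [Finset.inter_comm, ← Finset.sum_ite_mem, Finset.mul_sum]
        refine Finset.sum_congr rfl fun e _ => ?_
        have h5 : e ∈ alive B X ↔ B e ⊆ X := by simp [alive]
        by_cases h6 : S ⊆ X <;> by_cases h7 : B e ⊆ X <;>
          simp [h5, h6, h7, Finset.union_subset_iff]
      rw [h4]
      ring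
    have h4 : |∏ e ∈ alive B X ∩ meet B S, (1 - p r e) - 1 +
        ∑ e ∈ alive B X ∩ meet B S, p r e| ≤ (∑ e ∈ meet B S, p r e) ^ 2 := by
      refine (prod_bound _ _ (hp r)).trans ?_
      have h5 : 0 ≤ ∑ e ∈ alive B X ∩ meet B S, p r e := Finset.sum_nonneg fun e _ => (hp r e).1
      have h6 : ∑ e ∈ alive B X ∩ meet B S, p r e ≤ ∑ e ∈ meet B S, p r e :=
        Finset.sum_le_sum_of_subset_of_nonneg Finset.inter_subset_right fun e _ _ => (hp r e).1
      exact pow_le_pow_left₀ h5 h6 2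
    rw [h3]
    split_ifs
    · rw [one_mul]
      exact h4
    · rw [zero_mul, abs_zero]
      positivity
  rw [h1, abs_le]
  constructor
  · have h3 := EE_mono B p hp r (f := fun _ => -(∑ e ∈ meet B S, p r e) ^ 2) (g := f)
      fun X => (abs_le.1 (h2 X)).1
    rwa [EE_const] at h3
  · have h3 := EE_mono B p hp r (f := f) (g := fun _ => (∑ e ∈ meet B S, p r e) ^ 2)
      fun X => (abs_le.1 (h2 X)).2
    rwa [EE_const] at h3

end Pool.Agent.W_a617e8_h51
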