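import Pool.Agent.W_a617e8_h51.N1

set_option autoImplicit false

/-! N1b: the error recursion. -/

noncomputable section

namespace Pool.Agent.W_a617e8_h51

variable {V E : Type} [Fintype V] [Fintype E] [DecidableEq V] [DecidableEq E]

/-- The probabilities used. -/
def pp (B : E → Finset V) (w : E → ℝ) (θ : ℝ) (r : ℕ) (e : E) : ℝ :=
  if (B e).Nonempty then θ * w e * Real.exp (θ * r * ((B e).card - 1)) else 0

/-- Deviation from `exp(-θ |S| r)`. -/
def dv (B : E → Finset V) (w : E → ℝ) (θ : ℝ) (S : Finset V) (r : ℕ) : ℝ :=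
  |qq B (pp B w θ) S r - Real.exp (-(θ * S.card * r))|

/-- The hypotheses of the nibble. -/
structure Nib (B : E → Finset V) (w : E → ℝ) (k : ℕ) (κ : ℝ) : Prop where
  card_le : ∀ e, (B e).card ≤ k
  w_nonneg : ∀ e, 0 ≤ w e
  deg : ∀ v, |(∑ e ∈ Finset.univ.filter (fun e => v ∈ B e), w e) - 1| ≤ κ
  codeg : ∀ u v, u ≠ v → ∑ e ∈ Finset.univ.filter (fun e => u ∈ B e ∧ v ∈ B e), w e ≤ κ

/-- `0 ≤ pp ≤ 1` for `θ r ≤ T`, `2 θ exp(T k) ≤ 1` (`w e ≤ 1 + κ ≤ 2` for nonempty edges). -/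
theorem pp_bounds {B : E → Finset V} {w : E → ℝ} {k : ℕ} {κ : ℝ} (h : Nib B w k κ) (hκ : κ ≤ 1)
    (θ T : ℝ) (hθ : 0 < θ) (h1 : 2 * θ * Real.exp (T * k) ≤ 1) (r : ℕ) (hr : θ * r ≤ T) (e : E) :
    0 ≤ pp B w θ r e ∧ pp B w θ r e ≤ 1 := by
  have hr0 : 0 ≤ θ * r := by positivity
  have hT : 0 ≤ T := hr0.trans hr
  unfold pp
  split_ifs with hne
  · obtain ⟨v, hv⟩ := hne
    have hw := h.w_nonneg e
    have hw2 : w e ≤ 2 := by
      have h2 : w e ≤ ∑ e ∈ Finset.univ.filter (fun e => v ∈ B e), w e :=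
        Finset.single_le_sum (f := w) (fun i _ => h.w_nonneg i)
          (Finset.mem_filter.2 ⟨Finset.mem_univ e, hv⟩)
      have h3 := (abs_le.1 (h.deg v)).2
      linarith
    have hc1 : (1 : ℝ) ≤ ((B e).card : ℝ) := by
      exact_mod_cast Finset.card_pos.2 ⟨v, hv⟩
    have hck : ((B e).card : ℝ) ≤ k := by exact_mod_cast h.card_le e
    have hexp : Real.exp (θ * r * ((B e).card - 1)) ≤ Real.exp (T * k) := by
      refine Real.exp_le_exp.2 ?_
      exact mul_le_mul hr (by linarith) (by linarith) hT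
    refine ⟨by positivity, ?_⟩
    calc θ * w e * Real.exp (θ * r * ((B e).card - 1))
        ≤ θ * 2 * Real.exp (T * k) := by
          refine mul_le_mul ?_ hexp (Real.exp_nonneg _) (by positivity)
          exact mul_le_mul_of_nonneg_left hw2 hθ.le
      _ ≤ 1 := by linarith
  · exact ⟨le_refl _, zero_le_one⟩

private theorem N1b_EE_congr (B : E → Finset V) (p p' : ℕ → E → ℝ) (r : ℕ)
    (h : ∀ s < r, p s = p' s) (f : Finset V → ℝ) : EE B p r f = EE B p' r f := by
  induction r generalizing f with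
  | zero => rfl
  | succ r ih =>
    change EE B p r (stp B (p r) f) = EE B p' r (stp B (p' r) f)
    rw [h r (Nat.lt_succ_self r)]
    exact ih (fun s hs => h s (Nat.lt_succ_of_lt hs)) _

private theorem N1b_deg {B : E → Finset V} {w : E → ℝ} {k : ℕ} {κ : ℝ} (h : Nib B w k κ)
    (S : Finset V) :
    |∑ e, w e * ((B e ∩ S).card : ℝ) - S.card| ≤ S.card * κ := by
  have h1 : ∑ e, w e * ((B e ∩ S).card : ℝ) =
      ∑ v ∈ S, ∑ e ∈ Finset.univ.filter (fun e => v ∈ B e), w e := by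
    have h2 : ∀ e, w e * ((B e ∩ S).card : ℝ) = ∑ v ∈ S, if v ∈ B e then w e else 0 := by
      intro e
      rw [← Finset.sum_filter, Finset.sum_const, nsmul_eq_mul, Finset.filter_mem_eq_inter,
        Finset.inter_comm, mul_comm]
    simp_rw [h2]
    rw [Finset.sum_comm]
    refine Finset.sum_congr rfl fun v _ => ?_
    rw [Finset.sum_filter]
  have h3 : ∑ e, w e * ((B e ∩ S).card : ℝ) - S.card =
      ∑ v ∈ S, ((∑ e ∈ Finset.univ.filter (fun e => v ∈ B e), w e) - 1) := by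
    rw [h1, Finset.sum_sub_distrib]
    simp
  rw [h3]
  calc _ ≤ ∑ v ∈ S, |(∑ e ∈ Finset.univ.filter (fun e => v ∈ B e), w e) - 1| :=
        Finset.abs_sum_le_sum_abs _ _
    _ ≤ ∑ _v ∈ S, κ := Finset.sum_le_sum fun v _ => h.deg v
    _ = S.card * κ := by rw [Finset.sum_const, nsmul_eq_mul]

private theorem N1b_codeg {B : E → Finset V} {w : E → ℝ} {k : ℕ} {κ : ℝ} (h : Nib B w k κ)
    (hκ0 : 0 ≤ κ) (S : Finset V) :
    ∑ e, w e * (((B e ∩ S).card : ℝ) * ((B e ∩ S).card - 1)) ≤ (S.card : ℝ) ^ 2 * κ := by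
  have h1 : ∀ e, w e * (((B e ∩ S).card : ℝ) * ((B e ∩ S).card - 1)) =
      ∑ x ∈ S.offDiag, if x.1 ∈ B e ∧ x.2 ∈ B e then w e else 0 := by
    intro e
    have h2 : S.offDiag.filter (fun x => x.1 ∈ B e ∧ x.2 ∈ B e) = (B e ∩ S).offDiag := by
      ext x
      simp only [Finset.mem_filter, Finset.mem_offDiag, Finset.mem_inter]
      tauto
    rw [← Finset.sum_filter, h2, Finset.sum_const, nsmul_eq_mul, Finset.offDiag_card,
      Nat.cast_sub (Nat.le_mul_self _), Nat.cast_mul]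
    ring
  simp_rw [h1]
  rw [Finset.sum_comm]
  calc _ ≤ ∑ _x ∈ S.offDiag, κ := by
        refine Finset.sum_le_sum fun x hx => ?_
        rw [← Finset.sum_filter]
        exact h.codeg x.1 x.2 (Finset.mem_offDiag.1 hx).2.2
    _ = (S.offDiag.card : ℝ) * κ := by rw [Finset.sum_const, nsmul_eq_mul]
    _ ≤ (S.card : ℝ) ^ 2 * κ := by
        refine mul_le_mul_of_nonneg_right ?_ hκ0
        have h3 : S.offDiag.card ≤ S.card ^ 2 := by
          rw [Finset.offDiag_card, sq]
          exact Nat.sub_le _ _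
        exact_mod_cast h3

private theorem N1b_mem_meet {B : E → Finset V} {S : Finset V} {e : E} :
    e ∈ meet B S ↔ (B e ∩ S).Nonempty := by
  unfold meet
  rw [Finset.mem_filter, Finset.disjoint_iff_inter_eq_empty, Finset.nonempty_iff_ne_empty]
  simp

private theorem N1b_sum_p {B : E → Finset V} {w : E → ℝ} {k : ℕ} {κ : ℝ} (h : Nib B w k κ)
    (hκ : κ ≤ 1) (θ T : ℝ) (hθ : 0 < θ) (r : ℕ) (hr : θ * r ≤ T) (n : ℕ) (S : Finset V)
    (hS : S.card ≤ n) :
    ∑ e ∈ meet B S, pp B w θ r e ≤ θ * n * (2 * Real.exp (T * k)) := by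
  have hr0 : 0 ≤ θ * r := by positivity
  have hT : 0 ≤ T := hr0.trans hr
  have h1 : ∀ e ∈ meet B S, pp B w θ r e ≤
      θ * Real.exp (T * k) * (w e * ((B e ∩ S).card : ℝ)) := by
    intro e he
    obtain ⟨v, hv⟩ := N1b_mem_meet.1 he
    have hvB : v ∈ B e := (Finset.mem_inter.1 hv).1
    unfold pp
    rw [if_pos ⟨v, hvB⟩]
    have hw := h.w_nonneg e
    have hc1 : (1 : ℝ) ≤ ((B e).card : ℝ) := by
      exact_mod_cast Finset.card_pos.2 ⟨v, hvB⟩
    have hm1 : (1 : ℝ) ≤ ((B e ∩ S).card : ℝ) := by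
      exact_mod_cast Finset.card_pos.2 ⟨v, hv⟩
    have hck : ((B e).card : ℝ) ≤ k := by exact_mod_cast h.card_le e
    have hexp : Real.exp (θ * r * ((B e).card - 1)) ≤ Real.exp (T * k) := by
      refine Real.exp_le_exp.2 ?_
      exact mul_le_mul hr (by linarith) (by linarith) hT
    calc θ * w e * Real.exp (θ * r * ((B e).card - 1))
        ≤ θ * w e * Real.exp (T * k) := mul_le_mul_of_nonneg_left hexp (by positivity)
      _ = θ * Real.exp (T * k) * (w e * 1) := by ring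
      _ ≤ θ * Real.exp (T * k) * (w e * ((B e ∩ S).card : ℝ)) := by
          refine mul_le_mul_of_nonneg_left ?_ (by positivity)
          exact mul_le_mul_of_nonneg_left hm1 hw
  have hSn : (S.card : ℝ) ≤ n := by exact_mod_cast hS
  have hS0 : (0 : ℝ) ≤ (S.card : ℝ) := Nat.cast_nonneg _
  calc ∑ e ∈ meet B S, pp B w θ r e
      ≤ ∑ e ∈ meet B S, θ * Real.exp (T * k) * (w e * ((B e ∩ S).card : ℝ)) :=
        Finset.sum_le_sum h1
    _ ≤ ∑ e, θ * Real.exp (T * k) * (w e * ((B e ∩ S).card : ℝ)) := by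
        refine Finset.sum_le_sum_of_subset_of_nonneg (Finset.subset_univ _) fun e _ _ => ?_
        have hw := h.w_nonneg e
        positivity
    _ = θ * Real.exp (T * k) * ∑ e, w e * ((B e ∩ S).card : ℝ) := by rw [Finset.mul_sum]
    _ ≤ θ * Real.exp (T * k) * (2 * n) := by
        refine mul_le_mul_of_nonneg_left ?_ (by positivity)
        have h2 := (abs_le.1 (N1b_deg h S)).2
        nlinarith
    _ = θ * n * (2 * Real.exp (T * k)) := by ring

private theorem N1b_exp {y : ℝ} (hy : 0 ≤ y) : |1 - y - Real.exp (-y)| ≤ y ^ 2 := by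
  rcases le_or_gt y 1 with h | h
  · have h1 := Real.abs_exp_sub_one_sub_id_le (x := -y) (by rw [abs_neg, abs_of_nonneg hy]; exact h)
    rw [abs_sub_comm]
    have h2 : Real.exp (-y) - (1 - y) = Real.exp (-y) - 1 - -y := by ring
    rw [h2]
    simpa using h1
  · have h1 : Real.exp (-y) ≤ 1 := Real.exp_le_one_iff.2 (by linarith)
    have h2 := Real.exp_nonneg (-y)
    rw [abs_le]
    constructor <;> nlinarith

private theorem N1b_main {B : E → Finset V} {w : E → ℝ} {k : ℕ} {κ : ℝ} (h : Nib B w k κ)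
    (hκ0 : 0 ≤ κ) (θ T : ℝ) (hθ : 0 < θ) (r : ℕ) (hr : θ * r ≤ T) (n : ℕ) (S : Finset V)
    (hS : S.card ≤ n) :
    |∑ e ∈ meet B S, pp B w θ r e * Real.exp (-(θ * (S ∪ B e).card * r)) -
      θ * S.card * Real.exp (-(θ * S.card * r))| ≤ θ * n ^ 2 * κ * (2 * Real.exp (T * k)) := by
  have hr0 : 0 ≤ θ * r := by positivity
  have hT : 0 ≤ T := hr0.trans hr
  have hTk : 0 ≤ T * k := by positivity
  have hE1 : 1 ≤ Real.exp (T * k) := Real.one_le_exp hTk
  set X := Real.exp (-(θ * S.card * r)) with hX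
  have hX0 : 0 ≤ X := Real.exp_nonneg _
  have hX1 : X ≤ 1 := by
    refine Real.exp_le_one_iff.2 ?_
    have : 0 ≤ θ * S.card * r := by positivity
    linarith
  have h1 : ∀ e ∈ meet B S, pp B w θ r e * Real.exp (-(θ * (S ∪ B e).card * r)) =
      θ * X * (w e * Real.exp (θ * r * (((B e ∩ S).card : ℝ) - 1))) := by
    intro e he
    obtain ⟨v, hv⟩ := N1b_mem_meet.1 he
    have hvB : v ∈ B e := (Finset.mem_inter.1 hv).1
    unfold pp
    rw [if_pos ⟨v, hvB⟩, hX]
    have hcard : ((S ∪ B e).card : ℝ) = S.card + (B e).card - ((B e ∩ S).card : ℝ) := by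
      have := Finset.card_union_add_card_inter S (B e)
      rw [Finset.inter_comm] at this
      have h2 : ((S ∪ B e).card : ℝ) + ((B e ∩ S).card : ℝ) = S.card + (B e).card := by
        exact_mod_cast this
      linarith
    rw [hcard]
    have h3 : θ * w e * Real.exp (θ * r * ((B e).card - 1)) *
        Real.exp (-(θ * (S.card + (B e).card - ((B e ∩ S).card : ℝ)) * r)) =
        θ * w e * (Real.exp (θ * r * ((B e).card - 1)) *
        Real.exp (-(θ * (S.card + (B e).card - ((B e ∩ S).card : ℝ)) * r))) := by ring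
    have h4 : θ * Real.exp (-(θ * S.card * r)) *
        (w e * Real.exp (θ * r * (((B e ∩ S).card : ℝ) - 1))) =
        θ * w e * (Real.exp (-(θ * S.card * r)) *
          Real.exp (θ * r * (((B e ∩ S).card : ℝ) - 1))) := by ring
    rw [h3, h4, ← Real.exp_add, ← Real.exp_add]
    congr 2
    ring
  have hsplit : ∑ e ∈ meet B S, w e * ((B e ∩ S).card : ℝ) =
      ∑ e, w e * ((B e ∩ S).card : ℝ) := by
    refine Finset.sum_subset (Finset.subset_univ _) fun e _ he => ?_
    have h2 : (B e ∩ S) = ∅ := by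
      rw [N1b_mem_meet] at he
      exact Finset.not_nonempty_iff_eq_empty.1 he
    rw [h2]
    simp
  have h2 : ∀ e ∈ meet B S, |w e * (Real.exp (θ * r * (((B e ∩ S).card : ℝ) - 1)) -
      ((B e ∩ S).card : ℝ))| ≤
      Real.exp (T * k) * (w e * (((B e ∩ S).card : ℝ) * ((B e ∩ S).card - 1))) := by
    intro e he
    have hw := h.w_nonneg e
    have hm1 : 1 ≤ (B e ∩ S).card := Finset.card_pos.2 (N1b_mem_meet.1 he)
    have hmk : (B e ∩ S).card ≤ k :=
      (Finset.card_le_card Finset.inter_subset_left).trans (h.card_le e)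
    generalize (B e ∩ S).card = m at hm1 hmk ⊢
    rw [abs_mul, abs_of_nonneg hw]
    rcases Nat.eq_or_lt_of_le hm1 with hm | hm
    · subst hm
      simp
    · have hm2 : (2 : ℝ) ≤ (m : ℝ) := by exact_mod_cast hm
      have hmk' : (m : ℝ) ≤ k := by exact_mod_cast hmk
      have hexp : Real.exp (θ * r * ((m : ℝ) - 1)) ≤ Real.exp (T * k) := by
        refine Real.exp_le_exp.2 ?_
        exact mul_le_mul hr (by linarith) (by linarith) hT
      have hexp0 := Real.exp_nonneg (θ * r * ((m : ℝ) - 1))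
      have hmm : (m : ℝ) ≤ (m : ℝ) * ((m : ℝ) - 1) := by nlinarith
      have hmm1 : (1 : ℝ) ≤ (m : ℝ) * ((m : ℝ) - 1) := by nlinarith
      have hb : |Real.exp (θ * r * ((m : ℝ) - 1)) - m| ≤
          Real.exp (T * k) * ((m : ℝ) * ((m : ℝ) - 1)) := by
        rw [abs_le]
        constructor
        · have : (m : ℝ) ≤ Real.exp (T * k) * ((m : ℝ) * ((m : ℝ) - 1)) := by nlinarith
          linarith
        · have : Real.exp (T * k) ≤ Real.exp (T * k) * ((m : ℝ) * ((m : ℝ) - 1)) := by nlinarith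
          linarith
      calc w e * |Real.exp (θ * r * ((m : ℝ) - 1)) - m| ≤
          w e * (Real.exp (T * k) * ((m : ℝ) * ((m : ℝ) - 1))) :=
            mul_le_mul_of_nonneg_left hb hw
        _ = _ := by ring
  have h3 : |∑ e ∈ meet B S, w e * (Real.exp (θ * r * (((B e ∩ S).card : ℝ) - 1)) -
      ((B e ∩ S).card : ℝ))| ≤ Real.exp (T * k) * ((S.card : ℝ) ^ 2 * κ) := by
    calc _ ≤ ∑ e ∈ meet B S, |w e * (Real.exp (θ * r * (((B e ∩ S).card : ℝ) - 1)) -
          ((B e ∩ S).card : ℝ))| := Finset.abs_sum_le_sum_abs _ _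
      _ ≤ ∑ e ∈ meet B S, Real.exp (T * k) *
          (w e * (((B e ∩ S).card : ℝ) * ((B e ∩ S).card - 1))) := Finset.sum_le_sum h2
      _ ≤ ∑ e, Real.exp (T * k) * (w e * (((B e ∩ S).card : ℝ) * ((B e ∩ S).card - 1))) := by
          refine Finset.sum_le_sum_of_subset_of_nonneg (Finset.subset_univ _) fun e _ _ => ?_
          have hw := h.w_nonneg e
          have hmm : (0 : ℝ) ≤ ((B e ∩ S).card : ℝ) * (((B e ∩ S).card : ℝ) - 1) := by
            rcases Nat.eq_zero_or_pos (B e ∩ S).card with h0 | h0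
            · rw [h0]; simp
            · have h5 : (1 : ℝ) ≤ ((B e ∩ S).card : ℝ) := by exact_mod_cast h0
              nlinarith
          exact mul_nonneg (Real.exp_nonneg _) (mul_nonneg hw hmm)
      _ = Real.exp (T * k) * ∑ e, w e * (((B e ∩ S).card : ℝ) * ((B e ∩ S).card - 1)) := by
          rw [Finset.mul_sum]
      _ ≤ _ := mul_le_mul_of_nonneg_left (N1b_codeg h hκ0 S) (Real.exp_nonneg _)
  have h4 := N1b_deg h S
  have hSn : (S.card : ℝ) ≤ n := by exact_mod_cast hS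
  have hS0 : (0 : ℝ) ≤ (S.card : ℝ) := Nat.cast_nonneg _
  have hnn : (n : ℝ) ≤ (n : ℝ) ^ 2 := by
    have : n ≤ n ^ 2 := by nlinarith [Nat.zero_le n, Nat.le_mul_self n]
    exact_mod_cast this
  have hSS : (S.card : ℝ) ^ 2 ≤ (n : ℝ) ^ 2 := by nlinarith
  have hkey : ∑ e ∈ meet B S, pp B w θ r e * Real.exp (-(θ * (S ∪ B e).card * r)) -
      θ * S.card * X = θ * X * ((∑ e ∈ meet B S, w e *
        (Real.exp (θ * r * (((B e ∩ S).card : ℝ) - 1)) - ((B e ∩ S).card : ℝ))) +
        (∑ e, w e * ((B e ∩ S).card : ℝ) - S.card)) := by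
    rw [Finset.sum_congr rfl h1, ← hsplit, ← Finset.mul_sum]
    simp only [mul_sub, Finset.sum_sub_distrib]
    ring
  rw [hkey, abs_mul, abs_of_nonneg (by positivity : 0 ≤ θ * X)]
  have h6 : |(∑ e ∈ meet B S, w e *
        (Real.exp (θ * r * (((B e ∩ S).card : ℝ) - 1)) - ((B e ∩ S).card : ℝ))) +
        (∑ e, w e * ((B e ∩ S).card : ℝ) - S.card)| ≤
      Real.exp (T * k) * ((n : ℝ) ^ 2 * κ) + (n : ℝ) ^ 2 * κ := by
    refine (abs_add_le _ _).trans (add_le_add (h3.trans ?_) (h4.trans ?_))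
    · exact mul_le_mul_of_nonneg_left (mul_le_mul_of_nonneg_right hSS hκ0) (Real.exp_nonneg _)
    · exact mul_le_mul_of_nonneg_right (hSn.trans hnn) hκ0
  have h7 : (n : ℝ) ^ 2 * κ ≤ Real.exp (T * k) * ((n : ℝ) ^ 2 * κ) := by
    have : 0 ≤ (n : ℝ) ^ 2 * κ := by positivity
    nlinarith
  have h8 : θ * X ≤ θ := by nlinarith
  calc _ ≤ θ * (Real.exp (T * k) * ((n : ℝ) ^ 2 * κ) + (n : ℝ) ^ 2 * κ) :=
        mul_le_mul h8 h6 (abs_nonneg _) hθ.le
    _ ≤ θ * (Real.exp (T * k) * ((n : ℝ) ^ 2 * κ) + Real.exp (T * k) * ((n : ℝ) ^ 2 * κ)) :=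
        mul_le_mul_of_nonneg_left (by linarith) hθ.le
    _ = _ := by ring

/-- **Error recursion.**  In the sum over `e ∈ meet B S` of `qq_succ` the edges with
`#(B e ∩ S) ≥ 2` contribute at most `#S^2 κ θ exp(T k)`; for `B e ∩ S = {v}`,
`#(S ∪ B e) = #S + #(B e) - 1` and `pp r e * exp(-θ r #(S ∪ B e)) = θ w e exp(-θ r #S)`; finally
`|exp(-x) (1 - y - exp(-y))| ≤ y^2` with `y = θ #S`.
(`p` may be truncated to rounds `≤ R` to have `p ≤ 1` for all `r`; `qq` at time `r + 1` only depends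
on the `p` of the rounds `≤ r`.) -/
theorem dv_succ {B : E → Finset V} {w : E → ℝ} {k : ℕ} {κ : ℝ} (h : Nib B w k κ) (hκ0 : 0 ≤ κ)
    (hκ : κ ≤ 1) (θ T : ℝ) (hθ : 0 < θ) (h1 : 2 * θ * Real.exp (T * k) ≤ 1) (r : ℕ)
    (hr : θ * r ≤ T) (n : ℕ) (a b : ℝ) (ha : ∀ S : Finset V, S.card ≤ n → dv B w θ S r ≤ a)
    (hb : ∀ S : Finset V, S.card ≤ n + k → dv B w θ S r ≤ b) (S : Finset V) (hS : S.card ≤ n) :
    dv B w θ S (r + 1) ≤ a + θ * n * (2 * Real.exp (T * k)) * b +
      3 * θ * n ^ 2 * κ * (2 * Real.exp (T * k)) + 2 * (θ * n * (2 * Real.exp (T * k))) ^ 2 := by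
  have hr0 : 0 ≤ θ * r := by positivity
  have hT : 0 ≤ T := hr0.trans hr
  have hTk : 0 ≤ T * k := by positivity
  have hE1 : 1 ≤ Real.exp (T * k) := Real.one_le_exp hTk
  -- the truncated probabilities
  set p' : ℕ → E → ℝ := fun s e => if s ≤ r then pp B w θ s e else 0 with hp'
  have hpb : ∀ s e, 0 ≤ p' s e ∧ p' s e ≤ 1 := by
    intro s e
    rw [hp']
    dsimp only
    split_ifs with hs
    · refine pp_bounds h hκ θ T hθ h1 s ?_ e
      have h2 : (s : ℝ) ≤ r := by exact_mod_cast hs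
      exact (mul_le_mul_of_nonneg_left h2 hθ.le).trans hr
    · exact ⟨le_refl _, zero_le_one⟩
  have hag : ∀ s ≤ r, pp B w θ s = p' s := by
    intro s hs
    funext e
    rw [hp']
    dsimp only
    rw [if_pos hs]
  have hq : ∀ s ≤ r + 1, ∀ S : Finset V, qq B (pp B w θ) S s = qq B p' S s := by
    intro s hs S
    unfold qq
    exact N1b_EE_congr B _ _ s (fun t ht => hag t (by omega)) _
  have hrec := qq_succ B p' hpb S r
  rw [← hq (r + 1) (le_refl _) S, ← hq r (Nat.le_succ r) S, ← hag r (le_refl r)] at hrec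
  have hrec2 : ∑ e ∈ meet B S, pp B w θ r e * qq B p' (S ∪ B e) r =
      ∑ e ∈ meet B S, pp B w θ r e * qq B (pp B w θ) (S ∪ B e) r := by
    refine Finset.sum_congr rfl fun e _ => ?_
    rw [hq r (Nat.le_succ r)]
  rw [hrec2] at hrec
  set M := θ * n * (2 * Real.exp (T * k)) with hM
  have hM0 : 0 ≤ M := by positivity
  have hsum := N1b_sum_p h hκ θ T hθ r hr n S hS
  rw [← hM] at hsum
  have hpos : ∀ e, 0 ≤ pp B w θ r e := fun e => (pp_bounds h hκ θ T hθ h1 r hr e).1
  have hsum0 : 0 ≤ ∑ e ∈ meet B S, pp B w θ r e := Finset.sum_nonneg fun e _ => hpos e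
  have hsq : (∑ e ∈ meet B S, pp B w θ r e) ^ 2 ≤ M ^ 2 := by
    exact pow_le_pow_left₀ hsum0 hsum 2
  have hb0 : 0 ≤ b := by
    have := hb ∅ (by simp)
    exact (abs_nonneg _).trans this
  -- replace the survival probabilities by exponentials
  have hdiff : |∑ e ∈ meet B S, pp B w θ r e * qq B (pp B w θ) (S ∪ B e) r -
      ∑ e ∈ meet B S, pp B w θ r e * Real.exp (-(θ * (S ∪ B e).card * r))| ≤ M * b := by
    rw [← Finset.sum_sub_distrib]
    calc _ ≤ ∑ e ∈ meet B S, |pp B w θ r e * qq B (pp B w θ) (S ∪ B e) r -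
          pp B w θ r e * Real.exp (-(θ * (S ∪ B e).card * r))| :=
          Finset.abs_sum_le_sum_abs _ _
      _ ≤ ∑ e ∈ meet B S, pp B w θ r e * b := by
          refine Finset.sum_le_sum fun e _ => ?_
          rw [← mul_sub, abs_mul, abs_of_nonneg (hpos e)]
          refine mul_le_mul_of_nonneg_left ?_ (hpos e)
          refine hb (S ∪ B e) ?_
          refine (Finset.card_union_le _ _).trans ?_
          exact add_le_add hS (h.card_le e)
      _ = (∑ e ∈ meet B S, pp B w θ r e) * b := by rw [Finset.sum_mul]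
      _ ≤ M * b := mul_le_mul_of_nonneg_right hsum hb0
  have hmain := N1b_main h hκ0 θ T hθ r hr n S hS
  have hSa := ha S hS
  unfold dv at hSa ⊢
  have hSn : (S.card : ℝ) ≤ n := by exact_mod_cast hS
  have hy0 : 0 ≤ θ * S.card := by positivity
  have hyM : θ * S.card ≤ M := by
    rw [hM]
    have h2 : θ * S.card ≤ θ * n := mul_le_mul_of_nonneg_left hSn hθ.le
    have h3 : θ * n ≤ θ * n * (2 * Real.exp (T * k)) := by
      have : 0 ≤ θ * (n : ℝ) := by positivity
      nlinarith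
    linarith
  have hy2 : (θ * S.card) ^ 2 ≤ M ^ 2 := pow_le_pow_left₀ hy0 hyM 2
  have hexp : |Real.exp (-(θ * S.card * r)) - θ * S.card * Real.exp (-(θ * S.card * r)) -
      Real.exp (-(θ * S.card * ((r + 1 : ℕ) : ℝ)))| ≤ M ^ 2 := by
    have h2 : Real.exp (-(θ * S.card * ((r + 1 : ℕ) : ℝ))) =
        Real.exp (-(θ * S.card * r)) * Real.exp (-(θ * S.card)) := by
      rw [← Real.exp_add]
      congr 1
      push_cast
      ring
    have h3 : Real.exp (-(θ * S.card * r)) ≤ 1 := by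
      refine Real.exp_le_one_iff.2 ?_
      have : 0 ≤ θ * S.card * r := by positivity
      linarith
    rw [h2]
    have h4 : Real.exp (-(θ * S.card * r)) - θ * S.card * Real.exp (-(θ * S.card * r)) -
        Real.exp (-(θ * S.card * r)) * Real.exp (-(θ * S.card)) =
        Real.exp (-(θ * S.card * r)) * (1 - θ * S.card - Real.exp (-(θ * S.card))) := by ring
    rw [h4, abs_mul, abs_of_nonneg (Real.exp_nonneg _)]
    calc _ ≤ 1 * (θ * S.card) ^ 2 :=
          mul_le_mul h3 (N1b_exp hy0) (abs_nonneg _) zero_le_one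
      _ ≤ M ^ 2 := by rw [one_mul]; exact hy2
  have hκn : 0 ≤ θ * n ^ 2 * κ * (2 * Real.exp (T * k)) := by positivity
  rw [abs_le] at hrec hdiff hmain hSa hexp ⊢
  constructor
  · have := hrec.1
    have := hdiff.2
    have := hmain.2
    have := hSa.1
    have := hexp.1
    nlinarith
  · have := hrec.2
    have := hdiff.1
    have := hmain.1
    have := hSa.2
    have := hexp.2
    nlinarith

end Pool.Agent.W_a617e8_h51
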