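import Mathlib

set_option autoImplicit false

/-! N2: solution of the error recursion. -/

noncomputable section

namespace Pool.Agent.W_a617e8_h51

/-- **Solution of the recursion.**  Proof: on an interval of length `T₀ = 1/(4 (k + 1) C)` iterate
the inequality `I` times: with `x = C (r - r₀) θ ≤ 1/(4(k+1))`,
`D n r ≤ ∑_{i < I} (∏_{l<i} (n + l k)) x^i / i! * (errors at level n + i k) +
(∏_{l<I} (n + l k)) x^I / I!`, and `∏_{l<i}(n + l k)/i! ≤ (k+1)^i 2^(n+i)`, so the last term is
`≤ 2^n 2^(-I)`; errors: `D m r₀ + T₀ (3 m^2 κ C + 2 θ (m C)^2)`.  Then finitely many intervals,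
starting with the last one (levels `n ≤ n₀`, tolerance `tol`), backwards. -/
theorem solve (k : ℕ) (C T : ℝ) (hC : 1 ≤ C) (hT : 0 < T) (n₀ : ℕ) (tol : ℝ) (htol : 0 < tol) :
    ∃ θ₀ κ₀ : ℝ, 0 < θ₀ ∧ 0 < κ₀ ∧ ∀ θ κ : ℝ, 0 < θ → θ ≤ θ₀ → 0 ≤ κ → κ ≤ κ₀ →
      ∀ D : ℕ → ℕ → ℝ, (∀ n r, 0 ≤ D n r ∧ D n r ≤ 1) → (∀ n m r, n ≤ m → D n r ≤ D m r) →
      (∀ n, D n 0 = 0) →
      (∀ n r : ℕ, θ * r ≤ T → D n (r + 1) ≤ D n r + θ * n * C * D (n + k) r +
        3 * θ * n ^ 2 * κ * C + 2 * (θ * n * C) ^ 2) →
      ∀ n r : ℕ, n ≤ n₀ → θ * r ≤ T → D n r ≤ tol := by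
  obtain ⟨lam, hlam⟩ : ∃ lam : ℝ, lam = 4 * C * Real.exp k := ⟨_, rfl⟩
  have hlampos : 0 < lam := by rw [hlam]; positivity
  obtain ⟨L, hL⟩ : ∃ L : ℝ, L = Real.exp (lam * T) * (n₀ + |Real.log tol| + 1) := ⟨_, rfl⟩
  have hLpos : 0 < L := by rw [hL]; positivity
  have hCpos : 0 < C := by linarith
  have hexpL : 0 < Real.exp (-L) := Real.exp_pos _
  refine ⟨min (1 / lam) (Real.exp (-L) / (4 * C * L)), Real.exp (-L) / (6 * L), ?_, ?_, ?_⟩
  · positivity
  · positivity
  intro θ κ hθ hθ0 hκ hκ0 D hD01 _ hD0 hrec
  have hθ1 : lam * θ ≤ 1 := by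
    have h1 : θ ≤ 1 / lam := hθ0.trans (min_le_left _ _)
    rw [le_div_iff₀ hlampos] at h1
    linarith
  have hθ2 : 4 * θ * C * L ≤ Real.exp (-L) := by
    have h1 : θ ≤ Real.exp (-L) / (4 * C * L) := hθ0.trans (min_le_right _ _)
    rw [le_div_iff₀ (by positivity)] at h1
    linarith
  have hκ1 : 6 * κ * L ≤ Real.exp (-L) := by
    rw [le_div_iff₀ (by positivity)] at hκ0
    linarith
  have key : ∀ r : ℕ, θ * r ≤ T → ∀ n : ℕ,
      D n r ≤ Real.exp (n - L * Real.exp (-(lam * θ * r))) := by
    intro r
    induction r with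
    | zero =>
      intro _ n
      rw [hD0 n]
      exact (Real.exp_pos _).le
    | succ r ih =>
      intro hr n
      have hr0 : θ * (r : ℝ) ≤ T := by
        push_cast at hr
        nlinarith
      have ihr := ih hr0
      obtain ⟨y, hy⟩ : ∃ y : ℝ, y = L * Real.exp (-(lam * θ * r)) := ⟨_, rfl⟩
      rw [← hy] at ihr
      have hypos : 0 < y := by rw [hy]; positivity
      have hyL : y ≤ L := by
        have h1 : Real.exp (-(lam * θ * r)) ≤ 1 := by
          rw [Real.exp_le_one_iff]
          have : 0 ≤ lam * θ * r := by positivity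
          linarith
        calc y = L * Real.exp (-(lam * θ * r)) := hy
          _ ≤ L * 1 := by gcongr
          _ = L := mul_one L
      have hy' : L * Real.exp (-(lam * θ * ((r + 1 : ℕ) : ℝ))) = y * Real.exp (-(lam * θ)) := by
        have h0 : -(lam * θ * ((r + 1 : ℕ) : ℝ)) = -(lam * θ * r) + -(lam * θ) := by
          push_cast
          ring
        rw [hy, h0, Real.exp_add]
        ring
      rw [hy']
      have hx0 : 0 < lam * θ := by positivity
      have hex : Real.exp (-(lam * θ)) ≤ 1 - lam * θ / 2 := by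
        have h1 : 1 + lam * θ ≤ Real.exp (lam * θ) := by
          have := Real.add_one_le_exp (lam * θ)
          linarith
        rw [Real.exp_neg]
        have h2 : (Real.exp (lam * θ))⁻¹ ≤ (1 + lam * θ)⁻¹ := by
          apply inv_anti₀ (by positivity) h1
        refine h2.trans ?_
        rw [inv_le_iff_one_le_mul₀ (by positivity)]
        nlinarith
      rcases le_or_gt (y * Real.exp (-(lam * θ))) (n : ℝ) with hn | hn
      · refine (hD01 n (r + 1)).2.trans ?_
        rw [← Real.exp_zero]
        apply Real.exp_le_exp.mpr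
        linarith
      · have hny : (n : ℝ) ≤ y := by
          have h1 : y * Real.exp (-(lam * θ)) ≤ y * 1 := by
            gcongr
            rw [Real.exp_le_one_iff]
            linarith
          linarith
        have hE : Real.exp (-L) ≤ Real.exp (n - y) := by
          apply Real.exp_le_exp.mpr
          have : (0 : ℝ) ≤ n := by positivity
          linarith
        have hn0 : (0 : ℝ) ≤ n := by positivity
        have h1 := hrec n r hr0
        have h2 := ihr n
        have h3 : D (n + k) r ≤ Real.exp k * Real.exp (n - y) := by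
          rw [← Real.exp_add]
          refine (ihr (n + k)).trans (le_of_eq ?_)
          congr 1
          push_cast
          ring
        have h4 : θ * n * C * D (n + k) r ≤ θ * y * C * (Real.exp k * Real.exp (n - y)) := by
          have : 0 ≤ D (n + k) r := (hD01 _ _).1
          gcongr
        have hk1 : 1 ≤ Real.exp k := by
          apply Real.one_le_exp
          positivity
        have hn2 : (n : ℝ) ^ 2 ≤ y * L := by
          rw [sq]
          gcongr
          linarith
        have h5 : 3 * θ * n ^ 2 * κ * C ≤ θ * y * C * (Real.exp (n - y) / 2) := by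
          calc 3 * θ * n ^ 2 * κ * C ≤ 3 * θ * (y * L) * κ * C := by gcongr
            _ = θ * y * C * ((6 * κ * L) / 2) := by ring
            _ ≤ θ * y * C * (Real.exp (n - y) / 2) := by
              gcongr
              exact hκ1.trans hE
        have h6 : 2 * (θ * n * C) ^ 2 ≤ θ * y * C * (Real.exp (n - y) / 2) := by
          calc 2 * (θ * n * C) ^ 2 = 2 * θ ^ 2 * n ^ 2 * C ^ 2 := by ring
            _ ≤ 2 * θ ^ 2 * (y * L) * C ^ 2 := by gcongr
            _ = θ * y * C * ((4 * θ * C * L) / 2) := by ring
            _ ≤ θ * y * C * (Real.exp (n - y) / 2) := by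
              gcongr
              exact hθ2.trans hE
        have h7 : D n (r + 1) ≤ Real.exp (n - y) * (1 + lam * θ / 2 * y) := by
          have h8 : θ * y * C * Real.exp (n - y) ≤
              θ * y * C * (Real.exp k * Real.exp (n - y)) := by
            have : Real.exp (n - y) ≤ Real.exp k * Real.exp (n - y) := by
              have := Real.exp_pos (n - y)
              nlinarith
            gcongr
          have h9 : Real.exp (n - y) * (1 + lam * θ / 2 * y) =
              Real.exp (n - y) + 2 * (θ * y * C * (Real.exp k * Real.exp (n - y))) := by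
            rw [hlam]
            ring
          rw [h9]
          linarith
        refine h7.trans ?_
        have h10 : 1 + lam * θ / 2 * y ≤ Real.exp (y - y * Real.exp (-(lam * θ))) := by
          have h11 := Real.add_one_le_exp (y - y * Real.exp (-(lam * θ)))
          have h12 : lam * θ / 2 * y ≤ y - y * Real.exp (-(lam * θ)) := by nlinarith
          linarith
        calc Real.exp (n - y) * (1 + lam * θ / 2 * y)
            ≤ Real.exp (n - y) * Real.exp (y - y * Real.exp (-(lam * θ))) := by
              gcongr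
          _ = Real.exp (n - y * Real.exp (-(lam * θ))) := by
              rw [← Real.exp_add]
              congr 1
              ring
  intro n r hn hr
  refine (key r hr n).trans ?_
  rw [← Real.exp_log htol]
  apply Real.exp_le_exp.mpr
  have h1 : Real.exp (-(lam * T)) ≤ Real.exp (-(lam * θ * r)) := by
    apply Real.exp_le_exp.mpr
    have : lam * (θ * r) ≤ lam * T := by gcongr
    linarith
  have h2 : L * Real.exp (-(lam * T)) = n₀ + |Real.log tol| + 1 := by
    rw [hL, mul_comm, ← mul_assoc, ← Real.exp_add]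
    simp
  have h3 : L * Real.exp (-(lam * T)) ≤ L * Real.exp (-(lam * θ * r)) := by gcongr
  have h4 : (n : ℝ) ≤ n₀ := by exact_mod_cast hn
  have h5 := neg_abs_le (Real.log tol)
  linarith

end Pool.Agent.W_a617e8_h51
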