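import Pool.Agent.W_a617e8_h51.N1b
import Pool.Agent.W_a617e8_h51.N2

set_option autoImplicit false

/-! N3: survival probabilities. -/

noncomputable section

namespace Pool.Agent.W_a617e8_h51

theorem N3_EE_congr {V E : Type} [Fintype V] [Fintype E] [DecidableEq V] [DecidableEq E]
    (B : E → Finset V) (p p' : ℕ → E → ℝ) (r : ℕ)
    (h : ∀ s < r, p s = p' s) (f : Finset V → ℝ) : EE B p r f = EE B p' r f := by
  induction r generalizing f with
  | zero => rfl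
  | succ r ih =>
    change EE B p r (stp B (p r) f) = EE B p' r (stp B (p' r) f)
    rw [h r (Nat.lt_succ_self r)]
    exact ih (fun s hs => h s (Nat.lt_succ_of_lt hs)) _

/-- The truncated probabilities: zero after the time `T`. -/
def N3_tr {V E : Type} (B : E → Finset V) (w : E → ℝ) (θ T : ℝ) (r : ℕ) (e : E) : ℝ :=
  if θ * r ≤ T then pp B w θ r e else 0

theorem N3_tr_bounds {V E : Type} [Fintype V] [Fintype E] [DecidableEq V] [DecidableEq E]
    {B : E → Finset V} {w : E → ℝ} {k : ℕ} {κ : ℝ} (h : Nib B w k κ) (hκ : κ ≤ 1)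
    (θ T : ℝ) (hθ : 0 < θ) (h1 : 2 * θ * Real.exp (T * k) ≤ 1) (r : ℕ) (e : E) :
    0 ≤ N3_tr B w θ T r e ∧ N3_tr B w θ T r e ≤ 1 := by
  unfold N3_tr
  split_ifs with hr
  · exact pp_bounds h hκ θ T hθ h1 r hr e
  · exact ⟨le_refl _, zero_le_one⟩

theorem N3_EE_tr {V E : Type} [Fintype V] [Fintype E] [DecidableEq V] [DecidableEq E]
    (B : E → Finset V) (w : E → ℝ) (θ T : ℝ) (hθ : 0 < θ) (r : ℕ) (hr : θ * r ≤ T)
    (f : Finset V → ℝ) : EE B (pp B w θ) r f = EE B (N3_tr B w θ T) r f := by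
  refine N3_EE_congr B _ _ r (fun s hs => ?_) f
  funext e
  unfold N3_tr
  rw [if_pos]
  have h2 : (s : ℝ) ≤ r := by exact_mod_cast hs.le
  exact (mul_le_mul_of_nonneg_left h2 hθ.le).trans hr

theorem N3_dv_le_one {V E : Type} [Fintype V] [Fintype E] [DecidableEq V] [DecidableEq E]
    {B : E → Finset V} {w : E → ℝ} {k : ℕ} {κ : ℝ} (h : Nib B w k κ) (hκ : κ ≤ 1)
    (θ T : ℝ) (hθ : 0 < θ) (h1 : 2 * θ * Real.exp (T * k) ≤ 1) (S : Finset V) (r : ℕ)
    (hr : θ * r ≤ T) : dv B w θ S r ≤ 1 := by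
  have hq : qq B (pp B w θ) S r = qq B (N3_tr B w θ T) S r := N3_EE_tr B w θ T hθ r hr _
  obtain ⟨h2, h3, -⟩ := qq_bounds B (N3_tr B w θ T) (N3_tr_bounds h hκ θ T hθ h1) S r
  have h4 : 0 ≤ θ * S.card * r := by positivity
  have h5 : Real.exp (-(θ * S.card * r)) ≤ 1 := Real.exp_le_one_iff.2 (by linarith)
  have h6 := Real.exp_pos (-(θ * S.card * r))
  unfold dv
  rw [hq, abs_le]
  constructor <;> linarith

/-- Survival probabilities are close to `exp(-θ #S r)` for `#S ≤ n₀` (`dv_succ`, `solve` with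
`D n r = max_{#S ≤ n} dv S r`; `dv ≤ 1` as both terms are in `[0, 1]`). -/
theorem dv_small (k n₀ : ℕ) (T tol : ℝ) (hT : 0 < T) (htol : 0 < tol) :
    ∃ θ₀ κ₀ : ℝ, 0 < θ₀ ∧ 0 < κ₀ ∧ 2 * θ₀ * Real.exp (T * k) ≤ 1 ∧ κ₀ ≤ 1 ∧
      ∀ θ κ : ℝ, 0 < θ → θ ≤ θ₀ → 0 ≤ κ → κ ≤ κ₀ →
      ∀ (V E : Type) [Fintype V] [Fintype E] [DecidableEq V] [DecidableEq E]
        (B : E → Finset V) (w : E → ℝ), Nib B w k κ →
      ∀ (S : Finset V) (r : ℕ), S.card ≤ n₀ → θ * r ≤ T → dv B w θ S r ≤ tol := by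
  have hTk : 0 ≤ T * k := by positivity
  have hE1 : 1 ≤ Real.exp (T * k) := Real.one_le_exp hTk
  have hE0 : 0 < Real.exp (T * k) := Real.exp_pos _
  obtain ⟨θ₁, κ₁, hθ₁, hκ₁, hsolve⟩ := solve k (2 * Real.exp (T * k)) T (by linarith) hT n₀ tol htol
  refine ⟨min θ₁ (1 / (2 * Real.exp (T * k))), min κ₁ 1, lt_min hθ₁ (by positivity),
    lt_min hκ₁ one_pos, ?_, min_le_right _ _, ?_⟩
  · calc 2 * min θ₁ (1 / (2 * Real.exp (T * k))) * Real.exp (T * k) ≤
          2 * (1 / (2 * Real.exp (T * k))) * Real.exp (T * k) := by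
          refine mul_le_mul_of_nonneg_right ?_ hE0.le
          exact mul_le_mul_of_nonneg_left (min_le_right _ _) (by norm_num)
      _ = 1 := by field_simp
  intro θ κ hθ hθ0 hκ0 hκ V E _ _ _ _ B w hN
  have hθ1 : θ ≤ θ₁ := hθ0.trans (min_le_left _ _)
  have hκ1 : κ ≤ κ₁ := hκ.trans (min_le_left _ _)
  have hκ2 : κ ≤ 1 := hκ.trans (min_le_right _ _)
  have h1 : 2 * θ * Real.exp (T * k) ≤ 1 := by
    calc 2 * θ * Real.exp (T * k) ≤ 2 * (1 / (2 * Real.exp (T * k))) * Real.exp (T * k) := by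
          refine mul_le_mul_of_nonneg_right ?_ hE0.le
          exact mul_le_mul_of_nonneg_left (hθ0.trans (min_le_right _ _)) (by norm_num)
      _ = 1 := by field_simp
  have hne : ∀ n : ℕ, ((Finset.univ : Finset (Finset V)).filter fun S => S.card ≤ n).Nonempty :=
    fun n => ⟨∅, Finset.mem_filter.2 ⟨Finset.mem_univ _, by simp⟩⟩
  obtain ⟨D, hD⟩ : ∃ D : ℕ → ℕ → ℝ, D = fun n r =>
      min 1 (((Finset.univ : Finset (Finset V)).filter fun S => S.card ≤ n).sup' (hne n)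
        fun S => dv B w θ S r) := ⟨_, rfl⟩
  have hDle : ∀ (n r : ℕ) (S : Finset V), S.card ≤ n → θ * r ≤ T → dv B w θ S r ≤ D n r := by
    intro n r S hS hr
    rw [hD]
    refine le_min (N3_dv_le_one hN hκ2 θ T hθ h1 S r hr) ?_
    exact Finset.le_sup' (fun S => dv B w θ S r)
      (Finset.mem_filter.2 ⟨Finset.mem_univ S, hS⟩)
  have hD01 : ∀ n r, 0 ≤ D n r ∧ D n r ≤ 1 := by
    intro n r
    rw [hD]
    refine ⟨le_min zero_le_one ?_, min_le_left _ _⟩
    have h2 : (0 : ℝ) ≤ dv B w θ ∅ r := abs_nonneg _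
    exact h2.trans (Finset.le_sup' (fun S => dv B w θ S r)
      (Finset.mem_filter.2 ⟨Finset.mem_univ ∅, by simp⟩))
  have hDmono : ∀ n m r, n ≤ m → D n r ≤ D m r := by
    intro n m r hnm
    rw [hD]
    refine min_le_min_left _ (Finset.sup'_le _ _ fun S hS => ?_)
    exact Finset.le_sup' (fun S => dv B w θ S r)
      (Finset.mem_filter.2 ⟨Finset.mem_univ S, (Finset.mem_filter.1 hS).2.trans hnm⟩)
  have hD0 : ∀ n, D n 0 = 0 := by
    intro n
    refine le_antisymm ?_ (hD01 n 0).1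
    rw [hD]
    refine (min_le_right _ _).trans (Finset.sup'_le _ _ fun S _ => ?_)
    unfold dv
    have h2 : qq B (pp B w θ) S 0 = 1 := by
      show (if S ⊆ Finset.univ then (1 : ℝ) else 0) = 1
      rw [if_pos (Finset.subset_univ S)]
    rw [h2]
    simp
  have hrec : ∀ n r : ℕ, θ * r ≤ T → D n (r + 1) ≤ D n r +
      θ * n * (2 * Real.exp (T * k)) * D (n + k) r +
      3 * θ * n ^ 2 * κ * (2 * Real.exp (T * k)) + 2 * (θ * n * (2 * Real.exp (T * k))) ^ 2 := by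
    intro n r hr
    have h2 := dv_succ hN hκ0 hκ2 θ T hθ h1 r hr n (D n r) (D (n + k) r)
      (fun S hS => hDle n r S hS hr) (fun S hS => hDle (n + k) r S hS hr)
    rw [hD] at h2 ⊢
    refine (min_le_right _ _).trans (Finset.sup'_le _ _ fun S hS => ?_)
    exact h2 S (Finset.mem_filter.1 hS).2
  intro S r hS hr
  exact (hDle n₀ r S hS hr).trans
    (hsolve θ κ hθ hθ1 hκ0 hκ1 D hD01 hDmono hD0 hrec n₀ r le_rfl hr)

end Pool.Agent.W_a617e8_h51
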