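import Pool.Agent.W_a617e8_h51.N3

set_option autoImplicit false

/-! N3b: the weighted nibble. -/

noncomputable section

namespace Pool.Agent.W_a617e8_h51

private theorem n3b_EE_sum {V E : Type} [Fintype V] [Fintype E] [DecidableEq V] [DecidableEq E]
    (B : E → Finset V) (p : ℕ → E → ℝ) (r : ℕ) {I : Type} [DecidableEq I] (A : Finset I)
    (g : I → Finset V → ℝ) :
    EE B p r (fun X => ∑ e ∈ A, g e X) = ∑ e ∈ A, EE B p r (g e) := by
  induction A using Finset.induction_on with
  | empty =>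
    simp only [Finset.sum_empty]
    exact EE_const B p r 0
  | insert a A ha ih =>
    simp only [Finset.sum_insert ha]
    rw [EE_add, ih]

/-- The expected leftover. -/
private theorem n3b_left {V E : Type} [Fintype V] [Fintype E] [DecidableEq V] [DecidableEq E]
    (B : E → Finset V) (p : ℕ → E → ℝ) (r : ℕ) (μ : V → ℝ) :
    EE B p r (fun X => ∑ v ∈ X, μ v) = ∑ v, μ v * qq B p {v} r := by
  have h1 : (fun X : Finset V => ∑ v ∈ X, μ v) =
      fun X => ∑ v, μ v * (if {v} ⊆ X then 1 else 0) := by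
    funext X
    rw [← Finset.sum_ite_mem_eq]
    refine Finset.sum_congr rfl fun v _ => ?_
    by_cases hv : v ∈ X <;> simp [hv]
  rw [h1, n3b_EE_sum B p r Finset.univ (fun v X => μ v * (if {v} ⊆ X then 1 else 0))]
  exact Finset.sum_congr rfl fun v _ => EE_smul B p r (μ v) _

/-- The expected cost of a round. -/
private theorem n3b_cost {V E : Type} [Fintype V] [Fintype E] [DecidableEq V] [DecidableEq E]
    (B : E → Finset V) (p : ℕ → E → ℝ) (r : ℕ) (a : E → ℝ) :
    EE B p r (fun X => ∑ e ∈ alive B X, a e) = ∑ e, a e * qq B p (B e) r := by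
  have h1 : (fun X : Finset V => ∑ e ∈ alive B X, a e) =
      fun X => ∑ e, a e * (if B e ⊆ X then 1 else 0) := by
    funext X
    unfold alive
    rw [Finset.sum_filter]
    refine Finset.sum_congr rfl fun e _ => ?_
    by_cases he : B e ⊆ X <;> simp [he]
  rw [h1, n3b_EE_sum B p r Finset.univ (fun e X => a e * (if B e ⊆ X then 1 else 0))]
  exact Finset.sum_congr rfl fun e _ => EE_smul B p r (a e) _

/-- `∑_{r < R} θ exp(-θ r) ≤ 1 + θ`. -/
private theorem n3b_geom (θ : ℝ) (hθ : 0 < θ) (R : ℕ) :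
    ∑ r ∈ Finset.range R, θ * Real.exp (-(θ * r)) ≤ 1 + θ := by
  have h1 : ∀ R : ℕ, ∑ r ∈ Finset.range R, θ * Real.exp (-(θ * r)) ≤
      (1 + θ) * (1 - Real.exp (-(θ * R))) := by
    intro R
    induction R with
    | zero => simp
    | succ R ih =>
      rw [Finset.sum_range_succ]
      have h2 : Real.exp (-(θ * ((R + 1 : ℕ) : ℝ))) =
          Real.exp (-(θ * R)) * Real.exp (-θ) := by
        rw [← Real.exp_add]
        congr 1
        push_cast
        ring
      rw [h2]
      have h3 : (1 + θ) * Real.exp (-θ) ≤ 1 := by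
        have h4 := Real.add_one_le_exp θ
        calc (1 + θ) * Real.exp (-θ) ≤ Real.exp θ * Real.exp (-θ) :=
              mul_le_mul_of_nonneg_right (by linarith) (Real.exp_pos _).le
          _ = 1 := by rw [← Real.exp_add, add_neg_cancel, Real.exp_zero]
      have h5 := Real.exp_pos (-(θ * R))
      nlinarith
  have h2 := h1 R
  have h3 := Real.exp_pos (-(θ * R))
  nlinarith

/-- **Nibble.**  Proof: `T` with `exp(-T) ≤ ε/4`, `R = ⌊T/θ⌋`, `dv_small` with `n₀ = k` (`≥ 1`) and
small `tol`; `EE_exists` with `f X = ∑_{v ∈ X} μ v`.  Expected leftover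
`∑ μ v qq {v} R ≤ ∑ μ v (exp(-θ R) + tol)`; expected cost
`∑_e c e ∑_{r < R} pp r e * qq (B e) r ≤ ∑ c e w e (∑_r θ exp(-θ r) + T exp(T k) tol)`
and `∑_r θ exp(-θ r) ≤ θ/(1 - exp(-θ)) ≤ 1 + θ`. -/
theorem nibble (k : ℕ) (ε : ℝ) (hε : 0 < ε) : ∃ κ : ℝ, 0 < κ ∧
    ∀ (V E : Type) [Fintype V] [Fintype E] [DecidableEq V] [DecidableEq E]
      (B : E → Finset V) (w c : E → ℝ) (μ : V → ℝ), Nib B w k κ → (∀ e, 0 ≤ c e) →
      (∀ v, 0 ≤ μ v) →
      ∃ E' : Finset E, ∃ U : Finset V, (∀ v, v ∈ U ∨ ∃ e ∈ E', v ∈ B e) ∧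
        ∑ e ∈ E', c e + ∑ v ∈ U, μ v ≤ (1 + ε) * ∑ e, w e * c e + ε * ∑ v, μ v := by
  obtain ⟨T, hT, hTε⟩ : ∃ T : ℝ, 0 < T ∧ 2 * Real.exp (-T) ≤ ε / 2 := by
    refine ⟨max 1 (-Real.log (ε / 4)), lt_max_of_lt_left one_pos, ?_⟩
    have h1 : Real.exp (-max 1 (-Real.log (ε / 4))) ≤ Real.exp (Real.log (ε / 4)) := by
      apply Real.exp_le_exp.2
      have := le_max_right 1 (-Real.log (ε / 4))
      linarith
    rw [Real.exp_log (by positivity)] at h1
    linarith
  have hE0 : 0 < Real.exp (T * k) := Real.exp_pos _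
  obtain ⟨tol, htol, htol1, htol2⟩ : ∃ tol : ℝ, 0 < tol ∧ tol ≤ ε / 2 ∧
      T * Real.exp (T * k) * tol ≤ ε / 2 := by
    refine ⟨min (ε / 2) (ε / 2 / (T * Real.exp (T * k))), by positivity, min_le_left _ _, ?_⟩
    calc T * Real.exp (T * k) * min (ε / 2) (ε / 2 / (T * Real.exp (T * k))) ≤
          T * Real.exp (T * k) * (ε / 2 / (T * Real.exp (T * k))) :=
          mul_le_mul_of_nonneg_left (min_le_right _ _) (by positivity)
      _ = ε / 2 := by field_simp
  obtain ⟨θ₀, κ₀, hθ₀, hκ₀, h2θ, hκ₀1, hdv⟩ := dv_small k (max k 1) T tol hT htol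
  obtain ⟨θ, hθ, hθ1, hθ2, hθ3⟩ : ∃ θ : ℝ, 0 < θ ∧ θ ≤ θ₀ ∧ θ ≤ ε / 2 ∧ θ ≤ 1 / 2 :=
    ⟨min θ₀ (min (ε / 2) (1 / 2)), by positivity, min_le_left _ _,
      (min_le_right _ _).trans (min_le_left _ _), (min_le_right _ _).trans (min_le_right _ _)⟩
  refine ⟨κ₀, hκ₀, ?_⟩
  intro V E _ _ _ _ B w c μ hN hc hμ
  have h1 : 2 * θ * Real.exp (T * k) ≤ 1 := by
    refine le_trans ?_ h2θ
    refine mul_le_mul_of_nonneg_right ?_ hE0.le
    linarith
  obtain ⟨R, hR⟩ : ∃ R : ℕ, R = ⌊T / θ⌋₊ := ⟨_, rfl⟩
  have hR1 : θ * R ≤ T := by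
    have := Nat.floor_le (div_nonneg hT.le hθ.le)
    rw [← hR, le_div_iff₀ hθ] at this
    linarith
  have hR2 : T < θ * R + θ := by
    have := Nat.lt_floor_add_one (T / θ)
    rw [← hR, div_lt_iff₀ hθ] at this
    linarith
  have hrT : ∀ r : ℕ, r ≤ R → θ * r ≤ T := by
    intro r hr
    have h2 : (r : ℝ) ≤ R := by exact_mod_cast hr
    exact (mul_le_mul_of_nonneg_left h2 hθ.le).trans hR1
  obtain ⟨E', U, hcov, hle⟩ := EE_exists B (N3_tr B w θ T) (N3_tr_bounds hN hκ₀1 θ T hθ h1) c hc R
    fun X => ∑ v ∈ X, μ v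
  refine ⟨E', U, hcov, hle.trans ?_⟩
  have hqq : ∀ (S : Finset V) (r : ℕ), S.card ≤ max k 1 → θ * r ≤ T →
      qq B (N3_tr B w θ T) S r ≤ Real.exp (-(θ * S.card * r)) + tol := by
    intro S r hS hr
    have h2 : qq B (N3_tr B w θ T) S r = qq B (pp B w θ) S r :=
      (N3_EE_tr B w θ T hθ r hr _).symm
    have h3 := hdv θ κ₀ hθ hθ1 hκ₀.le le_rfl V E B w hN S r hS hr
    unfold dv at h3
    have h4 := (abs_le.1 h3).2
    rw [h2]
    linarith
  refine add_le_add ?_ ?_
  · -- the cost
    have h2 : ∀ r ∈ Finset.range R, EE B (N3_tr B w θ T) r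
        (fun X => ∑ e ∈ alive B X, N3_tr B w θ T r e * c e) ≤
        ∑ e, w e * c e * (θ * Real.exp (-(θ * r)) + θ * (Real.exp (T * k) * tol)) := by
      intro r hr
      rw [n3b_cost]
      refine Finset.sum_le_sum fun e _ => ?_
      have hrT' := hrT r (Finset.mem_range.1 hr).le
      have hr0 : 0 ≤ θ * r := by positivity
      have hw := hN.w_nonneg e
      have hce := hc e
      have hcard := hN.card_le e
      unfold N3_tr
      rw [if_pos hrT']
      unfold pp
      split_ifs with hne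
      · have hq := hqq (B e) r (hcard.trans (le_max_left _ _)) hrT'
        have h3 : Real.exp (θ * r * ((B e).card - 1)) * Real.exp (-(θ * (B e).card * r)) =
            Real.exp (-(θ * r)) := by
          rw [← Real.exp_add]
          congr 1
          ring
        have hc1 : (1 : ℝ) ≤ ((B e).card : ℝ) := by
          exact_mod_cast Finset.card_pos.2 hne
        have hck : ((B e).card : ℝ) ≤ k := by exact_mod_cast hcard
        have h4 : Real.exp (θ * r * ((B e).card - 1)) ≤ Real.exp (T * k) := by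
          refine Real.exp_le_exp.2 ?_
          exact mul_le_mul hrT' (by linarith) (by linarith) hT.le
        have h5 := Real.exp_pos (θ * r * ((B e).card - 1))
        have h6 : Real.exp (θ * r * ((B e).card - 1)) *
            qq B (N3_tr B w θ T) (B e) r ≤ Real.exp (-(θ * r)) + Real.exp (T * k) * tol := by
          calc Real.exp (θ * r * ((B e).card - 1)) * qq B (N3_tr B w θ T) (B e) r ≤
              Real.exp (θ * r * ((B e).card - 1)) *
                (Real.exp (-(θ * (B e).card * r)) + tol) :=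
                mul_le_mul_of_nonneg_left hq h5.le
            _ = Real.exp (-(θ * r)) + Real.exp (θ * r * ((B e).card - 1)) * tol := by
                rw [mul_add, h3]
            _ ≤ _ := by
                have := mul_le_mul_of_nonneg_right h4 htol.le
                linarith
        calc θ * w e * Real.exp (θ * r * ((B e).card - 1)) * c e *
              qq B (N3_tr B w θ T) (B e) r =
              w e * c e * θ * (Real.exp (θ * r * ((B e).card - 1)) *
                qq B (N3_tr B w θ T) (B e) r) := by ring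
          _ ≤ w e * c e * θ * (Real.exp (-(θ * r)) + Real.exp (T * k) * tol) :=
              mul_le_mul_of_nonneg_left h6 (by positivity)
          _ = _ := by ring
      · rw [zero_mul, zero_mul]
        positivity
    refine (Finset.sum_le_sum h2).trans ?_
    rw [Finset.sum_comm]
    have h3 : ∀ e, ∑ r ∈ Finset.range R, w e * c e *
        (θ * Real.exp (-(θ * r)) + θ * (Real.exp (T * k) * tol)) ≤ (1 + ε) * (w e * c e) := by
      intro e
      have hw := hN.w_nonneg e
      have hce := hc e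
      rw [← Finset.mul_sum, Finset.sum_add_distrib, Finset.sum_const, Finset.card_range,
        nsmul_eq_mul]
      have h4 := n3b_geom θ hθ R
      have h5 : (R : ℝ) * (θ * (Real.exp (T * k) * tol)) ≤ ε / 2 := by
        calc (R : ℝ) * (θ * (Real.exp (T * k) * tol)) = (θ * R) * (Real.exp (T * k) * tol) := by
              ring
          _ ≤ T * (Real.exp (T * k) * tol) :=
              mul_le_mul_of_nonneg_right hR1 (by positivity)
          _ = T * Real.exp (T * k) * tol := by ring
          _ ≤ ε / 2 := htol2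
      rw [mul_comm (1 + ε)]
      refine mul_le_mul_of_nonneg_left ?_ (mul_nonneg hw hce)
      linarith
    refine (Finset.sum_le_sum fun e _ => h3 e).trans ?_
    rw [← Finset.mul_sum]
  · -- the leftover
    rw [n3b_left, Finset.mul_sum]
    refine Finset.sum_le_sum fun v _ => ?_
    have h2 := hqq {v} R (by simp) hR1
    have h3 : Real.exp (-(θ * (({v} : Finset V).card : ℝ) * R)) ≤ 2 * Real.exp (-T) := by
      rw [Finset.card_singleton]
      have h4 : Real.exp (-(θ * ((1 : ℕ) : ℝ) * R)) ≤ Real.exp (-T + θ) := by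
        apply Real.exp_le_exp.2
        push_cast
        linarith
      refine h4.trans ?_
      rw [Real.exp_add, mul_comm]
      refine mul_le_mul_of_nonneg_right ?_ (Real.exp_pos _).le
      have h5 := Real.add_one_le_exp (-θ)
      have h6 : Real.exp θ * Real.exp (-θ) = 1 := by
        rw [← Real.exp_add, add_neg_cancel, Real.exp_zero]
      have h7 := Real.exp_pos θ
      nlinarith
    calc μ v * qq B (N3_tr B w θ T) {v} R ≤ μ v * ε :=
          mul_le_mul_of_nonneg_left (by linarith) (hμ v)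
      _ = ε * μ v := mul_comm _ _

end Pool.Agent.W_a617e8_h51
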