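import Pool.Agent.W_a617e8_h51.B0b

set_option autoImplicit false

/-! P0: multiplicative windows and counting of prime vectors. -/

noncomputable section

open Filter Topology

namespace Pool.Agent.W_a617e8_h51

/-- Index of the window `[ρ^j, ρ^(j+1))` containing `p`. -/
def widx (ρ : ℝ) (p : ℕ) : ℕ := ⌊Real.logb ρ p⌋₊

theorem widx_eq_iff {ρ : ℝ} (hρ : 1 < ρ) {p j : ℕ} (hp : p.Prime) :
    widx ρ p = j ↔ p ∈ pwin ρ j (j + 1) := by
  have hp0 : (0 : ℝ) < p := by exact_mod_cast hp.pos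
  have hp1 : (1 : ℝ) ≤ p := by exact_mod_cast hp.one_le
  have h0 : 0 ≤ Real.logb ρ p := Real.logb_nonneg hρ hp1
  rw [mem_pwin, ← Real.le_logb_iff_rpow_le hρ hp0, ← Real.logb_lt_iff_lt_rpow hρ hp0]
  unfold widx
  rw [Nat.floor_eq_iff h0]
  exact ⟨fun h => ⟨hp, h.1, h.2⟩, fun h => ⟨h.2.1, h.2.2⟩⟩

/-- `S` and `Z` match `u`: `#S` is the number of primes of `u`, and the window of every prime of `u`
is some `Z x`, `x ∈ S`. -/
def Mtch (ρ : ℝ) {m : ℕ} (S : Finset (Fin m)) (Z : Fin m → ℕ) (u : ℕ) : Prop :=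
  S.card = u.primeFactors.card ∧ ∀ p ∈ u.primeFactors, ∃ x ∈ S, Z x = widx ρ p

/-- The primes of `u` are in different windows. -/
def Sep (ρ : ℝ) (u : ℕ) : Prop :=
  Squarefree u ∧ ∀ p ∈ u.primeFactors, ∀ q ∈ u.primeFactors, widx ρ p = widx ρ q → p = q

/-- Prime vectors with given windows. -/
def PV (ρ : ℝ) {m : ℕ} (Z : Fin m → ℕ) : Finset (Fin m → ℕ) :=
  Fintype.piFinset fun x => pwin ρ (Z x) (Z x + 1)

theorem P0_mem_PV {ρ : ℝ} {m : ℕ} {Z q : Fin m → ℕ} :
    q ∈ PV ρ Z ↔ ∀ x, q x ∈ pwin ρ (Z x) (Z x + 1) := by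
  unfold PV
  rw [Fintype.mem_piFinset]

theorem P0_widx {ρ : ℝ} (hρ : 1 < ρ) {p j : ℕ} (h : p ∈ pwin ρ j (j + 1)) :
    p.Prime ∧ widx ρ p = j := by
  have hp : p.Prime := (mem_pwin.1 h).1
  exact ⟨hp, (widx_eq_iff hρ hp).2 h⟩

/-- The coordinates in `S` are the primes of `u`. -/
theorem P0_struct {ρ : ℝ} (hρ : 1 < ρ) {m : ℕ} (S : Finset (Fin m)) (Z : Fin m → ℕ) (u : ℕ)
    (hu : Sep ρ u) {q : Fin m → ℕ} (hq : q ∈ PV ρ Z) (hqu : ∏ x ∈ S, q x = u) :
    Mtch ρ S Z u ∧ ∀ x ∈ S, q x ∈ u.primeFactors ∧ widx ρ (q x) = Z x := by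
  classical
  have hpr : ∀ x, (q x).Prime ∧ widx ρ (q x) = Z x := fun x => P0_widx hρ (P0_mem_PV.1 hq x)
  have hu0 : u ≠ 0 := hu.1.ne_zero
  have hmem : ∀ x ∈ S, q x ∈ u.primeFactors := by
    intro x hx
    rw [Nat.mem_primeFactors]
    refine ⟨(hpr x).1, ?_, hu0⟩
    rw [← hqu]
    exact Finset.dvd_prod_of_mem q hx
  have hinj : Set.InjOn q (S : Set (Fin m)) := by
    intro x hx y hy hxy
    by_contra hne
    have h1 : q x * q x ∣ u := by
      rw [← hqu, ← Finset.mul_prod_erase S q hx]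
      refine mul_dvd_mul_left _ ?_
      rw [hxy]
      exact Finset.dvd_prod_of_mem q (Finset.mem_erase.2 ⟨fun h => hne h.symm, hy⟩)
    have h2 := hu.1 (q x) h1
    exact (hpr x).1.one_lt.ne' (Nat.isUnit_iff.1 h2)
  have himg : u.primeFactors = S.image q := by
    ext p
    constructor
    · intro hp
      have hpp := Nat.prime_of_mem_primeFactors hp
      have hd := Nat.dvd_of_mem_primeFactors hp
      rw [← hqu, hpp.prime.dvd_finsetProd_iff] at hd
      obtain ⟨x, hx, hd⟩ := hd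
      rw [Finset.mem_image]
      exact ⟨x, hx, ((Nat.prime_dvd_prime_iff_eq hpp (hpr x).1).1 hd).symm⟩
    · intro hp
      obtain ⟨x, hx, rfl⟩ := Finset.mem_image.1 hp
      exact hmem x hx
  refine ⟨⟨?_, fun p hp => ?_⟩, fun x hx => ⟨hmem x hx, (hpr x).2⟩⟩
  · rw [himg, Finset.card_image_of_injOn hinj]
  · rw [himg] at hp
    obtain ⟨x, hx, rfl⟩ := Finset.mem_image.1 hp
    exact ⟨x, hx, (hpr x).2.symm⟩

/-- The coordinates in `S` are determined. -/
theorem P0_unique {ρ : ℝ} (hρ : 1 < ρ) {m : ℕ} (S : Finset (Fin m)) (Z : Fin m → ℕ) (u : ℕ)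
    (hu : Sep ρ u) {q q' : Fin m → ℕ} (hq : q ∈ PV ρ Z) (hqu : ∏ x ∈ S, q x = u)
    (hq' : q' ∈ PV ρ Z) (hqu' : ∏ x ∈ S, q' x = u) : ∀ x ∈ S, q x = q' x := by
  intro x hx
  obtain ⟨h1, h2⟩ := (P0_struct hρ S Z u hu hq hqu).2 x hx
  obtain ⟨h3, h4⟩ := (P0_struct hρ S Z u hu hq' hqu').2 x hx
  exact hu.2 _ h1 _ h3 (h2.trans h4.symm)

open Classical in
/-- Upper bound for the number of prime vectors with `∏_{x ∈ S} q x = u`.
Proof: unique factorisation: `(q x)_{x ∈ S}` is a bijection to the primes of `u` (which are in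
different windows), so `Mtch` holds and `q x` is determined by `Z x` for `x ∈ S`. -/
theorem count_le {ρ : ℝ} (hρ : 1 < ρ) {m : ℕ} (S : Finset (Fin m)) (Z : Fin m → ℕ) (u : ℕ)
    (hu : Sep ρ u) :
    ((((PV ρ Z).filter fun q => ∏ x ∈ S, q x = u).card : ℕ) : ℝ) ≤
      if Mtch ρ S Z u then ∏ x ∈ Finset.univ \ S, (nwin ρ (Z x) : ℝ) else 0 := by
  rcases ((PV ρ Z).filter fun q => ∏ x ∈ S, q x = u).eq_empty_or_nonempty with h0 | ⟨q0, hq0⟩
  · rw [h0, Finset.card_empty, Nat.cast_zero]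
    split_ifs
    · exact Finset.prod_nonneg fun x _ => Nat.cast_nonneg _
    · exact le_rfl
  · obtain ⟨h1, h2⟩ := Finset.mem_filter.1 hq0
    rw [if_pos (P0_struct hρ S Z u hu h1 h2).1]
    have hsub : ((PV ρ Z).filter fun q => ∏ x ∈ S, q x = u) ⊆
        Fintype.piFinset fun x => if x ∈ S then {q0 x} else pwin ρ (Z x) (Z x + 1) := by
      intro q hq
      obtain ⟨h3, h4⟩ := Finset.mem_filter.1 hq
      rw [Fintype.mem_piFinset]
      intro x
      split_ifs with hx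
      · rw [Finset.mem_singleton]
        exact P0_unique hρ S Z u hu h3 h4 h1 h2 x hx
      · exact P0_mem_PV.1 h3 x
    have h3 := Finset.card_le_card hsub
    rw [Fintype.card_piFinset, ← Finset.prod_sdiff (Finset.subset_univ S)] at h3
    have h4 : ∏ x ∈ S, (if x ∈ S then ({q0 x} : Finset ℕ) else pwin ρ (Z x) (Z x + 1)).card =
        1 := by
      refine Finset.prod_eq_one fun x hx => ?_
      rw [if_pos hx, Finset.card_singleton]
    have h5 : ∏ x ∈ Finset.univ \ S,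
        (if x ∈ S then ({q0 x} : Finset ℕ) else pwin ρ (Z x) (Z x + 1)).card =
        ∏ x ∈ Finset.univ \ S, nwin ρ (Z x) := by
      refine Finset.prod_congr rfl fun x hx => ?_
      rw [if_neg (Finset.mem_sdiff.1 hx).2]
      rfl
    rw [h4, h5, mul_one] at h3
    exact_mod_cast h3

open Classical in
/-- The ones with in addition `q y ∈ P'` for a given `y ∉ S`. -/
theorem count_two {ρ : ℝ} (hρ : 1 < ρ) {m : ℕ} (S : Finset (Fin m)) (Z : Fin m → ℕ) (u : ℕ)
    (hu : Sep ρ u) (y : Fin m) (hy : y ∉ S) (P' : Finset ℕ) (N : ℕ) (h0 : 0 < N)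
    (hN : ∀ x, N ≤ nwin ρ (Z x)) :
    ((((PV ρ Z).filter fun q => ∏ x ∈ S, q x = u ∧ q y ∈ P').card : ℕ) : ℝ) ≤
      if Mtch ρ S Z u then
        (P'.card : ℝ) / N * ∏ x ∈ Finset.univ \ S, (nwin ρ (Z x) : ℝ) else 0 := by
  rcases ((PV ρ Z).filter fun q => ∏ x ∈ S, q x = u ∧ q y ∈ P').eq_empty_or_nonempty
    with h0 | ⟨q0, hq0⟩
  · rw [h0, Finset.card_empty, Nat.cast_zero]
    split_ifs
    · exact mul_nonneg (by positivity) (Finset.prod_nonneg fun x _ => Nat.cast_nonneg _)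
    · exact le_rfl
  · obtain ⟨h1, h2, -⟩ := Finset.mem_filter.1 hq0
    rw [if_pos (P0_struct hρ S Z u hu h1 h2).1]
    have hsub : ((PV ρ Z).filter fun q => ∏ x ∈ S, q x = u ∧ q y ∈ P') ⊆
        Fintype.piFinset fun x => if x ∈ S then {q0 x} else
          if x = y then P' else pwin ρ (Z x) (Z x + 1) := by
      intro q hq
      obtain ⟨h3, h4, h5⟩ := Finset.mem_filter.1 hq
      rw [Fintype.mem_piFinset]
      intro x
      split_ifs with hx hxy
      · rw [Finset.mem_singleton]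
        exact P0_unique hρ S Z u hu h3 h4 h1 h2 x hx
      · rw [hxy]
        exact h5
      · exact P0_mem_PV.1 h3 x
    have h3 := Finset.card_le_card hsub
    have hy' : y ∈ Finset.univ \ S := Finset.mem_sdiff.2 ⟨Finset.mem_univ y, hy⟩
    rw [Fintype.card_piFinset, ← Finset.prod_sdiff (Finset.subset_univ S),
      ← Finset.mul_prod_erase _ _ hy'] at h3
    have h4 : ∏ x ∈ S, (if x ∈ S then ({q0 x} : Finset ℕ) else
        if x = y then P' else pwin ρ (Z x) (Z x + 1)).card = 1 := by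
      refine Finset.prod_eq_one fun x hx => ?_
      rw [if_pos hx, Finset.card_singleton]
    have h5 : ∏ x ∈ (Finset.univ \ S).erase y,
        (if x ∈ S then ({q0 x} : Finset ℕ) else
          if x = y then P' else pwin ρ (Z x) (Z x + 1)).card =
        ∏ x ∈ (Finset.univ \ S).erase y, nwin ρ (Z x) := by
      refine Finset.prod_congr rfl fun x hx => ?_
      obtain ⟨hxy, hx⟩ := Finset.mem_erase.1 hx
      rw [if_neg (Finset.mem_sdiff.1 hx).2, if_neg hxy]
      rfl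
    rw [h4, h5, mul_one, if_neg hy, if_pos rfl] at h3
    have h6 : ((((PV ρ Z).filter fun q => ∏ x ∈ S, q x = u ∧ q y ∈ P').card : ℕ) : ℝ) ≤
        (P'.card : ℝ) * ∏ x ∈ (Finset.univ \ S).erase y, (nwin ρ (Z x) : ℝ) := by
      exact_mod_cast h3
    refine h6.trans ?_
    rw [← Finset.mul_prod_erase (Finset.univ \ S) (fun x => (nwin ρ (Z x) : ℝ)) hy', ← mul_assoc]
    refine mul_le_mul_of_nonneg_right ?_ (Finset.prod_nonneg fun x _ => Nat.cast_nonneg _)
    have h7 : (0 : ℝ) < N := by exact_mod_cast h0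
    have h8 : (N : ℝ) ≤ nwin ρ (Z y) := by exact_mod_cast hN y
    rw [div_mul_eq_mul_div, le_div_iff₀ h7]
    exact mul_le_mul_of_nonneg_left h8 (Nat.cast_nonneg _)

end Pool.Agent.W_a617e8_h51
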