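import Pool.Agent.W_a617e8_h51.P0

set_option autoImplicit false

/-! P0b: lower bound for the number of injective prime vectors. -/

noncomputable section

open Filter Topology

namespace Pool.Agent.W_a617e8_h51

/-- Partial choices: coordinates in `S` are `q0`, in `T` primes of the windows, `0` elsewhere, all
those in `S ∪ T` different. -/
private def pA (ρ : ℝ) {m : ℕ} (S : Finset (Fin m)) (Z q0 : Fin m → ℕ) (T : Finset (Fin m)) :
    Finset (Fin m → ℕ) :=
  open Classical in
  (Fintype.piFinset fun x => if x ∈ S then {q0 x} else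
    if x ∈ T then pwin ρ (Z x) (Z x + 1) else {0}).filter
      fun q => Set.InjOn q ((S ∪ T : Finset (Fin m)) : Set (Fin m))

private theorem pA_mem {ρ : ℝ} {m : ℕ} {S : Finset (Fin m)} {Z q0 : Fin m → ℕ}
    {T : Finset (Fin m)} {q : Fin m → ℕ} : q ∈ pA ρ S Z q0 T ↔
      (∀ x ∈ S, q x = q0 x) ∧ (∀ x ∈ T, x ∉ S → q x ∈ pwin ρ (Z x) (Z x + 1)) ∧
      (∀ x, x ∉ S → x ∉ T → q x = 0) ∧ Set.InjOn q ((S ∪ T : Finset (Fin m)) : Set (Fin m)) := by
  classical
  unfold pA
  rw [Finset.mem_filter, Fintype.mem_piFinset]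
  constructor
  · rintro ⟨h, hi⟩
    refine ⟨fun x hx => ?_, fun x hT hS => ?_, fun x hS hT => ?_, hi⟩
    · have h1 := h x
      rw [if_pos hx, Finset.mem_singleton] at h1
      exact h1
    · have h1 := h x
      rw [if_neg hS, if_pos hT] at h1
      exact h1
    · have h1 := h x
      rw [if_neg hS, if_neg hT, Finset.mem_singleton] at h1
      exact h1
  · rintro ⟨h1, h2, h3, hi⟩
    refine ⟨fun x => ?_, hi⟩
    split_ifs with hS hT
    · exact Finset.mem_singleton.2 (h1 x hS)
    · exact h2 x hT hS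
    · exact Finset.mem_singleton.2 (h3 x hS hT)

private theorem pA_card {ρ : ℝ} {m : ℕ} (S : Finset (Fin m)) (Z q0 : Fin m → ℕ)
    (h0 : Set.InjOn q0 (S : Set (Fin m))) (hN : ∀ x, m ≤ nwin ρ (Z x)) (T : Finset (Fin m))
    (hT : Disjoint T S) :
    ∏ x ∈ T, ((nwin ρ (Z x) : ℝ) - m) ≤ ((pA ρ S Z q0 T).card : ℝ) := by
  classical
  induction T using Finset.induction_on with
  | empty =>
    rw [Finset.prod_empty]
    have h1 : (pA ρ S Z q0 ∅).Nonempty := by
      refine ⟨fun x => if x ∈ S then q0 x else 0, pA_mem.2 ⟨fun x hx => if_pos hx,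
        fun x hx => absurd hx (Finset.notMem_empty x), fun x hx _ => if_neg hx, ?_⟩⟩
      intro x hx y hy hxy
      rw [Finset.union_empty, Finset.mem_coe] at hx hy
      have hxy' : (if x ∈ S then q0 x else 0) = (if y ∈ S then q0 y else 0) := hxy
      rw [if_pos hx, if_pos hy] at hxy'
      exact h0 hx hy hxy'
    exact_mod_cast Finset.card_pos.2 h1
  | insert y T hyT ih =>
    rw [Finset.disjoint_insert_left] at hT
    obtain ⟨hyS, hTS⟩ := hT
    have ih := ih hTS
    rw [Finset.prod_insert hyT]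
    have hyST : y ∉ S ∪ T := by
      rw [Finset.mem_union]
      exact fun h => h.elim hyS hyT
    let Bs := (pA ρ S Z q0 T).sigma fun q =>
      pwin ρ (Z y) (Z y + 1) \ (S ∪ T).image q
    have hmap : ∀ a ∈ Bs, Function.update a.1 y a.2 ∈ pA ρ S Z q0 (insert y T) := by
      rintro ⟨q, p⟩ ha
      obtain ⟨hq, hp⟩ := Finset.mem_sigma.1 ha
      obtain ⟨hp1, hp2⟩ := Finset.mem_sdiff.1 hp
      obtain ⟨g1, g2, g3, g4⟩ := pA_mem.1 hq
      have hne : ∀ x ∈ S ∪ T, x ≠ y := fun x hx h => hyST (h ▸ hx)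
      refine pA_mem.2 ⟨fun x hx => ?_, fun x hx hxS => ?_, fun x hxS hxT => ?_, ?_⟩
      · show Function.update q y p x = q0 x
        rw [Function.update_of_ne (hne x (Finset.mem_union_left _ hx))]
        exact g1 x hx
      · show Function.update q y p x ∈ pwin ρ (Z x) (Z x + 1)
        rcases Finset.mem_insert.1 hx with rfl | hx
        · rw [Function.update_self]
          exact hp1
        · rw [Function.update_of_ne (hne x (Finset.mem_union_right _ hx))]
          exact g2 x hx hxS
      · show Function.update q y p x = 0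
        rw [Finset.mem_insert, not_or] at hxT
        rw [Function.update_of_ne hxT.1]
        exact g3 x hxS hxT.2
      · intro x hx x' hx' hxx
        have hxx' : Function.update q y p x = Function.update q y p x' := hxx
        rw [Finset.mem_coe, Finset.union_insert, Finset.mem_insert] at hx hx'
        rcases hx with rfl | hx <;> rcases hx' with rfl | hx'
        · rfl
        · rw [Function.update_self, Function.update_of_ne (hne x' hx')] at hxx'
          exact absurd (Finset.mem_image.2 ⟨x', hx', hxx'.symm⟩) hp2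
        · rw [Function.update_self, Function.update_of_ne (hne x hx)] at hxx'
          exact absurd (Finset.mem_image.2 ⟨x, hx, hxx'⟩) hp2
        · rw [Function.update_of_ne (hne x hx), Function.update_of_ne (hne x' hx')] at hxx'
          exact g4 hx hx' hxx'
    have hinj : Set.InjOn (fun a : (_ : Fin m → ℕ) × ℕ => Function.update a.1 y a.2)
        (Bs : Set ((_ : Fin m → ℕ) × ℕ)) := by
      rintro ⟨q, p⟩ ha ⟨q', p'⟩ ha' h
      obtain ⟨hq, -⟩ := Finset.mem_sigma.1 ha
      obtain ⟨hq', -⟩ := Finset.mem_sigma.1 ha'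
      have h1 : Function.update q y p = Function.update q' y p' := h
      have h2 : p = p' := by
        have := congrFun h1 y
        rwa [Function.update_self, Function.update_self] at this
      have h3 : q = q' := by
        funext x
        by_cases hx : x = y
        · have e1 : q y = 0 := (pA_mem.1 hq).2.2.1 y hyS hyT
          have e2 : q' y = 0 := (pA_mem.1 hq').2.2.1 y hyS hyT
          rw [hx, e1, e2]
        · have := congrFun h1 x
          rwa [Function.update_of_ne hx, Function.update_of_ne hx] at this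
      rw [h2, h3]
    have hcard := Finset.card_le_card_of_injOn _ hmap hinj
    have hB : ((nwin ρ (Z y) : ℝ) - m) * (pA ρ S Z q0 T).card ≤ (Bs.card : ℝ) := by
      show _ ≤ (((pA ρ S Z q0 T).sigma fun q =>
        pwin ρ (Z y) (Z y + 1) \ (S ∪ T).image q).card : ℝ)
      rw [Finset.card_sigma, Nat.cast_sum, mul_comm, ← nsmul_eq_mul, ← Finset.sum_const]
      refine Finset.sum_le_sum fun q _ => ?_
      have h1 : (pwin ρ (Z y) (Z y + 1)).card ≤
          (pwin ρ (Z y) (Z y + 1) \ (S ∪ T).image q).card + ((S ∪ T).image q).card := by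
        exact Finset.card_le_card_sdiff_add_card
      have h2 : ((S ∪ T).image q).card ≤ m := by
        refine Finset.card_image_le.trans ?_
        have := Finset.card_le_univ (S ∪ T)
        rwa [Fintype.card_fin] at this
      have h3 : nwin ρ (Z y) ≤ (pwin ρ (Z y) (Z y + 1) \ (S ∪ T).image q).card + m :=
        h1.trans (Nat.add_le_add_left h2 _)
      have h4 : (nwin ρ (Z y) : ℝ) ≤
          ((pwin ρ (Z y) (Z y + 1) \ (S ∪ T).image q).card : ℝ) + m := by
        exact_mod_cast h3
      linarith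
    have h5 : (0 : ℝ) ≤ (nwin ρ (Z y) : ℝ) - m := by
      have : (m : ℝ) ≤ nwin ρ (Z y) := by exact_mod_cast hN y
      linarith
    calc ((nwin ρ (Z y) : ℝ) - m) * ∏ x ∈ T, ((nwin ρ (Z x) : ℝ) - m) ≤
        ((nwin ρ (Z y) : ℝ) - m) * (pA ρ S Z q0 T).card := mul_le_mul_of_nonneg_left ih h5
      _ ≤ Bs.card := hB
      _ ≤ _ := by exact_mod_cast hcard

open Classical in
/-- Lower bound for the number of the injective ones: choose the coordinates outside `S` one after
the other, avoiding the at most `m` values already used. -/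
theorem count_ge {ρ : ℝ} (hρ : 1 < ρ) {m : ℕ} (S : Finset (Fin m)) (Z : Fin m → ℕ) (u : ℕ)
    (hu : Sep ρ u) (hM : Mtch ρ S Z u) (N : ℕ) (hmN : m < N) (hN : ∀ x, N ≤ nwin ρ (Z x)) :
    (1 - (m : ℝ) / N) ^ m * ∏ x ∈ Finset.univ \ S, (nwin ρ (Z x) : ℝ) ≤
      ((((PV ρ Z).filter fun q => Function.Injective q ∧ ∏ x ∈ S, q x = u).card : ℕ) : ℝ) := by
  have hN0 : 0 < N := by omega
  have hNr : (0 : ℝ) < N := by exact_mod_cast hN0
  have hmr : (m : ℝ) / N ≤ 1 := by
    rw [div_le_one hNr]
    exact_mod_cast hmN.le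
  -- the prime of each coordinate in `S`
  obtain ⟨hcard, hM2⟩ := hM
  have hwinj : Set.InjOn (widx ρ) (u.primeFactors : Set ℕ) := fun p hp p' hp' h =>
    hu.2 p hp p' hp' h
  have hwcard : (u.primeFactors.image (widx ρ)).card = S.card := by
    rw [Finset.card_image_of_injOn hwinj, hcard]
  have hwsub : u.primeFactors.image (widx ρ) ⊆ S.image Z := by
    intro z hz
    obtain ⟨p, hp, rfl⟩ := Finset.mem_image.1 hz
    obtain ⟨x, hx, h⟩ := hM2 p hp
    exact Finset.mem_image.2 ⟨x, hx, h⟩
  have hZcard : (S.image Z).card ≤ (u.primeFactors.image (widx ρ)).card := by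
    rw [hwcard]
    exact Finset.card_image_le
  have hZimg : u.primeFactors.image (widx ρ) = S.image Z :=
    Finset.eq_of_subset_of_card_le hwsub hZcard
  have hZinj : Set.InjOn Z (S : Set (Fin m)) := by
    refine Finset.card_image_iff.1 ?_
    rw [← hZimg, hwcard]
  have hex : ∀ x, x ∈ S → ∃ p, p ∈ u.primeFactors ∧ widx ρ p = Z x := by
    intro x hx
    have h1 : Z x ∈ u.primeFactors.image (widx ρ) := by
      rw [hZimg]
      exact Finset.mem_image_of_mem Z hx
    obtain ⟨p, hp, h⟩ := Finset.mem_image.1 h1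
    exact ⟨p, hp, h⟩
  choose! q0 hq0 hq0Z using hex
  have hq0inj : Set.InjOn q0 (S : Set (Fin m)) := by
    intro x hx y hy h
    refine hZinj hx hy ?_
    rw [← hq0Z x hx, ← hq0Z y hy, h]
  have hq0win : ∀ x ∈ S, q0 x ∈ pwin ρ (Z x) (Z x + 1) := by
    intro x hx
    have hp := Nat.prime_of_mem_primeFactors (hq0 x hx)
    rw [← widx_eq_iff hρ hp, hq0Z x hx]
  have hprod : ∏ x ∈ S, q0 x = u := by
    have h2 : S.image q0 = u.primeFactors := by
      refine Finset.eq_of_subset_of_card_le ?_ ?_
      · intro p hp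
        obtain ⟨x, hx, rfl⟩ := Finset.mem_image.1 hp
        exact hq0 x hx
      · rw [Finset.card_image_of_injOn hq0inj, hcard]
    have h1 : ∏ x ∈ S, q0 x = ∏ p ∈ u.primeFactors, p := by
      rw [← h2, Finset.prod_image hq0inj]
    rw [h1]
    exact Nat.prod_primeFactors_of_squarefree hu.1
  have hA := pA_card (ρ := ρ) S Z q0 hq0inj (fun x => hmN.le.trans (hN x)) (Finset.univ \ S)
    Finset.sdiff_disjoint
  have hsub : pA ρ S Z q0 (Finset.univ \ S) ⊆
      (PV ρ Z).filter fun q => Function.Injective q ∧ ∏ x ∈ S, q x = u := by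
    intro q hq
    obtain ⟨g1, g2, -, g4⟩ := pA_mem.1 hq
    rw [Finset.mem_filter]
    refine ⟨P0_mem_PV.2 fun x => ?_, fun x y h => ?_, ?_⟩
    · by_cases hx : x ∈ S
      · rw [g1 x hx]
        exact hq0win x hx
      · exact g2 x (Finset.mem_sdiff.2 ⟨Finset.mem_univ x, hx⟩) hx
    · refine g4 ?_ ?_ h <;>
        rw [Finset.union_sdiff_of_subset (Finset.subset_univ S)] <;>
        exact Finset.mem_coe.2 (Finset.mem_univ _)
    · rw [← hprod]
      exact Finset.prod_congr rfl g1
  have hcard2 : ((pA ρ S Z q0 (Finset.univ \ S)).card : ℝ) ≤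
      ((((PV ρ Z).filter fun q => Function.Injective q ∧ ∏ x ∈ S, q x = u).card : ℕ) : ℝ) := by
    exact_mod_cast Finset.card_le_card hsub
  refine le_trans (le_trans ?_ hA) hcard2
  have h1 : ∏ x ∈ Finset.univ \ S, ((1 - (m : ℝ) / N) * nwin ρ (Z x)) ≤
      ∏ x ∈ Finset.univ \ S, ((nwin ρ (Z x) : ℝ) - m) := by
    refine Finset.prod_le_prod (fun x _ => mul_nonneg (by linarith) (Nat.cast_nonneg _))
      fun x _ => ?_
    have h2 : (N : ℝ) ≤ nwin ρ (Z x) := by exact_mod_cast hN x
    have h3 : (m : ℝ) ≤ (m : ℝ) / N * nwin ρ (Z x) := by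
      calc (m : ℝ) = (m : ℝ) / N * N := by field_simp
        _ ≤ _ := mul_le_mul_of_nonneg_left h2 (by positivity)
    linarith
  refine le_trans ?_ h1
  rw [Finset.prod_mul_distrib, Finset.prod_const]
  refine mul_le_mul_of_nonneg_right ?_ (Finset.prod_nonneg fun x _ => Nat.cast_nonneg _)
  have hm0 : 0 ≤ (m : ℝ) / N := by positivity
  refine pow_le_pow_of_le_one (by linarith) (by linarith) ?_
  have := Finset.card_le_univ (Finset.univ \ S)
  rwa [Fintype.card_fin] at this

end Pool.Agent.W_a617e8_h51
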