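import Pool.Agent.W_a617e8_h51.LP

set_option autoImplicit false

/-! P1: cells. -/

noncomputable section

open scoped ENNReal

open MeasureTheory Filter Topology

namespace Pool.Agent.W_a617e8_h51

/-- The cell `∏ [Z x θ, (Z x + 1) θ)`. -/
def cell (θ : ℝ) {m : ℕ} (Z : Fin m → ℕ) : Set (Fin m → ℝ) :=
  {c | ∀ x, Z x * θ ≤ c x ∧ c x < (Z x + 1) * θ}

/-- Index vectors of cells. -/
def ZZ (J m : ℕ) : Finset (Fin m → ℕ) := Fintype.piFinset fun _ => Finset.range J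

private theorem p1_meas (θ : ℝ) {m : ℕ} (Z : Fin m → ℕ) : MeasurableSet (cell θ Z) := by
  have h : cell θ Z = ⋂ x, {c : Fin m → ℝ | Z x * θ ≤ c x ∧ c x < (Z x + 1) * θ} := by
    ext c
    simp [cell]
  rw [h]
  refine MeasurableSet.iInter fun x => ?_
  exact (measurableSet_le measurable_const (measurable_pi_apply x)).inter
    (measurableSet_lt (measurable_pi_apply x) measurable_const)

private theorem p1_eq {θ : ℝ} (hθ : 0 < θ) {a b : ℕ} {t : ℝ} (ha : a * θ ≤ t)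
    (ha' : t < (a + 1) * θ) (hb : b * θ ≤ t) (hb' : t < (b + 1) * θ) : a = b := by
  have h1 : (a : ℝ) < b + 1 := lt_of_mul_lt_mul_right (lt_of_le_of_lt ha hb') hθ.le
  have h2 : (b : ℝ) < a + 1 := lt_of_mul_lt_mul_right (lt_of_le_of_lt hb ha') hθ.le
  have h3 : a < b + 1 := by exact_mod_cast h1
  have h4 : b < a + 1 := by exact_mod_cast h2
  omega

private theorem p1_disj {θ : ℝ} (hθ : 0 < θ) {m : ℕ} {Z Z' : Fin m → ℕ} {c : Fin m → ℝ}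
    (h : c ∈ cell θ Z) (h' : c ∈ cell θ Z') : Z = Z' :=
  funext fun x => p1_eq hθ (h x).1 (h x).2 (h' x).1 (h' x).2

private theorem p1_sum {m : ℕ} (μ : Measure (Fin m → ℝ)) (θ : ℝ) (hθ : 0 < θ)
    (T : Finset (Fin m → ℕ)) (A : Set (Fin m → ℝ))
    (h : ∀ᵐ c ∂μ, c ∈ A ↔ ∃ Z ∈ T, c ∈ cell θ Z) :
    μ A = ∑ Z ∈ T, μ (cell θ Z) := by
  rw [← measure_biUnion_finset (fun Z _ Z' _ hne => ?_) fun Z _ => p1_meas θ Z]
  · refine measure_congr ?_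
    filter_upwards [h] with c hc
    refine propext ?_
    show c ∈ A ↔ c ∈ ⋃ Z ∈ T, cell θ Z
    rw [hc]
    simp only [Set.mem_iUnion, exists_prop]
  · show Disjoint (cell θ Z) (cell θ Z')
    rw [Set.disjoint_left]
    intro c h1 h2
    exact hne (p1_disj hθ h1 h2)

private theorem p1_floor {m : ℕ} (θ : ℝ) (hθ : 0 < θ) (J : ℕ) (hJ : 1 < J * θ)
    (c : Fin m → ℝ) (hc : ∀ x, 0 ≤ c x ∧ c x ≤ 1) : ∃ Z ∈ ZZ J m, c ∈ cell θ Z := by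
  have h0 : ∀ x, 0 ≤ c x / θ := fun x => div_nonneg (hc x).1 hθ.le
  refine ⟨fun x => ⌊c x / θ⌋₊, ?_, fun x => ⟨?_, ?_⟩⟩
  · unfold ZZ
    rw [Fintype.mem_piFinset]
    intro x
    rw [Finset.mem_range, Nat.floor_lt (h0 x), div_lt_iff₀ hθ]
    exact lt_of_le_of_lt (hc x).2 hJ
  · rw [← le_div_iff₀ hθ]
    exact Nat.floor_le (h0 x)
  · rw [← div_lt_iff₀ hθ]
    exact Nat.lt_floor_add_one _

/-- The cells partition `[0, 1]^m` (`1 < J θ`). -/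
theorem sum_cell {m : ℕ} (μ : Measure (Fin m → ℝ)) (hμ : ∀ᵐ c ∂μ, ∀ x, 0 ≤ c x ∧ c x ≤ 1)
    (θ : ℝ) (hθ : 0 < θ) (J : ℕ) (hJ : 1 < J * θ) :
    ∑ Z ∈ ZZ J m, μ (cell θ Z) = μ Set.univ := by
  refine (p1_sum μ θ hθ (ZZ J m) Set.univ ?_).symm
  filter_upwards [hμ] with c hc
  exact ⟨fun _ => p1_floor θ hθ J hJ c hc, fun _ => Set.mem_univ c⟩

open Classical in
/-- `Hset` for windows of the form `[z θ, (z+1) θ)` is a union of cells, up to a null set. -/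
theorem Hset_cell {m : ℕ} (μ : Measure (Fin m → ℝ)) (hμ : ∀ᵐ c ∂μ, ∀ x, 0 ≤ c x ∧ c x ≤ 1)
    (θ : ℝ) (hθ : 0 < θ) (J : ℕ) (hJ : 1 < J * θ) (k : ℕ) (z : Fin k → ℕ)
    (S : Finset (Fin m)) :
    μ (Hset k m (fun i => z i * θ) (fun i => (z i + 1) * θ) S) =
      ∑ Z ∈ (ZZ J m).filter (fun Z => S.card = k ∧ ∀ i, ∃ x ∈ S, Z x = z i), μ (cell θ Z) := by
  refine p1_sum μ θ hθ _ _ ?_
  filter_upwards [hμ] with c hc
  constructor
  · rintro ⟨hk, h⟩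
    obtain ⟨Z, hZ, hcZ⟩ := p1_floor θ hθ J hJ c hc
    refine ⟨Z, Finset.mem_filter.2 ⟨hZ, hk, fun i => ?_⟩, hcZ⟩
    obtain ⟨x, hx, h1, h2⟩ := h i
    exact ⟨x, hx, p1_eq hθ (hcZ x).1 (hcZ x).2 h1 h2⟩
  · rintro ⟨Z, hZ, hcZ⟩
    obtain ⟨-, hk, h⟩ := Finset.mem_filter.1 hZ
    refine ⟨hk, fun i => ?_⟩
    obtain ⟨x, hx, h1⟩ := h i
    refine ⟨x, hx, ?_⟩
    show z i * θ ≤ c x ∧ c x < (z i + 1) * θ
    rw [← h1]
    exact hcZ x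

end Pool.Agent.W_a617e8_h51
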