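import Pool.Agent.W_a617e8_h51.P1
import Pool.Agent.W_a617e8_h51.P0

set_option autoImplicit false

/-! P1b: the marginal identity for cells. -/

noncomputable section

open scoped ENNReal

open MeasureTheory Filter Topology

namespace Pool.Agent.W_a617e8_h51

/-- Admissible `u` at scale `θ`, with windows of ratio `ρ`. -/
structure Adm (δ Y θ ρ : ℝ) (u : ℕ) : Prop where
  sq : Squarefree u
  one_lt : 1 < u
  lo : ∀ p ∈ u.primeFactors, δ < widx ρ p * θ
  hi : ∀ p ∈ u.primeFactors, (widx ρ p + 1) * θ < 1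
  sep : ∀ p ∈ u.primeFactors, ∀ q ∈ u.primeFactors, p ≠ q →
    widx ρ p + 1 < widx ρ q ∨ widx ρ q + 1 < widx ρ p
  sum : ∑ p ∈ u.primeFactors, ((widx ρ p + 1) * θ) < Y

open Classical in
/-- **Marginal identity for cells.**  From `Feas.marg` with `z` the increasing enumeration of the
windows of the primes of `u`, `Hset_cell`, and finiteness of the masses. -/
theorem marg_cell {δ Y A : ℝ} {α : (m : ℕ) → Finset (Finset (Fin m)) → Measure (Fin m → ℝ)}
    (hF : Feas δ Y α A) (hδ : 0 < δ) (θ ρ : ℝ) (hθ : 0 < θ) (M J : ℕ) (hM : (1 + Y) / δ < M)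
    (hJ : 1 < J * θ) (u : ℕ) (hu : Adm δ Y θ ρ u) :
    ∑ m ∈ Finset.range M, ∑ F : Finset (Finset (Fin m)), ∑ S ∈ F,
      ∑ Z ∈ (ZZ J m).filter (fun Z => Mtch ρ S Z u), (α m F (cell θ Z)).toReal =
      ∏ p ∈ u.primeFactors, Real.log (((widx ρ p : ℝ) + 1) / widx ρ p) := by
  have hinj : Set.InjOn (widx ρ) (u.primeFactors : Set ℕ) := by
    intro p hp q hq h
    by_contra hne
    rcases hu.sep p hp q hq hne with h1 | h1 <;> omega
  obtain ⟨W, hW⟩ : ∃ W : Finset ℕ, W = u.primeFactors.image (widx ρ) := ⟨_, rfl⟩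
  obtain ⟨k, hk⟩ : ∃ k : ℕ, k = u.primeFactors.card := ⟨_, rfl⟩
  have hWk : W.card = k := by
    rw [hW, Finset.card_image_of_injOn hinj, hk]
  have hk1 : 1 ≤ k := by
    rw [hk]
    exact Finset.card_pos.2 (Nat.nonempty_primeFactors.2 hu.one_lt)
  let z : Fin k → ℕ := fun i => W.orderEmbOfFin hWk i
  have hmap : Finset.map (W.orderEmbOfFin hWk).toEmbedding Finset.univ = W :=
    Finset.map_orderEmbOfFin_univ W hWk
  have hzW : ∀ i, z i ∈ W := fun i => Finset.orderEmbOfFin_mem W hWk i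
  have hzp : ∀ i, ∃ p ∈ u.primeFactors, widx ρ p = z i := by
    intro i
    have := hzW i
    rw [hW, Finset.mem_image] at this
    exact this
  have hpz : ∀ p ∈ u.primeFactors, ∃ i, z i = widx ρ p := by
    intro p hp
    have h1 : widx ρ p ∈ W := by
      rw [hW]
      exact Finset.mem_image_of_mem _ hp
    rw [← hmap, Finset.mem_map] at h1
    obtain ⟨i, _, hi⟩ := h1
    exact ⟨i, hi⟩
  have hmono : ∀ i j, i < j → z i < z j := fun i j h => (W.orderEmbOfFin hWk).strictMono h
  have hsep : ∀ i j, i < j → z i + 1 < z j := by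
    intro i j h
    obtain ⟨p, hp, hpi⟩ := hzp i
    obtain ⟨q, hq, hqj⟩ := hzp j
    have h1 := hmono i j h
    have hne : p ≠ q := by
      rintro rfl
      omega
    rcases hu.sep p hp q hq hne with h2 | h2
    · rw [hpi, hqj] at h2
      exact h2
    · rw [hpi, hqj] at h2
      omega
  have hprodW : ∀ f : ℕ → ℝ, ∏ i, f (z i) = ∏ p ∈ u.primeFactors, f (widx ρ p) := by
    intro f
    rw [← Finset.prod_image (s := u.primeFactors) (g := widx ρ) (f := f) hinj, ← hW]
    conv_rhs => rw [← hmap, Finset.prod_map]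
    rfl
  have hsumW : ∀ f : ℕ → ℝ, ∑ i, f (z i) = ∑ p ∈ u.primeFactors, f (widx ρ p) := by
    intro f
    rw [← Finset.sum_image (s := u.primeFactors) (g := widx ρ) (f := f) hinj, ← hW]
    conv_rhs => rw [← hmap, Finset.sum_map]
    rfl
  have hlo : ∀ i, δ < z i * θ := by
    intro i
    obtain ⟨p, hp, hpi⟩ := hzp i
    rw [← hpi]
    exact hu.lo p hp
  have hhi : ∀ i, ((z i : ℝ) + 1) * θ < 1 := by
    intro i
    obtain ⟨p, hp, hpi⟩ := hzp i
    rw [← hpi]
    exact hu.hi p hp
  have hz0 : ∀ i, (0 : ℝ) < z i := by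
    intro i
    by_contra h
    push Not at h
    have h1 := hlo i
    have h2 : (z i : ℝ) * θ ≤ 0 := mul_nonpos_of_nonpos_of_nonneg h hθ.le
    linarith
  have hmarg := hF.marg k (fun i => z i * θ) (fun i => (z i + 1) * θ) hk1
    (fun i => ⟨hlo i, by nlinarith, hhi i⟩)
    (fun i j hij => by
      have h1 : ((z i : ℝ) + 1) < z j := by exact_mod_cast hsep i j hij
      exact mul_lt_mul_of_pos_right h1 hθ)
    (by
      rw [hsumW fun w => ((w : ℝ) + 1) * θ]
      exact hu.sum)
  -- finiteness of the masses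
  have hfin : ∀ (m : ℕ) (F : Finset (Finset (Fin m))) (B : Set (Fin m → ℝ)),
      α m F B ≠ ⊤ := by
    intro m F B
    have h1 : α m F B ≤ ENNReal.ofReal A :=
      calc α m F B ≤ α m F Set.univ := measure_mono (Set.subset_univ _)
        _ ≤ ∑ F : Finset (Finset (Fin m)), α m F Set.univ :=
          Finset.single_le_sum (f := fun F => α m F Set.univ) (fun _ _ => zero_le)
            (Finset.mem_univ F)
        _ ≤ ∑' m : ℕ, ∑ F : Finset (Finset (Fin m)), α m F Set.univ :=
          ENNReal.le_tsum (f := fun m => ∑ F : Finset (Finset (Fin m)), α m F Set.univ) m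
        _ ≤ ENNReal.ofReal A := hF.mass
    exact ne_top_of_le_ne_top ENNReal.ofReal_ne_top h1
  have hae : ∀ (m : ℕ) (F : Finset (Finset (Fin m))), ∀ᵐ c ∂(α m F),
      ∀ x, 0 ≤ c x ∧ c x ≤ 1 := by
    intro m F
    filter_upwards [hF.good m F] with c hc x
    exact ⟨hδ.le.trans (hc.lo x), hc.hi x⟩
  have hcell : ∀ (m : ℕ) (F : Finset (Finset (Fin m))) (S : Finset (Fin m)),
      α m F (Hset k m (fun i => z i * θ) (fun i => (z i + 1) * θ) S) =
        ∑ Z ∈ (ZZ J m).filter (fun Z => Mtch ρ S Z u), α m F (cell θ Z) := by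
    intro m F S
    rw [Hset_cell (α m F) (hae m F) θ hθ J hJ k z S]
    refine Finset.sum_congr (Finset.filter_congr fun Z _ => ?_) fun _ _ => rfl
    unfold Mtch
    rw [← hk]
    refine and_congr_right fun _ => ⟨fun h p hp => ?_, fun h i => ?_⟩
    · obtain ⟨i, hi⟩ := hpz p hp
      obtain ⟨x, hx, hxz⟩ := h i
      exact ⟨x, hx, hxz.trans hi⟩
    · obtain ⟨p, hp, hpi⟩ := hzp i
      obtain ⟨x, hx, hxz⟩ := h p hp
      exact ⟨x, hx, hxz.trans hpi⟩
  have htsum : ∑' m : ℕ, ∑ F : Finset (Finset (Fin m)), ∑ S ∈ F,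
      α m F (Hset k m (fun i => z i * θ) (fun i => (z i + 1) * θ) S) =
      ∑ m ∈ Finset.range M, ∑ F : Finset (Finset (Fin m)), ∑ S ∈ F,
      ∑ Z ∈ (ZZ J m).filter (fun Z => Mtch ρ S Z u), α m F (cell θ Z) := by
    rw [tsum_eq_sum (s := Finset.range M)]
    · refine Finset.sum_congr rfl fun m _ => Finset.sum_congr rfl fun F _ =>
        Finset.sum_congr rfl fun S _ => hcell m F S
    · intro m hm
      rw [Finset.mem_range, not_lt] at hm
      have h1 : (1 + Y) / δ < (m : ℝ) := lt_of_lt_of_le hM (by exact_mod_cast hm)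
      refine Finset.sum_eq_zero fun F _ => Finset.sum_eq_zero fun S _ => ?_
      rw [hF.supp m F h1]
      rfl
  rw [htsum] at hmarg
  have hreal := congrArg ENNReal.toReal hmarg
  rw [ENNReal.toReal_ofReal] at hreal
  · rw [ENNReal.toReal_sum] at hreal
    · have e1 : ∀ m ∈ Finset.range M, (∑ F : Finset (Finset (Fin m)), ∑ S ∈ F,
          ∑ Z ∈ (ZZ J m).filter (fun Z => Mtch ρ S Z u), α m F (cell θ Z)).toReal =
          ∑ F : Finset (Finset (Fin m)), ∑ S ∈ F,
          ∑ Z ∈ (ZZ J m).filter (fun Z => Mtch ρ S Z u), (α m F (cell θ Z)).toReal := by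
        intro m _
        rw [ENNReal.toReal_sum]
        · refine Finset.sum_congr rfl fun F _ => ?_
          rw [ENNReal.toReal_sum]
          · refine Finset.sum_congr rfl fun S _ => ?_
            rw [ENNReal.toReal_sum]
            intro Z _
            exact hfin m F _
          · intro S _
            exact ENNReal.sum_ne_top.2 fun Z _ => hfin m F _
        · intro F _
          exact ENNReal.sum_ne_top.2 fun S _ => ENNReal.sum_ne_top.2 fun Z _ => hfin m F _
      rw [Finset.sum_congr rfl e1] at hreal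
      rw [hreal, ← hprodW fun w => Real.log (((w : ℝ) + 1) / w)]
      refine Finset.prod_congr rfl fun i _ => ?_
      congr 1
      rw [mul_div_mul_right _ _ hθ.ne']
    · intro m _
      exact ENNReal.sum_ne_top.2 fun F _ => ENNReal.sum_ne_top.2 fun S _ =>
        ENNReal.sum_ne_top.2 fun Z _ => hfin m F _
  · refine Finset.prod_nonneg fun i _ => Real.log_nonneg ?_
    have h0 := hz0 i
    rw [le_div_iff₀ (by positivity)]
    nlinarith

end Pool.Agent.W_a617e8_h51
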