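import Pool.Agent.W_a617e8_h51.P2
import Pool.Agent.W_a617e8_h51.P0b

set_option autoImplicit false

/-! P2a: lower bound for the degrees. -/

noncomputable section

open scoped ENNReal

open MeasureTheory Filter Topology

namespace Pool.Agent.W_a617e8_h51

private theorem p2a_inj {m : ℕ} {q : Fin m → ℕ} (hq : ∀ x, (q x).Prime)
    (hi : Function.Injective q) {S S' : Finset (Fin m)}
    (h : ∏ x ∈ S, q x = ∏ x ∈ S', q x) : S = S' := by
  classical
  have key : ∀ T : Finset (Fin m), (∏ x ∈ T, q x).primeFactors = T.image q := by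
    intro T
    have h1 : ∏ x ∈ T, q x = ∏ p ∈ T.image q, p := by
      rw [Finset.prod_image]
      intro a _ b _ hab
      exact hi hab
    rw [h1]
    refine Nat.primeFactors_prod ?_
    intro p hp
    obtain ⟨x, _, rfl⟩ := Finset.mem_image.1 hp
    exact hq x
  have h2 := congrArg Nat.primeFactors h
  rw [key, key] at h2
  exact Finset.image_injective hi h2

private theorem p2a_prod {ρ : ℝ} {m : ℕ} {S : Finset (Fin m)} {Z : Fin m → ℕ} {u : ℕ}
    (hu : Sep ρ u) (hM : Mtch ρ S Z u) (g : ℕ → ℝ) :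
    ∏ p ∈ u.primeFactors, g (widx ρ p) = ∏ x ∈ S, g (Z x) := by
  classical
  by_cases hne : u.primeFactors.Nonempty
  swap
  · rw [Finset.not_nonempty_iff_eq_empty] at hne
    have hc := hM.1
    rw [hne, Finset.card_empty, Finset.card_eq_zero] at hc
    rw [hne, hc, Finset.prod_empty, Finset.prod_empty]
  have hne2 : Nonempty (Fin m) := by
    obtain ⟨p, hp⟩ := hne
    obtain ⟨x, _⟩ := hM.2 p hp
    exact ⟨x⟩
  choose! f hf using hM.2
  have hinj : ∀ p ∈ u.primeFactors, ∀ q ∈ u.primeFactors, f p = f q → p = q := by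
    intro p hp q hq hpq
    refine hu.2 p hp q hq ?_
    rw [← (hf p hp).2, ← (hf q hq).2, hpq]
  have himg : u.primeFactors.image f = S := by
    refine Finset.eq_of_subset_of_card_le ?_ ?_
    · intro x hx
      obtain ⟨p, hp, rfl⟩ := Finset.mem_image.1 hx
      exact (hf p hp).1
    · rw [Finset.card_image_of_injOn (fun p hp q hq h => hinj p hp q hq h), hM.1]
  rw [← himg, Finset.prod_image (fun p hp q hq h => hinj p hp q hq h)]
  refine Finset.prod_congr rfl fun p hp => ?_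
  rw [(hf p hp).2]

open Classical in
private theorem p2a_we_nonneg {ρ : ℝ} (hρ : 1 < ρ) (θ : ℝ)
    (α : (m : ℕ) → Finset (Finset (Fin m)) → Measure (Fin m → ℝ)) (m : ℕ)
    (F : Finset (Finset (Fin m))) (q : Fin m → ℕ) : 0 ≤ we ρ θ α m F q := by
  unfold we
  split_ifs
  · have : 0 ≤ ρ := by linarith
    positivity
  · exact le_refl _

/-- one cell -/
private theorem p2a_cell {δ Y A : ℝ}
    {α : (m : ℕ) → Finset (Finset (Fin m)) → Measure (Fin m → ℝ)}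
    (hF : Feas δ Y α A) (hδ : 0 < δ) (M : ℕ) (ρ : ℝ) (hρ : 1 < ρ)
    (θ : ℝ) (hθ : 0 < θ) (u : ℕ) (hu : Sep ρ u)
    (N : ℕ) (hMN : M < N) (hN : ∀ j : ℕ, δ < (j + 1) * θ → N ≤ nwin ρ j)
    (m : ℕ) (hm : m < M) (F : Finset (Finset (Fin m))) (S : Finset (Fin m)) (hS : S ∈ F)
    (Z : Fin m → ℕ) (hM : Mtch ρ S Z u) (hα : α m F (cell θ Z) ≠ 0) :
    (1 - (M : ℝ) / N) ^ M *
      (∏ p ∈ u.primeFactors, (ρ ^ widx ρ p / (nwin ρ (widx ρ p) : ℝ))) *
      (α m F (cell θ Z)).toReal ≤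
    ∑ q ∈ (PV ρ Z).filter (fun q => Function.Injective q ∧ ∏ x ∈ S, q x = u),
      we ρ θ α m F q := by
  classical
  have hρ0 : 0 < ρ := by linarith
  obtain ⟨-, -, hpos, hXX, -, -⟩ := cell_pos hF hδ θ hθ F Z hα
  have hnw : ∀ x, N ≤ nwin ρ (Z x) := fun x => hN (Z x) (hpos x).1
  have hN0 : 0 < N := by omega
  have hNr : (0 : ℝ) < N := by exact_mod_cast hN0
  have hnwpos : ∀ x, (0 : ℝ) < nwin ρ (Z x) := by
    intro x
    have : 0 < nwin ρ (Z x) := lt_of_lt_of_le hN0 (hnw x)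
    exact_mod_cast this
  have hwe : ∀ q ∈ (PV ρ Z).filter (fun q => Function.Injective q ∧ ∏ x ∈ S, q x = u),
      we ρ θ α m F q = ρ ^ XX F Z * (α m F (cell θ Z)).toReal / ∏ x, (nwin ρ (Z x) : ℝ) := by
    intro q hq
    obtain ⟨hqP, hqi, -⟩ := Finset.mem_filter.1 hq
    unfold PV at hqP
    rw [Fintype.mem_piFinset] at hqP
    have hpr : ∀ x, (q x).Prime := fun x => (mem_pwin.1 (hqP x)).1
    have hw : ∀ x, widx ρ (q x) = Z x := fun x => (widx_eq_iff hρ (hpr x)).2 (hqP x)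
    unfold we
    rw [if_pos ⟨hpr, hqi⟩]
    simp only [hw]
  rw [Finset.sum_congr rfl hwe, Finset.sum_const, nsmul_eq_mul]
  have hcnt := count_ge hρ S Z u hu hM N (by omega) hnw
  set c : ℝ := ((((PV ρ Z).filter fun q => Function.Injective q ∧ ∏ x ∈ S, q x = u).card : ℕ) : ℝ)
    with hc
  have hsplit : ∏ x, (nwin ρ (Z x) : ℝ) =
      (∏ x ∈ Finset.univ \ S, (nwin ρ (Z x) : ℝ)) * ∏ x ∈ S, (nwin ρ (Z x) : ℝ) :=
    (Finset.prod_sdiff (Finset.subset_univ S)).symm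
  set P1 : ℝ := ∏ x ∈ Finset.univ \ S, (nwin ρ (Z x) : ℝ) with hP1
  set P2 : ℝ := ∏ x ∈ S, (nwin ρ (Z x) : ℝ) with hP2
  have hP1p : 0 < P1 := Finset.prod_pos fun x _ => hnwpos x
  have hP2p : 0 < P2 := Finset.prod_pos fun x _ => hnwpos x
  have hprod : ∏ p ∈ u.primeFactors, (ρ ^ widx ρ p / (nwin ρ (widx ρ p) : ℝ)) =
      ρ ^ (∑ x ∈ S, Z x) / P2 := by
    rw [p2a_prod hu hM (fun j => ρ ^ j / (nwin ρ j : ℝ)), Finset.prod_div_distrib,
      Finset.prod_pow_eq_pow_sum]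
  rw [hprod, hsplit]
  have hXS : ρ ^ (∑ x ∈ S, Z x) ≤ ρ ^ XX F Z := pow_le_pow_right₀ hρ.le (hXX S hS).1
  have hfrac : (1 - (M : ℝ) / N) ^ M ≤ (1 - (m : ℝ) / N) ^ m := by
    have h1 : (M : ℝ) / N ≤ 1 := by
      rw [div_le_one hNr]; exact_mod_cast hMN.le
    have h2 : (m : ℝ) / N ≤ (M : ℝ) / N := by
      apply div_le_div_of_nonneg_right _ hNr.le
      exact_mod_cast hm.le
    have h3 : (0 : ℝ) ≤ (m : ℝ) / N := by positivity
    calc (1 - (M : ℝ) / N) ^ M ≤ (1 - (m : ℝ) / N) ^ M :=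
          pow_le_pow_left₀ (by linarith) (by linarith) M
      _ ≤ (1 - (m : ℝ) / N) ^ m :=
          pow_le_pow_of_le_one (by linarith) (by linarith) hm.le
  have hα0 : 0 ≤ (α m F (cell θ Z)).toReal := ENNReal.toReal_nonneg
  have h5 : (1 - (M : ℝ) / N) ^ M * P1 ≤ c :=
    le_trans (mul_le_mul_of_nonneg_right hfrac hP1p.le) hcnt
  have hc0 : 0 ≤ c := by rw [hc]; exact Nat.cast_nonneg _
  calc (1 - (M : ℝ) / N) ^ M * (ρ ^ (∑ x ∈ S, Z x) / P2) * (α m F (cell θ Z)).toReal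
      = ((1 - (M : ℝ) / N) ^ M * P1) *
          (ρ ^ (∑ x ∈ S, Z x) * (α m F (cell θ Z)).toReal / (P1 * P2)) := by
        field_simp
    _ ≤ c * (ρ ^ (∑ x ∈ S, Z x) * (α m F (cell θ Z)).toReal / (P1 * P2)) :=
        mul_le_mul_of_nonneg_right h5 (by positivity)
    _ ≤ c * (ρ ^ XX F Z * (α m F (cell θ Z)).toReal / (P1 * P2)) := by
        refine mul_le_mul_of_nonneg_left ?_ hc0
        exact div_le_div_of_nonneg_right (mul_le_mul_of_nonneg_right hXS hα0) (by positivity)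

open Classical in
/-- **Degrees, lower bound.**  For injective `q` with prime values `S ↦ ∏_S q` is injective, so the
indicator of `∃ S ∈ F` equals the sum over `S ∈ F`; `count_ge` (only cells `Z` of positive measure
matter: `δ < (Z x + 1) θ`, so `hN` applies, and `Z x θ ≤ 1`, so the primes are
`< ρ^(Z x + 1) ≤ 2^(ell + 1)`), `ρ^XX ≥ ρ^(∑_S Z)`, `marg_cell`. -/
theorem deg_ge {δ Y A : ℝ} {α : (m : ℕ) → Finset (Finset (Fin m)) → Measure (Fin m → ℝ)}
    (hF : Feas δ Y α A) (hδ : 0 < δ) (M : ℕ) (hM : (1 + Y) / δ < M) (ρ : ℝ) (hρ : 1 < ρ)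
    (hρ2 : ρ ≤ 2) (ell : ℕ) (hl : 1 ≤ ell) (u : ℕ) (hu : Adm δ Y (th ρ ell) ρ u)
    (N : ℕ) (hMN : M < N) (hN : ∀ j : ℕ, δ < (j + 1) * th ρ ell → N ≤ nwin ρ j) :
    (1 - (M : ℝ) / N) ^ M * PP ρ u ≤
    ∑ m ∈ Finset.range M, ∑ F : Finset (Finset (Fin m)),
      ∑ q ∈ (QV (2 ^ (ell + 2)) m).filter (fun q => ∃ S ∈ F, ∏ x ∈ S, q x = u),
        we ρ (th ρ ell) α m F q := by
  have hρ0 : 0 < ρ := by linarith
  have hl0 : (0 : ℝ) < ell := by exact_mod_cast hl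
  have hlog : 0 < Real.logb 2 ρ := Real.logb_pos (by norm_num) hρ
  have hθ : 0 < th ρ ell := div_pos hlog hl0
  have hsep : Sep ρ u := by
    refine ⟨hu.sq, fun p hp q hq h => ?_⟩
    by_contra hne
    rcases hu.sep p hp q hq hne with h1 | h1 <;> omega
  obtain ⟨J, hJ⟩ := exists_nat_gt (1 / th ρ ell)
  have hJ' : 1 < J * th ρ ell := by rwa [div_lt_iff₀ hθ] at hJ
  have hmarg := marg_cell hF hδ (th ρ ell) ρ hθ M J hM hJ' u hu
  set κ : ℝ := (1 - (M : ℝ) / N) ^ M *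
      (∏ p ∈ u.primeFactors, (ρ ^ widx ρ p / (nwin ρ (widx ρ p) : ℝ))) with hκ
  have hPP : (1 - (M : ℝ) / N) ^ M * PP ρ u = κ *
      ∑ m ∈ Finset.range M, ∑ F : Finset (Finset (Fin m)), ∑ S ∈ F,
      ∑ Z ∈ (ZZ J m).filter (fun Z => Mtch ρ S Z u), (α m F (cell (th ρ ell) Z)).toReal := by
    rw [hmarg, hκ, mul_assoc, ← Finset.prod_mul_distrib]
    unfold PP
    congr 1
    refine Finset.prod_congr rfl fun p _ => ?_
    ring
  rw [hPP, Finset.mul_sum]
  refine Finset.sum_le_sum fun m hm => ?_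
  have hmM : m < M := Finset.mem_range.1 hm
  rw [Finset.mul_sum]
  refine Finset.sum_le_sum fun F _ => ?_
  rw [Finset.mul_sum]
  -- the vectors belonging to `S`
  let Q : Finset (Fin m) → Finset (Fin m → ℕ) := fun S =>
    (QV (2 ^ (ell + 2)) m).filter
      (fun q => (∀ x, (q x).Prime) ∧ Function.Injective q ∧ ∏ x ∈ S, q x = u)
  have hw0 : ∀ q, 0 ≤ we ρ (th ρ ell) α m F q := p2a_we_nonneg hρ (th ρ ell) α m F
  have hclaim1 : ∑ S ∈ F, ∑ q ∈ Q S, we ρ (th ρ ell) α m F q ≤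
      ∑ q ∈ (QV (2 ^ (ell + 2)) m).filter (fun q => ∃ S ∈ F, ∏ x ∈ S, q x = u),
        we ρ (th ρ ell) α m F q := by
    rw [← Finset.sum_biUnion]
    · refine Finset.sum_le_sum_of_subset_of_nonneg ?_ fun q _ _ => hw0 q
      intro q hq
      obtain ⟨S, hS, hqS⟩ := Finset.mem_biUnion.1 hq
      obtain ⟨hq1, -, -, hq2⟩ := Finset.mem_filter.1 hqS
      exact Finset.mem_filter.2 ⟨hq1, S, hS, hq2⟩
    · intro S _ S' _ hne
      change Disjoint (Q S) (Q S')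
      rw [Finset.disjoint_left]
      intro q h1 h2
      obtain ⟨-, hp, hi, h3⟩ := Finset.mem_filter.1 h1
      obtain ⟨-, -, -, h4⟩ := Finset.mem_filter.1 h2
      exact hne (p2a_inj hp hi (h3.trans h4.symm))
  refine le_trans (Finset.sum_le_sum fun S hS => ?_) hclaim1
  -- restrict to cells of positive measure
  have hrestr : ∑ Z ∈ (ZZ J m).filter (fun Z => Mtch ρ S Z u),
      (α m F (cell (th ρ ell) Z)).toReal =
      ∑ Z ∈ ((ZZ J m).filter (fun Z => Mtch ρ S Z u)).filter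
        (fun Z => α m F (cell (th ρ ell) Z) ≠ 0), (α m F (cell (th ρ ell) Z)).toReal := by
    symm
    refine Finset.sum_subset (Finset.filter_subset _ _) ?_
    intro Z hZ1 hZ2
    have : α m F (cell (th ρ ell) Z) = 0 := by
      by_contra hne
      exact hZ2 (Finset.mem_filter.2 ⟨hZ1, hne⟩)
    rw [this, ENNReal.toReal_zero]
  rw [hrestr, Finset.mul_sum]
  let R : (Fin m → ℕ) → Finset (Fin m → ℕ) := fun Z =>
    (PV ρ Z).filter (fun q => Function.Injective q ∧ ∏ x ∈ S, q x = u)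
  have hcell : ∀ Z ∈ ((ZZ J m).filter (fun Z => Mtch ρ S Z u)).filter
        (fun Z => α m F (cell (th ρ ell) Z) ≠ 0),
      κ * (α m F (cell (th ρ ell) Z)).toReal ≤ ∑ q ∈ R Z, we ρ (th ρ ell) α m F q := by
    intro Z hZ
    obtain ⟨hZ1, hZ2⟩ := Finset.mem_filter.1 hZ
    exact p2a_cell hF hδ M ρ hρ (th ρ ell) hθ u hsep N hMN hN m hmM F S hS Z
      (Finset.mem_filter.1 hZ1).2 hZ2
  refine le_trans (Finset.sum_le_sum hcell) ?_
  rw [← Finset.sum_biUnion]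
  · refine Finset.sum_le_sum_of_subset_of_nonneg ?_ fun q _ _ => hw0 q
    intro q hq
    obtain ⟨Z, hZ, hqZ⟩ := Finset.mem_biUnion.1 hq
    obtain ⟨hZ1, hZ2⟩ := Finset.mem_filter.1 hZ
    obtain ⟨hq1, hq2, hq3⟩ := Finset.mem_filter.1 hqZ
    unfold PV at hq1
    rw [Fintype.mem_piFinset] at hq1
    obtain ⟨-, -, hpos, -, -, -⟩ := cell_pos hF hδ (th ρ ell) hθ F Z hZ2
    refine Finset.mem_filter.2 ⟨?_, fun x => (mem_pwin.1 (hq1 x)).1, hq2, hq3⟩
    unfold QV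
    rw [Fintype.mem_piFinset]
    intro x
    rw [Finset.mem_range]
    have h1 := (mem_pwin.1 (hq1 x)).2.2
    have h2 : (Z x : ℝ) * Real.logb 2 ρ ≤ ell := by
      have := (hpos x).2
      unfold th at this
      rw [← mul_div_assoc, div_le_one hl0] at this
      exact this
    have h3 : ρ ^ ((Z x : ℝ) + 1) ≤ 2 ^ (ell + 1) := by
      have e1 : ρ = (2 : ℝ) ^ Real.logb 2 ρ :=
        (Real.rpow_logb (by norm_num) (by norm_num) hρ0).symm
      have e2 : ρ ^ ((Z x : ℝ) + 1) = (2 : ℝ) ^ (Real.logb 2 ρ * ((Z x : ℝ) + 1)) := by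
        conv_lhs => rw [e1]
        rw [← Real.rpow_mul (by norm_num)]
      have h4 : Real.logb 2 ρ ≤ 1 := by
        rw [Real.logb_le_iff_le_rpow (by norm_num) hρ0, Real.rpow_one]
        exact hρ2
      rw [e2]
      have h5 : Real.logb 2 ρ * ((Z x : ℝ) + 1) ≤ ((ell + 1 : ℕ) : ℝ) := by
        push_cast
        nlinarith
      calc (2 : ℝ) ^ (Real.logb 2 ρ * ((Z x : ℝ) + 1)) ≤ (2 : ℝ) ^ (((ell + 1 : ℕ)) : ℝ) :=
            Real.rpow_le_rpow_of_exponent_le (by norm_num) h5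
        _ = 2 ^ (ell + 1) := Real.rpow_natCast 2 (ell + 1)
    have h6 : (q x : ℝ) < 2 ^ (ell + 1) := lt_of_lt_of_le h1 h3
    have h7 : q x < 2 ^ (ell + 1) := by exact_mod_cast h6
    exact lt_of_lt_of_le h7 (Nat.pow_le_pow_right (by norm_num) (by omega))
  · intro Z _ Z' _ hne
    change Disjoint (R Z) (R Z')
    rw [Finset.disjoint_left]
    intro q h1 h2
    obtain ⟨h3, -⟩ := Finset.mem_filter.1 h1
    obtain ⟨h4, -⟩ := Finset.mem_filter.1 h2
    unfold PV at h3 h4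
    rw [Fintype.mem_piFinset] at h3 h4
    refine hne (funext fun x => ?_)
    have hp := (mem_pwin.1 (h3 x)).1
    rw [← (widx_eq_iff hρ hp).2 (h3 x), (widx_eq_iff hρ hp).2 (h4 x)]

end Pool.Agent.W_a617e8_h51
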