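import Pool.Agent.W_a617e8_h51.P2

set_option autoImplicit false

/-! P2b: upper bound for the codegrees. -/

noncomputable section

open scoped ENNReal

open MeasureTheory Filter Topology

namespace Pool.Agent.W_a617e8_h51

/-- Weight of a cell. -/
private def cwt (ρ θ : ℝ) (α : (m : ℕ) → Finset (Finset (Fin m)) → Measure (Fin m → ℝ)) (m : ℕ)
    (F : Finset (Finset (Fin m))) (Z : Fin m → ℕ) : ℝ :=
  ρ ^ XX F Z * (α m F (cell θ Z)).toReal / ∏ x, (nwin ρ (Z x) : ℝ)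

private theorem cwt_nonneg {ρ : ℝ} (hρ : 0 < ρ) (θ : ℝ)
    (α : (m : ℕ) → Finset (Finset (Fin m)) → Measure (Fin m → ℝ)) (m : ℕ)
    (F : Finset (Finset (Fin m))) (Z : Fin m → ℕ) : 0 ≤ cwt ρ θ α m F Z := by
  unfold cwt
  exact div_nonneg (mul_nonneg (pow_pos hρ _).le ENNReal.toReal_nonneg)
    (Finset.prod_nonneg fun x _ => Nat.cast_nonneg _)

private theorem we_ne {ρ θ : ℝ} {α : (m : ℕ) → Finset (Finset (Fin m)) → Measure (Fin m → ℝ)}
    {m : ℕ} {F : Finset (Finset (Fin m))} {q : Fin m → ℕ} (h : we ρ θ α m F q ≠ 0) :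
    (∀ x, (q x).Prime) ∧ we ρ θ α m F q = cwt ρ θ α m F (fun x => widx ρ (q x)) ∧
      α m F (cell θ fun x => widx ρ (q x)) ≠ 0 := by
  unfold we at h ⊢
  split_ifs at h ⊢ with hq
  · refine ⟨hq.1, rfl, fun h0 => h ?_⟩
    rw [h0]
    simp
  · exact absurd rfl h

private theorem mtch_prod {ρ : ℝ} {m : ℕ} {S : Finset (Fin m)} {Z : Fin m → ℕ} {u : ℕ}
    (hu : Sep ρ u) (h : Mtch ρ S Z u) (g : ℕ → ℝ) :
    ∏ x ∈ S, g (Z x) = ∏ p ∈ u.primeFactors, g (widx ρ p) := by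
  classical
  obtain ⟨hc, h1⟩ := h
  choose φ hφS hφ using h1
  have hinj : ∀ p q (hp : p ∈ u.primeFactors) (hq : q ∈ u.primeFactors),
      φ p hp = φ q hq → p = q := by
    intro p q hp hq hpq
    refine hu.2 p hp q hq ?_
    rw [← hφ p hp, ← hφ q hq, hpq]
  symm
  refine Finset.prod_bij (fun p hp => φ p hp) (fun p hp => hφS p hp)
    (fun p hp q hq hpq => hinj p q hp hq hpq) ?_ (fun p hp => ?_)
  · intro x hx
    obtain ⟨p, hp, hpx⟩ := Finset.surj_on_of_inj_on_of_card_le (s := u.primeFactors) (t := S)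
      (fun p hp => φ p hp) (fun p hp => hφS p hp) (fun p q hp hq hpq => hinj p q hp hq hpq)
      hc.le x hx
    exact ⟨p, hp, hpx.symm⟩
  · show g (widx ρ p) = g (Z (φ p hp))
    rw [hφ p hp]

private theorem sep_of_adm {δ Y θ ρ : ℝ} {u : ℕ} (hu : Adm δ Y θ ρ u) : Sep ρ u := by
  refine ⟨hu.sq, fun p hp q hq hpq => ?_⟩
  by_contra hne
  rcases hu.sep p hp q hq hne with h | h <;> omega

private theorem card_pf {δ Y θ ρ : ℝ} (hδ : 0 < δ) (hθ : 0 < θ) (M : ℕ) (hM : (1 + Y) / δ < M)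
    (u : ℕ) (hu : Adm δ Y θ ρ u) : u.primeFactors.card ≤ M := by
  have h1 : (u.primeFactors.card : ℝ) * δ ≤ ∑ p ∈ u.primeFactors, ((widx ρ p + 1) * θ) := by
    rw [← nsmul_eq_mul, ← Finset.sum_const]
    refine Finset.sum_le_sum fun p hp => ?_
    have h2 := hu.lo p hp
    nlinarith
  have h2 := hu.sum
  have h3 : (u.primeFactors.card : ℝ) < M := by
    refine lt_trans ?_ hM
    rw [lt_div_iff₀ hδ]
    linarith
  exact_mod_cast h3.le

/-- One term. -/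
private theorem term_le {ρ θ : ℝ} (hρ : 1 < ρ)
    {α : (m : ℕ) → Finset (Finset (Fin m)) → Measure (Fin m → ℝ)} {m M : ℕ} (hm : m ≤ M)
    {F : Finset (Finset (Fin m))} {Z : Fin m → ℕ} {S : Finset (Fin m)} {u : ℕ} (hu : Sep ρ u)
    (hX : XX F Z ≤ ∑ x ∈ S, Z x + m) (hn : ∀ x, 0 < nwin ρ (Z x)) (h : Mtch ρ S Z u) :
    cwt ρ θ α m F Z * ∏ x ∈ Finset.univ \ S, (nwin ρ (Z x) : ℝ) ≤
      ρ ^ M * (∏ p ∈ u.primeFactors, (ρ ^ widx ρ p / nwin ρ (widx ρ p))) *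
        (α m F (cell θ Z)).toReal := by
  have hρ0 : 0 < ρ := by linarith
  rw [← mtch_prod hu h (fun j => ρ ^ j / (nwin ρ j : ℝ)), Finset.prod_div_distrib,
    Finset.prod_pow_eq_pow_sum]
  have h1 := Finset.prod_sdiff (f := fun x => (nwin ρ (Z x) : ℝ)) (Finset.subset_univ S)
  have hA : 0 < ∏ x ∈ Finset.univ \ S, (nwin ρ (Z x) : ℝ) :=
    Finset.prod_pos fun x _ => by exact_mod_cast hn x
  have hB : 0 < ∏ x ∈ S, (nwin ρ (Z x) : ℝ) :=
    Finset.prod_pos fun x _ => by exact_mod_cast hn x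
  unfold cwt
  rw [← h1]
  have ha : 0 ≤ (α m F (cell θ Z)).toReal := ENNReal.toReal_nonneg
  have h2 : ρ ^ XX F Z ≤ ρ ^ M * ρ ^ (∑ x ∈ S, Z x) := by
    rw [← pow_add]
    exact pow_le_pow_right₀ hρ.le (by omega)
  calc ρ ^ XX F Z * (α m F (cell θ Z)).toReal /
        ((∏ x ∈ Finset.univ \ S, (nwin ρ (Z x) : ℝ)) * ∏ x ∈ S, (nwin ρ (Z x) : ℝ)) *
        ∏ x ∈ Finset.univ \ S, (nwin ρ (Z x) : ℝ)
      = ρ ^ XX F Z * (α m F (cell θ Z)).toReal / ∏ x ∈ S, (nwin ρ (Z x) : ℝ) := by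
        field_simp
    _ ≤ (ρ ^ M * ρ ^ (∑ x ∈ S, Z x)) * (α m F (cell θ Z)).toReal /
        ∏ x ∈ S, (nwin ρ (Z x) : ℝ) := by
        gcongr
    _ = _ := by ring

open Classical in
/-- One cell. -/
private theorem cell_le {δ Y A : ℝ} {α : (m : ℕ) → Finset (Finset (Fin m)) → Measure (Fin m → ℝ)}
    (hF : Feas δ Y α A) (hδ : 0 < δ) {M : ℕ} {ρ θ : ℝ} (hρ : 1 < ρ) (hθ : 0 < θ)
    {u u' : ℕ} (hne : u ≠ u') (hu : Sep ρ u) (hu'0 : u' ≠ 0) (hP : u'.primeFactors.card ≤ M)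
    (N : ℕ) (h0 : 0 < N) (hN : ∀ j : ℕ, δ < (j + 1) * θ → N ≤ nwin ρ j)
    {m : ℕ} (hm : m ≤ M) (F : Finset (Finset (Fin m))) (Z : Fin m → ℕ)
    (T : Finset (Fin m → ℕ)) (hT : ∀ q ∈ T, we ρ θ α m F q ≠ 0 ∧
      (fun x => widx ρ (q x)) = Z ∧ (∃ S ∈ F, ∏ x ∈ S, q x = u) ∧ ∃ S ∈ F, ∏ x ∈ S, q x = u') :
    ∑ q ∈ T, we ρ θ α m F q ≤ ∑ S ∈ F, if Mtch ρ S Z u then
      ((M : ℝ) * M / N * ρ ^ M * ∏ p ∈ u.primeFactors, (ρ ^ widx ρ p / nwin ρ (widx ρ p))) *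
        (α m F (cell θ Z)).toReal else 0 := by
  have hρ0 : 0 < ρ := by linarith
  have hG : 0 ≤ ∏ p ∈ u.primeFactors, (ρ ^ widx ρ p / (nwin ρ (widx ρ p) : ℝ)) :=
    Finset.prod_nonneg fun p _ => div_nonneg (pow_pos hρ0 _).le (Nat.cast_nonneg _)
  have hN0 : (0 : ℝ) < N := by exact_mod_cast h0
  rcases T.eq_empty_or_nonempty with hTe | ⟨q₀, hq₀⟩
  · rw [hTe, Finset.sum_empty]
    refine Finset.sum_nonneg fun S _ => ?_
    split_ifs
    · exact mul_nonneg (mul_nonneg (by positivity) hG) ENNReal.toReal_nonneg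
    · exact le_rfl
  · have hpos : α m F (cell θ Z) ≠ 0 := by
      obtain ⟨h1, h2, -, -⟩ := hT q₀ hq₀
      rw [← h2]
      exact (we_ne h1).2.2
    obtain ⟨-, -, hlo, hXX, -, hSS⟩ := cell_pos hF hδ θ hθ F Z hpos
    have hNZ : ∀ x, N ≤ nwin ρ (Z x) := fun x => hN (Z x) (hlo x).1
    have hsub : T ⊆ F.biUnion fun S => (Finset.univ \ S).biUnion fun y =>
        (PV ρ Z).filter fun q => ∏ x ∈ S, q x = u ∧ q y ∈ u'.primeFactors := by
      intro q hq
      obtain ⟨h1, h2, ⟨S, hS, hSu⟩, S', hS', hSu'⟩ := hT q hq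
      have hne' : S ≠ S' := by
        intro e
        rw [e, hSu'] at hSu
        exact hne hSu.symm
      obtain ⟨y, hyS', hyS⟩ := hSS S hS S' hS' hne'
      have hprime := (we_ne h1).1
      rw [Finset.mem_biUnion]
      refine ⟨S, hS, ?_⟩
      rw [Finset.mem_biUnion]
      refine ⟨y, Finset.mem_sdiff.2 ⟨Finset.mem_univ y, hyS⟩, ?_⟩
      rw [Finset.mem_filter]
      refine ⟨?_, hSu, ?_⟩
      · unfold PV
        rw [Fintype.mem_piFinset]
        intro x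
        exact (widx_eq_iff hρ (hprime x)).1 (congrFun h2 x)
      · rw [Nat.mem_primeFactors]
        refine ⟨hprime y, ?_, hu'0⟩
        rw [← hSu']
        exact Finset.dvd_prod_of_mem q hyS'
    have hcard : (T.card : ℝ) ≤ ∑ S ∈ F, if Mtch ρ S Z u then
        (M : ℝ) * M / N * ∏ x ∈ Finset.univ \ S, (nwin ρ (Z x) : ℝ) else 0 := by
      have h1 : T.card ≤ ∑ S ∈ F, ∑ y ∈ Finset.univ \ S,
          ((PV ρ Z).filter fun q => ∏ x ∈ S, q x = u ∧ q y ∈ u'.primeFactors).card := by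
        refine (Finset.card_le_card hsub).trans (Finset.card_biUnion_le.trans ?_)
        exact Finset.sum_le_sum fun S _ => Finset.card_biUnion_le
      have h2 : (T.card : ℝ) ≤ ∑ S ∈ F, ∑ y ∈ Finset.univ \ S,
          ((((PV ρ Z).filter fun q => ∏ x ∈ S, q x = u ∧ q y ∈ u'.primeFactors).card : ℕ) : ℝ) := by
        exact_mod_cast h1
      refine h2.trans (Finset.sum_le_sum fun S _ => ?_)
      have h3 : ∀ y ∈ Finset.univ \ S,
          ((((PV ρ Z).filter fun q => ∏ x ∈ S, q x = u ∧ q y ∈ u'.primeFactors).card : ℕ) : ℝ) ≤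
          if Mtch ρ S Z u then
            (M : ℝ) / N * ∏ x ∈ Finset.univ \ S, (nwin ρ (Z x) : ℝ) else 0 := by
        intro y hy
        refine (count_two hρ S Z u hu y (Finset.mem_sdiff.1 hy).2 u'.primeFactors N h0 hNZ).trans ?_
        split_ifs
        · have h4 : (u'.primeFactors.card : ℝ) ≤ M := by exact_mod_cast hP
          have h5 : 0 ≤ ∏ x ∈ Finset.univ \ S, (nwin ρ (Z x) : ℝ) :=
            Finset.prod_nonneg fun x _ => Nat.cast_nonneg _
          gcongr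
        · exact le_rfl
      refine (Finset.sum_le_sum h3).trans ?_
      rw [Finset.sum_const, nsmul_eq_mul]
      have h6 : ((Finset.univ \ S).card : ℝ) ≤ M := by
        have h7 : (Finset.univ \ S).card ≤ m := by
          refine (Finset.card_le_univ _).trans ?_
          rw [Fintype.card_fin]
        exact_mod_cast h7.trans hm
      split_ifs
      · have h5 : 0 ≤ ∏ x ∈ Finset.univ \ S, (nwin ρ (Z x) : ℝ) :=
          Finset.prod_nonneg fun x _ => Nat.cast_nonneg _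
        calc ((Finset.univ \ S).card : ℝ) * ((M : ℝ) / N *
              ∏ x ∈ Finset.univ \ S, (nwin ρ (Z x) : ℝ))
            ≤ (M : ℝ) * ((M : ℝ) / N * ∏ x ∈ Finset.univ \ S, (nwin ρ (Z x) : ℝ)) := by
              gcongr
          _ = _ := by ring
      · rw [mul_zero]
    have hsum : ∑ q ∈ T, we ρ θ α m F q = T.card * cwt ρ θ α m F Z := by
      rw [← nsmul_eq_mul, ← Finset.sum_const]
      refine Finset.sum_congr rfl fun q hq => ?_
      obtain ⟨h1, h2, -, -⟩ := hT q hq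
      rw [(we_ne h1).2.1, h2]
    rw [hsum]
    refine (mul_le_mul_of_nonneg_right hcard (cwt_nonneg hρ0 θ α m F Z)).trans ?_
    rw [Finset.sum_mul]
    refine Finset.sum_le_sum fun S hS => ?_
    split_ifs with hMt
    · have h1 := term_le (θ := θ) (α := α) hρ hm hu (hXX S hS).2
        (fun x => lt_of_lt_of_le h0 (hNZ x)) hMt
      calc (M : ℝ) * M / N * (∏ x ∈ Finset.univ \ S, (nwin ρ (Z x) : ℝ)) * cwt ρ θ α m F Z
          = (M : ℝ) * M / N *
            (cwt ρ θ α m F Z * ∏ x ∈ Finset.univ \ S, (nwin ρ (Z x) : ℝ)) := by ring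
        _ ≤ (M : ℝ) * M / N * (ρ ^ M * (∏ p ∈ u.primeFactors,
            (ρ ^ widx ρ p / nwin ρ (widx ρ p))) * (α m F (cell θ Z)).toReal) :=
            mul_le_mul_of_nonneg_left h1 (by positivity)
        _ = _ := by ring
    · rw [zero_mul]

open Classical in
/-- **Codegrees.**  If `∏_S q = u`, `∏_{S'} q = u'`, then `S ≠ S'`, there is `y ∈ S' \ S`
(`cell_pos`) and `q y` is one of the at most `M` primes of `u'`; `count_two` for each `(S, S', y)`
(at most `2^M M` pairs `(S', y)` for given `S`), then as in `deg_le`. -/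
theorem codeg_le {δ Y A : ℝ} {α : (m : ℕ) → Finset (Finset (Fin m)) → Measure (Fin m → ℝ)}
    (hF : Feas δ Y α A) (hδ : 0 < δ) (M : ℕ) (hM : (1 + Y) / δ < M) (ρ : ℝ) (hρ : 1 < ρ)
    (hρ2 : ρ ≤ 2) (ell : ℕ) (hl : 1 ≤ ell) (u u' : ℕ) (hne : u ≠ u')
    (hu : Adm δ Y (th ρ ell) ρ u) (hu' : Adm δ Y (th ρ ell) ρ u')
    (N : ℕ) (h0 : 0 < N) (hN : ∀ j : ℕ, δ < (j + 1) * th ρ ell → N ≤ nwin ρ j) :
    ∑ m ∈ Finset.range M, ∑ F : Finset (Finset (Fin m)),
      ∑ q ∈ (QV (2 ^ (ell + 2)) m).filter (fun q => (∃ S ∈ F, ∏ x ∈ S, q x = u) ∧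
        ∃ S ∈ F, ∏ x ∈ S, q x = u'), we ρ (th ρ ell) α m F q ≤
      2 ^ M * M ^ 2 / N * (ρ ^ M * PP ρ u) := by
  have hρ0 : 0 < ρ := by linarith
  have hθ : 0 < th ρ ell := by
    unfold th
    refine div_pos (Real.logb_pos (by norm_num) hρ) ?_
    exact_mod_cast hl
  set θ := th ρ ell with hθdef
  obtain ⟨J, hJ⟩ := exists_nat_gt (max (Real.logb ρ ((2 : ℝ) ^ (ell + 2))) (1 / θ))
  have hJ1 : 1 < J * θ := by
    have h1 := lt_of_le_of_lt (le_max_right _ _) hJ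
    rwa [div_lt_iff₀ hθ] at h1
  have hJ2 : ∀ p : ℕ, p.Prime → p < 2 ^ (ell + 2) → widx ρ p < J := by
    intro p hp hlt
    unfold widx
    have hp1 : (1 : ℝ) ≤ p := by exact_mod_cast hp.one_lt.le
    rw [Nat.floor_lt (Real.logb_nonneg hρ hp1)]
    refine lt_of_le_of_lt ?_ (lt_of_le_of_lt (le_max_left _ _) hJ)
    refine Real.logb_le_logb_of_le hρ (by linarith) ?_
    exact_mod_cast hlt.le
  have hSep : Sep ρ u := sep_of_adm hu
  have hP : u'.primeFactors.card ≤ M := card_pf hδ hθ M hM u' hu'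
  have hu'0 : u' ≠ 0 := by
    have := hu'.one_lt
    omega
  have hN0 : (0 : ℝ) < N := by exact_mod_cast h0
  have key : ∀ m ∈ Finset.range M, ∀ F : Finset (Finset (Fin m)),
      ∑ q ∈ (QV (2 ^ (ell + 2)) m).filter (fun q => (∃ S ∈ F, ∏ x ∈ S, q x = u) ∧
        ∃ S ∈ F, ∏ x ∈ S, q x = u'), we ρ θ α m F q ≤
      ∑ S ∈ F, ∑ Z ∈ (ZZ J m).filter (fun Z => Mtch ρ S Z u),
        ((M : ℝ) * M / N * ρ ^ M * ∏ p ∈ u.primeFactors, (ρ ^ widx ρ p / nwin ρ (widx ρ p))) *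
          (α m F (cell θ Z)).toReal := by
    intro m hm F
    set T := (QV (2 ^ (ell + 2)) m).filter (fun q => (∃ S ∈ F, ∏ x ∈ S, q x = u) ∧
        ∃ S ∈ F, ∏ x ∈ S, q x = u') with hT
    have hmaps : ∀ q ∈ T.filter (fun q => we ρ θ α m F q ≠ 0),
        (fun x => widx ρ (q x)) ∈ ZZ J m := by
      intro q hq
      obtain ⟨h1, h2⟩ := Finset.mem_filter.1 hq
      obtain ⟨h3, -⟩ := Finset.mem_filter.1 h1
      unfold ZZ
      rw [Fintype.mem_piFinset]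
      intro x
      rw [Finset.mem_range]
      unfold QV at h3
      rw [Fintype.mem_piFinset] at h3
      exact hJ2 (q x) ((we_ne h2).1 x) (Finset.mem_range.1 (h3 x))
    rw [← Finset.sum_filter_ne_zero, ← Finset.sum_fiberwise_of_maps_to hmaps]
    have h1 : ∀ Z ∈ ZZ J m, ∑ q ∈ (T.filter (fun q => we ρ θ α m F q ≠ 0)).filter
        (fun q => (fun x => widx ρ (q x)) = Z), we ρ θ α m F q ≤
        ∑ S ∈ F, if Mtch ρ S Z u then
          ((M : ℝ) * M / N * ρ ^ M * ∏ p ∈ u.primeFactors, (ρ ^ widx ρ p / nwin ρ (widx ρ p))) *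
            (α m F (cell θ Z)).toReal else 0 := by
      intro Z _
      refine cell_le hF hδ hρ hθ hne hSep hu'0 hP N h0 hN (Finset.mem_range.1 hm).le F Z _ ?_
      intro q hq
      obtain ⟨h1, h2⟩ := Finset.mem_filter.1 hq
      obtain ⟨h3, h4⟩ := Finset.mem_filter.1 h1
      obtain ⟨-, h5⟩ := Finset.mem_filter.1 h3
      exact ⟨h4, h2, h5.1, h5.2⟩
    refine (Finset.sum_le_sum h1).trans (le_of_eq ?_)
    rw [Finset.sum_comm]
    refine Finset.sum_congr rfl fun S _ => ?_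
    rw [Finset.sum_filter]
  refine (Finset.sum_le_sum fun m hm => Finset.sum_le_sum fun F _ => key m hm F).trans ?_
  have h2 := marg_cell hF hδ θ ρ hθ M J hM hJ1 u hu
  simp only [← Finset.mul_sum]
  rw [h2]
  have h3 : (∏ p ∈ u.primeFactors, (ρ ^ widx ρ p / (nwin ρ (widx ρ p) : ℝ))) *
      ∏ p ∈ u.primeFactors, Real.log (((widx ρ p : ℝ) + 1) / widx ρ p) = PP ρ u := by
    rw [← Finset.prod_mul_distrib]
    unfold PP
    refine Finset.prod_congr rfl fun p _ => ?_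
    ring
  have h4 : 0 ≤ PP ρ u := by
    unfold PP
    refine Finset.prod_nonneg fun p _ => ?_
    refine div_nonneg (mul_nonneg (pow_pos hρ0 _).le ?_) (Nat.cast_nonneg _)
    rcases Nat.eq_zero_or_pos (widx ρ p) with hz | hz
    · rw [hz]
      simp
    · have hz' : (0 : ℝ) < widx ρ p := by exact_mod_cast hz
      refine Real.log_nonneg ?_
      rw [le_div_iff₀ hz']
      linarith
  calc (M : ℝ) * M / N * ρ ^ M * (∏ p ∈ u.primeFactors, (ρ ^ widx ρ p / (nwin ρ (widx ρ p) : ℝ))) *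
        ∏ p ∈ u.primeFactors, Real.log (((widx ρ p : ℝ) + 1) / widx ρ p)
      = (M : ℝ) * M / N * (ρ ^ M * PP ρ u) := by
        rw [← h3]
        ring
    _ = 1 * M ^ 2 / N * (ρ ^ M * PP ρ u) := by ring
    _ ≤ 2 ^ M * M ^ 2 / N * (ρ ^ M * PP ρ u) := by
        have h5 : (1 : ℝ) ≤ 2 ^ M := one_le_pow₀ (by norm_num)
        gcongr

end Pool.Agent.W_a617e8_h51
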