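import Pool.Agent.W_a617e8_h51.P2

set_option autoImplicit false

/-! P2c: cost and size of the edges. -/

noncomputable section

open scoped ENNReal

open MeasureTheory Filter Topology

namespace Pool.Agent.W_a617e8_h51

/-- The smallest of the products. -/
def vm {m : ℕ} (F : Finset (Finset (Fin m))) (q : Fin m → ℕ) : ℕ :=
  sInf {v : ℕ | ∃ S ∈ F, ∏ x ∈ S, q x = v}

private theorem c_bounds {ρ : ℝ} (hρ : 1 < ρ) {p : ℕ} (hp : p.Prime) :
    ρ ^ widx ρ p ≤ (p : ℝ) ∧ (p : ℝ) ≤ ρ ^ (widx ρ p + 1) := by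
  have h := (widx_eq_iff hρ hp).1 rfl
  rw [mem_pwin] at h
  obtain ⟨_, h1, h2⟩ := h
  constructor
  · rwa [Real.rpow_natCast] at h1
  · have h3 : ((widx ρ p : ℝ) + 1) = ((widx ρ p + 1 : ℕ) : ℝ) := by push_cast; ring
    rw [h3, Real.rpow_natCast] at h2
    exact h2.le

private theorem c_spec {m : ℕ} {F : Finset (Finset (Fin m))} (hF : F.Nonempty)
    (q : Fin m → ℕ) : ∃ S ∈ F, ∏ x ∈ S, q x = vm F q := by
  have h : {v : ℕ | ∃ S ∈ F, ∏ x ∈ S, q x = v}.Nonempty := by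
    obtain ⟨S, hS⟩ := hF
    exact ⟨_, S, hS, rfl⟩
  exact Nat.sInf_mem h

private theorem c_le {m : ℕ} {F : Finset (Finset (Fin m))} {S : Finset (Fin m)} (hS : S ∈ F)
    (q : Fin m → ℕ) : vm F q ≤ ∏ x ∈ S, q x := Nat.sInf_le ⟨S, hS, rfl⟩

private theorem c_we {ρ θ : ℝ} {α : (m : ℕ) → Finset (Finset (Fin m)) → Measure (Fin m → ℝ)}
    {m : ℕ} {F : Finset (Finset (Fin m))} {q : Fin m → ℕ} (h : we ρ θ α m F q ≠ 0) :
    (∀ x, (q x).Prime) ∧ we ρ θ α m F q = ρ ^ XX F (fun x => widx ρ (q x)) *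
      (α m F (cell θ fun x => widx ρ (q x))).toReal / ∏ x, (nwin ρ (widx ρ (q x)) : ℝ) ∧
      α m F (cell θ fun x => widx ρ (q x)) ≠ 0 := by
  unfold we at h ⊢
  split_ifs at h ⊢ with hq
  · refine ⟨hq.1, rfl, fun h0 => h ?_⟩
    rw [h0]
    simp
  · exact absurd rfl h

/-- products of primes in `S` are at least `ρ^(∑_S Z)` -/
private theorem c_prod {ρ : ℝ} (hρ : 1 < ρ) {m : ℕ} {q : Fin m → ℕ} (hq : ∀ x, (q x).Prime)
    (S : Finset (Fin m)) : ρ ^ (∑ x ∈ S, widx ρ (q x)) ≤ ((∏ x ∈ S, q x : ℕ) : ℝ) := by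
  rw [← Finset.prod_pow_eq_pow_sum, Nat.cast_prod]
  exact Finset.prod_le_prod (fun x _ => by have : 0 < ρ := by linarith
                                           positivity) fun x _ => (c_bounds hρ (hq x)).1

private theorem c_thpos {ρ : ℝ} (hρ : 1 < ρ) {ell : ℕ} (h : 1 ≤ ell) : 0 < th ρ ell := by
  unfold th
  have h1 : 0 < Real.logb 2 ρ := Real.logb_pos (by norm_num) hρ
  have h2 : (0 : ℝ) < ell := by exact_mod_cast h
  positivity

open Classical in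
private theorem c_fam {δ Y A : ℝ} {α : (m : ℕ) → Finset (Finset (Fin m)) → Measure (Fin m → ℝ)}
    (hF : Feas δ Y α A) (hδ : 0 < δ) {ρ : ℝ} (hρ : 1 < ρ) (θ : ℝ) (hθ : 0 < θ) (m M : ℕ)
    (hm : m ≤ M) (F : Finset (Finset (Fin m))) (N : ℕ) (hfin : α m F Set.univ ≠ ⊤) :
    ∑ q ∈ QV N m, we ρ θ α m F q * (1 / (vm F q : ℝ)) ≤ ρ ^ M * (α m F Set.univ).toReal := by
  have hρ0 : 0 < ρ := by linarith
  obtain ⟨J₀, hJ₀⟩ := exists_nat_gt (1 / θ)
  obtain ⟨J, hJ⟩ : ∃ J : ℕ, J = J₀ + ∑ n ∈ Finset.range N, (widx ρ n + 1) := ⟨_, rfl⟩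
  have hJ1 : 1 < J * θ := by
    rw [div_lt_iff₀ hθ] at hJ₀
    have h1 : (J₀ : ℝ) ≤ J := by exact_mod_cast (by omega : J₀ ≤ J)
    nlinarith
  have hJ2 : ∀ n < N, widx ρ n < J := by
    intro n hn
    have h1 : widx ρ n + 1 ≤ ∑ n ∈ Finset.range N, (widx ρ n + 1) :=
      Finset.single_le_sum (f := fun n => widx ρ n + 1) (fun _ _ => Nat.zero_le _)
        (Finset.mem_range.2 hn)
    omega
  let g : (Fin m → ℕ) → ℝ := fun Z => (α m F (cell θ Z)).toReal / ∏ x, (nwin ρ (Z x) : ℝ)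
  have hg : ∀ Z, 0 ≤ g Z := fun Z => div_nonneg ENNReal.toReal_nonneg
    (Finset.prod_nonneg fun _ _ => Nat.cast_nonneg _)
  have hgd : ∀ Z, g Z = (α m F (cell θ Z)).toReal / ∏ x, (nwin ρ (Z x) : ℝ) := fun Z => rfl
  have h1 : ∀ q, we ρ θ α m F q * (1 / (vm F q : ℝ)) ≤
      if (∀ x, (q x).Prime) ∧ ∏ x ∈ (∅ : Finset (Fin m)), q x = 1 then
        ρ ^ M * g (fun x => widx ρ (q x)) else 0 := by
    intro q
    by_cases h0 : we ρ θ α m F q = 0
    · rw [h0, zero_mul]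
      split_ifs
      · exact mul_nonneg (pow_pos hρ0 _).le (hg _)
      · exact le_rfl
    · obtain ⟨hq, he, hα⟩ := c_we h0
      rw [if_pos ⟨hq, Finset.prod_empty⟩, he]
      obtain ⟨hne, -, -, hX, -, -⟩ := cell_pos hF hδ θ hθ F _ hα
      obtain ⟨S, hS, hSv⟩ := c_spec hne q
      have h2 := (hX S hS).2
      have h3 : ρ ^ XX F (fun x => widx ρ (q x)) ≤ ρ ^ M * (vm F q : ℝ) := by
        calc ρ ^ XX F (fun x => widx ρ (q x)) ≤ ρ ^ (M + ∑ x ∈ S, widx ρ (q x)) :=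
              pow_le_pow_right₀ hρ.le (by omega)
          _ = ρ ^ M * ρ ^ (∑ x ∈ S, widx ρ (q x)) := pow_add _ _ _
          _ ≤ ρ ^ M * (vm F q : ℝ) := by
            refine mul_le_mul_of_nonneg_left ?_ (pow_pos hρ0 _).le
            rw [← hSv]
            exact c_prod hρ hq S
      have hv : (0 : ℝ) < vm F q := by
        rw [← hSv]
        exact_mod_cast Finset.prod_pos fun x _ => (hq x).pos
      have e1 : ρ ^ XX F (fun x => widx ρ (q x)) *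
          (α m F (cell θ fun x => widx ρ (q x))).toReal /
            (∏ x, (nwin ρ (widx ρ (q x)) : ℝ)) * (1 / (vm F q : ℝ)) =
          (ρ ^ XX F (fun x => widx ρ (q x)) / vm F q) * g (fun x => widx ρ (q x)) := by
        rw [hgd]
        ring
      rw [e1]
      refine mul_le_mul_of_nonneg_right ?_ (hg _)
      rw [div_le_iff₀ hv]
      exact h3
  calc ∑ q ∈ QV N m, we ρ θ α m F q * (1 / (vm F q : ℝ))
      ≤ ∑ q ∈ QV N m, if (∀ x, (q x).Prime) ∧ ∏ x ∈ (∅ : Finset (Fin m)), q x = 1 then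
        ρ ^ M * g (fun x => widx ρ (q x)) else 0 := Finset.sum_le_sum fun q _ => h1 q
    _ = ρ ^ M * ∑ q ∈ (QV N m).filter
        (fun q => (∀ x, (q x).Prime) ∧ ∏ x ∈ (∅ : Finset (Fin m)), q x = 1),
          g (fun x => widx ρ (q x)) := by
        rw [← Finset.sum_filter, Finset.mul_sum]
    _ ≤ ρ ^ M * ∑ Z ∈ ZZ J m, ((((PV ρ Z).filter fun q =>
          ∏ x ∈ (∅ : Finset (Fin m)), q x = 1).card : ℕ) : ℝ) * g Z :=
        mul_le_mul_of_nonneg_left (p2_group hρ ∅ N J hJ2 1 g hg) (pow_pos hρ0 _).le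
    _ ≤ ρ ^ M * ∑ Z ∈ ZZ J m, (α m F (cell θ Z)).toReal := by
        refine mul_le_mul_of_nonneg_left (Finset.sum_le_sum fun Z _ => ?_) (pow_pos hρ0 _).le
        have h4 : ((((PV ρ Z).filter fun q => ∏ x ∈ (∅ : Finset (Fin m)), q x = 1).card : ℕ) : ℝ)
            ≤ ∏ x, (nwin ρ (Z x) : ℝ) := by
          rw [← Nat.cast_prod]
          refine Nat.cast_le.2 ((Finset.card_filter_le _ _).trans (le_of_eq ?_))
          unfold PV nwin
          rw [Fintype.card_piFinset]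
        refine (mul_le_mul_of_nonneg_right h4 (hg Z)).trans ?_
        rw [hgd]
        by_cases hz : ∏ x, (nwin ρ (Z x) : ℝ) = 0
        · rw [hz, zero_mul]
          exact ENNReal.toReal_nonneg
        · rw [mul_div_cancel₀ _ hz]
    _ = ρ ^ M * (α m F Set.univ).toReal := by
        have h5 : ∀ᵐ c ∂(α m F), ∀ x, 0 ≤ c x ∧ c x ≤ 1 := by
          filter_upwards [hF.good m F] with c hc x
          exact ⟨hδ.le.trans (hc.lo x), hc.hi x⟩
        rw [← sum_cell (α m F) h5 θ hθ J hJ1, ENNReal.toReal_sum]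
        intro Z _
        exact ne_top_of_le_ne_top hfin (measure_mono (Set.subset_univ _))

/-- **Cost.**  For each `Z` there are at most `∏ nwin (Z x)` vectors, and
`vm F q ≥ ρ^(min_S ∑_S Z) ≥ ρ^(XX - m)` by `cell_pos`; then `sum_cell` and `Feas.mass`. -/
theorem cost {δ Y A : ℝ} {α : (m : ℕ) → Finset (Finset (Fin m)) → Measure (Fin m → ℝ)}
    (hF : Feas δ Y α A) (hδ : 0 < δ) (hA : 0 ≤ A) (M : ℕ) (ρ : ℝ) (hρ : 1 < ρ) (ell : ℕ)
    (hl : 1 ≤ ell) (N : ℕ) :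
    ∑ m ∈ Finset.range M, ∑ F : Finset (Finset (Fin m)),
      ∑ q ∈ QV N m, we ρ (th ρ ell) α m F q * (1 / (vm F q : ℝ)) ≤ ρ ^ M * A := by
  have hρ0 : 0 < ρ := by linarith
  have h1 : ∑ m ∈ Finset.range M, ∑ F : Finset (Finset (Fin m)), α m F Set.univ ≤
      ENNReal.ofReal A := (ENNReal.sum_le_tsum _).trans hF.mass
  have hfin : ∀ m ∈ Finset.range M, ∀ F : Finset (Finset (Fin m)), α m F Set.univ ≠ ⊤ := by
    intro m hm F
    have h2 : α m F Set.univ ≤ ENNReal.ofReal A := by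
      refine le_trans ?_ h1
      refine le_trans ?_ (Finset.single_le_sum (f := fun m =>
        ∑ F : Finset (Finset (Fin m)), α m F Set.univ) (fun _ _ => zero_le) hm)
      exact Finset.single_le_sum (f := fun F : Finset (Finset (Fin m)) => α m F Set.univ)
        (fun _ _ => zero_le) (Finset.mem_univ F)
    exact ne_top_of_le_ne_top ENNReal.ofReal_ne_top h2
  calc ∑ m ∈ Finset.range M, ∑ F : Finset (Finset (Fin m)),
      ∑ q ∈ QV N m, we ρ (th ρ ell) α m F q * (1 / (vm F q : ℝ))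
      ≤ ∑ m ∈ Finset.range M, ∑ F : Finset (Finset (Fin m)),
        ρ ^ M * (α m F Set.univ).toReal :=
        Finset.sum_le_sum fun m hm => Finset.sum_le_sum fun F _ =>
          c_fam hF hδ hρ _ (c_thpos hρ hl) m M (Finset.mem_range.1 hm).le F N (hfin m hm F)
    _ = ρ ^ M * (∑ m ∈ Finset.range M, ∑ F : Finset (Finset (Fin m)),
        α m F Set.univ).toReal := by
        rw [ENNReal.toReal_sum, Finset.mul_sum]
        · refine Finset.sum_congr rfl fun m hm => ?_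
          rw [ENNReal.toReal_sum, Finset.mul_sum]
          exact fun F _ => hfin m hm F
        · intro m hm
          exact ENNReal.sum_ne_top.2 fun F _ => hfin m hm F
    _ ≤ ρ ^ M * A := by
        refine mul_le_mul_of_nonneg_left ?_ (pow_pos hρ0 _).le
        have h3 := ENNReal.toReal_mono ENNReal.ofReal_ne_top h1
        rwa [ENNReal.toReal_ofReal hA] at h3

/-- **Size.**  From `cell_pos`: with `S` a minimiser, `∏ q < ρ^(∑ Z + m)`,
`∑ Z θ ≤ 1 + ∑_S Z θ + m θ`, `ρ^(1/θ) = 2^ell`, `∏_S q ≥ ρ^(∑_S Z)`. -/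
theorem size {δ Y A : ℝ} {α : (m : ℕ) → Finset (Finset (Fin m)) → Measure (Fin m → ℝ)}
    (hF : Feas δ Y α A) (hδ : 0 < δ) (ρ : ℝ) (hρ : 1 < ρ) (ell : ℕ) (hl : 1 ≤ ell) (m : ℕ)
    (F : Finset (Finset (Fin m))) (q : Fin m → ℕ) (h : we ρ (th ρ ell) α m F q ≠ 0) :
    (∀ x, (q x).Prime) ∧ 0 < vm F q ∧ (∀ S ∈ F, vm F q ≤ ∏ x ∈ S, q x) ∧
      ((∏ x, q x : ℕ) : ℝ) ≤ ρ ^ (2 * m) * 2 ^ ell * vm F q := by
  have hρ0 : 0 < ρ := by linarith
  have hθ := c_thpos hρ hl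
  obtain ⟨hq, -, hα⟩ := c_we h
  obtain ⟨hne, -, -, -, hT, -⟩ := cell_pos hF hδ _ hθ F _ hα
  obtain ⟨S, hS, hSv⟩ := c_spec hne q
  have hv : 0 < vm F q := by
    rw [← hSv]
    exact Finset.prod_pos fun x _ => (hq x).pos
  refine ⟨hq, hv, fun S' hS' => c_le hS' q, ?_⟩
  have h1 : ((∏ x, q x : ℕ) : ℝ) ≤ ρ ^ (∑ x, widx ρ (q x) + m) := by
    calc ((∏ x, q x : ℕ) : ℝ) = ∏ x, (q x : ℝ) := by rw [Nat.cast_prod]
      _ ≤ ∏ x, ρ ^ (widx ρ (q x) + 1) :=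
        Finset.prod_le_prod (fun x _ => Nat.cast_nonneg _) fun x _ => (c_bounds hρ (hq x)).2
      _ = ρ ^ (∑ x, widx ρ (q x) + m) := by
        rw [Finset.prod_pow_eq_pow_sum, Finset.sum_add_distrib]
        simp
  have h2 : (∑ x, (widx ρ (q x) : ℝ)) ≤ 1 / th ρ ell + (∑ x ∈ S, (widx ρ (q x) : ℝ)) + m := by
    have h3 := hT S hS
    rw [← mul_le_mul_iff_left₀ hθ]
    refine h3.trans (le_of_eq ?_)
    rw [add_mul, add_mul, one_div, inv_mul_cancel₀ hθ.ne']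
  have hlb : 0 < Real.logb 2 ρ := Real.logb_pos (by norm_num) hρ
  have hlog : ρ ^ (1 / th ρ ell) = (2 : ℝ) ^ ell := by
    have e1 : ρ = (2 : ℝ) ^ Real.logb 2 ρ :=
      (Real.rpow_logb (by norm_num) (by norm_num) hρ0).symm
    have e2 : ρ ^ (1 / th ρ ell) = (2 : ℝ) ^ (Real.logb 2 ρ * (1 / th ρ ell)) := by
      conv_lhs => rw [e1]
      rw [← Real.rpow_mul (by norm_num), ← e1]
    rw [e2]
    have e3 : Real.logb 2 ρ * (1 / th ρ ell) = (ell : ℝ) := by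
      unfold th
      field_simp
    rw [e3, Real.rpow_natCast]
  have h4 : ρ ^ (∑ x, widx ρ (q x)) ≤ 2 ^ ell * (ρ ^ (∑ x ∈ S, widx ρ (q x)) * ρ ^ m) := by
    have e4 : ρ ^ (∑ x, widx ρ (q x)) = ρ ^ (∑ x, (widx ρ (q x) : ℝ)) := by
      rw [← Real.rpow_natCast, Nat.cast_sum]
    have e5 : (2 : ℝ) ^ ell * (ρ ^ (∑ x ∈ S, widx ρ (q x)) * ρ ^ m) =
        ρ ^ (1 / th ρ ell + (∑ x ∈ S, (widx ρ (q x) : ℝ)) + m) := by
      rw [Real.rpow_add hρ0, Real.rpow_add hρ0, hlog, mul_assoc, ← Real.rpow_natCast ρ m,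
        ← Real.rpow_natCast ρ (∑ x ∈ S, widx ρ (q x)), Nat.cast_sum]
    rw [e4, e5]
    exact Real.rpow_le_rpow_of_exponent_le hρ.le h2
  have h5 := c_prod hρ hq S
  rw [hSv] at h5
  calc ((∏ x, q x : ℕ) : ℝ) ≤ ρ ^ (∑ x, widx ρ (q x) + m) := h1
    _ = ρ ^ (∑ x, widx ρ (q x)) * ρ ^ m := pow_add _ _ _
    _ ≤ (2 ^ ell * (ρ ^ (∑ x ∈ S, widx ρ (q x)) * ρ ^ m)) * ρ ^ m :=
        mul_le_mul_of_nonneg_right h4 (pow_pos hρ0 _).le
    _ ≤ (2 ^ ell * (vm F q * ρ ^ m)) * ρ ^ m := by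
        have h6 : 0 ≤ ρ ^ m := (pow_pos hρ0 _).le
        have h7 : (0 : ℝ) ≤ 2 ^ ell := by positivity
        exact mul_le_mul_of_nonneg_right (mul_le_mul_of_nonneg_left
          (mul_le_mul_of_nonneg_right h5 h6) h7) h6
    _ = ρ ^ (2 * m) * 2 ^ ell * vm F q := by
        rw [two_mul, pow_add]
        ring

end Pool.Agent.W_a617e8_h51
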