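import Pool.Agent.W_a617e8_h51.P2a
import Pool.Agent.W_a617e8_h51.P2b

set_option autoImplicit false

/-! P2d: asymptotic form of degrees and codegrees. -/

noncomputable section

open scoped ENNReal

open MeasureTheory Filter Topology

namespace Pool.Agent.W_a617e8_h51

private theorem P2d_fac {ρ : ℝ} (hρ : 1 < ρ) :
    Tendsto (fun j : ℕ => ρ ^ j * Real.log (((j : ℝ) + 1) / j) / nwin ρ j) atTop
      (𝓝 (Real.log ρ / (ρ - 1))) := by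
  have hl : 0 < Real.log ρ := Real.log_pos hρ
  have hρ0 : 0 < ρ := by linarith
  have hρ1 : 0 < ρ - 1 := by linarith
  have h1 : Tendsto (fun j : ℕ => (j : ℝ) * Real.log (1 + 1 / (j : ℝ))) atTop (𝓝 1) :=
    (Real.tendsto_mul_log_one_add_div_atTop 1).comp tendsto_natCast_atTop_atTop
  have h2 := ((h1.mul_const (Real.log ρ / (ρ - 1))).div (nwin_tendsto ρ hρ) one_ne_zero)
  rw [one_mul, div_one] at h2
  refine h2.congr' ?_
  filter_upwards [eventually_ge_atTop 1] with j hj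
  have hj0 : (0 : ℝ) < j := by exact_mod_cast hj
  have e1 : (1 : ℝ) + 1 / j = (j + 1) / j := by
    field_simp
  rw [Pi.div_apply, e1]
  by_cases hn : (nwin ρ j : ℝ) = 0
  · simp [hn]
  · have hp : ρ ^ j ≠ 0 := by positivity
    field_simp

private theorem P2d_nwin {ρ : ℝ} (hρ : 1 < ρ) (N : ℕ) : ∃ j₁ : ℕ, ∀ j, j₁ ≤ j → N ≤ nwin ρ j := by
  have hl : 0 < Real.log ρ := Real.log_pos hρ
  have hρ0 : 0 < ρ := by linarith
  have hρ1 : 0 < ρ - 1 := by linarith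
  have h1 : Tendsto (fun j : ℕ => (j : ℝ) ^ 1 / ρ ^ j * (Real.log ρ / (ρ - 1))) atTop
      (𝓝 (0 * (Real.log ρ / (ρ - 1)))) :=
    (tendsto_pow_const_div_const_pow_of_one_lt 1 hρ).mul_const _
  rw [zero_mul] at h1
  have h2 : ∀ᶠ j : ℕ in atTop, (j : ℝ) ^ 1 / ρ ^ j * (Real.log ρ / (ρ - 1)) < 1 / (2 * (N + 1)) :=
    h1.eventually_lt_const (by positivity)
  have h3 : ∀ᶠ j : ℕ in atTop, 1 / 2 <
      (nwin ρ j : ℝ) * (j * Real.log ρ) / (ρ ^ j * (ρ - 1)) :=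
    (nwin_tendsto ρ hρ).eventually_const_lt (by norm_num)
  obtain ⟨j₁, hj⟩ := (h2.and h3).exists_forall_of_atTop
  refine ⟨j₁, fun j hjj => ?_⟩
  obtain ⟨h4, h5⟩ := hj j hjj
  by_contra hN
  push Not at hN
  have hN' : (nwin ρ j : ℝ) ≤ N := by exact_mod_cast hN.le
  have e : (nwin ρ j : ℝ) * (j * Real.log ρ) / (ρ ^ j * (ρ - 1)) =
      nwin ρ j * ((j : ℝ) ^ 1 / ρ ^ j * (Real.log ρ / (ρ - 1))) := by
    have hp : ρ ^ j ≠ 0 := by positivity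
    field_simp
  rw [e] at h5
  have h6 : (nwin ρ j : ℝ) * ((j : ℝ) ^ 1 / ρ ^ j * (Real.log ρ / (ρ - 1))) ≤
      N * (1 / (2 * (N + 1))) := by
    have h7 : 0 ≤ (j : ℝ) ^ 1 / ρ ^ j * (Real.log ρ / (ρ - 1)) := by positivity
    gcongr
  have h8 : (N : ℝ) * (1 / (2 * (N + 1))) ≤ 1 / 2 := by
    have : (0 : ℝ) ≤ N := by positivity
    rw [mul_one_div, div_le_div_iff₀ (by positivity) (by norm_num)]
    linarith
  linarith

private theorem P2d_th (ρ δ : ℝ) (hδ : 0 < δ) (J : ℕ) :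
    ∀ᶠ ell : ℕ in atTop, 1 ≤ ell ∧ (J : ℝ) * th ρ ell < δ := by
  have h1 : Tendsto (fun ell : ℕ => (J : ℝ) * th ρ ell) atTop (𝓝 ((J : ℝ) * 0)) := by
    unfold th
    exact (tendsto_const_div_atTop_nhds_zero_nat (Real.logb 2 ρ)).const_mul _
  rw [mul_zero] at h1
  exact (eventually_ge_atTop 1).and (h1.eventually_lt_const hδ)

private theorem P2d_thpos {ρ : ℝ} (hρ : 1 < ρ) {ell : ℕ} (h : 1 ≤ ell) : 0 < th ρ ell := by
  unfold th
  have h1 : 0 < Real.logb 2 ρ := Real.logb_pos (by norm_num) hρ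
  have h2 : (0 : ℝ) < ell := by exact_mod_cast h
  positivity

private theorem P2d_abs {κ x : ℝ} (hκ : 0 < κ) (h1 : (1 + κ)⁻¹ ≤ x) (h2 : x ≤ 1 + κ) :
    |x - 1| ≤ κ := by
  have h3 : 1 - κ ≤ (1 + κ)⁻¹ := by
    rw [← one_div, le_div_iff₀ (by positivity)]
    nlinarith
  rw [abs_le]
  constructor <;> linarith

/-- Each factor tends to `log ρ/(ρ - 1) ∈ [1/ρ, 1]` as the index tends to infinity
(`nwin_tendsto`, `z log((z+1)/z) → 1`), and there are at most `M` factors. -/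
theorem prod_asymp (M : ℕ) (κ : ℝ) (hκ : 0 < κ) :
    ∃ ρ₁ : ℝ, 1 < ρ₁ ∧ ρ₁ ≤ 2 ∧ ∀ ρ : ℝ, 1 < ρ → ρ ≤ ρ₁ → ∃ j₀ : ℕ, ∀ u : ℕ,
      u.primeFactors.card ≤ M → (∀ p ∈ u.primeFactors, j₀ ≤ widx ρ p) →
      |ρ ^ M * PP ρ u - 1| ≤ κ ∧ |PP ρ u - 1| ≤ κ := by
  have hg : ∃ g : ℝ, 1 < g ∧ g ^ (2 * M) ≤ 1 + κ := by
    have h1 : Tendsto (fun g : ℝ => g ^ (2 * M)) (𝓝[>] 1) (𝓝 ((1 : ℝ) ^ (2 * M))) :=
      ((continuous_pow (2 * M)).tendsto 1).mono_left nhdsWithin_le_nhds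
    rw [one_pow] at h1
    have h2 : ∀ᶠ g : ℝ in 𝓝[>] 1, g ^ (2 * M) < 1 + κ := h1.eventually_lt_const (by linarith)
    obtain ⟨g, hg1, hg2⟩ := (h2.and self_mem_nhdsWithin).exists
    exact ⟨g, hg2, hg1.le⟩
  obtain ⟨g, hg1, hg2⟩ := hg
  have hg0 : 0 < g := by linarith
  refine ⟨min g 2, lt_min hg1 (by norm_num), min_le_right _ _, ?_⟩
  intro ρ hρ hρg
  have hρg' : ρ ≤ g := hρg.trans (min_le_left _ _)
  have hρ0 : 0 < ρ := by linarith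
  have hρ1 : 0 < ρ - 1 := by linarith
  have hlim := P2d_fac hρ
  have hL1 : Real.log ρ / (ρ - 1) < g := by
    have h1 : Real.log ρ ≤ ρ - 1 := Real.log_le_sub_one_of_pos hρ0
    have h2 : Real.log ρ / (ρ - 1) ≤ 1 := by
      rw [div_le_one hρ1]
      exact h1
    linarith
  have hL2 : (g ^ 2)⁻¹ < Real.log ρ / (ρ - 1) := by
    have h1 : 1 - ρ⁻¹ ≤ Real.log ρ := Real.one_sub_inv_le_log_of_pos hρ0
    have h2 : ρ⁻¹ ≤ Real.log ρ / (ρ - 1) := by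
      rw [le_div_iff₀ hρ1]
      refine le_trans (le_of_eq ?_) h1
      field_simp
    have h3 : (g ^ 2)⁻¹ < ρ⁻¹ := by
      apply inv_strictAnti₀ hρ0
      nlinarith
    linarith
  obtain ⟨j₀, hj₀⟩ := ((hlim.eventually_lt_const hL1).and
    (hlim.eventually_const_lt hL2)).exists_forall_of_atTop
  refine ⟨j₀, fun u hu hp => ?_⟩
  have hup : PP ρ u ≤ g ^ M := by
    unfold PP
    calc _ ≤ ∏ _p ∈ u.primeFactors, g := by
          apply Finset.prod_le_prod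
          · intro p hpp
            have := (hj₀ _ (hp p hpp)).2
            have h2 : 0 < (g ^ 2)⁻¹ := by positivity
            linarith
          · intro p hpp
            exact (hj₀ _ (hp p hpp)).1.le
      _ = g ^ u.primeFactors.card := by rw [Finset.prod_const]
      _ ≤ g ^ M := pow_le_pow_right₀ hg1.le hu
  have hlo : ((g ^ 2) ^ M)⁻¹ ≤ PP ρ u := by
    unfold PP
    calc ((g ^ 2) ^ M)⁻¹ ≤ ((g ^ 2) ^ u.primeFactors.card)⁻¹ := by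
          apply inv_anti₀ (by positivity)
          exact pow_le_pow_right₀ (by nlinarith) hu
      _ = ∏ _p ∈ u.primeFactors, (g ^ 2)⁻¹ := by rw [Finset.prod_const, inv_pow]
      _ ≤ _ := by
          apply Finset.prod_le_prod
          · intro p hpp
            positivity
          · intro p hpp
            exact (hj₀ _ (hp p hpp)).2.le
  rw [← pow_mul] at hlo
  have hgM : 0 < g ^ M := by positivity
  have hlo' : (1 + κ)⁻¹ ≤ PP ρ u := by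
    refine le_trans ?_ hlo
    exact inv_anti₀ (by positivity) hg2
  have hPP : 0 < PP ρ u := lt_of_lt_of_le (by positivity) hlo'
  have hρM : 1 ≤ ρ ^ M := one_le_pow₀ hρ.le
  have hρM' : ρ ^ M ≤ g ^ M := pow_le_pow_left₀ hρ0.le hρg' M
  have e2 : g ^ (2 * M) = g ^ M * g ^ M := by
    rw [two_mul, pow_add]
  have hgM1 : 1 ≤ g ^ M := one_le_pow₀ hg1.le
  refine ⟨P2d_abs hκ ?_ ?_, P2d_abs hκ hlo' ?_⟩
  · nlinarith
  · calc ρ ^ M * PP ρ u ≤ g ^ M * g ^ M := by gcongr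
      _ ≤ 1 + κ := by rw [← e2]; exact hg2
  · calc PP ρ u ≤ g ^ M := hup
      _ ≤ g ^ M * g ^ M := by nlinarith
      _ ≤ 1 + κ := by rw [← e2]; exact hg2

/-- An admissible `u` has at most `M` primes (`δ < z_p θ`, sum `< Y`). -/
theorem card_le_of_Adm {δ Y θ ρ : ℝ} (hδ : 0 < δ) (hθ : 0 < θ) (M : ℕ) (hM : (1 + Y) / δ < M)
    (u : ℕ) (hu : Adm δ Y θ ρ u) : u.primeFactors.card ≤ M := by
  have h1 : (u.primeFactors.card : ℝ) * δ ≤ ∑ p ∈ u.primeFactors, ((widx ρ p + 1) * θ) := by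
    rw [← nsmul_eq_mul]
    apply Finset.card_nsmul_le_sum
    intro p hp
    have := hu.lo p hp
    nlinarith
  have h2 := hu.sum
  rw [div_lt_iff₀ hδ] at hM
  have h3 : (u.primeFactors.card : ℝ) * δ < M * δ := by linarith
  have h4 : (u.primeFactors.card : ℝ) < M := lt_of_mul_lt_mul_right h3 hδ.le
  exact_mod_cast h4.le

open Classical in
/-- **Degrees.**  `deg_le`, `deg_ge`, `prod_asymp`; `nwin ρ j → ∞` (`nwin_tendsto`) and
`(j+1) θ > δ` forces `j` large as `ell → ∞`. -/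
theorem degree {δ Y A : ℝ} {α : (m : ℕ) → Finset (Finset (Fin m)) → Measure (Fin m → ℝ)}
    (hF : Feas δ Y α A) (hδ : 0 < δ) (M : ℕ) (hM : (1 + Y) / δ < M) (κ : ℝ) (hκ : 0 < κ) :
    ∃ ρ₁ : ℝ, 1 < ρ₁ ∧ ∀ ρ : ℝ, 1 < ρ → ρ ≤ ρ₁ → ∀ᶠ ell : ℕ in atTop, ∀ u : ℕ,
      Adm δ Y (th ρ ell) ρ u →
      |(∑ m ∈ Finset.range M, ∑ F : Finset (Finset (Fin m)),
        ∑ q ∈ (QV (2 ^ (ell + 2)) m).filter (fun q => ∃ S ∈ F, ∏ x ∈ S, q x = u),
          we ρ (th ρ ell) α m F q) - 1| ≤ κ := by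
  obtain ⟨κ', hκ'0, hκ'1, hκ'2⟩ : ∃ κ' : ℝ, 0 < κ' ∧ κ' ≤ 1 / 4 ∧ 2 * κ' ≤ κ := by
    refine ⟨min κ 1 / 4, by positivity, ?_, ?_⟩
    · have := min_le_right κ 1
      linarith
    · have := min_le_left κ 1
      linarith
  obtain ⟨ρ₁, hρ₁, hρ₁2, hprod⟩ := prod_asymp M κ' hκ'0
  refine ⟨ρ₁, hρ₁, fun ρ hρ hρle => ?_⟩
  obtain ⟨j₀, hj₀⟩ := hprod ρ hρ hρle
  obtain ⟨N, hMN, hN⟩ : ∃ N : ℕ, M < N ∧ 1 - κ' ≤ (1 - (M : ℝ) / N) ^ M := by
    have h1 : Tendsto (fun N : ℕ => (1 - (M : ℝ) / N) ^ M) atTop (𝓝 ((1 - 0) ^ M)) :=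
      ((tendsto_const_div_atTop_nhds_zero_nat (M : ℝ)).const_sub 1).pow M
    rw [sub_zero, one_pow] at h1
    obtain ⟨N, h2, h3⟩ := ((h1.eventually_const_lt (show 1 - κ' < 1 by linarith)).and
      (eventually_gt_atTop M)).exists
    exact ⟨N, h3, h2.le⟩
  obtain ⟨j₁, hj₁⟩ := P2d_nwin hρ N
  filter_upwards [P2d_th ρ δ hδ (max j₀ (j₁ + 1))] with ell hell u hu
  obtain ⟨hell1, hell2⟩ := hell
  have hθ : 0 < th ρ ell := P2d_thpos hρ hell1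
  have hbig : ∀ p ∈ u.primeFactors, j₀ ≤ widx ρ p := by
    intro p hp
    have h1 := hu.lo p hp
    by_contra h2
    push Not at h2
    have h3 : (widx ρ p : ℝ) ≤ ((max j₀ (j₁ + 1) : ℕ) : ℝ) := by
      exact_mod_cast h2.le.trans (le_max_left _ _)
    have h4 : (widx ρ p : ℝ) * th ρ ell ≤ ((max j₀ (j₁ + 1) : ℕ) : ℝ) * th ρ ell := by gcongr
    linarith
  have hNj : ∀ j : ℕ, δ < (j + 1) * th ρ ell → N ≤ nwin ρ j := by
    intro j hj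
    apply hj₁
    by_contra h2
    push Not at h2
    have h3 : (j : ℝ) + 1 ≤ ((max j₀ (j₁ + 1) : ℕ) : ℝ) := by
      have : j + 1 ≤ max j₀ (j₁ + 1) := (Nat.succ_le_succ h2.le).trans (le_max_right _ _)
      exact_mod_cast this
    have h4 : ((j : ℝ) + 1) * th ρ ell ≤ ((max j₀ (j₁ + 1) : ℕ) : ℝ) * th ρ ell := by gcongr
    linarith
  have hcard := card_le_of_Adm hδ hθ M hM u hu
  obtain ⟨hp1, hp2⟩ := hj₀ u hcard hbig
  have hup := deg_le hF hδ M hM ρ hρ (hρle.trans hρ₁2) ell hell1 u hu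
  have hlo := deg_ge hF hδ M hM ρ hρ (hρle.trans hρ₁2) ell hell1 u hu N hMN hNj
  rw [abs_le] at hp1 hp2 ⊢
  have h5 : (1 - κ') * (1 - κ') ≤ (1 - (M : ℝ) / N) ^ M * PP ρ u := by
    apply mul_le_mul hN (by linarith) (by linarith)
    exact le_trans (by linarith) hN
  constructor
  · nlinarith
  · linarith

open Classical in
/-- **Codegrees.** -/
theorem codegree {δ Y A : ℝ} {α : (m : ℕ) → Finset (Finset (Fin m)) → Measure (Fin m → ℝ)}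
    (hF : Feas δ Y α A) (hδ : 0 < δ) (M : ℕ) (hM : (1 + Y) / δ < M) (κ : ℝ) (hκ : 0 < κ) :
    ∃ ρ₁ : ℝ, 1 < ρ₁ ∧ ∀ ρ : ℝ, 1 < ρ → ρ ≤ ρ₁ → ∀ᶠ ell : ℕ in atTop, ∀ u u' : ℕ, u ≠ u' →
      Adm δ Y (th ρ ell) ρ u → Adm δ Y (th ρ ell) ρ u' →
      ∑ m ∈ Finset.range M, ∑ F : Finset (Finset (Fin m)),
        ∑ q ∈ (QV (2 ^ (ell + 2)) m).filter (fun q => (∃ S ∈ F, ∏ x ∈ S, q x = u) ∧
          ∃ S ∈ F, ∏ x ∈ S, q x = u'), we ρ (th ρ ell) α m F q ≤ κ := by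
  obtain ⟨ρ₁, hρ₁, hρ₁2, hprod⟩ := prod_asymp M 1 one_pos
  refine ⟨ρ₁, hρ₁, fun ρ hρ hρle => ?_⟩
  obtain ⟨j₀, hj₀⟩ := hprod ρ hρ hρle
  obtain ⟨N, hN0, hN⟩ : ∃ N : ℕ, 0 < N ∧ 2 ^ M * (M : ℝ) ^ 2 / N * 2 ≤ κ := by
    have h1 : Tendsto (fun N : ℕ => 2 ^ M * (M : ℝ) ^ 2 / N * 2) atTop (𝓝 (0 * 2)) :=
      (tendsto_const_div_atTop_nhds_zero_nat (2 ^ M * (M : ℝ) ^ 2)).mul_const 2
    rw [zero_mul] at h1
    obtain ⟨N, h2, h3⟩ := ((h1.eventually_lt_const hκ).and (eventually_gt_atTop 0)).exists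
    exact ⟨N, h3, h2.le⟩
  obtain ⟨j₁, hj₁⟩ := P2d_nwin hρ N
  filter_upwards [P2d_th ρ δ hδ (max j₀ (j₁ + 1))] with ell hell u u' hne hu hu'
  obtain ⟨hell1, hell2⟩ := hell
  have hθ : 0 < th ρ ell := P2d_thpos hρ hell1
  have hbig : ∀ p ∈ u.primeFactors, j₀ ≤ widx ρ p := by
    intro p hp
    have h1 := hu.lo p hp
    by_contra h2
    push Not at h2
    have h3 : (widx ρ p : ℝ) ≤ ((max j₀ (j₁ + 1) : ℕ) : ℝ) := by
      exact_mod_cast h2.le.trans (le_max_left _ _)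
    have h4 : (widx ρ p : ℝ) * th ρ ell ≤ ((max j₀ (j₁ + 1) : ℕ) : ℝ) * th ρ ell := by gcongr
    linarith
  have hNj : ∀ j : ℕ, δ < (j + 1) * th ρ ell → N ≤ nwin ρ j := by
    intro j hj
    apply hj₁
    by_contra h2
    push Not at h2
    have h3 : (j : ℝ) + 1 ≤ ((max j₀ (j₁ + 1) : ℕ) : ℝ) := by
      have : j + 1 ≤ max j₀ (j₁ + 1) := (Nat.succ_le_succ h2.le).trans (le_max_right _ _)
      exact_mod_cast this
    have h4 : ((j : ℝ) + 1) * th ρ ell ≤ ((max j₀ (j₁ + 1) : ℕ) : ℝ) * th ρ ell := by gcongr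
    linarith
  have hcard := card_le_of_Adm hδ hθ M hM u hu
  obtain ⟨hp1, -⟩ := hj₀ u hcard hbig
  rw [abs_le] at hp1
  have h := codeg_le hF hδ M hM ρ hρ (hρle.trans hρ₁2) ell hell1 u u' hne hu hu' N hN0 hNj
  refine h.trans (le_trans ?_ hN)
  gcongr
  linarith

end Pool.Agent.W_a617e8_h51
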