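import Pool.Agent.W_a617e8_h51.D2

set_option autoImplicit false

/-! P3: sum of 1/u. -/

noncomputable section

open scoped ENNReal

open MeasureTheory Filter Topology

namespace Pool.Agent.W_a617e8_h51

/-- Sum of `1/u`: at most `∏ (1 + 1/p) ≤ exp(∑ 1/p)`, levels in `[δ ell, ell)` (`sum_PL_le`). -/
theorem leftover (δ : ℝ) (hδ : 0 < δ) (hδ1 : δ < 1) : ∃ C : ℝ, 0 < C ∧ ∀ ell : ℕ, 1 ≤ ell →
    ∀ U : Finset ℕ, (∀ u ∈ U, Squarefree u ∧ ∀ p ∈ u.primeFactors, δ * ell ≤ lev p ∧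
      lev p < ell) → ∑ u ∈ U, (1 : ℝ) / u ≤ C := by
  refine ⟨Real.exp (8 * (Real.log (2 / δ) + 1)), Real.exp_pos _, ?_⟩
  intro ell hell U hU
  have hell' : (1 : ℝ) ≤ ell := by exact_mod_cast hell
  set i₁ : ℕ := ⌈δ * ell⌉₊ with hi₁
  have hi1 : 1 ≤ i₁ := Nat.one_le_iff_ne_zero.2 (by
    rw [hi₁]
    exact (Nat.ceil_pos.2 (by positivity)).ne')
  set S : Finset ℕ := (Finset.Icc i₁ ell).biUnion PL with hS
  have hmem : ∀ u ∈ U, ∀ p ∈ u.primeFactors, p ∈ S := by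
    intro u hu p hp
    obtain ⟨h1, h2⟩ := (hU u hu).2 p hp
    rw [hS, Finset.mem_biUnion]
    refine ⟨lev p, ?_, ?_⟩
    · rw [Finset.mem_Icc]
      exact ⟨Nat.ceil_le.2 h1, h2.le⟩
    · exact mem_PL.2 ⟨Nat.prime_of_mem_primeFactors hp, rfl⟩
  have h1 : ∑ u ∈ U, (1 : ℝ) / u ≤ ∑ A ∈ S.powerset, ∏ p ∈ A, (1 : ℝ) / p := by
    have h2 : ∑ u ∈ U, (1 : ℝ) / u = ∑ u ∈ U, ∏ p ∈ u.primeFactors, (1 : ℝ) / p := by
      refine Finset.sum_congr rfl fun u hu => ?_
      have h3 := Nat.prod_primeFactors_of_squarefree (hU u hu).1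
      rw [Finset.prod_div_distrib, Finset.prod_const_one]
      congr 1
      rw [← Nat.cast_prod]
      exact_mod_cast h3.symm
    have hinj : Set.InjOn (fun u : ℕ => u.primeFactors) (U : Set ℕ) := by
      intro a ha b hb hab
      have ea := Nat.prod_primeFactors_of_squarefree (hU a ha).1
      have eb := Nat.prod_primeFactors_of_squarefree (hU b hb).1
      simp only at hab
      rw [← ea, ← eb, hab]
    rw [h2, ← Finset.sum_image (f := fun A : Finset ℕ => ∏ p ∈ A, (1 : ℝ) / p) hinj]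
    refine Finset.sum_le_sum_of_subset_of_nonneg ?_ fun A _ _ =>
      Finset.prod_nonneg fun p _ => by positivity
    intro A hA
    obtain ⟨u, hu, rfl⟩ := Finset.mem_image.1 hA
    exact Finset.mem_powerset.2 fun p hp => hmem u hu p hp
  have h2 : ∑ A ∈ S.powerset, ∏ p ∈ A, (1 : ℝ) / p = ∏ p ∈ S, (1 + 1 / (p : ℝ)) := by
    rw [Finset.prod_one_add]
  have h3 : ∏ p ∈ S, (1 + 1 / (p : ℝ)) ≤ Real.exp (∑ p ∈ S, (1 : ℝ) / p) := by
    rw [Real.exp_sum]
    refine Finset.prod_le_prod (fun p _ => by positivity) fun p _ => ?_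
    rw [add_comm]
    exact Real.add_one_le_exp _
  refine h1.trans (h2.le.trans (h3.trans (Real.exp_le_exp.2 ?_)))
  have hlog0 : 0 ≤ Real.log (2 / δ) := by
    refine Real.log_nonneg ?_
    rw [le_div_iff₀ hδ]
    linarith
  rcases sum_PL_le ell i₁ hi1 with h4 | h4
  · refine h4.trans ?_
    have h5 : ((ell : ℝ) + 1) / i₁ ≤ 2 / δ := by
      have h6 : δ * ell ≤ i₁ := Nat.le_ceil _
      have h7 : (0 : ℝ) < i₁ := by exact_mod_cast hi1
      rw [div_le_div_iff₀ h7 hδ]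
      nlinarith
    have h8 : Real.log (((ell : ℝ) + 1) / i₁) ≤ Real.log (2 / δ) := by
      refine Real.log_le_log ?_ h5
      have h7 : (0 : ℝ) < i₁ := by exact_mod_cast hi1
      positivity
    linarith
  · have h5 : S = ∅ := by
      rw [hS, Finset.Icc_eq_empty (by omega)]
      rfl
    rw [h5, Finset.sum_empty]
    positivity

end Pool.Agent.W_a617e8_h51
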