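import Pool.Agent.W_a617e8_h51.P2d
import Pool.Agent.W_a617e8_h51.P2c
import Pool.Agent.W_a617e8_h51.P3
import Pool.Agent.W_a617e8_h51.P3a
import Pool.Agent.W_a617e8_h51.N3b

set_option autoImplicit false

/-! P3b: realisation of a feasible solution by integers. -/

noncomputable section

open scoped ENNReal

open MeasureTheory Filter Topology

namespace Pool.Agent.W_a617e8_h51

theorem rz_image_sum {ι κ : Type*} [DecidableEq κ] (s : Finset ι) (g : ι → κ) (f : κ → ℝ)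
    (hf : ∀ c, 0 ≤ f c) : ∑ c ∈ s.image g, f c ≤ ∑ i ∈ s, f (g i) := by
  classical
  induction s using Finset.induction_on with
  | empty => simp
  | insert a s ha ih =>
    rw [Finset.image_insert, Finset.sum_insert ha]
    by_cases h : g a ∈ s.image g
    · rw [Finset.insert_eq_of_mem h]
      linarith [hf (g a)]
    · rw [Finset.sum_insert h]
      linarith

theorem rz_union_sum {κ : Type*} [DecidableEq κ] (s t : Finset κ) (f : κ → ℝ)
    (hf : ∀ c, 0 ≤ f c) : ∑ c ∈ s ∪ t, f c ≤ ∑ c ∈ s, f c + ∑ c ∈ t, f c := by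
  have h1 := Finset.sum_union_inter (s₁ := s) (s₂ := t) (f := f)
  have h2 : 0 ≤ ∑ c ∈ s ∩ t, f c := Finset.sum_nonneg fun c _ => hf c
  linarith

/-- Raw edges. -/
abbrev RzE : Type := (m : ℕ) × (Finset (Finset (Fin m)) × (Fin m → ℕ))

/-- All raw edges with `m < M` and entries `< N`. -/
def rzAll (M N : ℕ) : Finset RzE :=
  (Finset.range M).sigma fun m => Finset.univ ×ˢ QV N m

theorem rz_sum (M N : ℕ) (g : RzE → ℝ) : ∑ e ∈ rzAll M N, g e =
    ∑ m ∈ Finset.range M, ∑ F : Finset (Finset (Fin m)), ∑ q ∈ QV N m, g ⟨m, F, q⟩ := by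
  unfold rzAll
  rw [Finset.sum_sigma]
  refine Finset.sum_congr rfl fun m _ => ?_
  rw [Finset.sum_product]

theorem rz_rho (M : ℕ) (a : ℝ) (ha : 1 < a) (b : ℝ) (hb : 1 < b) :
    ∃ ρ : ℝ, 1 < ρ ∧ ρ ≤ a ∧ ρ ^ (2 * M) ≤ b := by
  have hc : Tendsto (fun ρ : ℝ => ρ ^ (2 * M)) (𝓝[>] 1) (𝓝 1) := by
    have h1 : Tendsto (fun ρ : ℝ => ρ ^ (2 * M)) (𝓝 1) (𝓝 (1 ^ (2 * M))) :=
      (continuous_pow _).tendsto _
    rw [one_pow] at h1
    exact h1.mono_left nhdsWithin_le_nhds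
  have h2 : ∀ᶠ ρ in 𝓝[>] (1 : ℝ), ρ ^ (2 * M) < b := hc.eventually_lt_const hb
  have h3 : ∀ᶠ ρ in 𝓝[>] (1 : ℝ), ρ < a :=
    (tendsto_id.mono_left nhdsWithin_le_nhds : Tendsto id (𝓝[>] (1 : ℝ)) (𝓝 1)).eventually_lt_const
      ha
  obtain ⟨ρ, h4, h5, h6⟩ := (h2.and (h3.and self_mem_nhdsWithin)).exists
  exact ⟨ρ, h6, h5.le, h4.le⟩

open Classical in
theorem rz_conv {M N : ℕ} (W : RzE → ℝ) (P : RzE → Prop) :
    ∑ e : ↥((rzAll M N).filter fun e => W e ≠ 0), (if P e then W e else 0) =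
      ∑ m ∈ Finset.range M, ∑ F : Finset (Finset (Fin m)),
        ∑ q ∈ (QV N m).filter (fun q => P ⟨m, F, q⟩), W ⟨m, F, q⟩ := by
  have h1 : ∑ e : ↥((rzAll M N).filter fun e => W e ≠ 0), (if P e then W e else 0) =
      ∑ e ∈ (rzAll M N).filter (fun e => W e ≠ 0), (if P e then W e else 0) :=
    Finset.sum_coe_sort _ (fun e => if P e then W e else 0)
  rw [h1]
  have h2 : ∑ e ∈ (rzAll M N).filter (fun e => W e ≠ 0), (if P e then W e else 0) =
      ∑ e ∈ rzAll M N, (if P e then W e else 0) := by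
    refine Finset.sum_subset (Finset.filter_subset _ _) fun e he hne => ?_
    have h3 : W e = 0 := by
      by_contra h4
      exact hne (Finset.mem_filter.2 ⟨he, h4⟩)
    rw [h3]; simp
  rw [h2, rz_sum]
  refine Finset.sum_congr rfl fun m _ => Finset.sum_congr rfl fun F _ => ?_
  rw [Finset.sum_filter]


open Classical in
/-- **Realisation.**  Proof: `nibble` with `k = 2^M` (`M > (1+Y)/δ`), `ε' ≤ ε/(4 (C + A + 1))`, gives
`κ`; `ρ` from `degree`, `codegree` (and `ρ^M A (1 + ε') ≤ A + ε/2`, `ρ^(2M) ≤ 2`, `ρ ≤ 2`); vertices: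
the `u > 1`, `Uok i₀ i₁ u`, `u < 2^((Y-ε) ell)`; edges: all `(m, F, q)`, `m < M`, `q ∈ QV`, with
`we ≠ 0` (`Σ`-type or a finset), `B (m,F,q) = {∏_S q : S ∈ F} ∩ V`, `c = 1/vm`, `μ u = 1/u`
(`leftover`).  `𝒞 = {(∏ q, vm F q) : (m,F,q) ∈ E'} ∪ {(u, u) : u ∈ U}`; `size`; `cost`. -/
theorem realize {δ Y A : ℝ} {α : (m : ℕ) → Finset (Finset (Fin m)) → Measure (Fin m → ℝ)}
    (hF : Feas δ Y α A) (hδ : 0 < δ) (hδ1 : δ < 1) (hY : 1 ≤ Y) (hA : 0 ≤ A) (ε : ℝ)
    (hε : 0 < ε) :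
    ∀ᶠ ell : ℕ in atTop, ∀ i₀ i₁ : ℕ, δ * ell + 2 ≤ (i₀ : ℝ) → i₁ + 2 ≤ ell →
      ∃ 𝒞 : Finset (ℕ × ℕ), (∀ c ∈ 𝒞, 0 < c.1 ∧ 0 < c.2) ∧
        (∀ u : ℕ, 1 < u → Uok i₀ i₁ u → (u : ℝ) < (2 : ℝ) ^ ((Y - ε) * ell) →
          ∃ c ∈ 𝒞, u ∣ c.1 ∧ c.2 ≤ u) ∧
        (∀ c ∈ 𝒞, (c.1 : ℝ) ≤ 2 ^ (ell + 1) * c.2) ∧
        ∑ c ∈ 𝒞, (1 : ℝ) / c.2 ≤ A + ε := by
  obtain ⟨M, hM⟩ := exists_nat_gt ((1 + Y) / δ)
  obtain ⟨C, hC, hleft⟩ := leftover δ hδ hδ1
  obtain ⟨e, he, he1, heε⟩ : ∃ e : ℝ, 0 < e ∧ e ≤ 1 ∧ e * (3 * A + C) ≤ ε := by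
    have hD : 0 < 3 * A + C := by positivity
    refine ⟨min 1 (ε / (3 * A + C)), lt_min one_pos (by positivity), min_le_left _ _, ?_⟩
    calc min 1 (ε / (3 * A + C)) * (3 * A + C) ≤ ε / (3 * A + C) * (3 * A + C) :=
          mul_le_mul_of_nonneg_right (min_le_right _ _) hD.le
      _ = ε := by field_simp
  obtain ⟨κ, hκ, hnib⟩ := nibble (2 ^ M) e he
  obtain ⟨ρ₁, hρ₁, hdeg⟩ := degree hF hδ M hM κ hκ
  obtain ⟨ρ₂, hρ₂, hcodeg⟩ := codegree hF hδ M hM κ hκ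
  obtain ⟨ρ, hρ, hρa, hρb⟩ := rz_rho M (min (min ρ₁ ρ₂) 2)
    (lt_min (lt_min hρ₁ hρ₂) (by norm_num)) (1 + e) (by linarith)
  have hρ1 : ρ ≤ ρ₁ := hρa.trans ((min_le_left _ _).trans (min_le_left _ _))
  have hρ2 : ρ ≤ ρ₂ := hρa.trans ((min_le_left _ _).trans (min_le_right _ _))
  have hρ3 : ρ ≤ 2 := hρa.trans (min_le_right _ _)
  have hρM : ρ ^ M ≤ 1 + e := by
    refine le_trans (pow_le_pow_right₀ hρ.le (by omega)) hρb
  filter_upwards [hdeg ρ hρ hρ1, hcodeg ρ hρ hρ2,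
    adm_of_Uok (Y := Y) (ε := ε) hδ hε hρ hρ3, eventually_ge_atTop 1] with ell h1 h2 h3 hell
  intro i₀ i₁ hi₀ hi₁
  set V0 : Finset ℕ := (Finset.range ⌈(2 : ℝ) ^ ((Y - ε) * ell)⌉₊).filter fun u =>
    1 < u ∧ Uok i₀ i₁ u ∧ (u : ℝ) < (2 : ℝ) ^ ((Y - ε) * ell) with hV0
  have hmemV : ∀ u : ℕ, u ∈ V0 ↔ 1 < u ∧ Uok i₀ i₁ u ∧ (u : ℝ) < (2 : ℝ) ^ ((Y - ε) * ell) := by
    intro u
    rw [hV0, Finset.mem_filter, Finset.mem_range, Nat.lt_ceil]
    exact ⟨fun h => h.2, fun h => ⟨h.2.2, h⟩⟩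
  have hadm : ∀ u ∈ V0, Adm δ Y (th ρ ell) ρ u := fun u hu =>
    h3 i₀ i₁ hi₀ hi₁ u ((hmemV u).1 hu).1 ((hmemV u).1 hu).2.1 ((hmemV u).1 hu).2.2
  set N : ℕ := 2 ^ (ell + 2) with hN
  set W : RzE → ℝ := fun e => we ρ (th ρ ell) α e.1 e.2.1 e.2.2 with hW
  have hWnn : ∀ e, 0 ≤ W e := by
    intro e
    simp only [hW, we]
    split_ifs
    · positivity
    · exact le_refl _
  set E0 : Finset RzE := (rzAll M N).filter fun e => W e ≠ 0 with hE0
  set B : ↥E0 → Finset ↥V0 := fun e =>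
    Finset.univ.filter fun v => ∃ S ∈ (e : RzE).2.1, ∏ x ∈ S, (e : RzE).2.2 x = (v : ℕ) with hB
  have hmM : ∀ e : ↥E0, (e : RzE).1 < M := by
    intro e
    have h := (Finset.mem_filter.1 e.2).1
    rw [rzAll, Finset.mem_sigma] at h
    exact Finset.mem_range.1 h.1
  have hNib : Nib B (fun e => W e) (2 ^ M) κ := by
    refine ⟨?_, fun e => hWnn e, ?_, ?_⟩
    · intro e
      have hc1 : ((B e).image fun v : ↥V0 => (v : ℕ)) ⊆
          ((e : RzE).2.1).image fun S => ∏ x ∈ S, (e : RzE).2.2 x := by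
        intro u hu
        obtain ⟨v, hv, rfl⟩ := Finset.mem_image.1 hu
        obtain ⟨S, hS, hSv⟩ := (Finset.mem_filter.1 hv).2
        exact Finset.mem_image.2 ⟨S, hS, hSv⟩
      have hc2 : ((B e).image fun v : ↥V0 => (v : ℕ)).card = (B e).card :=
        Finset.card_image_of_injective _ Subtype.val_injective
      rw [← hc2]
      refine (Finset.card_le_card hc1).trans (Finset.card_image_le.trans ?_)
      refine (Finset.card_le_univ _).trans ?_
      rw [Fintype.card_finset, Fintype.card_fin]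
      exact Nat.pow_le_pow_right (by norm_num) (hmM e).le
    · intro v
      have h4 := h1 v (hadm v v.2)
      have h5 : ∑ e ∈ Finset.univ.filter (fun e : ↥E0 => v ∈ B e), W e =
          ∑ m ∈ Finset.range M, ∑ F : Finset (Finset (Fin m)),
            ∑ q ∈ (QV N m).filter (fun q => ∃ S ∈ F, ∏ x ∈ S, q x = (v : ℕ)),
              we ρ (th ρ ell) α m F q := by
        rw [Finset.sum_filter]
        refine Eq.trans ?_ ((rz_conv (M := M) (N := N) W
          (fun e => ∃ S ∈ e.2.1, ∏ x ∈ S, e.2.2 x = (v : ℕ))).trans ?_)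
        · refine Finset.sum_congr rfl fun e _ => ?_
          by_cases h : v ∈ B e
          · rw [if_pos h, if_pos]
            simpa only [hB, Finset.mem_filter, Finset.mem_univ, true_and] using h
          · rw [if_neg h, if_neg]
            simpa only [hB, Finset.mem_filter, Finset.mem_univ, true_and] using h
        · refine Finset.sum_congr rfl fun m _ => Finset.sum_congr rfl fun F _ =>
            Finset.sum_congr ?_ fun q _ => rfl
          ext q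
          simp only [Finset.mem_filter]
      rw [h5]
      exact h4
    · intro u v huv
      have h4 := h2 u v (fun h => huv (Subtype.ext h)) (hadm u u.2) (hadm v v.2)
      have h5 : ∑ e ∈ Finset.univ.filter (fun e : ↥E0 => u ∈ B e ∧ v ∈ B e), W e =
          ∑ m ∈ Finset.range M, ∑ F : Finset (Finset (Fin m)),
            ∑ q ∈ (QV N m).filter (fun q => (∃ S ∈ F, ∏ x ∈ S, q x = (u : ℕ)) ∧
              ∃ S ∈ F, ∏ x ∈ S, q x = (v : ℕ)), we ρ (th ρ ell) α m F q := by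
        rw [Finset.sum_filter]
        refine Eq.trans ?_ ((rz_conv (M := M) (N := N) W
          (fun e => (∃ S ∈ e.2.1, ∏ x ∈ S, e.2.2 x = (u : ℕ)) ∧
            ∃ S ∈ e.2.1, ∏ x ∈ S, e.2.2 x = (v : ℕ))).trans ?_)
        · refine Finset.sum_congr rfl fun e _ => ?_
          by_cases h : u ∈ B e ∧ v ∈ B e
          · rw [if_pos h, if_pos]
            simpa only [hB, Finset.mem_filter, Finset.mem_univ, true_and] using h
          · rw [if_neg h, if_neg]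
            simpa only [hB, Finset.mem_filter, Finset.mem_univ, true_and] using h
        · refine Finset.sum_congr rfl fun m _ => Finset.sum_congr rfl fun F _ =>
            Finset.sum_congr ?_ fun q _ => rfl
          ext q
          simp only [Finset.mem_filter]
      rw [h5]
      exact h4
  obtain ⟨E', U, hcover, hcost⟩ := hnib ↥V0 ↥E0 B (fun e => W e)
    (fun e => 1 / (vm (e : RzE).2.1 (e : RzE).2.2 : ℝ)) (fun v => 1 / ((v : ℕ) : ℝ)) hNib
    (fun e => by positivity) (fun v => by positivity)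
  have hsize : ∀ e : ↥E0, _ := fun e =>
    size hF hδ ρ hρ ell hell (e : RzE).1 (e : RzE).2.1 (e : RzE).2.2 (Finset.mem_filter.1 e.2).2
  have hVsum : ∑ v : ↥V0, 1 / ((v : ℕ) : ℝ) ≤ C := by
    rw [Finset.sum_coe_sort V0 (fun u : ℕ => 1 / (u : ℝ))]
    refine hleft ell hell V0 fun u hu => ?_
    have hu' := ((hmemV u).1 hu).2.1
    refine ⟨hu'.sq, fun p hp => ?_⟩
    have hp' := Nat.prime_of_mem_primeFactors hp
    have h6 := hu'.lev p hp' (Nat.dvd_of_mem_primeFactors hp)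
    constructor
    · have : (i₀ : ℝ) ≤ lev p := by exact_mod_cast h6.1
      linarith
    · omega
  have hEsum : ∑ e : ↥E0, W e * (1 / (vm (e : RzE).2.1 (e : RzE).2.2 : ℝ)) ≤ ρ ^ M * A := by
    have h7 : ∑ e : ↥E0, W e * (1 / (vm (e : RzE).2.1 (e : RzE).2.2 : ℝ)) ≤
        ∑ e ∈ rzAll M N, W e * (1 / (vm e.2.1 e.2.2 : ℝ)) := by
      rw [Finset.sum_coe_sort E0 (fun e : RzE => W e * (1 / (vm e.2.1 e.2.2 : ℝ)))]
      refine Finset.sum_le_sum_of_subset_of_nonneg (Finset.filter_subset _ _) fun e _ _ => ?_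
      have := hWnn e
      positivity
    refine h7.trans ?_
    rw [rz_sum]
    exact cost hF hδ hA M ρ hρ ell hell N
  refine ⟨(E'.image fun e : ↥E0 => (∏ x, (e : RzE).2.2 x, vm (e : RzE).2.1 (e : RzE).2.2)) ∪
    U.image fun v : ↥V0 => ((v : ℕ), (v : ℕ)), ?_, ?_, ?_, ?_⟩
  · intro c hc
    rcases Finset.mem_union.1 hc with hc | hc
    · obtain ⟨e, _, rfl⟩ := Finset.mem_image.1 hc
      have hp1 : 0 < ∏ x, (e : RzE).2.2 x := Finset.prod_pos fun x _ => ((hsize e).1 x).pos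
      exact ⟨hp1, (hsize e).2.1⟩
    · obtain ⟨v, _, rfl⟩ := Finset.mem_image.1 hc
      have := ((hmemV v).1 v.2).1
      exact ⟨by omega, by omega⟩
  · intro u hu1 hu2 hu3
    have huV : u ∈ V0 := (hmemV u).2 ⟨hu1, hu2, hu3⟩
    rcases hcover ⟨u, huV⟩ with h8 | ⟨e, he', h8⟩
    · exact ⟨(u, u), Finset.mem_union_right _ (Finset.mem_image.2 ⟨⟨u, huV⟩, h8, rfl⟩),
        dvd_refl _, le_refl _⟩
    · obtain ⟨S, hS, hSu⟩ := (Finset.mem_filter.1 h8).2
      refine ⟨_, Finset.mem_union_left _ (Finset.mem_image.2 ⟨e, he', rfl⟩), ?_, ?_⟩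
      · have h9 : (∏ x ∈ S, (e : RzE).2.2 x) ∣ ∏ x, (e : RzE).2.2 x :=
          Finset.prod_dvd_prod_of_subset _ _ _ (Finset.subset_univ _)
        have h10 : (∏ x ∈ S, (e : RzE).2.2 x) = u := hSu
        rw [h10] at h9
        exact h9
      · have h10 : (∏ x ∈ S, (e : RzE).2.2 x) = u := hSu
        have h11 := (hsize e).2.2.1 S hS
        rw [h10] at h11
        exact h11
  · intro c hc
    rcases Finset.mem_union.1 hc with hc | hc
    · obtain ⟨e, _, rfl⟩ := Finset.mem_image.1 hc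
      have h9 := (hsize e).2.2.2
      refine h9.trans ?_
      have h10 : ρ ^ (2 * (e : RzE).1) ≤ 2 := by
        refine (pow_le_pow_right₀ hρ.le (Nat.mul_le_mul_left 2 (hmM e).le)).trans ?_
        linarith
      have h11 : (0 : ℝ) ≤ 2 ^ ell * (vm (e : RzE).2.1 (e : RzE).2.2 : ℝ) := by positivity
      calc ρ ^ (2 * (e : RzE).1) * 2 ^ ell * (vm (e : RzE).2.1 (e : RzE).2.2 : ℝ)
          = ρ ^ (2 * (e : RzE).1) * (2 ^ ell * (vm (e : RzE).2.1 (e : RzE).2.2 : ℝ)) := by ring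
        _ ≤ 2 * (2 ^ ell * (vm (e : RzE).2.1 (e : RzE).2.2 : ℝ)) :=
            mul_le_mul_of_nonneg_right h10 h11
        _ = _ := by ring
    · obtain ⟨v, _, rfl⟩ := Finset.mem_image.1 hc
      have h9 : (1 : ℝ) ≤ 2 ^ (ell + 1) := one_le_pow₀ (by norm_num)
      have h10 : (0 : ℝ) ≤ ((v : ℕ) : ℝ) := by positivity
      show ((v : ℕ) : ℝ) ≤ 2 ^ (ell + 1) * ((v : ℕ) : ℝ)
      nlinarith
  · have h12 := rz_union_sum
      (E'.image fun e : ↥E0 => (∏ x, (e : RzE).2.2 x, vm (e : RzE).2.1 (e : RzE).2.2))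
      (U.image fun v : ↥V0 => ((v : ℕ), (v : ℕ))) (fun c : ℕ × ℕ => (1 : ℝ) / c.2)
      (fun c => by positivity)
    have h13 := rz_image_sum E'
      (fun e : ↥E0 => (∏ x, (e : RzE).2.2 x, vm (e : RzE).2.1 (e : RzE).2.2))
      (fun c : ℕ × ℕ => (1 : ℝ) / c.2) (fun c => by positivity)
    have h14 := rz_image_sum U (fun v : ↥V0 => ((v : ℕ), (v : ℕ)))
      (fun c : ℕ × ℕ => (1 : ℝ) / c.2) (fun c => by positivity)
    refine h12.trans ((add_le_add h13 h14).trans (hcost.trans ?_))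
    have h15 : (1 + e) * ∑ e : ↥E0, W e * (1 / (vm (e : RzE).2.1 (e : RzE).2.2 : ℝ)) ≤
        (1 + e) * ((1 + e) * A) :=
      mul_le_mul_of_nonneg_left (hEsum.trans (mul_le_mul_of_nonneg_right hρM hA)) (by linarith)
    have h16 : e * ∑ v : ↥V0, 1 / ((v : ℕ) : ℝ) ≤ e * C := mul_le_mul_of_nonneg_left hVsum he.le
    have h17 : (1 + e) * ((1 + e) * A) + e * C ≤ A + ε := by
      have : e * e * A ≤ e * A := by
        have := mul_le_mul_of_nonneg_right he1 (mul_nonneg he.le hA)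
        linarith
      nlinarith
    linarith

end Pool.Agent.W_a617e8_h51
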