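import Pool.Agent.W_a617e8_h51.M0
import Pool.Agent.W_a617e8_h51.C0
import Pool.Agent.W_a617e8_h51.E0b
import Pool.Agent.W_a617e8_h51.E2c
import Pool.Agent.W_a617e8_h51.B0

set_option autoImplicit false

/-! U0: putting the covers together. -/

noncomputable section

open scoped ENNReal

open MeasureTheory Filter Topology

namespace Pool.Agent.W_a617e8_h51

theorem Cr_union (L : ℕ) (ld : ℕ → ℕ) (E E' : Set ℕ) : Cr L ld (E ∪ E') ≤ Cr L ld E + Cr L ld E' := by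
  unfold Cr
  rw [← ENNReal.tsum_add]
  refine ENNReal.tsum_le_tsum fun j => ?_
  rw [← ENNReal.tsum_add]
  refine ENNReal.tsum_le_tsum fun y => ?_
  by_cases h : ∃ x ∈ E ∪ E', KeyRel L ld j x y
  · rw [if_pos h]
    obtain ⟨x, hx, hk⟩ := h
    rcases hx with hx | hx
    · rw [if_pos ⟨x, hx, hk⟩]
      exact le_self_add
    · rw [if_pos (⟨x, hx, hk⟩ : ∃ x ∈ E', KeyRel L ld j x y)]
      exact le_add_self
  · rw [if_neg h]
    exact bot_le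

theorem Cr_mono (L : ℕ) (ld : ℕ → ℕ) {E E' : Set ℕ} (h : E ⊆ E') : Cr L ld E ≤ Cr L ld E' := by
  unfold Cr
  refine ENNReal.tsum_le_tsum fun j => ENNReal.tsum_le_tsum fun y => ?_
  by_cases h1 : ∃ x ∈ E, KeyRel L ld j x y
  · rw [if_pos h1]
    obtain ⟨x, hx, hk⟩ := h1
    rw [if_pos ⟨x, h hx, hk⟩]
  · rw [if_neg h1]
    exact bot_le

/-- **Splitting.**  A smooth `x` with `tp L x ∣ Fl L` which is not in `Main` is in one of the five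
exceptional sets; `crude_cover` for these `x`, `GG_le_cst`, `cst_union_le`, `Cr_mono`, `Cr_union`. -/
theorem GG_split {L s : ℕ} {ld : ℕ → ℕ} (hG : Grouping (gsz L) ld) (hs : 2 ^ L ≤ s)
    (hF : 4 * Nat.log 2 (Fl L) + 4 ≤ L) (i₀ i₁ B K : ℕ) (T₁ T₂ : Set ℕ)
    (h1 : 0 ∉ T₁) (h2 : 0 ∉ T₂) (hT1 : ∀ x, Main L s ld i₀ i₁ B K x → Hit s T₁ x)
    (hT2 : ∀ x, Smooth s x → ¬ tp L x ∣ Fl L → Hit s T₂ x) :
    GG s ≤ cst s T₁ + cst s T₂ +
      (Cr L ld {x | Smooth s x ∧ ∃ p : ℕ, p.Prime ∧ p ∣ x ∧ i₁ ≤ lev p} +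
       Cr L ld {x | Smooth s x ∧ ∃ a b : ℕ, a.Prime ∧ b.Prime ∧ a * b ∣ x ∧ i₀ ≤ lev a ∧
        lev a ≤ lev b ∧ lev b ≤ lev a + 2} +
       Cr L ld {x | Smooth s x ∧ ∃ a b : ℕ, a.Prime ∧ b.Prime ∧ a * b ∣ x ∧ iz L ≤ lev a ∧
        ld a = ld b} +
       Cr L ld {x | Smooth s x ∧ (B : ℝ) ≤ (bud L ld i₀ x : ℝ)} +
       Cr L ld {x | Smooth s x ∧ tp L x ∣ Fl L ∧ 2 ^ K ≤ x}) := by
  obtain ⟨T₃, h3, hT3, hc3⟩ := crude_cover hG hs hF
    {x | Smooth s x ∧ tp L x ∣ Fl L ∧ ¬ Main L s ld i₀ i₁ B K x} (fun x hx => ⟨hx.1, hx.2.1⟩)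
  have hs1 : 1 ≤ s := le_trans Nat.one_le_two_pow hs
  have hcov : ∀ u, Smooth s u → Hit s (T₁ ∪ T₂ ∪ T₃) u := by
    intro u hu
    by_cases htp : tp L u ∣ Fl L
    · by_cases hM : Main L s ld i₀ i₁ B K u
      · exact Hit_mono (fun t ht => Or.inl (Or.inl ht)) (hT1 u hM)
      · exact Hit_mono (fun t ht => Or.inr ht) (hT3 u ⟨hu, htp, hM⟩)
    · exact Hit_mono (fun t ht => Or.inl (Or.inr ht)) (hT2 u hu htp)
  have h0 : 0 ∉ T₁ ∪ T₂ ∪ T₃ := by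
    rintro ((h | h) | h)
    · exact h1 h
    · exact h2 h
    · exact h3 h
  refine (GG_le_cst s hs1 _ h0 hcov).trans ?_
  refine (cst_union_le s _ _).trans ?_
  refine add_le_add (cst_union_le s _ _) (hc3.trans ?_)
  change Cr L ld {x | Smooth s x ∧ tp L x ∣ Fl L ∧ ¬ Main L s ld i₀ i₁ B K x} ≤ _
  have hsub : {x | Smooth s x ∧ tp L x ∣ Fl L ∧ ¬ Main L s ld i₀ i₁ B K x} ⊆
      ((({x | Smooth s x ∧ ∃ p : ℕ, p.Prime ∧ p ∣ x ∧ i₁ ≤ lev p} ∪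
       {x | Smooth s x ∧ ∃ a b : ℕ, a.Prime ∧ b.Prime ∧ a * b ∣ x ∧ i₀ ≤ lev a ∧
        lev a ≤ lev b ∧ lev b ≤ lev a + 2}) ∪
       {x | Smooth s x ∧ ∃ a b : ℕ, a.Prime ∧ b.Prime ∧ a * b ∣ x ∧ iz L ≤ lev a ∧
        ld a = ld b}) ∪
       {x | Smooth s x ∧ (B : ℝ) ≤ (bud L ld i₀ x : ℝ)}) ∪
       {x | Smooth s x ∧ tp L x ∣ Fl L ∧ 2 ^ K ≤ x} := by
    rintro x ⟨hx, htp, hM⟩
    by_contra hcon
    simp only [Set.mem_union, Set.mem_ofPred_eq, not_or] at hcon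
    obtain ⟨⟨⟨⟨c1, c2⟩, c3⟩, c4⟩, c5⟩ := hcon
    refine hM ⟨hx, htp, ?_, ?_, ?_, ?_, ?_⟩
    · intro a b ha hb hab hl hld
      exact c3 ⟨hx, a, b, ha, hb, hab, hl, hld⟩
    · intro a b ha hb hab hl hlab
      by_contra hlt
      exact c2 ⟨hx, a, b, ha, hb, hab, hl, hlab, not_lt.1 hlt⟩
    · intro p hp hpx
      by_contra hlt
      exact c1 ⟨hx, p, hp, hpx, not_lt.1 hlt⟩
    · by_contra hlt
      refine c4 ⟨hx, ?_⟩
      exact_mod_cast (not_le.1 hlt).le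
    · by_contra hlt
      exact c5 ⟨hx, htp, not_lt.1 hlt⟩
  refine (Cr_mono L ld hsub).trans ?_
  refine (Cr_union L ld _ _).trans (add_le_add ?_ le_rfl)
  refine (Cr_union L ld _ _).trans (add_le_add ?_ le_rfl)
  refine (Cr_union L ld _ _).trans (add_le_add ?_ le_rfl)
  exact Cr_union L ld _ _


/-- `GG` is bounded (`crude_cover`, `Cr_all`, `nondiv_cover` with `dl_inv_le`, `Fl_small`,
`exists_grouping`, `L = Nat.log 2 s`). -/
theorem GG_bdd : ∃ C : ℝ, 0 < C ∧ ∀ᶠ s : ℕ in atTop, GG s ≤ ENNReal.ofReal C := by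
  obtain ⟨C, hC, hall⟩ := Cr_all
  obtain ⟨C', hC', hdl⟩ := dl_inv_le
  refine ⟨1 + C, by positivity, ?_⟩
  have hev : ∀ᶠ L : ℕ in atTop, ∀ s : ℕ, 2 ^ L ≤ s → s < 2 ^ (L + 1) →
      GG s ≤ ENNReal.ofReal (1 + C) := by
    filter_upwards [hall, nondiv_cover C' 1 one_pos, Fl_small (1 / 8) (by norm_num),
      eventually_ge_atTop 8] with L h1 h2 h3 hL s hs hs'
    have hL' : (8 : ℝ) ≤ L := by exact_mod_cast hL
    obtain ⟨ld, hG⟩ := exists_grouping (gsz L) fun i => (gsz_bounds L i).2.2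
    have hs2 : 2 ≤ s := by
      have : 2 ^ 1 ≤ 2 ^ L := Nat.pow_le_pow_right (by norm_num) (by omega)
      omega
    have hlog : Nat.log 2 s = L := Nat.log_eq_of_pow_le_of_lt_pow hs hs'
    have hdls := hdl s hs2
    rw [hlog] at hdls
    obtain ⟨T₂, hT20, hT2, hT2c⟩ := h2 s hs hs' hdls
    have hF : 4 * Nat.log 2 (Fl L) + 4 ≤ L := by
      have : ((4 * Nat.log 2 (Fl L) + 4 : ℕ) : ℝ) ≤ L := by
        push_cast
        linarith
      exact_mod_cast this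
    obtain ⟨T₃, h3', hT3, hc3⟩ := crude_cover hG hs hF
      {x | Smooth s x ∧ tp L x ∣ Fl L} (fun x hx => hx)
    have hcov : ∀ u, Smooth s u → Hit s (T₂ ∪ T₃) u := by
      intro u hu
      by_cases htp : tp L u ∣ Fl L
      · exact Hit_mono (fun t ht => Or.inr ht) (hT3 u ⟨hu, htp⟩)
      · exact Hit_mono (fun t ht => Or.inl ht) (hT2 u hu htp)
    have h0 : 0 ∉ T₂ ∪ T₃ := by
      rintro (h | h)
      · exact hT20 h
      · exact h3' h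
    refine (GG_le_cst s (by omega) _ h0 hcov).trans ((cst_union_le s _ _).trans ?_)
    rw [ENNReal.ofReal_add one_pos.le hC.le]
    exact add_le_add hT2c (hc3.trans (h1 s hs' ld hG _ fun x hx => hx.1))
  obtain ⟨N, hN⟩ := eventually_atTop.1 hev
  refine eventually_atTop.2 ⟨2 ^ N, fun s hs => ?_⟩
  have hs0 : s ≠ 0 := by
    have := Nat.pos_of_ne_zero (pow_ne_zero N (two_ne_zero : (2 : ℕ) ≠ 0))
    omega
  exact hN (Nat.log 2 s) (Nat.le_log_of_pow_le (by norm_num) hs) s (Nat.pow_log_le_self 2 hs0)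
    (Nat.lt_pow_succ_log_self (by norm_num) s)

end Pool.Agent.W_a617e8_h51
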