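import Pool.Agent.W_a617e8_h51.U0
import Pool.Agent.W_a617e8_h51.M0b
import Pool.Agent.W_a617e8_h51.P3b
import Pool.Agent.W_a617e8_h51.E1
import Pool.Agent.W_a617e8_h51.E1b
import Pool.Agent.W_a617e8_h51.E1c
import Pool.Agent.W_a617e8_h51.E2
import Pool.Agent.W_a617e8_h51.E2b

set_option autoImplicit false

/-! U1: the upper bound from a feasible solution. -/

noncomputable section

open scoped ENNReal

open MeasureTheory Filter Topology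

namespace Pool.Agent.W_a617e8_h51

theorem up_transfer {P : ℕ → Prop}
    (h : ∀ᶠ L : ℕ in atTop, ∀ s : ℕ, 2 ^ L ≤ s → s < 2 ^ (L + 1) → P s) :
    ∀ᶠ s : ℕ in atTop, P s := by
  obtain ⟨N, hN⟩ := eventually_atTop.1 h
  refine eventually_atTop.2 ⟨2 ^ N, fun s hs => ?_⟩
  have hs0 : s ≠ 0 := by
    have := Nat.pos_of_ne_zero (pow_ne_zero N (two_ne_zero : (2 : ℕ) ≠ 0))
    omega
  refine hN (Nat.log 2 s) ?_ s (Nat.pow_log_le_self 2 hs0) (Nat.lt_pow_succ_log_self (by norm_num) s)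
  exact Nat.le_log_of_pow_le (by norm_num) hs

/-- All numerical requirements on the parameters. -/
structure Prm (η δ Y ε₁ : ℝ) (H₀ L ell i₀ i₁ B K : ℕ) : Prop where
  a : δ * ell + 2 ≤ (i₀ : ℝ)
  b : i₁ + 2 ≤ ell
  c0 : iz L ≤ i₀
  c1 : iz L ≤ i₁
  c2 : i₁ ≤ L
  d : ell + 1 + B + (Nat.log 2 (Fl L) + 1) + (Nat.log 2 H₀ + 1) ≤ L
  e : ((L : ℝ) + 1 - i₁) / i₁ ≤ 9 * η
  f : δ * L ≤ (i₀ : ℝ)
  g : Real.sqrt ((i₀ : ℝ) / (L + 1)) ≤ 2 * η ^ 2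
  h : η / 2 ≤ (B : ℝ) / (L + 1)
  i : Y / 4 ≤ ((K : ℝ) - Nat.log 2 (Fl L)) / (L + 1)
  k : (K : ℝ) ≤ (Y - ε₁) * ell
  l : 2 / (2 : ℝ) ^ iz L ≤ η ^ 2
  m : 4 * Nat.log 2 (Fl L) + 4 ≤ L

theorem two_div_iz (x : ℝ) (hx : 0 < x) : ∀ᶠ L : ℕ in atTop, 2 / (2 : ℝ) ^ iz L ≤ x := by
  have h1 : Tendsto (fun L : ℕ => ((L : ℝ) + 1) ^ ((3 : ℝ) / 4) / 2) atTop atTop := by
    refine Tendsto.atTop_div_const (by norm_num) ?_
    exact (tendsto_rpow_atTop (by norm_num)).comp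
      (tendsto_atTop_add_const_right _ _ tendsto_natCast_atTop_atTop)
  filter_upwards [h1.eventually_ge_atTop (2 / x)] with L hL
  have h2 := (iz_bounds L).1
  have h3 : 2 / x ≤ (2 : ℝ) ^ iz L := hL.trans h2
  rw [div_le_iff₀ (by positivity)]
  rw [div_le_iff₀ hx] at h3
  linarith

theorem exists_prm (η : ℝ) (hη : 0 < η) (hη1 : η ≤ 1 / 16) (Y ε₁ : ℝ) (hY : 1 ≤ Y)
    (hε₁ : 0 < ε₁) (hε₁' : ε₁ ≤ 1 / 8) (H₀ : ℕ) :
    ∀ᶠ L : ℕ in atTop, ∃ i₀ i₁ B K : ℕ,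
      Prm η (η ^ 4) Y ε₁ H₀ L ⌊(1 - 4 * η) * L⌋₊ i₀ i₁ B K := by
  have hδ : 0 < η ^ 4 := by positivity
  have hbig : ∀ x : ℝ, ∀ᶠ L : ℕ in atTop, x ≤ (L : ℝ) := fun x =>
    tendsto_natCast_atTop_atTop.eventually_ge_atTop x
  filter_upwards [iz_le (η ^ 4) hδ, iz_le (1 / 4) (by norm_num), Fl_small (η / 4) (by positivity),
    hbig (1 / η ^ 4), hbig (8 / η), hbig 64, hbig (2 / η + 1), hbig ((Nat.log 2 H₀ + 3) / η),
    two_div_iz (η ^ 2) (by positivity)] with L h1 h2 h3 h4 h5 h6 h7 h8 h9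
  have hL0 : (0 : ℝ) < L := by linarith
  rw [div_le_iff₀ hδ] at h4
  rw [div_le_iff₀ hη] at h5 h8
  have h7' : 2 ≤ η * (L - 1) := by
    have : 2 / η ≤ L - 1 := by linarith
    rw [div_le_iff₀ hη] at this
    linarith
  have hηL : 0 ≤ η * L := by positivity
  set ell : ℕ := ⌊(1 - 4 * η) * L⌋₊ with hell
  have hx0 : 0 ≤ (1 - 4 * η) * L := mul_nonneg (by linarith) hL0.le
  have he1 : (ell : ℝ) ≤ (1 - 4 * η) * L := Nat.floor_le hx0
  have he2 : (1 - 4 * η) * L < ell + 1 := Nat.lt_floor_add_one _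
  have he3 : (3 / 4 : ℝ) * L ≤ (1 - 4 * η) * L :=
    mul_le_mul_of_nonneg_right (by linarith) hL0.le
  have hell2 : 2 ≤ ell := by
    have : (2 : ℝ) ≤ ell := by linarith
    exact_mod_cast this
  have hi1 : (((ell - 2 : ℕ) : ℕ) : ℝ) = ell - 2 := by
    rw [Nat.cast_sub hell2]; norm_num
  have hc1 : η ^ 4 * L ≤ ⌈η ^ 4 * L⌉₊ := Nat.le_ceil _
  have hc2 : (⌈η ^ 4 * L⌉₊ : ℝ) < η ^ 4 * L + 1 := Nat.ceil_lt_add_one (by positivity)
  have hB1 : (⌊η * L⌋₊ : ℝ) ≤ η * L := Nat.floor_le hηL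
  have hB2 : η * L < ⌊η * L⌋₊ + 1 := Nat.lt_floor_add_one _
  have hYL : 0 ≤ Y * L / 2 := by positivity
  have hK1 : (⌊Y * L / 2⌋₊ : ℝ) ≤ Y * L / 2 := Nat.floor_le hYL
  have hK2 : Y * L / 2 < ⌊Y * L / 2⌋₊ + 1 := Nat.lt_floor_add_one _
  have hF0 : (Nat.log 2 (Fl L) : ℝ) ≤ η / 4 * L := by linarith
  have hYL' : (L : ℝ) ≤ Y * L := by nlinarith
  refine ⟨⌈η ^ 4 * L⌉₊ + 2, ell - 2, ⌊η * L⌋₊, ⌊Y * L / 2⌋₊, ?_⟩
  constructor
  · -- a
    push_cast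
    have : η ^ 4 * ell ≤ η ^ 4 * L := mul_le_mul_of_nonneg_left (by nlinarith) hδ.le
    linarith
  · omega
  · have : (iz L : ℝ) ≤ ((⌈η ^ 4 * L⌉₊ + 2 : ℕ) : ℝ) := by push_cast; linarith
    exact_mod_cast this
  · have : (iz L : ℝ) ≤ ((ell - 2 : ℕ) : ℝ) := by rw [hi1]; linarith
    exact_mod_cast this
  · have : ((ell - 2 : ℕ) : ℝ) ≤ L := by rw [hi1]; nlinarith
    exact_mod_cast this
  · have : ((ell + 1 + ⌊η * L⌋₊ + (Nat.log 2 (Fl L) + 1) + (Nat.log 2 H₀ + 1) : ℕ) : ℝ) ≤ L := by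
      push_cast
      nlinarith
    exact_mod_cast this
  · rw [hi1]
    have hpos : (0 : ℝ) < (ell : ℝ) - 2 := by linarith
    rw [div_le_iff₀ hpos]
    have h10 : (L : ℝ) / 2 ≤ ell - 2 := by linarith
    nlinarith
  · push_cast; linarith
  · have h10 : ((⌈η ^ 4 * L⌉₊ + 2 : ℕ) : ℝ) / (L + 1) ≤ (2 * η ^ 2) ^ 2 := by
      rw [div_le_iff₀ (by linarith)]
      push_cast
      nlinarith
    calc Real.sqrt (((⌈η ^ 4 * L⌉₊ + 2 : ℕ) : ℝ) / (L + 1)) ≤ Real.sqrt ((2 * η ^ 2) ^ 2) :=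
          Real.sqrt_le_sqrt h10
      _ = 2 * η ^ 2 := Real.sqrt_sq (by positivity)
  · rw [le_div_iff₀ (by linarith)]
    nlinarith
  · rw [le_div_iff₀ (by linarith)]
    have h10 : η / 4 * L ≤ L / 64 := by nlinarith
    nlinarith
  · have h10 : 7 / 8 * Y ≤ Y - ε₁ := by linarith
    have h11 : (3 / 4 : ℝ) * L - 1 ≤ ell := by linarith
    have h12 : 7 / 8 * Y * ((3 / 4 : ℝ) * L - 1) ≤ (Y - ε₁) * ell :=
      mul_le_mul h10 h11 (by linarith) (by linarith)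
    nlinarith
  · exact h9
  · have : ((4 * Nat.log 2 (Fl L) + 4 : ℕ) : ℝ) ≤ L := by
      push_cast
      nlinarith
    exact_mod_cast this

/-- The main cost. -/
theorem up_main {η δ Y ε₁ : ℝ} {H₀ L s ell i₀ i₁ B K : ℕ} {ld : ℕ → ℕ}
    (hG : Grouping (gsz L) ld) (hs : 2 ^ L ≤ s) (hη : 0 < η) (hη1 : η ≤ 1 / 16)
    (hP : Prm η δ Y ε₁ H₀ L ell i₀ i₁ B K) (hH : 1 ≤ H₀) (A : ℝ) (hA : 0 ≤ A) (hε₁ : 0 < ε₁)
    (𝒞 : Finset (ℕ × ℕ)) (hpos : ∀ c ∈ 𝒞, 0 < c.1 ∧ 0 < c.2)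
    (hcov : ∀ u : ℕ, 1 < u → Uok i₀ i₁ u → (u : ℝ) < (2 : ℝ) ^ ((Y - ε₁) * ell) →
      ∃ c ∈ 𝒞, u ∣ c.1 ∧ c.2 ≤ u)
    (hsz : ∀ c ∈ 𝒞, (c.1 : ℝ) ≤ 2 ^ (ell + 1) * c.2)
    (hsum : ∑ c ∈ 𝒞, (1 : ℝ) / c.2 ≤ A + ε₁) :
    ∃ T : Set ℕ, 0 ∉ T ∧ (∀ x, Main L s ld i₀ i₁ B K x → Hit s T x) ∧
      cst s T ≤ ENNReal.ofReal ((1 + 1 / H₀) * (1 + A + ε₁) * (1 + 66 * η ^ 2)) := by
  have hd := hP.d
  have hFl : Fl L < 2 ^ (Nat.log 2 (Fl L) + 1) := Nat.lt_pow_succ_log_self (by norm_num) _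
  have hH0 : H₀ < 2 ^ (Nat.log 2 H₀ + 1) := Nat.lt_pow_succ_log_self (by norm_num) _
  have hkey : ∀ a v : ℕ, a ≤ 2 ^ (ell + 1) * v → a * 2 ^ B * Fl L * H₀ ≤ 2 ^ L * v := by
    intro a v hav
    calc a * 2 ^ B * Fl L * H₀
        ≤ (2 ^ (ell + 1) * v) * 2 ^ B * 2 ^ (Nat.log 2 (Fl L) + 1) * 2 ^ (Nat.log 2 H₀ + 1) := by
          gcongr
      _ = 2 ^ (ell + 1 + B + (Nat.log 2 (Fl L) + 1) + (Nat.log 2 H₀ + 1)) * v := by
          simp only [pow_add]; ring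
      _ ≤ 2 ^ L * v := Nat.mul_le_mul_right _ (Nat.pow_le_pow_right (by norm_num) hd)
  obtain ⟨T, hT0, hT1, hT2⟩ := main_cover hG hs hP.c0 H₀ hH (insert (1, 1) 𝒞)
    (by
      intro c hc
      rcases Finset.mem_insert.1 hc with rfl | hc
      · exact ⟨one_pos, one_pos⟩
      · exact hpos c hc)
    (by
      intro c hc
      rcases Finset.mem_insert.1 hc with rfl | hc
      · exact hkey 1 1 (by
          rw [mul_one]
          exact Nat.one_le_two_pow)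
      · exact hkey c.1 c.2 (by exact_mod_cast hsz c hc))
    (K := K) (B := B) (i₁ := i₁)
    (by
      intro u hu huK
      rcases Nat.lt_or_ge 1 u with h1 | h1
      · have h2 : (u : ℝ) < (2 : ℝ) ^ ((Y - ε₁) * ell) := by
          calc (u : ℝ) < ((2 ^ K : ℕ) : ℝ) := by exact_mod_cast huK
            _ = (2 : ℝ) ^ (K : ℝ) := by rw [Real.rpow_natCast]; norm_num
            _ ≤ (2 : ℝ) ^ ((Y - ε₁) * ell) :=
              Real.rpow_le_rpow_of_exponent_le (by norm_num) hP.k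
        obtain ⟨c, hc, h3⟩ := hcov u h1 hu h2
        exact ⟨c, Finset.mem_insert_of_mem hc, h3⟩
      · have h0 : u ≠ 0 := hu.sq.ne_zero
        have h4 : u = 1 := by omega
        subst h4
        exact ⟨(1, 1), Finset.mem_insert_self _ _, dvd_refl _, le_refl _⟩)
  refine ⟨T, hT0, hT1, hT2.trans (ENNReal.ofReal_le_ofReal ?_)⟩
  have hS : ∑ c ∈ insert (1, 1) 𝒞, (1 : ℝ) / c.2 ≤ 1 + A + ε₁ := by
    by_cases h : ((1, 1) : ℕ × ℕ) ∈ 𝒞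
    · rw [Finset.insert_eq_of_mem h]; linarith
    · rw [Finset.sum_insert h]
      simp only [Nat.cast_one, div_one]
      linarith
  have hE : ∏ m ∈ LD L ld i₀ ∅, (1 + 1 / (m : ℝ)) ≤ 1 + 66 * η ^ 2 := by
    have h1 : ∏ m ∈ LD L ld i₀ ∅, (1 + 1 / (m : ℝ)) ≤
        Real.exp (∑ m ∈ LD L ld i₀ ∅, (1 : ℝ) / m) := by
      rw [Real.exp_sum]
      refine Finset.prod_le_prod (fun m _ => by positivity) fun m _ => ?_
      rw [add_comm]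
      exact Real.add_one_le_exp _
    have h2 := sum_LD_le hG i₀ ∅
    have h3 : 16 * Real.sqrt i₀ / Real.sqrt (L + 1) ≤ 32 * η ^ 2 := by
      have h4 := hP.g
      rw [Real.sqrt_div' _ (by positivity)] at h4
      rw [mul_div_assoc]
      linarith
    have h5 : ∑ m ∈ LD L ld i₀ ∅, (1 : ℝ) / m ≤ 33 * η ^ 2 := by
      have := hP.l
      linarith
    have h6 : 33 * η ^ 2 ≤ 1 := by nlinarith
    have h7 : (0 : ℝ) ≤ 33 * η ^ 2 := by positivity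
    refine h1.trans ((Real.exp_le_exp.2 h5).trans ?_)
    have h8 := Real.exp_bound' h7 h6 (n := 2) (by norm_num)
    norm_num [Finset.sum_range_succ] at h8
    nlinarith
  have hSnn : 0 ≤ ∑ c ∈ insert (1, 1) 𝒞, (1 : ℝ) / c.2 := Finset.sum_nonneg fun _ _ => by positivity
  have hPnn : 0 ≤ ∏ m ∈ LD L ld i₀ ∅, (1 + 1 / (m : ℝ)) := Finset.prod_nonneg fun _ _ => by positivity
  have hH0' : (0 : ℝ) ≤ 1 + 1 / H₀ := by positivity
  gcongr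

/-- **Upper bound.**  Proof: `C` = max of the constants of `Cr_big`, `Cr_close`, `Cr_budget`,
`Cr_large`.  Take `δ` small, `η = δ^(1/4) ≤ 1/16`, `Y = 1/δ`.  For large `s`: `L = Nat.log 2 s`,
`ell = ⌊(1 - 4 η) L⌋`, `i₀ = ⌈δ L⌉ + 2`, `i₁ = ell - 2`, `B = ⌊η L⌋`, `K = ⌊Y L / 2⌋`, a fixed large
`H₀`, `ε₁` small, `𝒞` from `realize` with `ε₁`, together with `(1, 1)`:
`2^K ≤ 2^((Y - ε₁) ell)`, and `hsz` of `main_cover` since
`ell + 1 + B + log₂ Fl + 1 + log₂ H₀ + 1 ≤ L` (`Fl_small`).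
Main cost `≤ (1 + 1/H₀)(1 + A + ε₁) exp(16 sqrt i₀/sqrt(L+1) + 2/2^iz)` (`sum_LD_le`),
`i₀/(L+1) ≤ 2 δ`.  Exceptional costs: `C (L+1-i₁)/i₁ ≤ 8 C η`; `C / i₀ → 0`; `Cr_same → 0`;
`Cr_budget` with `Λ = 1/(2 sqrt δ)`: `≤ C exp(-Λ B/(L+1)) ≤ C exp(-δ^(-1/4)/4)`;
`Cr_large`: `≤ C exp(-Y/4)`; `nondiv_cover → 0`.  All is `≤ ε` if `δ` is small (depending on `ε`
only; the term with `A` is `(1 + A)` times something close to `1`). -/
theorem upper (ε : ℝ) (hε : 0 < ε) : ∃ δ Y : ℝ, 0 < δ ∧ δ < 1 ∧ 1 ≤ Y ∧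
    ∀ (A : ℝ), 0 ≤ A → ∀ α : (m : ℕ) → Finset (Finset (Fin m)) → Measure (Fin m → ℝ),
      Feas δ Y α A → ∀ᶠ s : ℕ in atTop, GG s ≤ ENNReal.ofReal ((1 + ε) * (1 + A) + ε) := by
  obtain ⟨C₁, hC₁, hbig⟩ := Cr_big
  obtain ⟨C₂, hC₂, hclose⟩ := Cr_close
  obtain ⟨C₃, hC₃, hbud⟩ := Cr_budget
  obtain ⟨C₄, hC₄, hlarge⟩ := Cr_large
  obtain ⟨C₅, hC₅, hdl⟩ := dl_inv_le
  -- a smaller `e ≤ 1`
  obtain ⟨e, he, he1, heε⟩ : ∃ e : ℝ, 0 < e ∧ e ≤ 1 ∧ e ≤ ε :=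
    ⟨min 1 ε, lt_min one_pos hε, min_le_left _ _, min_le_right _ _⟩
  obtain ⟨η, hη, hη16, hηe, hηC⟩ : ∃ η : ℝ, 0 < η ∧ η ≤ 1 / 16 ∧ η ≤ e / 528 ∧
      (9 * C₁ + 4 * C₃ + 4 * C₄) * η ≤ e / 8 := by
    have hD : 0 < 9 * C₁ + 4 * C₃ + 4 * C₄ := by positivity
    refine ⟨min (min (1 / 16) (e / 528)) (e / (8 * (9 * C₁ + 4 * C₃ + 4 * C₄))), ?_, ?_, ?_, ?_⟩
    · exact lt_min (lt_min (by norm_num) (by positivity)) (by positivity)
    · exact (min_le_left _ _).trans (min_le_left _ _)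
    · exact (min_le_left _ _).trans (min_le_right _ _)
    · calc (9 * C₁ + 4 * C₃ + 4 * C₄) *
            min (min (1 / 16) (e / 528)) (e / (8 * (9 * C₁ + 4 * C₃ + 4 * C₄)))
          ≤ (9 * C₁ + 4 * C₃ + 4 * C₄) * (e / (8 * (9 * C₁ + 4 * C₃ + 4 * C₄))) :=
            mul_le_mul_of_nonneg_left (min_le_right _ _) hD.le
        _ = e / 8 := by field_simp
  have hη1 : η < 1 := by linarith
  set δ : ℝ := η ^ 4 with hδd
  have hδ : 0 < δ := by positivity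
  have hδ1 : δ < 1 := pow_lt_one₀ hη.le hη1 (by norm_num)
  set Y : ℝ := 1 / η ^ 4 with hYd
  have hY : 1 ≤ Y := by
    rw [hYd, le_div_iff₀ hδ]
    linarith
  refine ⟨δ, Y, hδ, hδ1, hY, fun A hA α hF => ?_⟩
  obtain ⟨H₀, hH1, hHe⟩ : ∃ H₀ : ℕ, 1 ≤ H₀ ∧ 1 / (H₀ : ℝ) ≤ e / 8 := by
    refine ⟨⌈8 / e⌉₊ + 1, by omega, ?_⟩
    have h1 : 8 / e ≤ (⌈8 / e⌉₊ : ℝ) := Nat.le_ceil _
    have h2 : 0 < 8 / e := by positivity
    rw [div_le_iff₀ (by positivity)]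
    push_cast
    have h3 : e / 8 * (8 / e) = 1 := by field_simp
    nlinarith
  set ε₁ : ℝ := e / 8 with hε₁d
  have hε₁ : 0 < ε₁ := by positivity
  have hε₁' : ε₁ ≤ 1 / 8 := by rw [hε₁d]; linarith
  have hreal := realize hF hδ hδ1 hY hA ε₁ hε₁
  have hell : Tendsto (fun L : ℕ => ⌊(1 - 4 * η) * (L : ℝ)⌋₊) atTop atTop := by
    refine tendsto_nat_floor_atTop.comp ?_
    exact Tendsto.const_mul_atTop (by linarith) tendsto_natCast_atTop_atTop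
  have hreal' := hell.eventually hreal
  refine up_transfer ?_
  have hi₀ : ∀ᶠ L : ℕ in atTop, 16 * C₂ / (δ * e) ≤ (L : ℝ) :=
    tendsto_natCast_atTop_atTop.eventually_ge_atTop _
  filter_upwards [hbig, hclose, hbud, hlarge, hreal', exists_prm η hη hη16 Y ε₁ hY hε₁ hε₁' H₀,
    Cr_same (e / 16) (by positivity), nondiv_cover C₅ (e / 16) (by positivity), hi₀,
    eventually_ge_atTop 1] with L h1 h2 h3 h4 h5 h6 h7 h8 h9 hL1
  intro s hs hs'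
  obtain ⟨ld, hG⟩ := exists_grouping (gsz L) fun i => (gsz_bounds L i).2.2
  obtain ⟨i₀, i₁, B, K, hP⟩ := h6
  obtain ⟨𝒞, hpos, hcov, hsz, hsum⟩ := h5 i₀ i₁ hP.a hP.b
  obtain ⟨T₁, hT10, hT1, hT1c⟩ := up_main hG hs hη hη16 hP hH1 A hA hε₁ 𝒞 hpos hcov hsz hsum
  have hs2 : 2 ≤ s := by
    have : 2 ^ 1 ≤ 2 ^ L := Nat.pow_le_pow_right (by norm_num) hL1
    omega
  have hlog : Nat.log 2 s = L := Nat.log_eq_of_pow_le_of_lt_pow hs hs'
  have hdls := hdl s hs2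
  rw [hlog] at hdls
  obtain ⟨T₂, hT20, hT2, hT2c⟩ := h8 s hs hs' hdls
  have hsplit := GG_split hG hs hP.m i₀ i₁ B K T₁ T₂ hT10 hT20 hT1 hT2
  have hL0 : (0 : ℝ) < L + 1 := by positivity
  have hiz : iz L ≤ i₁ := hP.c1
  have e1 := h1 s hs' ld hG i₁ hiz hP.c2
  have e2 := h2 s hs' ld hG i₀ hP.c0
  have hΛ : 1 / (2 * η ^ 2) * Real.sqrt ((i₀ : ℝ) / (L + 1)) ≤ 1 := by
    have := hP.g
    rw [div_mul_eq_mul_div, one_mul, div_le_one (by positivity)]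
    exact this
  have e3 := h3 s hs' ld hG i₀ B (1 / (2 * η ^ 2)) (by positivity) hΛ
  have e4 := h4 s hs' ld hG K
  have e5 := h7 s hs' ld hG
  -- numerical bounds
  have expb : ∀ x : ℝ, 0 < x → Real.exp (-(1 / x)) ≤ x := by
    intro x hx
    have h10 : 1 / x ≤ Real.exp (1 / x) := by
      have := Real.add_one_le_exp (1 / x)
      linarith
    rw [Real.exp_neg, inv_le_comm₀ (Real.exp_pos _) hx, ← one_div]
    exact h10
  have f1 : C₁ * (((L : ℝ) + 1 - i₁) / i₁) ≤ 9 * C₁ * η := by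
    have := mul_le_mul_of_nonneg_left hP.e hC₁.le
    linarith
  have f2 : C₂ / (i₀ : ℝ) ≤ e / 16 := by
    have h10 : 0 < δ * e := by positivity
    rw [div_le_iff₀ h10] at h9
    have h11 := hP.f
    have h12 : 0 < (i₀ : ℝ) := by
      have : (0 : ℝ) < δ * L := mul_pos hδ (by
        have : (1 : ℝ) ≤ L := by exact_mod_cast hL1
        linarith)
      linarith
    rw [div_le_iff₀ h12]
    have h13 : e * (δ * L) ≤ e * i₀ := mul_le_mul_of_nonneg_left h11 he.le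
    nlinarith
  have f3 : C₃ * Real.exp (-(1 / (2 * η ^ 2) * (B : ℝ) / (L + 1))) ≤ 4 * C₃ * η := by
    have h10 : 1 / (4 * η) ≤ 1 / (2 * η ^ 2) * (B : ℝ) / (L + 1) := by
      have h11 := mul_le_mul_of_nonneg_left hP.h (by positivity : (0 : ℝ) ≤ 1 / (2 * η ^ 2))
      calc 1 / (4 * η) = 1 / (2 * η ^ 2) * (η / 2) := by field_simp; norm_num
        _ ≤ 1 / (2 * η ^ 2) * ((B : ℝ) / (L + 1)) := h11
        _ = _ := by ring
    have h12 : Real.exp (-(1 / (2 * η ^ 2) * (B : ℝ) / (L + 1))) ≤ 4 * η :=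
      (Real.exp_le_exp.2 (neg_le_neg h10)).trans (expb _ (by positivity))
    nlinarith
  have f4 : C₄ * Real.exp (-(((K : ℝ) - Nat.log 2 (Fl L)) / (L + 1))) ≤ 4 * C₄ * η := by
    have h10 : 1 / (4 * η) ≤ ((K : ℝ) - Nat.log 2 (Fl L)) / (L + 1) := by
      refine le_trans ?_ hP.i
      rw [hYd]
      have h11 : η ^ 4 ≤ η := by
        calc η ^ 4 ≤ η ^ 1 := pow_le_pow_of_le_one hη.le hη1.le (by norm_num)
          _ = η := pow_one _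
      rw [div_div]
      exact one_div_le_one_div_of_le (by positivity) (by linarith)
    have h12 : Real.exp (-(((K : ℝ) - Nat.log 2 (Fl L)) / (L + 1))) ≤ 4 * η :=
      (Real.exp_le_exp.2 (neg_le_neg h10)).trans (expb _ (by positivity))
    nlinarith
  have f0 : (1 + 1 / (H₀ : ℝ)) * (1 + A + ε₁) * (1 + 66 * η ^ 2) ≤ (1 + e) * (1 + A) + e / 4 := by
    have h10 : 66 * η ^ 2 ≤ e / 8 := by nlinarith
    have h11 : (1 + 1 / (H₀ : ℝ)) * (1 + 66 * η ^ 2) ≤ (1 + e / 8) * (1 + e / 8) :=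
      mul_le_mul (by linarith) (by linarith) (by positivity) (by positivity)
    have h12 : (1 + e / 8) * (1 + e / 8) ≤ 1 + e / 2 := by nlinarith
    have h13 : 0 ≤ 1 + A + ε₁ := by linarith
    calc (1 + 1 / (H₀ : ℝ)) * (1 + A + ε₁) * (1 + 66 * η ^ 2)
        = (1 + 1 / (H₀ : ℝ)) * (1 + 66 * η ^ 2) * (1 + A + ε₁) := by ring
      _ ≤ (1 + e / 2) * (1 + A + ε₁) := mul_le_mul_of_nonneg_right (h11.trans h12) h13
      _ ≤ (1 + e) * (1 + A) + e / 4 := by rw [hε₁d]; nlinarith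
  have hA1 : 0 ≤ 1 + A := by linarith
  calc GG s ≤ _ := hsplit
    _ ≤ ENNReal.ofReal ((1 + e) * (1 + A) + e / 4) + ENNReal.ofReal (e / 16) +
        (ENNReal.ofReal (9 * C₁ * η) + ENNReal.ofReal (e / 16) + ENNReal.ofReal (e / 16) +
          ENNReal.ofReal (4 * C₃ * η) + ENNReal.ofReal (4 * C₄ * η)) := by
        gcongr
        · exact hT1c.trans (ENNReal.ofReal_le_ofReal f0)
        · exact e1.trans (ENNReal.ofReal_le_ofReal f1)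
        · exact e2.trans (ENNReal.ofReal_le_ofReal f2)
        · exact e3.trans (ENNReal.ofReal_le_ofReal f3)
        · exact e4.trans (ENNReal.ofReal_le_ofReal f4)
    _ ≤ ENNReal.ofReal ((1 + ε) * (1 + A) + ε) := by
        rw [← ENNReal.ofReal_add (by positivity) (by positivity),
          ← ENNReal.ofReal_add (by positivity) (by positivity),
          ← ENNReal.ofReal_add (by positivity) (by positivity),
          ← ENNReal.ofReal_add (by positivity) (by positivity),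
          ← ENNReal.ofReal_add (by positivity) (by positivity),
          ← ENNReal.ofReal_add (by positivity) (by positivity)]
        refine ENNReal.ofReal_le_ofReal ?_
        have : e * (1 + A) ≤ ε * (1 + A) := mul_le_mul_of_nonneg_right heε hA1
        nlinarith

end Pool.Agent.W_a617e8_h51
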