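import Pool.Agent.W_a617e8_h51.A0
import Pool.Agent.W_a617e8_h51.LP

set_option autoImplicit false

/-! X0: the finite configuration attached to an optimal hitting set. -/

noncomputable section

open scoped ENNReal

open MeasureTheory

namespace Pool.Agent.W_a617e8_h51

open Classical in
/-- The squarefree `u` with exactly `k` prime factors, one in each window `[s^(a i), s^(b i))`, and
`n / K < u ≤ n`. -/
def Uset (s k : ℕ) (a b : Fin k → ℝ) (K : ℝ) (n : ℕ) : Finset ℕ :=
  (Finset.Icc 1 n).filter fun u => (n : ℝ) / K < u ∧ Squarefree u ∧ u.primeFactors.card = k ∧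
    ∀ i, ∃ p ∈ u.primeFactors, (s : ℝ) ^ a i ≤ p ∧ (p : ℝ) < (s : ℝ) ^ b i

/-- An enumeration of the elements of `P`. -/
private def X0pr (P : Finset ℕ) (i : ℕ) : ℕ :=
  if h : i < P.card then ((P.equivFin.symm ⟨i, h⟩ : P) : ℕ) else 0

private theorem X0pr_mem {P : Finset ℕ} {m : ℕ} (hm : P.card = m) (i : Fin m) :
    X0pr P i ∈ P := by
  subst hm
  unfold X0pr
  rw [dif_pos i.2]
  exact (P.equivFin.symm ⟨i, i.2⟩).2

private theorem X0pr_inj {P : Finset ℕ} {m : ℕ} (hm : P.card = m) :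
    Function.Injective (fun i : Fin m => X0pr P i) := by
  subst hm
  intro i j hij
  simp only [X0pr, i.2, j.2, dif_pos] at hij
  exact P.equivFin.symm.injective (Subtype.ext hij)

private theorem X0pr_surj {P : Finset ℕ} {m : ℕ} (hm : P.card = m) {p : ℕ} (hp : p ∈ P) :
    ∃ i : Fin m, X0pr P i = p := by
  subst hm
  refine ⟨P.equivFin ⟨p, hp⟩, ?_⟩
  unfold X0pr
  rw [dif_pos (P.equivFin ⟨p, hp⟩).2]
  simp

private theorem X0_image {P : Finset ℕ} (hP : ∀ p ∈ P, p.Prime) {m : ℕ} (hm : P.card = m) {u : ℕ}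
    (hu : u ≠ 0) (hpu : ∀ p : ℕ, p.Prime → p ∣ u → p ∈ P) :
    (Finset.univ.filter (fun i : Fin m => X0pr P i ∣ u)).image (fun i : Fin m => X0pr P i) =
      u.primeFactors := by
  ext p
  simp only [Finset.mem_image, Finset.mem_filter, Finset.mem_univ, true_and, Nat.mem_primeFactors]
  constructor
  · rintro ⟨i, hi, rfl⟩
    exact ⟨hP _ (X0pr_mem hm i), hi, hu⟩
  · rintro ⟨h1, h2, -⟩
    obtain ⟨i, hi⟩ := X0pr_surj hm (hpu p h1 h2)
    exact ⟨i, by rw [hi]; exact h2, hi⟩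

private theorem X0_card {P : Finset ℕ} (hP : ∀ p ∈ P, p.Prime) {m : ℕ} (hm : P.card = m) {u : ℕ}
    (hu : u ≠ 0) (hpu : ∀ p : ℕ, p.Prime → p ∣ u → p ∈ P) :
    (Finset.univ.filter (fun i : Fin m => X0pr P i ∣ u)).card = u.primeFactors.card := by
  rw [← X0_image hP hm hu hpu, Finset.card_image_of_injective _ (X0pr_inj hm)]

private theorem X0_prod {P : Finset ℕ} (hP : ∀ p ∈ P, p.Prime) {m : ℕ} (hm : P.card = m) {u : ℕ}
    (hu : Squarefree u) (hpu : ∀ p : ℕ, p.Prime → p ∣ u → p ∈ P) :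
    ∏ i ∈ Finset.univ.filter (fun i : Fin m => X0pr P i ∣ u), X0pr P i = u := by
  have h1 := Nat.prod_primeFactors_of_squarefree hu
  rw [← X0_image hP hm hu.ne_zero hpu, Finset.prod_image
    (fun i _ j _ hij => X0pr_inj hm hij)] at h1
  exact h1

private theorem X0_sum {P : Finset ℕ} (hP : ∀ p ∈ P, p.Prime) {m : ℕ} (hm : P.card = m) {u : ℕ}
    (hu : Squarefree u) (hpu : ∀ p : ℕ, p.Prime → p ∣ u → p ∈ P) (L : ℝ) :
    ∑ i ∈ Finset.univ.filter (fun i : Fin m => X0pr P i ∣ u), Real.log (X0pr P i) / L =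
      Real.log u / L := by
  rw [← Finset.sum_div, ← Real.log_prod
    (fun i _ => by exact_mod_cast (hP _ (X0pr_mem hm i)).ne_zero)]
  congr 2
  exact_mod_cast X0_prod hP hm hu hpu

private theorem X0_total {P : Finset ℕ} (hP : ∀ p ∈ P, p.Prime) {m : ℕ} (hm : P.card = m) (L : ℝ) :
    ∑ i : Fin m, Real.log (X0pr P i) / L = Real.log (∏ p ∈ P, (p : ℝ)) / L := by
  rw [← Finset.sum_div, ← Real.log_prod
    (fun i _ => by exact_mod_cast (hP _ (X0pr_mem hm i)).ne_zero)]
  congr 2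
  have h1 : P = Finset.univ.image (fun i : Fin m => X0pr P i) := by
    ext p
    simp only [Finset.mem_image, Finset.mem_univ, true_and]
    exact ⟨fun hp => X0pr_surj hm hp, fun ⟨i, hi⟩ => hi ▸ X0pr_mem hm i⟩
  conv_rhs => rw [h1]
  rw [Finset.prod_image (fun i _ j _ hij => X0pr_inj hm hij)]

private theorem X0_le_iff {s : ℕ} (hs : 2 ≤ s) {p : ℕ} (hp : 0 < p) (a : ℝ) :
    a ≤ Real.log p / Real.log s ↔ (s : ℝ) ^ a ≤ p := by
  have hs1 : (1 : ℝ) < s := by exact_mod_cast hs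
  have hl : 0 < Real.log s := Real.log_pos hs1
  have hp' : (0 : ℝ) < p := by exact_mod_cast hp
  rw [le_div_iff₀ hl, Real.rpow_def_of_pos (by linarith), ← Real.le_log_iff_exp_le hp', mul_comm]

private theorem X0_lt_iff {s : ℕ} (hs : 2 ≤ s) {p : ℕ} (hp : 0 < p) (b : ℝ) :
    Real.log p / Real.log s < b ↔ (p : ℝ) < (s : ℝ) ^ b := by
  rw [← not_le, ← not_le, X0_le_iff hs hp]

private theorem X0_gt_iff {s : ℕ} (hs : 2 ≤ s) {p : ℕ} (hp : 0 < p) (a : ℝ) :
    a < Real.log p / Real.log s ↔ (s : ℝ) ^ a < p := by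
  have hs1 : (1 : ℝ) < s := by exact_mod_cast hs
  have hl : 0 < Real.log s := Real.log_pos hs1
  have hp' : (0 : ℝ) < p := by exact_mod_cast hp
  rw [lt_div_iff₀ hl, Real.rpow_def_of_pos (by linarith), ← Real.lt_log_iff_exp_lt hp', mul_comm]

private theorem X0_swap {ι : Type} (I : Finset ι) (mm : ι → ℕ)
    (FF : (t : ι) → (m : ℕ) → Finset (Finset (Fin m)))
    (w : (t : ι) → (m : ℕ) → Finset (Finset (Fin m)) → ℝ≥0∞) :
    (∑' m : ℕ, ∑ F : Finset (Finset (Fin m)), ∑ t ∈ I,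
      (open Classical in if mm t = m ∧ FF t m = F then w t m F else 0)) =
      ∑ t ∈ I, w t (mm t) (FF t (mm t)) := by
  classical
  have h1 : ∀ m : ℕ, (∑ F : Finset (Finset (Fin m)), ∑ t ∈ I,
      (if mm t = m ∧ FF t m = F then w t m F else 0)) =
      ∑ t ∈ I, if mm t = m then w t m (FF t m) else 0 := by
    intro m
    rw [Finset.sum_comm]
    refine Finset.sum_congr rfl fun t _ => ?_
    by_cases h : mm t = m
    · simp only [h, true_and, if_true]
      rw [Finset.sum_ite_eq Finset.univ (FF t m)]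
      simp
    · simp [h]
  simp_rw [h1]
  rw [Summable.tsum_finsetSum (fun t _ => ENNReal.summable)]
  refine Finset.sum_congr rfl fun t _ => ?_
  rw [tsum_eq_single (mm t) (fun m hm => if_neg (fun h => hm h.symm))]
  simp

/-- **One `n`.**  Proof: take an optimal `T` for `NN s n` (`NN_attained`).  Let `D` be the set of the
squarefree `u`, `1 < u`, `n / K < u ≤ n`, all prime factors in `(s^δ, s]` (they are smooth); choose
for each `u ∈ D` a `t = f u ∈ T`, `t = j u`, `1 ≤ j ≤ s`.  For `t ∈ f(D)` let `P(t)` be the set of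
the prime factors of `t` in `(s^δ, s]`, `m = #P(t)`, listed increasingly `p_0 < .. < p_{m-1}`
(`Finset.orderIsoOfFin` or any bijection with `Fin m`), `c i = log p_i / log s`,
`F = {S_u : u ∈ D, f u = t}`, `S_u = {i : p_i ∣ u}`; `β m F = ∑ dirac c` over the `t ∈ f(D)` with
that `m` and `F` (label `⟨m, F⟩` in a sigma type).  (i) at most `#T` points.  (ii) `u = ∏_{S_u} p_i`,
so `∑_{S_u} c = log u / log s`; and `∏ p_i ≤ t ≤ s u`.  (iii) `∑_{m,F} ∑_{S ∈ F} β (Hset)` counts
the pairs `(t, S)`, `S ∈ F_t`, i.e. the `u ∈ D` (`u ↦ (f u, S_u)` is injective), with `k` prime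
factors, each window containing one: such a `u` has all its `k` prime factors in the (disjoint)
windows, so is automatically in `D`. -/
theorem one_n (s n : ℕ) (hs : 2 ≤ s) (hn : 1 ≤ n) (δ K : ℝ) (hδ : 0 < δ) (hδ1 : δ < 1)
    (hK : 1 ≤ K) (hnδ : (s : ℝ) ^ δ * K ≤ n) :
    ∃ β : (m : ℕ) → Finset (Finset (Fin m)) → Measure (Fin m → ℝ),
      (∑' m : ℕ, ∑ F : Finset (Finset (Fin m)), β m F Set.univ ≤ NN s n) ∧
      (∀ (m : ℕ) (F : Finset (Finset (Fin m))), ∀ᵐ c ∂(β m F), F.Nonempty ∧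
        (∀ S ∈ F, S.Nonempty) ∧ (∀ i, δ < c i ∧ c i ≤ 1) ∧
        (∀ S ∈ F, Real.log (n / K) / Real.log s ≤ ∑ i ∈ S, c i ∧
          ∑ i ∈ S, c i ≤ Real.log n / Real.log s) ∧ ∀ S ∈ F, ∑ i, c i ≤ 1 + ∑ i ∈ S, c i) ∧
      (∀ (k : ℕ) (a b : Fin k → ℝ), 1 ≤ k → (∀ i, δ < a i ∧ a i < b i ∧ b i < 1) →
        (∀ i j, i < j → b i < a j) →
        ∑' m : ℕ, ∑ F : Finset (Finset (Fin m)), ∑ S ∈ F, β m F (Hset k m a b S) =
          ((Uset s k a b K n).card : ℝ≥0∞)) := by
  classical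
  obtain ⟨T, hT, hTc⟩ := NN_attained s n (by omega)
  have hs1 : (1 : ℝ) < s := by exact_mod_cast hs
  have hs0 : (0 : ℝ) < s := by linarith
  have hls : 0 < Real.log s := Real.log_pos hs1
  have hK0 : 0 < K := by linarith
  have hn0 : (0 : ℝ) < n := by exact_mod_cast hn
  set D : Finset ℕ := (Finset.Icc 1 n).filter (fun u => (n : ℝ) / K < u ∧ Squarefree u ∧
    ∀ p : ℕ, p.Prime → p ∣ u → (s : ℝ) ^ δ < p ∧ p ≤ s) with hD
  set P : ℕ → Finset ℕ := fun t => t.primeFactors.filter (fun p => (s : ℝ) ^ δ < p ∧ p ≤ s) with hP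
  have hPp : ∀ t, ∀ p ∈ P t, p.Prime := fun t p hp =>
    Nat.prime_of_mem_primeFactors (Finset.mem_filter.1 hp).1
  have hDm : ∀ u, u ∈ D ↔ (1 ≤ u ∧ u ≤ n) ∧ (n : ℝ) / K < u ∧ Squarefree u ∧
      ∀ p : ℕ, p.Prime → p ∣ u → (s : ℝ) ^ δ < p ∧ p ≤ s := by
    intro u
    rw [hD, Finset.mem_filter, Finset.mem_Icc]
  have hex : ∀ u, u ∈ D → ∃ t, t ∈ T ∧ ∃ j, 1 ≤ j ∧ j ≤ s ∧ t = j * u := by
    intro u hu
    obtain ⟨⟨h1, h2⟩, -, -, h4⟩ := (hDm u).1 hu
    obtain ⟨j, hj1, hj2, hj3⟩ := hT u ⟨by omega, fun p hp hpu => (h4 p hp hpu).2⟩ h2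
    exact ⟨j * u, by simpa using hj3, j, hj1, hj2, rfl⟩
  choose! f hfT hfj using hex
  -- the prime factors of `u` lie in `P (f u)`
  have hft0 : ∀ u ∈ D, f u ≠ 0 := by
    intro u hu
    obtain ⟨j, hj1, -, hj3⟩ := hfj u hu
    obtain ⟨⟨h1, -⟩, -⟩ := (hDm u).1 hu
    rw [hj3]
    exact mul_ne_zero (by omega) (by omega)
  have hpP : ∀ u ∈ D, ∀ p : ℕ, p.Prime → p ∣ u → p ∈ P (f u) := by
    intro u hu p hp hpu
    obtain ⟨j, hj1, -, hj3⟩ := hfj u hu
    have h4 := ((hDm u).1 hu).2.2.2 p hp hpu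
    rw [hP, Finset.mem_filter, Nat.mem_primeFactors]
    exact ⟨⟨hp, by rw [hj3]; exact Dvd.dvd.mul_left hpu j, hft0 u hu⟩, h4⟩
  have hu1 : ∀ u ∈ D, 1 < u := by
    intro u hu
    have h1 := ((hDm u).1 hu).2.1
    have h2 : (1 : ℝ) < (s : ℝ) ^ δ := Real.one_lt_rpow hs1 hδ
    have h3 : (s : ℝ) ^ δ ≤ n / K := by rwa [le_div_iff₀ hK0]
    have h4 : (1 : ℝ) < u := by linarith
    exact_mod_cast h4
  set S : (t m u : ℕ) → Finset (Fin m) :=
    fun t m u => Finset.univ.filter (fun i : Fin m => X0pr (P t) i ∣ u) with hS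
  set Fam : (t m : ℕ) → Finset (Finset (Fin m)) :=
    fun t m => (D.filter (fun u => f u = t)).image (S t m) with hFam
  set c : (t m : ℕ) → Fin m → ℝ := fun t m i => Real.log (X0pr (P t) i) / Real.log s with hc
  set β : (m : ℕ) → Finset (Finset (Fin m)) → Measure (Fin m → ℝ) := fun m F =>
    ∑ t ∈ (D.image f).filter (fun t => (P t).card = m ∧ Fam t m = F), Measure.dirac (c t m)
    with hβ
  have hβa : ∀ (m : ℕ) (F : Finset (Finset (Fin m))) (A : Set (Fin m → ℝ)), β m F A =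
      ∑ t ∈ D.image f, if (P t).card = m ∧ Fam t m = F then
        (Measure.dirac (c t m) : Measure (Fin m → ℝ)) A else 0 := by
    intro m F A
    rw [hβ]
    simp only
    rw [Measure.finsetSum_apply, Finset.sum_filter]
  refine ⟨β, ?_, ?_, ?_⟩
  · -- mass
    have h1 : ∑' m : ℕ, ∑ F : Finset (Finset (Fin m)), β m F Set.univ =
        ∑ t ∈ D.image f, (1 : ℝ≥0∞) := by
      simp_rw [hβa, measure_univ]
      exact X0_swap (D.image f) (fun t => (P t).card) Fam (fun _ _ _ => 1)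
    rw [h1, Finset.sum_const, nsmul_eq_mul, mul_one]
    have h2 : (D.image f).card ≤ T.card :=
      Finset.card_le_card (Finset.image_subset_iff.2 fun u hu => hfT u hu)
    rw [← hTc]
    exact_mod_cast h2
  · -- support
    intro m F
    rw [hβ]
    simp only
    rw [ae_finsetSum_measure_iff]
    intro t ht
    rw [ae_dirac_eq, Filter.eventually_pure]
    obtain ⟨ht1, hm, hF⟩ := Finset.mem_filter.1 ht
    obtain ⟨u₀, hu₀, hu₀t⟩ := Finset.mem_image.1 ht1
    have hFm : ∀ A ∈ F, ∃ u ∈ D, f u = t ∧ S t m u = A := by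
      intro A hA
      rw [← hF, hFam] at hA
      obtain ⟨u, hu, hu'⟩ := Finset.mem_image.1 hA
      obtain ⟨hu1, hu2⟩ := Finset.mem_filter.1 hu
      exact ⟨u, hu1, hu2, hu'⟩
    have hsum : ∀ u ∈ D, f u = t → ∑ i ∈ S t m u, c t m i = Real.log u / Real.log s := by
      intro u hu hut
      exact X0_sum (hPp t) hm ((hDm u).1 hu).2.2.1
        (fun p hp hpu => by rw [← hut]; exact hpP u hu p hp hpu) (Real.log s)
    refine ⟨⟨S t m u₀, ?_⟩, ?_, ?_, ?_, ?_⟩
    · rw [← hF, hFam]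
      exact Finset.mem_image.2 ⟨u₀, Finset.mem_filter.2 ⟨hu₀, hu₀t⟩, rfl⟩
    · intro A hA
      obtain ⟨u, hu, hut, rfl⟩ := hFm A hA
      obtain ⟨p, hp, hpu⟩ := Nat.exists_prime_and_dvd (hu1 u hu).ne'
      obtain ⟨i, hi⟩ := X0pr_surj hm (hut ▸ hpP u hu p hp hpu : p ∈ P t)
      exact ⟨i, Finset.mem_filter.2 ⟨Finset.mem_univ _, by rw [hi]; exact hpu⟩⟩
    · intro i
      have h1 := X0pr_mem hm i
      have h2 := hPp t _ h1
      rw [hP, Finset.mem_filter] at h1
      refine ⟨(X0_gt_iff hs h2.pos δ).2 h1.2.1, ?_⟩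
      rw [hc]
      simp only
      rw [div_le_one hls]
      exact Real.log_le_log (by exact_mod_cast h2.pos) (by exact_mod_cast h1.2.2)
    · intro A hA
      obtain ⟨u, hu, hut, rfl⟩ := hFm A hA
      obtain ⟨⟨h1, h2⟩, h3, -⟩ := (hDm u).1 hu
      rw [hsum u hu hut]
      constructor
      · exact div_le_div_of_nonneg_right (Real.log_le_log (by positivity) h3.le) hls.le
      · exact div_le_div_of_nonneg_right
          (Real.log_le_log (by exact_mod_cast h1) (by exact_mod_cast h2)) hls.le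
    · intro A hA
      obtain ⟨u, hu, hut, rfl⟩ := hFm A hA
      obtain ⟨⟨h1, h2⟩, h3, -⟩ := (hDm u).1 hu
      rw [hsum u hu hut]
      have h4 : ∑ i, c t m i = Real.log (∏ p ∈ P t, (p : ℝ)) / Real.log s :=
        X0_total (hPp t) hm (Real.log s)
      rw [h4]
      obtain ⟨j, hj1, hj2, hj3⟩ := hfj u hu
      have h5 : ∏ p ∈ P t, p ∣ t :=
        (Finset.prod_dvd_prod_of_subset _ _ _ (Finset.filter_subset _ _)).trans
          (Nat.prod_primeFactors_dvd t)
      have h6 : ∏ p ∈ P t, p ≤ s * u := by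
        refine (Nat.le_of_dvd (by have := hft0 u hu; rw [hut] at this; omega) h5).trans ?_
        rw [← hut, hj3]
        exact Nat.mul_le_mul_right u hj2
      have h7 : (0 : ℝ) < ∏ p ∈ P t, (p : ℝ) :=
        Finset.prod_pos fun p hp => by exact_mod_cast (hPp t p hp).pos
      have h8 : Real.log (∏ p ∈ P t, (p : ℝ)) ≤ Real.log s + Real.log u := by
        rw [← Real.log_mul hs0.ne' (by positivity)]
        refine Real.log_le_log h7 ?_
        have h9 : ((∏ p ∈ P t, p : ℕ) : ℝ) ≤ ((s * u : ℕ) : ℝ) := Nat.cast_le.2 h6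
        simpa only [Nat.cast_prod, Nat.cast_mul] using h9
      rw [div_le_iff₀ hls, add_mul, div_mul_cancel₀ _ hls.ne', one_mul]
      exact h8
  · -- marginals
    intro k a b hk hab hsep
    have h1 : ∑' m : ℕ, ∑ F : Finset (Finset (Fin m)), ∑ A ∈ F, β m F (Hset k m a b A) =
        ∑ t ∈ D.image f, ∑ A ∈ Fam t (P t).card,
          (Measure.dirac (c t (P t).card) : Measure (Fin (P t).card → ℝ))
            (Hset k (P t).card a b A) := by
      have h2 : ∀ (m : ℕ) (F : Finset (Finset (Fin m))), ∑ A ∈ F, β m F (Hset k m a b A) =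
          ∑ t ∈ D.image f, if (P t).card = m ∧ Fam t m = F then
            ∑ A ∈ F, (Measure.dirac (c t m) : Measure (Fin m → ℝ)) (Hset k m a b A) else 0 := by
        intro m F
        simp_rw [hβa]
        rw [Finset.sum_comm]
        refine Finset.sum_congr rfl fun t _ => ?_
        by_cases h : (P t).card = m ∧ Fam t m = F
        · simp only [h, and_self, if_true]
        · simp only [h, if_false, Finset.sum_const_zero]
      simp_rw [h2]
      exact X0_swap (D.image f) (fun t => (P t).card) Fam (fun t m F =>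
        ∑ A ∈ F, (Measure.dirac (c t m) : Measure (Fin m → ℝ)) (Hset k m a b A))
    rw [h1]
    have hmem : ∀ u ∈ D, (c (f u) (P (f u)).card ∈
        Hset k (P (f u)).card a b (S (f u) (P (f u)).card u) ↔
        (u.primeFactors.card = k ∧
          ∀ i, ∃ p ∈ u.primeFactors, (s : ℝ) ^ a i ≤ p ∧ (p : ℝ) < (s : ℝ) ^ b i)) := by
      intro u hu
      have hne : u ≠ 0 := by have := hu1 u hu; omega
      have hPu := hpP u hu
      have e1 : (S (f u) (P (f u)).card u).card = u.primeFactors.card :=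
        X0_card (hPp (f u)) rfl hne hPu
      have e2 : ∀ i : Fin k, (∃ x ∈ S (f u) (P (f u)).card u,
          a i ≤ c (f u) (P (f u)).card x ∧ c (f u) (P (f u)).card x < b i) ↔
          ∃ p ∈ u.primeFactors, (s : ℝ) ^ a i ≤ p ∧ (p : ℝ) < (s : ℝ) ^ b i := by
        intro i
        rw [← X0_image (hPp (f u)) rfl hne hPu]
        constructor
        · rintro ⟨x, hx, hx1, hx2⟩
          have hpos := (hPp (f u) _ (X0pr_mem rfl x)).pos
          exact ⟨_, Finset.mem_image.2 ⟨x, hx, rfl⟩, (X0_le_iff hs hpos _).1 hx1,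
            (X0_lt_iff hs hpos _).1 hx2⟩
        · rintro ⟨p, hp, hp1, hp2⟩
          obtain ⟨x, hx, rfl⟩ := Finset.mem_image.1 hp
          have hpos := (hPp (f u) _ (X0pr_mem rfl x)).pos
          exact ⟨x, hx, (X0_le_iff hs hpos _).2 hp1, (X0_lt_iff hs hpos _).2 hp2⟩
      show (_ ∧ _) ↔ _
      rw [e1]
      exact and_congr_right fun _ => forall_congr' e2
    have h3 : ∀ t ∈ D.image f, ∑ A ∈ Fam t (P t).card,
        (Measure.dirac (c t (P t).card) : Measure (Fin (P t).card → ℝ))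
          (Hset k (P t).card a b A) =
        ∑ u ∈ D.filter (fun u => f u = t), if (u.primeFactors.card = k ∧
          ∀ i, ∃ p ∈ u.primeFactors, (s : ℝ) ^ a i ≤ p ∧ (p : ℝ) < (s : ℝ) ^ b i)
          then (1 : ℝ≥0∞) else 0 := by
      intro t ht
      rw [hFam]
      simp only
      rw [Finset.sum_image]
      · refine Finset.sum_congr rfl fun u hu0 => ?_
        obtain ⟨hu, hut⟩ := Finset.mem_filter.1 hu0
        subst hut
        rw [Measure.dirac_apply, Set.indicator_apply]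
        simp only [hmem u hu, Pi.one_apply]
      · intro u hu v hv huv
        obtain ⟨hu, hut⟩ := Finset.mem_filter.1 (Finset.mem_coe.1 hu)
        obtain ⟨hv, hvt⟩ := Finset.mem_filter.1 (Finset.mem_coe.1 hv)
        have e1 := X0_prod (hPp t) rfl ((hDm u).1 hu).2.2.1
          (fun p hp hpu => by rw [← hut]; exact hpP u hu p hp hpu)
        have e2 := X0_prod (hPp t) rfl ((hDm v).1 hv).2.2.1
          (fun p hp hpu => by rw [← hvt]; exact hpP v hv p hp hpu)
        have e3 : (Finset.univ.filter (fun i : Fin (P t).card => X0pr (P t) i ∣ u)) =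
          (Finset.univ.filter (fun i : Fin (P t).card => X0pr (P t) i ∣ v)) := huv
        rw [← e1, ← e2, e3]
    rw [Finset.sum_congr rfl h3]
    have h4 : ∑ t ∈ D.image f, ∑ u ∈ D.filter (fun u => f u = t),
        (if (u.primeFactors.card = k ∧
          ∀ i, ∃ p ∈ u.primeFactors, (s : ℝ) ^ a i ≤ p ∧ (p : ℝ) < (s : ℝ) ^ b i)
          then (1 : ℝ≥0∞) else 0) = ∑ u ∈ D, if (u.primeFactors.card = k ∧
          ∀ i, ∃ p ∈ u.primeFactors, (s : ℝ) ^ a i ≤ p ∧ (p : ℝ) < (s : ℝ) ^ b i)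
          then (1 : ℝ≥0∞) else 0 :=
      Finset.sum_fiberwise_of_maps_to (fun u hu => Finset.mem_image_of_mem f hu) _
    rw [h4, Finset.sum_ite, Finset.sum_const, Finset.sum_const_zero, add_zero, nsmul_eq_mul,
      mul_one]
    congr 2
    ext u
    rw [Finset.mem_filter, hDm, Uset, Finset.mem_filter, Finset.mem_Icc]
    constructor
    · rintro ⟨⟨h5, h6, h7, -⟩, h8, h9⟩
      exact ⟨h5, h6, h7, h8, h9⟩
    · rintro ⟨h5, h6, h7, h8, h9⟩
      refine ⟨⟨h5, h6, h7, ?_⟩, h8, h9⟩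
      choose g hg1 hg2 hg3 using h9
      have hlt : ∀ i j, i < j → g i < g j := by
        intro i j hij
        have e1 : (s : ℝ) ^ b i ≤ (s : ℝ) ^ a j :=
          Real.rpow_le_rpow_of_exponent_le hs1.le (hsep i j hij).le
        have e2 : ((g i : ℕ) : ℝ) < (g j : ℕ) := by
          have := hg3 i
          have := hg2 j
          linarith
        exact_mod_cast e2
      have hginj : Function.Injective g := by
        intro i j hij
        rcases lt_trichotomy i j with h | h | h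
        · exact absurd hij (hlt i j h).ne
        · exact h
        · exact absurd hij (hlt j i h).ne'
      have himg : Finset.univ.image g = u.primeFactors := by
        refine Finset.eq_of_subset_of_card_le (Finset.image_subset_iff.2 fun i _ => hg1 i) ?_
        rw [h8, Finset.card_image_of_injective _ hginj, Finset.card_univ, Fintype.card_fin]
      intro p hp hpu
      have hpm : p ∈ Finset.univ.image g := by
        rw [himg, Nat.mem_primeFactors]
        exact ⟨hp, hpu, by omega⟩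
      obtain ⟨i, -, rfl⟩ := Finset.mem_image.1 hpm
      constructor
      · exact lt_of_lt_of_le (Real.rpow_lt_rpow_of_exponent_lt hs1 (hab i).1) (hg2 i)
      · have e1 : (s : ℝ) ^ b i < (s : ℝ) ^ (1 : ℝ) :=
          Real.rpow_lt_rpow_of_exponent_lt hs1 (hab i).2.2
        rw [Real.rpow_one] at e1
        have e2 : ((g i : ℕ) : ℝ) < s := (hg3 i).trans e1
        have e3 : g i < s := by exact_mod_cast e2
        exact e3.le

end Pool.Agent.W_a617e8_h51
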