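import Pool.Agent.W_a617e8_h51.X0
import Pool.Agent.W_a617e8_h51.B0b

set_option autoImplicit false

/-! X1: summation over n, marginals. -/

noncomputable section

open scoped ENNReal

open MeasureTheory Filter Topology

namespace Pool.Agent.W_a617e8_h51

/-- Range of `n`: from `⌈s^δ log s⌉` to `⌊s^Y⌋`. -/
def nrange (δ Y : ℝ) (s : ℕ) : Finset ℕ :=
  Finset.Icc ⌈(s : ℝ) ^ δ * Real.log s⌉₊ ⌊(s : ℝ) ^ Y⌋₊

/-- Prime vectors in the windows. -/
private def X1P (s k : ℕ) (a b : Fin k → ℝ) : Finset (Fin k → ℕ) :=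
  Fintype.piFinset fun i => pwin (s : ℝ) (a i) (b i)

private theorem X1P_mem {s k : ℕ} {a b : Fin k → ℝ} {f : Fin k → ℕ} :
    f ∈ X1P s k a b ↔ ∀ i, (f i).Prime ∧ (s : ℝ) ^ a i ≤ (f i : ℝ) ∧ (f i : ℝ) < (s : ℝ) ^ b i := by
  unfold X1P
  rw [Fintype.mem_piFinset]
  exact forall_congr' fun i => mem_pwin

private theorem X1_lt {s k : ℕ} (hs : 2 ≤ s) {a b : Fin k → ℝ} (hd : ∀ i j, i < j → b i < a j)
    {i j : Fin k} (hij : i < j) {p q : ℕ} (hp : (p : ℝ) < (s : ℝ) ^ b i)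
    (hq : (s : ℝ) ^ a j ≤ (q : ℝ)) : p < q := by
  have hs1 : (1 : ℝ) < s := by exact_mod_cast hs
  have e1 : (s : ℝ) ^ b i ≤ (s : ℝ) ^ a j :=
    Real.rpow_le_rpow_of_exponent_le hs1.le (hd i j hij).le
  have : (p : ℝ) < q := by linarith
  exact_mod_cast this

private theorem X1_inj {s k : ℕ} (hs : 2 ≤ s) {a b : Fin k → ℝ} (hd : ∀ i j, i < j → b i < a j)
    {f : Fin k → ℕ} (hf : ∀ i, (s : ℝ) ^ a i ≤ (f i : ℝ) ∧ (f i : ℝ) < (s : ℝ) ^ b i) :
    Function.Injective f := by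
  intro i j hij
  rcases lt_trichotomy i j with h | h | h
  · exact absurd hij (X1_lt hs hd h (hf i).2 (hf j).1).ne
  · exact h
  · exact absurd hij (X1_lt hs hd h (hf j).2 (hf i).1).ne'

private theorem X1_primeFactors {k : ℕ} {f : Fin k → ℕ} (hf : ∀ i, (f i).Prime)
    (hi : Function.Injective f) : (∏ i, f i).primeFactors = Finset.univ.image f := by
  have h1 : ∏ i, f i = ∏ p ∈ Finset.univ.image f, p := by
    rw [Finset.prod_image]
    intro a _ b _ hab
    exact hi hab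
  rw [h1]
  refine Nat.primeFactors_prod ?_
  intro p hp
  obtain ⟨x, _, rfl⟩ := Finset.mem_image.1 hp
  exact hf x

private theorem X1_squarefree {k : ℕ} {f : Fin k → ℕ} (hf : ∀ i, (f i).Prime)
    (hi : Function.Injective f) : Squarefree (∏ i, f i) := by
  refine Finset.squarefree_prod_of_pairwise_isCoprime ?_ (fun i _ => (hf i).prime.squarefree)
  intro i _ j _ hij
  change IsRelPrime (f i) (f j)
  rw [← Nat.coprime_iff_isRelPrime]
  exact (Nat.coprime_primes (hf i) (hf j)).2 (fun h => hij (hi h))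

private theorem X1_image_iff {s k : ℕ} (hs : 2 ≤ s) {a b : Fin k → ℝ}
    (hd : ∀ i j, i < j → b i < a j) (u : ℕ) :
    u ∈ (X1P s k a b).image (fun f => ∏ i, f i) ↔ Squarefree u ∧ u.primeFactors.card = k ∧
      ∀ i, ∃ p ∈ u.primeFactors, (s : ℝ) ^ a i ≤ p ∧ (p : ℝ) < (s : ℝ) ^ b i := by
  constructor
  · intro hu
    obtain ⟨f, hf, rfl⟩ := Finset.mem_image.1 hu
    rw [X1P_mem] at hf
    have hp : ∀ i, (f i).Prime := fun i => (hf i).1
    have hi := X1_inj hs hd fun i => (hf i).2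
    refine ⟨X1_squarefree hp hi, ?_, ?_⟩
    · rw [X1_primeFactors hp hi, Finset.card_image_of_injective _ hi, Finset.card_univ,
        Fintype.card_fin]
    · intro i
      refine ⟨f i, ?_, (hf i).2⟩
      rw [X1_primeFactors hp hi]
      exact Finset.mem_image_of_mem f (Finset.mem_univ i)
  · rintro ⟨h1, h2, h3⟩
    choose g hg1 hg2 using h3
    have hi := X1_inj hs hd hg2
    have himg : Finset.univ.image g = u.primeFactors := by
      refine Finset.eq_of_subset_of_card_le (Finset.image_subset_iff.2 fun i _ => hg1 i) ?_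
      rw [h2, Finset.card_image_of_injective _ hi, Finset.card_univ, Fintype.card_fin]
    refine Finset.mem_image.2 ⟨g, ?_, ?_⟩
    · rw [X1P_mem]
      exact fun i => ⟨Nat.prime_of_mem_primeFactors (hg1 i), hg2 i⟩
    · have h4 := Nat.prod_primeFactors_of_squarefree h1
      rw [← himg, Finset.prod_image (fun i _ j _ h => hi h)] at h4
      exact h4

private theorem X1_image_inj {s k : ℕ} (hs : 2 ≤ s) {a b : Fin k → ℝ}
    (hd : ∀ i j, i < j → b i < a j) :
    Set.InjOn (fun f : Fin k → ℕ => ∏ i, f i) (X1P s k a b : Set (Fin k → ℕ)) := by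
  intro f hf g hg hfg
  rw [Finset.mem_coe, X1P_mem] at hf hg
  have hif := X1_inj hs hd fun i => (hf i).2
  have hig := X1_inj hs hd fun i => (hg i).2
  have h1 : (∏ i, f i).primeFactors = (∏ i, g i).primeFactors := congrArg Nat.primeFactors hfg
  rw [X1_primeFactors (fun i => (hf i).1) hif, X1_primeFactors (fun i => (hg i).1) hig] at h1
  funext i
  have h2 : f i ∈ Finset.univ.image g := by
    rw [← h1]
    exact Finset.mem_image_of_mem f (Finset.mem_univ i)
  obtain ⟨j, -, hj⟩ := Finset.mem_image.1 h2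
  rcases lt_trichotomy i j with h | h | h
  · exact absurd hj (X1_lt hs hd h (hf i).2.2 (hg j).2.1).ne'
  · subst h
    exact hj.symm
  · exact absurd hj (X1_lt hs hd h (hg j).2.2 (hf i).2.1).ne

/-- The numbers `u` with exactly one prime factor in each window and no other, all `n`. -/
theorem prod_windows (s k : ℕ) (hs : 2 ≤ s) (a b : Fin k → ℝ) (hab : ∀ i, 0 < a i ∧ a i < b i)
    (hd : ∀ i j, i < j → b i < a j) (U : Finset ℕ)
    (hU : ∀ u : ℕ, u ∈ U ↔ Squarefree u ∧ u.primeFactors.card = k ∧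
      ∀ i, ∃ p ∈ u.primeFactors, (s : ℝ) ^ a i ≤ p ∧ (p : ℝ) < (s : ℝ) ^ b i) :
    ∑ u ∈ U, (1 : ℝ) / u = ∏ i, ∑ p ∈ pwin (s : ℝ) (a i) (b i), (1 : ℝ) / p := by
  have hUe : U = (X1P s k a b).image (fun f => ∏ i, f i) := by
    ext u
    rw [hU, X1_image_iff hs hd]
  rw [hUe, Finset.sum_image (X1_image_inj hs hd), Finset.prod_univ_sum]
  refine Finset.sum_congr rfl fun f _ => ?_
  rw [Finset.prod_div_distrib, Finset.prod_const_one, Nat.cast_prod]

private theorem X1_tele (u : ℕ) (hu : 1 ≤ u) (N : ℕ) (hN : u ≤ N) :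
    ∑ n ∈ Finset.Ico u N, (1 : ℝ) / (n * (n + 1)) = 1 / u - 1 / N := by
  induction N, hN using Nat.le_induction with
  | base => simp
  | succ N hN ih =>
    rw [Finset.sum_Ico_succ_top hN, ih]
    have h1 : (0 : ℝ) < N := by
      have : 0 < N := by omega
      exact_mod_cast this
    have h2 : (0 : ℝ) < u := by exact_mod_cast hu
    push_cast
    field_simp
    ring

/-- Marginals: `∑_n #Uset / (n (n+1)) → ∏ log(b_i / a_i)`.
Proof: for large `s` a `u` in the windows satisfies `s^δ log s ≤ u` and `u log s < s^(∑ b) log s ≤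
s^Y`, and `∑_{u ≤ n < K u} 1/(n (n+1)) = 1/u - 1/⌈K u⌉ ∈ [(1 - 1/K)/u, 1/u]`, `K = log s`; then
`prod_windows` and `mertens_win`. -/
theorem sum_Uset (δ Y : ℝ) (hδ : 0 < δ) (hδ1 : δ < 1) (k : ℕ) (a b : Fin k → ℝ) (hk : 1 ≤ k)
    (hab : ∀ i, δ < a i ∧ a i < b i ∧ b i < 1) (hd : ∀ i j, i < j → b i < a j)
    (hY : ∑ i, b i < Y) :
    Tendsto (fun s : ℕ => ∑ n ∈ nrange δ Y s,
      ((Uset s k a b (Real.log s) n).card : ℝ) / (n * (n + 1))) atTop
      (𝓝 (∏ i, Real.log (b i / a i))) := by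
  classical
  have hcast : Tendsto (fun s : ℕ => (s : ℝ)) atTop atTop := tendsto_natCast_atTop_atTop
  have hlog : Tendsto (fun s : ℕ => Real.log (s : ℝ)) atTop atTop :=
    Real.tendsto_log_atTop.comp hcast
  have hmain : Tendsto (fun s : ℕ => ∏ i, ∑ p ∈ pwin (s : ℝ) (a i) (b i), (1 : ℝ) / p) atTop
      (𝓝 (∏ i, Real.log (b i / a i))) := by
    refine tendsto_finsetProd _ fun i _ => ?_
    exact mertens_win (a i) (b i) (hδ.trans (hab i).1) (hab i).2.1.le
  have hlow : Tendsto (fun s : ℕ => (1 - 1 / Real.log s) *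
      ∏ i, ∑ p ∈ pwin (s : ℝ) (a i) (b i), (1 : ℝ) / p) atTop
      (𝓝 (∏ i, Real.log (b i / a i))) := by
    have h1 : Tendsto (fun s : ℕ => 1 - 1 / Real.log (s : ℝ)) atTop (𝓝 (1 - 0)) :=
      tendsto_const_nhds.sub (tendsto_const_nhds.div_atTop hlog)
    have h2 := h1.mul hmain
    rwa [sub_zero, one_mul] at h2
  -- comparison of `log s` with powers
  have hcomp : ∀ c : ℝ, 0 < c → ∀ᶠ s : ℕ in atTop, Real.log (s : ℝ) ≤ (s : ℝ) ^ c := by
    intro c hc
    have h1 := (isLittleO_log_rpow_atTop hc).bound (c := 1) one_pos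
    filter_upwards [hcast.eventually h1, eventually_ge_atTop 2] with s h2 h3
    have h4 : (1 : ℝ) < s := by exact_mod_cast h3
    rw [one_mul, Real.norm_eq_abs, Real.norm_eq_abs, abs_of_nonneg (Real.log_nonneg h4.le),
      abs_of_nonneg (by positivity)] at h2
    exact h2
  let i0 : Fin k := ⟨0, hk⟩
  have key : ∀ᶠ s : ℕ in atTop,
      ((1 - 1 / Real.log s) * ∏ i, ∑ p ∈ pwin (s : ℝ) (a i) (b i), (1 : ℝ) / p ≤
        ∑ n ∈ nrange δ Y s, ((Uset s k a b (Real.log s) n).card : ℝ) / (n * (n + 1))) ∧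
      (∑ n ∈ nrange δ Y s, ((Uset s k a b (Real.log s) n).card : ℝ) / (n * (n + 1)) ≤
        ∏ i, ∑ p ∈ pwin (s : ℝ) (a i) (b i), (1 : ℝ) / p) := by
    filter_upwards [eventually_ge_atTop 2, hlog.eventually_ge_atTop 1,
      hcomp (a i0 - δ) (by linarith [(hab i0).1]), hcomp (Y - ∑ i, b i) (by linarith)]
      with s hs hK hc1 hc2
    have hs1 : (1 : ℝ) < s := by exact_mod_cast hs
    have hs0 : (0 : ℝ) < s := by linarith
    have hK0 : 0 < Real.log s := by linarith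
    set K := Real.log (s : ℝ) with hKdef
    set U : Finset ℕ := (X1P s k a b).image (fun f => ∏ i, f i) with hUdef
    have hUmem : ∀ u, u ∈ U ↔ Squarefree u ∧ u.primeFactors.card = k ∧
      ∀ i, ∃ p ∈ u.primeFactors, (s : ℝ) ^ a i ≤ p ∧ (p : ℝ) < (s : ℝ) ^ b i :=
      fun u => X1_image_iff hs hd u
    have hprod := prod_windows s k hs a b (fun i => ⟨hδ.trans (hab i).1, (hab i).2.1⟩) hd U hUmem
    -- size of the elements of `U`
    have hUlo : ∀ u ∈ U, (s : ℝ) ^ δ * K ≤ u := by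
      intro u hu
      obtain ⟨h1, -, h3⟩ := (hUmem u).1 hu
      obtain ⟨p, hp, hp1, -⟩ := h3 i0
      have hpu : p ≤ u := Nat.le_of_dvd (Nat.pos_of_ne_zero h1.ne_zero)
        (Nat.dvd_of_mem_primeFactors hp)
      have hpu' : (p : ℝ) ≤ u := by exact_mod_cast hpu
      calc (s : ℝ) ^ δ * K ≤ (s : ℝ) ^ δ * (s : ℝ) ^ (a i0 - δ) :=
            mul_le_mul_of_nonneg_left hc1 (by positivity)
        _ = (s : ℝ) ^ (a i0) := by rw [← Real.rpow_add hs0]; congr 1; ring
        _ ≤ u := hp1.trans hpu'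
    have hUhi : ∀ u ∈ U, K * u ≤ (s : ℝ) ^ Y := by
      intro u hu
      obtain ⟨f, hf, rfl⟩ := Finset.mem_image.1 hu
      rw [X1P_mem] at hf
      have h1 : ((∏ i, f i : ℕ) : ℝ) ≤ (s : ℝ) ^ (∑ i, b i) := by
        rw [Nat.cast_prod, Real.rpow_sum_of_pos hs0]
        exact Finset.prod_le_prod (fun i _ => Nat.cast_nonneg _) (fun i _ => (hf i).2.2.le)
      calc K * ((∏ i, f i : ℕ) : ℝ) ≤ (s : ℝ) ^ (Y - ∑ i, b i) * (s : ℝ) ^ (∑ i, b i) :=
            mul_le_mul hc2 h1 (Nat.cast_nonneg _) (by positivity)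
        _ = (s : ℝ) ^ Y := by rw [← Real.rpow_add hs0]; congr 1; ring
    have hU1 : ∀ u ∈ U, 1 ≤ u := fun u hu =>
      Nat.pos_of_ne_zero ((hUmem u).1 hu).1.ne_zero
    have hUset : ∀ n : ℕ, Uset s k a b K n = U.filter (fun u => u ≤ n ∧ (n : ℝ) / K < u) := by
      intro n
      ext u
      rw [Uset, Finset.mem_filter, Finset.mem_filter, Finset.mem_Icc, hUmem]
      constructor
      · rintro ⟨⟨h1, h2⟩, h3, h4⟩
        exact ⟨h4, h2, h3⟩
      · rintro ⟨h4, h2, h3⟩
        exact ⟨⟨Nat.pos_of_ne_zero h4.1.ne_zero, h2⟩, h3, h4⟩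
    have hswap : ∑ n ∈ nrange δ Y s, ((Uset s k a b K n).card : ℝ) / (n * (n + 1)) =
        ∑ u ∈ U, (1 / (u : ℝ) - 1 / (⌈K * u⌉₊ : ℝ)) := by
      have h1 : ∀ n ∈ nrange δ Y s, ((Uset s k a b K n).card : ℝ) / (n * (n + 1)) =
          ∑ u ∈ U, if (u ≤ n ∧ (n : ℝ) / K < u) then (1 : ℝ) / (n * (n + 1)) else 0 := by
        intro n _
        rw [hUset n, ← Finset.sum_filter, Finset.sum_const, nsmul_eq_mul, mul_one_div]
      rw [Finset.sum_congr rfl h1, Finset.sum_comm]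
      refine Finset.sum_congr rfl fun u hu => ?_
      have hu1 := hU1 u hu
      have hur : (0 : ℝ) < u := by exact_mod_cast hu1
      have hceil : u ≤ ⌈K * u⌉₊ := by
        have : (u : ℝ) ≤ ⌈K * u⌉₊ := by
          refine le_trans ?_ (Nat.le_ceil _)
          nlinarith
        exact_mod_cast this
      rw [← Finset.sum_filter, ← X1_tele u hu1 _ hceil]
      refine Finset.sum_congr ?_ fun _ _ => rfl
      ext n
      unfold nrange
      rw [Finset.mem_filter, Finset.mem_Icc, Finset.mem_Ico, Nat.lt_ceil, div_lt_iff₀ hK0,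
        mul_comm K (u : ℝ)]
      constructor
      · rintro ⟨_, h3, h4⟩
        exact ⟨h3, h4⟩
      · rintro ⟨h3, h4⟩
        refine ⟨⟨?_, ?_⟩, h3, h4⟩
        · rw [Nat.ceil_le]
          refine (hUlo u hu).trans ?_
          exact_mod_cast h3
        · rw [Nat.le_floor_iff (by positivity)]
          refine h4.le.trans ?_
          rw [mul_comm]
          exact hUhi u hu
    rw [hswap, ← hprod]
    constructor
    · rw [Finset.mul_sum]
      refine Finset.sum_le_sum fun u hu => ?_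
      have hur : (0 : ℝ) < u := by exact_mod_cast hU1 u hu
      have h1 : (1 : ℝ) / ⌈K * u⌉₊ ≤ 1 / (K * u) :=
        one_div_le_one_div_of_le (by positivity) (Nat.le_ceil _)
      have h2 : (1 - 1 / K) * (1 / (u : ℝ)) = 1 / u - 1 / (K * u) := by
        field_simp
      rw [h2]
      linarith
    · refine Finset.sum_le_sum fun u hu => ?_
      have : (0 : ℝ) ≤ 1 / (⌈K * u⌉₊ : ℝ) := by positivity
      linarith
  exact tendsto_of_tendsto_of_tendsto_of_le_of_le' hlow hmain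
    (key.mono fun s h => h.1) (key.mono fun s h => h.2)

end Pool.Agent.W_a617e8_h51
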