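import Mathlib

set_option autoImplicit false

/-! X2: compactness. -/

noncomputable section

open scoped ENNReal NNReal

open MeasureTheory Filter Topology

namespace Pool.Agent.W_a617e8_h51

/-- Limits along ultrafilters of measures on a cube.  Proof: push to the compact space
`Set.Icc 0 1 ⊆ (Fin m → ℝ)` (or use a retraction), Prokhorov
`MeasureTheory.isCompact_setOfPred_finiteMeasure_le_of_compactSpace`; for the weak limit `ν` use the
portmanteau inequalities (`FiniteMeasure`, `limsup_measure_closed_le_of_tendsto` and, by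
complements and convergence of the masses, the one for open sets). -/
theorem exists_ultralimit (m : ℕ) (μ : ℕ → Measure (Fin m → ℝ)) (M : ℝ≥0)
    (hM : ∀ s, μ s Set.univ ≤ M) (hc : ∀ s, μ s (Set.Icc 0 1)ᶜ = 0) (𝒰 : Ultrafilter ℕ) :
    ∃ ν : Measure (Fin m → ℝ), ν Set.univ ≤ M ∧ ν (Set.Icc 0 1)ᶜ = 0 ∧
      (∀ U : Set (Fin m → ℝ), IsOpen U → ν U ≤ liminf (fun s => μ s U) (𝒰 : Filter ℕ)) ∧
      (∀ C : Set (Fin m → ℝ), IsClosed C →
        limsup (fun s => μ s C) (𝒰 : Filter ℕ) ≤ ν C) := by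
  have hfin : ∀ s, IsFiniteMeasure (μ s) := fun s => ⟨(hM s).trans_lt ENNReal.coe_lt_top⟩
  let μ' : ℕ → FiniteMeasure (Fin m → ℝ) := fun s => ⟨μ s, hfin s⟩
  have hK : IsCompact (Set.Icc (0 : Fin m → ℝ) 1) := isCompact_Icc
  have hT := isCompact_setOfPred_finiteMeasure_le_of_isCompact (E := Fin m → ℝ) M hK
  have hmem : ∀ s, μ' s ∈ {μ : FiniteMeasure (Fin m → ℝ) |
      μ.mass ≤ M ∧ μ (Set.Icc (0 : Fin m → ℝ) 1)ᶜ = 0} := by
    intro s
    refine ⟨?_, ?_⟩
    · rw [← ENNReal.coe_le_coe, FiniteMeasure.ennreal_mass]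
      exact hM s
    · rw [FiniteMeasure.null_iff_toMeasure_null]
      exact hc s
  obtain ⟨ν, ⟨hν1, hν2⟩, hν⟩ := isCompact_iff_ultrafilter_le_nhds'.1 hT (𝒰.map μ')
    (Filter.mem_map.2 (Filter.univ_mem' hmem))
  have hlim : Tendsto μ' (𝒰 : Filter ℕ) (𝓝 ν) := hν
  have hex : ∀ f : ℕ → ℝ≥0∞, ∃ a, Tendsto f (𝒰 : Filter ℕ) (𝓝 a) := fun f =>
    ⟨_, (𝒰.map f).le_nhds_lim⟩
  have hclosed : ∀ C : Set (Fin m → ℝ), IsClosed C →
      limsup (fun s => μ s C) (𝒰 : Filter ℕ) ≤ (ν : Measure (Fin m → ℝ)) C := fun C hC =>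
    FiniteMeasure.limsup_measure_closed_le_of_tendsto hlim hC
  have hmass : Tendsto (fun s => μ s Set.univ) (𝒰 : Filter ℕ)
      (𝓝 ((ν : Measure (Fin m → ℝ)) Set.univ)) := by
    have h1 := hlim.mass
    have h2 := (ENNReal.continuous_coe.tendsto _).comp h1
    rw [FiniteMeasure.ennreal_mass] at h2
    refine h2.congr fun s => ?_
    simp only [Function.comp, FiniteMeasure.ennreal_mass]
    rfl
  refine ⟨ν, ?_, ?_, ?_, hclosed⟩
  · rw [← FiniteMeasure.ennreal_mass]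
    exact ENNReal.coe_le_coe.2 hν1
  · exact (FiniteMeasure.null_iff_toMeasure_null _ _).1 hν2
  · intro U hU
    obtain ⟨a, ha⟩ := hex fun s => μ s U
    obtain ⟨b, hb⟩ := hex fun s => μ s Uᶜ
    have h1 := hclosed Uᶜ hU.isClosed_compl
    rw [hb.limsup_eq] at h1
    rw [ha.liminf_eq]
    have h2 : a + b = (ν : Measure (Fin m → ℝ)) Set.univ := by
      refine tendsto_nhds_unique ((ha.add hb).congr fun s => ?_) hmass
      exact measure_add_measure_compl hU.measurableSet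
    have h3 : (ν : Measure (Fin m → ℝ)) U + (ν : Measure (Fin m → ℝ)) Uᶜ =
        (ν : Measure (Fin m → ℝ)) Set.univ := measure_add_measure_compl hU.measurableSet
    have h4 : (ν : Measure (Fin m → ℝ)) U + (ν : Measure (Fin m → ℝ)) Uᶜ ≤
        a + (ν : Measure (Fin m → ℝ)) Uᶜ := by
      rw [h3, ← h2]
      exact add_le_add le_rfl h1
    exact (ENNReal.add_le_add_iff_right (measure_ne_top _ _)).1 h4

end Pool.Agent.W_a617e8_h51
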